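import Pool.Agent.RBE.S4.N0

set_option autoImplicit false

/-! [W2] components of exact levels. -/

namespace Pool.RBE.S4

open SimpleGraph Pool.Agent.RBC

/-- [W2a] Let all neighbours of the vertices of `M` be in `M ∪ S`, `|S| ≤ k`. Then the component `K` of
`v` in `G[M]` is adjacent to every vertex of `S`.
Proof. `K = {y ∈ M | there is a walk from v to y inside M}` (the walk is inside `K`). Suppose `x ∈ S` has no
neighbour in `K`; `S' = S.erase x` has `< k` elements, so `G - S'` is connected; it contains `v` (`v ∈ M`) and `x`. A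
walk of it from `v` to `x` leaves `K` through an edge `(a, b)`, `a ∈ K`, `b ∉ K`; `b ∈ M` would give `b ∈ K`, so `b ∈ S`,
`b ∉ S'`, `b = x`: contradiction. -/
theorem comp_adj {V : Type} [Fintype V] {G : SimpleGraph V} {k : ℕ} (hk : KConn G k)
    {S M : Finset V} (hS : S.card ≤ k) (hdis : ∀ x ∈ S, x ∉ M)
    (hN : ∀ x ∈ M, ∀ y, G.Adj x y → y ∈ M ∨ y ∈ S) {v : V} (hv : v ∈ M) :
    ∃ K : Finset V, K ⊆ M ∧ v ∈ K ∧
      (∀ y ∈ K, ∃ w : G.Walk v y, ∀ z ∈ w.support, z ∈ K) ∧ ∀ x ∈ S, ∃ y ∈ K, G.Adj x y := by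
  classical
  refine ⟨M.filter (fun y => ∃ w : G.Walk v y, ∀ z ∈ w.support, z ∈ M),
    Finset.filter_subset _ _, ?_, ?_, ?_⟩
  · rw [Finset.mem_filter]
    refine ⟨hv, Walk.nil, ?_⟩
    intro z hz
    rw [Walk.support_nil, List.mem_singleton] at hz
    rw [hz]
    exact hv
  · intro y hy
    rw [Finset.mem_filter] at hy
    obtain ⟨hyM, w, hw⟩ := hy
    refine ⟨w, fun z hz => ?_⟩
    rw [Finset.mem_filter]
    refine ⟨hw z hz, w.takeUntil z hz, fun u hu => ?_⟩
    exact hw u (w.support_takeUntil_subset_support hz hu)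
  · intro x hx
    by_contra hcon
    push Not at hcon
    set K := M.filter (fun y => ∃ w : G.Walk v y, ∀ z ∈ w.support, z ∈ M) with hK
    have hxM := hdis x hx
    have hcard : (S.erase x).card < k := by
      have h1 := Finset.card_erase_lt_of_mem hx
      omega
    have hconn := hk.2 (S.erase x) hcard
    have hvS : v ∉ S := fun h => hdis v h hv
    have hv' : v ∈ ((↑(S.erase x) : Set V)ᶜ) := by
      rw [Set.mem_compl_iff, Finset.mem_coe]
      intro h
      exact hvS (Finset.mem_of_mem_erase h)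
    have hx' : x ∈ ((↑(S.erase x) : Set V)ᶜ) := by
      rw [Set.mem_compl_iff, Finset.mem_coe]
      exact Finset.notMem_erase x S
    obtain ⟨w⟩ := hconn.preconnected ⟨v, hv'⟩ ⟨x, hx'⟩
    have hvK : v ∈ K := by
      rw [hK, Finset.mem_filter]
      refine ⟨hv, Walk.nil, ?_⟩
      intro z hz
      rw [Walk.support_nil, List.mem_singleton] at hz
      rw [hz]
      exact hv
    have hxK : x ∉ K := fun h => hxM (Finset.mem_filter.1 h).1
    obtain ⟨d, _, hd1, hd2⟩ := w.exists_boundary_dart {z | (z : V) ∈ K} hvK hxK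
    have hadj : G.Adj (d.fst : V) (d.snd : V) := d.adj
    have hd1' : (d.fst : V) ∈ K := hd1
    have hd2' : (d.snd : V) ∉ K := hd2
    have hd1'' := hd1'
    rw [hK, Finset.mem_filter] at hd1''
    obtain ⟨haM, wa, hwa⟩ := hd1''
    rcases hN _ haM _ hadj with h | h
    · apply hd2'
      rw [hK, Finset.mem_filter]
      refine ⟨h, wa.append (Walk.cons hadj Walk.nil), fun z hz => ?_⟩
      rw [Walk.mem_support_append_iff] at hz
      rcases hz with hz | hz
      · exact hwa z hz
      · rw [Walk.support_cons, Walk.support_nil, List.mem_cons, List.mem_singleton] at hz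
        rcases hz with hz | hz
        · rw [hz]; exact haM
        · rw [hz]; exact h
    · have hb := d.snd.2
      rw [Set.mem_compl_iff, Finset.mem_coe, Finset.mem_erase] at hb
      have hbx : (d.snd : V) = x := by
        by_contra hne
        exact hb ⟨hne, h⟩
      rw [hbx] at hadj
      exact hcon _ hd1' hadj.symm

end Pool.RBE.S4
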