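import Pool.Agent.RBE.S4.W1b
import Pool.Agent.RBE.S4.W2

set_option autoImplicit false

/-! [W2b] connected pieces of exact levels. -/

namespace Pool.RBE.S4

open SimpleGraph Pool.Agent.RBC

section
variable {V : Type} [Fintype V] {G : SimpleGraph V} {v0 : V} {p : ℕ → V}
    {D L q m d0 M N : ℕ} {s e α ω : ℕ → ℕ} {r : ℕ → ℕ → V}

private theorem W2b_mA {i : ℕ} {x : V} :
    x ∈ An G v0 p L i ↔ lev G v0 x = i ∧ Near G v0 p L x := by
  simp [An]

private theorem W2b_mB {i : ℕ} {x : V} :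
    x ∈ Bn G v0 p L i ↔ lev G v0 x = i ∧ ¬ Near G v0 p L x := by
  simp [Bn]

/-- [W2b] near part: if the levels `j - 1`, `j + 1` of ring `t` are exact, the component of `p j` in
`G[An j]` is adjacent to every near vertex of the levels `j - 1`, `j + 1`.
Proof. `comp_adj` with `M = An j`, `S = An (j-1) ∪ An (j+1)` (`|S| ≤ q + q`), `k = 2q`; `hN`: neighbours of a
near vertex of level `j` have levels `j-1, j, j+1` (`lev_adj`) and are near (`same_side`). -/
theorem comp_near (E : Env G v0 p D L q m d0 M N s e α ω r) {t : ℕ} (ht : t < N) {j : ℕ}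
    (hj : α t + 1 ≤ j + m ∧ j ≤ α t + 5 ∨ ω t + 1 ≤ j + 6 ∧ j + 1 ≤ ω t + m) :
    ∃ K : Finset V, K ⊆ An G v0 p L j ∧ p j ∈ K ∧
      (∀ y ∈ K, ∃ w : G.Walk (p j) y, ∀ z ∈ w.support, z ∈ K) ∧
      ∀ x, Near G v0 p L x → (lev G v0 x + 1 = j ∨ lev G v0 x = j + 1) → ∃ y ∈ K, G.Adj x y := by
  classical
  have hc := env_connected E
  have R := E.rings
  have h1 := R.hα t ht
  have h2 := R.hω t ht
  have h3 := R.hαω t ht
  have h4 := R.eD t ht
  have h5 := R.s1 t ht
  have hsj : s t + 1 ≤ j := by omega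
  have hej : j + 1 ≤ e t := by omega
  have c1 : (An G v0 p L (j - 1)).card = q := R.exA t ht (j - 1) (by omega)
  have c2 : (An G v0 p L (j + 1)).card = q := R.exA t ht (j + 1) (by omega)
  obtain ⟨K, hK1, hK2, hK3, hK4⟩ := comp_adj E.hk
    (S := An G v0 p L (j - 1) ∪ An G v0 p L (j + 1)) (M := An G v0 p L j)
    (by
      have := Finset.card_union_le (An G v0 p L (j - 1)) (An G v0 p L (j + 1))
      omega)
    (by
      intro x hx hx2
      rw [Finset.mem_union, W2b_mA, W2b_mA] at hx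
      rw [W2b_mA] at hx2
      omega)
    (by
      intro x hx y hxy
      rw [W2b_mA] at hx
      have ha := lev_adj hc v0 hxy
      have hb := lev_adj hc v0 hxy.symm
      have hn := (same_side E ht hxy (by omega) (by omega) (by omega) (by omega)).1 hx.2
      rw [Finset.mem_union, W2b_mA, W2b_mA, W2b_mA]
      have hl : lev G v0 y = j ∨ lev G v0 y = j - 1 ∨ lev G v0 y = j + 1 := by omega
      rcases hl with hl | hl | hl
      · exact Or.inl ⟨hl, hn⟩
      · exact Or.inr (Or.inl ⟨hl, hn⟩)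
      · exact Or.inr (Or.inr ⟨hl, hn⟩))
    (v := p j) (W2b_mA.2 ⟨E.geo.lev j (by omega), near_p E (by omega)⟩)
  refine ⟨K, hK1, hK2, hK3, fun x hx hl => ?_⟩
  apply hK4
  rw [Finset.mem_union, W2b_mA, W2b_mA]
  rcases hl with hl | hl
  · exact Or.inl ⟨by omega, hx⟩
  · exact Or.inr ⟨hl, hx⟩

/-- [W2c] far part, with any far vertex `v` of level `j`. Proof as `comp_near` (`Bn`). -/
theorem comp_far (E : Env G v0 p D L q m d0 M N s e α ω r) {t : ℕ} (ht : t < N) {j : ℕ}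
    (hj : α t + 1 ≤ j + m ∧ j ≤ α t + 5 ∨ ω t + 1 ≤ j + 6 ∧ j + 1 ≤ ω t + m) {v : V}
    (hv : lev G v0 v = j) (hv' : ¬ Near G v0 p L v) :
    ∃ K : Finset V, K ⊆ Bn G v0 p L j ∧ v ∈ K ∧
      (∀ y ∈ K, ∃ w : G.Walk v y, ∀ z ∈ w.support, z ∈ K) ∧
      ∀ x, ¬ Near G v0 p L x → (lev G v0 x + 1 = j ∨ lev G v0 x = j + 1) → ∃ y ∈ K, G.Adj x y := by
  classical
  have hc := env_connected E
  have R := E.rings
  have h1 := R.hα t ht
  have h2 := R.hω t ht
  have h3 := R.hαω t ht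
  have h4 := R.eD t ht
  have h5 := R.s1 t ht
  have hsj : s t + 1 ≤ j := by omega
  have hej : j + 1 ≤ e t := by omega
  have c1 : (Bn G v0 p L (j - 1)).card = q := R.exB t ht (j - 1) (by omega)
  have c2 : (Bn G v0 p L (j + 1)).card = q := R.exB t ht (j + 1) (by omega)
  obtain ⟨K, hK1, hK2, hK3, hK4⟩ := comp_adj E.hk
    (S := Bn G v0 p L (j - 1) ∪ Bn G v0 p L (j + 1)) (M := Bn G v0 p L j)
    (by
      have := Finset.card_union_le (Bn G v0 p L (j - 1)) (Bn G v0 p L (j + 1))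
      omega)
    (by
      intro x hx hx2
      rw [Finset.mem_union, W2b_mB, W2b_mB] at hx
      rw [W2b_mB] at hx2
      omega)
    (by
      intro x hx y hxy
      rw [W2b_mB] at hx
      have ha := lev_adj hc v0 hxy
      have hb := lev_adj hc v0 hxy.symm
      have hn : ¬ Near G v0 p L y := fun hh =>
        hx.2 ((same_side E ht hxy (by omega) (by omega) (by omega) (by omega)).2 hh)
      rw [Finset.mem_union, W2b_mB, W2b_mB, W2b_mB]
      have hl : lev G v0 y = j ∨ lev G v0 y = j - 1 ∨ lev G v0 y = j + 1 := by omega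
      rcases hl with hl | hl | hl
      · exact Or.inl ⟨hl, hn⟩
      · exact Or.inr (Or.inl ⟨hl, hn⟩)
      · exact Or.inr (Or.inr ⟨hl, hn⟩))
    (v := v) (W2b_mB.2 ⟨hv, hv'⟩)
  refine ⟨K, hK1, hK2, hK3, fun x hx hl => ?_⟩
  apply hK4
  rw [Finset.mem_union, W2b_mB, W2b_mB]
  rcases hl with hl | hl
  · exact Or.inl ⟨by omega, hx⟩
  · exact Or.inr ⟨hl, hx⟩

end

end Pool.RBE.S4
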