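import Pool.Agent.RBE.S4.W3a
import Pool.Agent.RBE.S4.W2b

set_option autoImplicit false

/-! [W3d] radius, top of a ring, near. -/

namespace Pool.RBE.S4

open SimpleGraph Pool.Agent.RBC

section
variable {V : Type} [Fintype V] {G : SimpleGraph V} {v0 : V} {p : ℕ → V}
    {D L q m d0 M N : ℕ} {s e α ω : ℕ → ℕ} {r : ℕ → ℕ → V}

/-- a walk inside `K` can be shortened to fewer than `|K|` edges -/
private theorem w3d_short {K : Finset V} {a b : V} (w : G.Walk a b)
    (hw : ∀ z ∈ w.support, z ∈ K) :
    ∃ w' : G.Walk a b, (∀ z ∈ w'.support, z ∈ K) ∧ w'.length + 1 ≤ K.card := by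
  classical
  refine ⟨w.bypass, fun z hz => hw z (w.support_bypass_subset_support hz), ?_⟩
  have h1 : w.bypass.support.Nodup := w.bypass_isPath.support_nodup
  have h2 : w.bypass.support.toFinset ⊆ K := by
    intro z hz
    rw [List.mem_toFinset] at hz
    exact hw z (w.support_bypass_subset_support hz)
  have h3 := Finset.card_le_card h2
  rw [List.toFinset_card_of_nodup h1, Walk.length_support] at h3
  exact h3

/-- levels `≥ ω t` and at most `e t + s` are outside all the removed parts -/
private theorem w3d_xx (E : Env G v0 p D L q m d0 M N s e α ω r) {t : ℕ} (ht : t < N) {y : V}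
    (h1 : ω t ≤ lev G v0 y) (h2 : lev G v0 y ≤ e t + L + 1) : y ∈ XX G v0 p L N α ω := by
  refine xx_of_lev fun t' ht' => ?_
  rcases lt_trichotomy t' t with h | h | h
  · right
    have h3 := (env_mono E h ht).2.2.2.1
    omega
  · right
    rw [h]
    exact h1
  · left
    have h3 := (env_mono E h ht').2.2.2.2
    have h4 := E.rings.hα t' ht'
    have h5 := E.hm
    omega

/-- [W3d] the top part of a ring, near vertices.
Proof. `j = lev x ≥ ω t`. If `j + 2 ≤ ω t + m`: `comp_near` for the level `j + 1` gives `K ∋ p (j+1)`, `x` adjacent to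
`y ∈ K`, a path in `K` from `y` to `p (j+1)`, of length `< |K| ≤ q` (level `j + 1` is exact); all vertices are near, of
level `j` or `j + 1 ≥ ω t`, so in `XX`. Otherwise `walk_lev` to `p j`: length `≤ L`, levels `≥ j - L ≥ ω t` (`hm`) and
`≤ j + L ≤ e t + L`, `< α t'` for `t' > t`: `xx_of_lev`. -/
theorem radius_top_near (E : Env G v0 p D L q m d0 M N s e α ω r) {x : V}
    (hx : x ∈ XX G v0 p L N α ω) {t : ℕ} (ht : t < N) (h1 : ω t ≤ lev G v0 x)
    (h2 : lev G v0 x ≤ e t) (hn : Near G v0 p L x) :
    ∃ i ≤ D, ∃ w : G.Walk x (p i), (∀ y ∈ w.support, y ∈ XX G v0 p L N α ω) ∧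
      w.length ≤ T3 L q m M := by
  classical
  have hc := env_connected E
  have hω := E.rings.hω t ht
  have heD := E.rings.eD t ht
  have hm := E.hm
  have hxD := E.geo.top x
  by_cases hj : lev G v0 x + 2 ≤ ω t + m
  · obtain ⟨K, hK1, hK2, hK3, hK4⟩ := comp_near E ht (j := lev G v0 x + 1)
      (Or.inr ⟨by omega, by omega⟩)
    obtain ⟨y, hyK, hxy⟩ := hK4 x hn (Or.inl rfl)
    obtain ⟨w, hw⟩ := hK3 y hyK
    obtain ⟨w', hw1, hw2⟩ := w3d_short w hw
    have hcard : K.card ≤ q := by
      have h3 := Finset.card_le_card hK1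
      rw [E.rings.exA t ht (lev G v0 x + 1) (Or.inr ⟨by omega, by omega⟩)] at h3
      exact h3
    refine ⟨lev G v0 x + 1, by omega, Walk.cons hxy w'.reverse, ?_, ?_⟩
    · intro z hz
      rw [Walk.support_cons, List.mem_cons, Walk.support_reverse, List.mem_reverse] at hz
      rcases hz with hz | hz
      · rw [hz]
        exact hx
      · have h3 := hK1 (hw1 z hz)
        unfold An at h3
        rw [Finset.mem_filter] at h3
        have h4 : lev G v0 z = lev G v0 x + 1 := h3.2.1
        exact w3d_xx E ht (by omega) (by omega)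
    · rw [Walk.length_cons, Walk.length_reverse]
      unfold T3
      omega
  · obtain ⟨w, hw1, hw2⟩ := walk_lev (v0 := v0) hc x (p (lev G v0 x))
    have hn' : G.dist x (p (lev G v0 x)) ≤ L := hn
    refine ⟨lev G v0 x, hxD, w, ?_, ?_⟩
    · intro z hz
      have h3 := hw2 z hz
      exact w3d_xx E ht (by omega) (by omega)
    · rw [hw1]
      unfold T3
      omega

end

end Pool.RBE.S4
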