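import Pool.Agent.RBE.S4.W3a
import Pool.Agent.RBE.S4.W2b

set_option autoImplicit false

/-! [W3e] radius, top of a ring, far. -/

namespace Pool.RBE.S4

open SimpleGraph Pool.Agent.RBC

private theorem w3e_seq {V : Type} {G : SimpleGraph V} (P : ℕ → V) (n : ℕ) :
    ∀ (i : ℕ), (∀ t, i ≤ t → t < i + n → G.Adj (P t) (P (t+1))) →
    ∃ w : G.Walk (P i) (P (i + n)), (∀ x ∈ w.support, ∃ t, i ≤ t ∧ t ≤ i + n ∧ x = P t) ∧
      w.length = n := by
  induction n with
  | zero =>
    intro i _
    refine ⟨Walk.nil, ?_, ?_⟩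
    · intro x hx
      refine ⟨i, le_rfl, by omega, ?_⟩
      simpa using hx
    · simp
  | succ n ih =>
    intro i h
    have h1 := h i le_rfl (by omega)
    obtain ⟨w, hw1, hw2⟩ := ih (i+1) (fun t h1 h2 => h t (by omega) (by omega))
    refine ⟨Walk.cons h1 (w.copy rfl (by congr 1; omega)), ?_, ?_⟩
    · intro x hx
      rw [Walk.support_cons, Walk.support_copy] at hx
      rcases List.mem_cons.1 hx with rfl | hx
      · exact ⟨i, le_rfl, by omega, rfl⟩
      · obtain ⟨t, h1, h2, h3⟩ := hw1 x hx
        exact ⟨t, by omega, by omega, h3⟩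
    · rw [Walk.length_cons, Walk.length_copy, hw2]

section
variable {V : Type} [Fintype V] {G : SimpleGraph V} {v0 : V} {p : ℕ → V}
    {D L q m d0 M N : ℕ} {s e α ω : ℕ → ℕ} {r : ℕ → ℕ → V}

private theorem w3e_far (E : Env G v0 p D L q m d0 M N s e α ω r) {t : ℕ} (ht : t < N) {y : V}
    (h1 : ω t ≤ lev G v0 y + 2) (h2 : lev G v0 y ≤ e t) (hn : ¬ Near G v0 p L y) :
    y ∈ XX G v0 p L N α ω := by
  intro t' ht'
  refine ⟨fun h => absurd h hn, fun _ h => ?_⟩
  have hα := E.rings.hα t' ht'
  rcases lt_trichotomy t' t with hlt | heq | hgt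
  · have := env_mono E hlt ht
    omega
  · rw [heq] at h
    omega
  · have := env_mono E hgt ht'
    omega

private theorem w3e_lev (E : Env G v0 p D L q m d0 M N s e α ω r) {t : ℕ} (ht : t < N) {y : V}
    (h1 : ω t ≤ lev G v0 y) (h2 : lev G v0 y ≤ e t + d0 + m) : y ∈ XX G v0 p L N α ω := by
  apply xx_of_lev
  intro t' ht'
  have hα := E.rings.hα t' ht'
  rcases lt_trichotomy t' t with hlt | heq | hgt
  · have := env_mono E hlt ht
    right
    omega
  · right
    rw [heq]
    exact h1
  · have := env_mono E hgt ht'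
    left
    omega

/-- [W3e] the top part of a ring, far vertices.
Proof. `j = lev x ≥ ω t - 2`. First reach `r t j` or `r t (j+1)`: if `j + 2 ≤ ω t + m`: `comp_far` for level `j + 1`,
`v = r t (j+1)` (path in `K`, length `< |K| ≤ q`; far vertices of levels `j, j + 1 ≥ ω t - 2` are in `XX`). Otherwise
`walk_lev` from `x` to `r t j`, length `≤ L` (`diam`), levels `≥ j - L ≥ ω t`: `xx_of_lev`. Then up along `r t` to
`r t (e t)` (far vertices of levels `≥ ω t - 2`, in `XX`), length `≤ M + 2`; then to `y` (from `top`; `walk_lev`, length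
`≤ L`, levels `≥ e t - L ≥ ω t`), the edge to `z`, and `walk_lev` to `p (e t + 1)` (length `≤ 4L+4`, levels within `4L+4`
of `e t + 1`): all in `XX` by `xx_of_lev` (levels `≥ ω t`, and `< α t'` for `t' > t` by `env_mono`, `hα`). -/
theorem radius_top_far (E : Env G v0 p D L q m d0 M N s e α ω r) {x : V}
    (hx : x ∈ XX G v0 p L N α ω) {t : ℕ} (ht : t < N) (h1 : ω t ≤ lev G v0 x + 2)
    (h2 : lev G v0 x ≤ e t) (hn : ¬ Near G v0 p L x) :
    ∃ i ≤ D, ∃ w : G.Walk x (p i), (∀ y ∈ w.support, y ∈ XX G v0 p L N α ω) ∧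
      w.length ≤ T3 L q m M := by
  have hc := env_connected E
  have R := E.rings
  have hα := R.hα t ht
  have hαω := R.hαω t ht
  have hω := R.hω t ht
  have hω' := R.hω' t ht
  have hm := E.hm
  have hd := E.hd
  have heD := R.eD t ht
  -- first part: reach the rider
  have hA : ∃ j', ω t ≤ j' + 2 ∧ j' ≤ e t ∧ ∃ w : G.Walk x (r t j'),
      (∀ y ∈ w.support, y ∈ XX G v0 p L N α ω) ∧ w.length ≤ q + L := by
    by_cases hj : lev G v0 x + 2 ≤ ω t + m
    · have hr := R.rB t ht (lev G v0 x + 1) (by omega) (by omega)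
      obtain ⟨K, hK, hvK, hKw, hKa⟩ := comp_far E ht (j := lev G v0 x + 1)
        (Or.inr ⟨by omega, by omega⟩) hr.1 hr.2
      obtain ⟨y, hyK, hxy⟩ := hKa x hn (Or.inl rfl)
      obtain ⟨w, hw⟩ := hKw y hyK
      classical
      have hcard : K.card ≤ q := by
        rw [← R.exB t ht (lev G v0 x + 1) (Or.inr ⟨by omega, by omega⟩)]
        exact Finset.card_le_card hK
      have hKX : ∀ z ∈ K, z ∈ XX G v0 p L N α ω := by
        intro z hz
        have hz' := hK hz
        unfold Bn at hz'
        rw [Finset.mem_filter] at hz'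
        exact w3e_far E ht (by omega) (by omega) hz'.2.2
      have hb := (w.bypass_isPath).support_nodup
      have hlen : w.bypass.length + 1 ≤ K.card := by
        rw [← Walk.length_support, ← List.toFinset_card_of_nodup hb]
        apply Finset.card_le_card
        intro z hz
        rw [List.mem_toFinset] at hz
        exact hw z (w.support_bypass_subset_support hz)
      refine ⟨lev G v0 x + 1, by omega, by omega, Walk.cons hxy w.bypass.reverse, ?_, ?_⟩
      · intro z hz
        rw [Walk.support_cons, List.mem_cons, Walk.support_reverse, List.mem_reverse] at hz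
        rcases hz with rfl | hz
        · exact hx
        · exact hKX z (hw z (w.support_bypass_subset_support hz))
      · rw [Walk.length_cons, Walk.length_reverse]
        omega
    · have hr := R.rB t ht (lev G v0 x) (by omega) h2
      have hdist := R.diam t ht x (r t (lev G v0 x)) hr.1.symm (by omega) h2 hn hr.2
      obtain ⟨w, hw, hw2⟩ := walk_lev (v0 := v0) hc x (r t (lev G v0 x))
      refine ⟨lev G v0 x, by omega, h2, w, ?_, by omega⟩
      intro z hz
      have := hw2 z hz
      exact w3e_lev E ht (by omega) (by omega)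
  obtain ⟨j', hj1, hj2, w1, hw1, hl1⟩ := hA
  -- up along the rider
  have hej : j' + (e t - j') = e t := by omega
  have hB : ∃ w : G.Walk (r t j') (r t (e t)),
      (∀ z ∈ w.support, ∃ i, j' ≤ i ∧ i ≤ e t ∧ z = r t i) ∧ w.length = e t - j' := by
    have h := w3e_seq (G := G) (r t) (e t - j') j' (by
      intro i hi1 hi2
      exact R.radj t ht i (by omega) (by omega))
    rw [hej] at h
    exact h
  obtain ⟨w2, hw2, hl2⟩ := hB
  -- to the top
  obtain ⟨y, z, hyz, hy1, hy2, hz1, hz2⟩ := R.top t ht
  have hr := R.rB t ht (e t) (by omega) le_rfl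
  have hd3 := R.diam t ht (r t (e t)) y (by rw [hr.1, hy1]) (by omega) (by omega) hr.2 hy2
  obtain ⟨w3, hw3, hw3'⟩ := walk_lev (v0 := v0) hc (r t (e t)) y
  obtain ⟨w4, hw4, hw4'⟩ := walk_lev (v0 := v0) hc z (p (e t + 1))
  refine ⟨e t + 1, by omega, ((w1.append w2).append w3).append (Walk.cons hyz w4), ?_, ?_⟩
  · intro u hu
    rcases (Walk.mem_support_append_iff _ _).1 hu with hu | hu
    · rcases (Walk.mem_support_append_iff _ _).1 hu with hu | hu
      · rcases (Walk.mem_support_append_iff _ _).1 hu with hu | hu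
        · exact hw1 u hu
        · obtain ⟨i, hi1, hi2, rfl⟩ := hw2 u hu
          have hri := R.rB t ht i (by omega) hi2
          exact w3e_far E ht (by omega) (by omega) hri.2
      · have := hw3' u hu
        exact w3e_lev E ht (by omega) (by omega)
    · rw [Walk.support_cons, List.mem_cons] at hu
      rcases hu with rfl | hu
      · exact w3e_lev E ht (by omega) (by omega)
      · have := hw4' u hu
        exact w3e_lev E ht (by omega) (by omega)
  · rw [Walk.length_append, Walk.length_append, Walk.length_append, Walk.length_cons]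
    unfold T3
    omega

end

end Pool.RBE.S4
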