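import Pool.Agent.RBE.S4.W3c
import Pool.Agent.RBE.S4.W3d
import Pool.Agent.RBE.S4.W3e

set_option autoImplicit false

/-! [W3f] radius of the windows. -/

namespace Pool.RBE.S4

open SimpleGraph Pool.Agent.RBC

section
variable {V : Type} [Fintype V] {G : SimpleGraph V} {v0 : V} {p : ℕ → V}
    {D L q m d0 M N : ℕ} {s e α ω : ℕ → ℕ} {r : ℕ → ℕ → V}

/-- [W3f] all together: by cases (`lev x` outside all rings: `radius_out`; otherwise in a ring `t`, and
`lev x ≤ α t + 2` or `ω t ≤ lev x + 2`, resp. `ω t ≤ lev x` if `x` is near, because `x ∈ XX`). -/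
theorem radius (E : Env G v0 p D L q m d0 M N s e α ω r) {x : V}
    (hx : x ∈ XX G v0 p L N α ω) :
    ∃ i ≤ D, ∃ w : G.Walk x (p i), (∀ y ∈ w.support, y ∈ XX G v0 p L N α ω) ∧
      w.length ≤ T3 L q m M := by
  by_cases hout : ∀ t < N, ¬ (s t ≤ lev G v0 x ∧ lev G v0 x ≤ e t)
  · exact radius_out E hout
  · push Not at hout
    obtain ⟨t, ht, h1, h2⟩ := hout
    by_cases hn : Near G v0 p L x
    · have h3 := (hx t ht).1 hn
      by_cases h4 : lev G v0 x ≤ α t
      · exact radius_bot E hx ht h1 (by omega)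
      · exact radius_top_near E hx ht (by omega) h2 hn
    · have h3 := (hx t ht).2 hn
      by_cases h4 : lev G v0 x ≤ α t + 2
      · exact radius_bot E hx ht h1 h4
      · exact radius_top_far E hx ht (by omega) h2 hn

end

end Pool.RBE.S4
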