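import Pool.Agent.RBE.S4.M6a
import Pool.Agent.RBE.S4.W3f

set_option autoImplicit false

/-! [M7c] the necklace dominates. -/

namespace Pool.RBE.S4

open SimpleGraph Pool.Agent.RBC

section
variable {V : Type} [Fintype V] {G : SimpleGraph V} {v0 : V} {p : ℕ → V}
    {D L q m d0 M N : ℕ} {s e α ω : ℕ → ℕ} {r : ℕ → ℕ → V}

/-- [M7c] The necklace dominates.
Proof. `x ∈ XX`: `radius`. `x ∉ XX`: some `t < N`: `x` near: `dist x (p (lev x)) ≤ L`. `x` far with `α t + 2 < lev x`,
`lev x + 2 < ω t`: let `σ k ≤ t < σ (k+1)` (`mrg_ring`); `α (σ k) ≤ α t`, `ω t ≤ ω (σ (k+1) - 1)`, so some interior rider vertex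
`y = ρ k _` has `lev y = lev x`; it is far (`farside_far`); `diam` gives `dist x y ≤ L`. -/
theorem neck_dom (E : Env G v0 p D L q m d0 M N s e α ω r) {K : ℕ} {σ : ℕ → ℕ}
    {Zf : ℕ → Set V} {xf zf : ℕ → V} (Mr : Mrg G v0 p D L N α ω K σ Zf xf zf) {l : ℕ → ℕ}
    {ρ : ℕ → ℕ → V}
    (h : ∀ k < K, (∀ y, 0 < y → y < l k →
          ρ k y ∈ FarSide G v0 p L α ω Zf (σ k) (σ (k + 1) - 1)) ∧
        ∀ i, α (σ k) + 2 < i → i + 2 < ω (σ (k + 1) - 1) →
          ∃ y, 0 < y ∧ y < l k ∧ lev G v0 (ρ k y) = i) (x : V) :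
    ∃ u ∈ neckSet D p (X0 G v0 p D L N α ω) K l ρ, G.dist x u ≤ T3 L q m M := by
  obtain ⟨m1, m2, m3⟩ := mrg_ring Mr
  have hT3 : L ≤ T3 L q m M := by unfold T3; omega
  by_cases hx : x ∈ XX G v0 p L N α ω
  · obtain ⟨i, hi, w, -, hw⟩ := radius E hx
    exact ⟨p i, Or.inr (Or.inl ⟨i, hi, rfl⟩), (SimpleGraph.dist_le w).trans hw⟩
  · have hx' : ∃ t < N, ¬ ((Near G v0 p L x → ¬ (α t < lev G v0 x ∧ lev G v0 x < ω t)) ∧
        (¬ Near G v0 p L x → ¬ (α t + 2 < lev G v0 x ∧ lev G v0 x + 2 < ω t))) := by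
      by_contra hcon
      push Not at hcon
      apply hx
      intro t ht
      have := hcon t ht
      constructor
      · intro hn hh
        have := this.1 hn hh.1
        omega
      · intro hn hh
        have := this.2 hn hh.1
        omega
    obtain ⟨t, ht, htx⟩ := hx'
    by_cases hn : Near G v0 p L x
    · exact ⟨p (lev G v0 x), Or.inr (Or.inl ⟨_, E.geo.top x, rfl⟩), le_trans hn hT3⟩
    · have h12 : α t + 2 < lev G v0 x ∧ lev G v0 x + 2 < ω t := by
        by_contra hcon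
        exact htx ⟨fun h' => absurd h' hn, fun _ => hcon⟩
      obtain ⟨k, hk, hk1, hk2⟩ := m3 t ht
      have hkN := m2 (k + 1) hk
      have hmono : ∀ t t', t ≤ t' → t' < N → α t ≤ α t' ∧ ω t ≤ ω t' := by
        intro t t' h1 h2
        rcases Nat.lt_or_ge t t' with h | h
        · have := env_mono E h h2
          omega
        · have : t = t' := by omega
          subst this
          exact ⟨le_refl _, le_refl _⟩
      have a1 := (hmono (σ k) t hk1 ht).1
      have a2 := (hmono t (σ (k + 1) - 1) (by omega) (by omega)).2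
      obtain ⟨y, hy1, hy2, hy3⟩ := (h k hk).2 (lev G v0 x) (by omega) (by omega)
      have hyF := (h k hk).1 y hy1 hy2
      have hyn : ¬ Near G v0 p L (ρ k y) :=
        farside_far E (fun t' b1 b2 => Mr.tw k hk t' b1 b2) ht hyF
          (by rw [hy3]; exact h12.1) (by rw [hy3]; exact h12.2)
      have b1 := E.rings.hα t ht
      have b2 := E.rings.hω t ht
      have hd := E.rings.diam t ht x (ρ k y) hy3.symm (by omega) (by omega) hn hyn
      exact ⟨ρ k y, Or.inr (Or.inr ⟨k, hk, y, hy2.le, rfl⟩), hd.trans hT3⟩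

end

end Pool.RBE.S4
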