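import Pool.Agent.RBE.S4.N5

set_option autoImplicit false

/-! [N6] a necklace is rainbow connected (conclusion). -/

namespace Pool.RBE.S4

open SimpleGraph Pool.Agent.RBC

variable {V : Type} {G : SimpleGraph V}

section
variable {D : ℕ} {p : ℕ → V} {X : Set V} {w : V → ℕ} {c0 : Sym2 V → ℕ} {C N : ℕ}
    {a b l e : ℕ → ℕ} {r : ℕ → ℕ → V}

private theorem n6_ba (h : Neck G D p X w c0 C N a b l e r) :
    ∀ t s, s < t → t < N → b s ≤ a t := by
  intro t
  induction t with
  | zero => intro s hs; omega
  | succ t ih =>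
    intro s hs ht
    rcases Nat.lt_succ_iff_lt_or_eq.1 hs with h1 | h1
    · have h2 := ih s h1 (by omega)
      have h3 := h.ab t (by omega)
      have h4 := h.ba t ht
      omega
    · rw [h1]
      exact h.ba t ht

private theorem n6_off (e : ℕ → ℕ) {N t : ℕ} (ht : t < N) : offs e (t + 1) ≤ offs e N :=
  offs_mono e ht

/-- from a rider to a window -/
private theorem n6_rx (h : Neck G D p X w c0 C N a b l e r) {c : Sym2 V → ℕ}
    (hc1 : ∀ i < D, c s(p i, p (i + 1)) = i)
    (hc : ∀ t < N, ∀ y < l t, c s(r t y, r t (y + 1)) = rcol D C a b e t y)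
    (hc' : ∀ ed : Sym2 V, (∀ z ∈ ed, z ∈ X) → ¬ PE D p ed → c0 ed < C → c ed = D + c0 ed)
    {t y : ℕ} (ht : t < N) (hy : y ≤ l t) {x : V} (hx : x ∈ X) :
    RW G c (neckSet D p X N l r) {z | z < D + C + offs e N} (r t y) x := by
  have hoff := n6_off e ht
  have hbD := h.bD t ht
  by_cases hw : t + 1 ≤ w x
  · obtain ⟨x', hx', h1 | h1⟩ := reach_up h hc ht hy
    · have h2 := win_win h hc1 hc' hx' hx (by omega)
      refine rw_mono (rw_trans h1.2 h2 ?_) ?_ subset_rfl
      · rintro z hz hz'
        simp only [Set.mem_ofPred_eq, Set.mem_union] at hz hz'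
        rcases hz with hz | hz
        · rcases hz' with hz' | hz' <;> omega
        · rcases hz' with hz' | hz'
          · omega
          · have := (hz'.2 t ht).1 (by omega)
            omega
      · rintro z (hz | hz)
        · simp only [Set.mem_ofPred_eq] at hz ⊢
          omega
        · simp only [Set.mem_ofPred_eq, Set.mem_union] at hz ⊢
          rcases hz with hz | hz <;> omega
    · have h2 := win_win h hc1 hc' hx' hx (by omega)
      refine rw_mono (rw_trans h1.2 h2 ?_) ?_ subset_rfl
      · rintro z hz hz'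
        simp only [Set.mem_ofPred_eq, Set.mem_union] at hz hz'
        rcases hz' with hz' | hz' <;> omega
      · rintro z (hz | hz)
        · simp only [Set.mem_ofPred_eq] at hz ⊢
          omega
        · simp only [Set.mem_ofPred_eq, Set.mem_union] at hz ⊢
          rcases hz with hz | hz <;> omega
  · obtain ⟨x', hx', h1 | h1⟩ := reach_down h hc ht hy
    · have h2 := win_win h hc1 hc' hx hx' (by omega)
      refine rw_mono (rw_trans h1.2 (rw_symm h2) ?_) ?_ subset_rfl
      · rintro z hz hz'
        simp only [Set.mem_ofPred_eq, Set.mem_union] at hz hz'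
        rcases hz with hz | hz
        · rcases hz' with hz' | hz' <;> omega
        · rcases hz' with hz' | hz'
          · omega
          · have := (hz'.2 t ht).2 (by omega)
            omega
      · rintro z (hz | hz)
        · simp only [Set.mem_ofPred_eq] at hz ⊢
          omega
        · simp only [Set.mem_ofPred_eq, Set.mem_union] at hz ⊢
          rcases hz with hz | hz <;> omega
    · have h2 := win_win h hc1 hc' hx hx' (by omega)
      refine rw_mono (rw_trans h1.2 (rw_symm h2) ?_) ?_ subset_rfl
      · rintro z hz hz'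
        simp only [Set.mem_ofPred_eq, Set.mem_union] at hz hz'
        rcases hz' with hz' | hz' <;> omega
      · rintro z (hz | hz)
        · simp only [Set.mem_ofPred_eq] at hz ⊢
          omega
        · simp only [Set.mem_ofPred_eq, Set.mem_union] at hz ⊢
          rcases hz with hz | hz <;> omega

/-- from a window to a path vertex inside a ring -/
private theorem n6_xp (h : Neck G D p X w c0 C N a b l e r) {c : Sym2 V → ℕ}
    (hc1 : ∀ i < D, c s(p i, p (i + 1)) = i)
    (hc' : ∀ ed : Sym2 V, (∀ z ∈ ed, z ∈ X) → ¬ PE D p ed → c0 ed < C → c ed = D + c0 ed)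
    {x : V} (hx : x ∈ X) {s i : ℕ} (hs : s < N) (hi : a s ≤ i) (hi' : i ≤ b s) :
    RW G c (neckSet D p X N l r) {z | z < D + C + offs e N} x (p i) := by
  have h2 := win_in h hc1 hc' hx hs hi hi'
  by_cases hw : w x ≤ s
  · refine rw_mono (h2.1 hw) ?_ subset_rfl
    rintro z hz
    simp only [Set.mem_ofPred_eq, Set.mem_union] at hz ⊢
    rcases hz with hz | hz <;> omega
  · refine rw_mono (h2.2 (by omega)) ?_ subset_rfl
    rintro z hz
    simp only [Set.mem_ofPred_eq, Set.mem_union] at hz ⊢
    rcases hz with hz | hz <;> omega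

/-- from a rider to a path vertex inside a ring -/
private theorem n6_rp (h : Neck G D p X w c0 C N a b l e r) {c : Sym2 V → ℕ}
    (hc1 : ∀ i < D, c s(p i, p (i + 1)) = i)
    (hc : ∀ t < N, ∀ y < l t, c s(r t y, r t (y + 1)) = rcol D C a b e t y)
    (hc' : ∀ ed : Sym2 V, (∀ z ∈ ed, z ∈ X) → ¬ PE D p ed → c0 ed < C → c ed = D + c0 ed)
    {t y : ℕ} (ht : t < N) (hy : y ≤ l t) {s i : ℕ} (hs : s < N) (hi : a s ≤ i) (hi' : i ≤ b s) :
    RW G c (neckSet D p X N l r) {z | z < D + C + offs e N} (r t y) (p i) := by
  have hoff := n6_off e ht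
  have hbD := h.bD t ht
  rcases lt_trichotomy s t with hst | hst | hst
  · -- ring s below ring t
    obtain ⟨x', hx', h1 | h1⟩ := reach_down h hc ht hy
    · have h2 := (win_in h hc1 hc' hx' hs hi hi').2 (by omega)
      refine rw_mono (rw_trans h1.2 h2 ?_) ?_ subset_rfl
      · rintro z hz hz'
        simp only [Set.mem_ofPred_eq, Set.mem_union] at hz hz'
        rcases hz with hz | hz
        · rcases hz' with hz' | hz' <;> omega
        · rcases hz' with hz' | hz'
          · omega
          · have := hz'.2.2 t ht (by omega)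
            omega
      · rintro z (hz | hz)
        · simp only [Set.mem_ofPred_eq] at hz ⊢
          omega
        · simp only [Set.mem_ofPred_eq, Set.mem_union] at hz ⊢
          rcases hz with hz | hz <;> omega
    · have h2 := (win_in h hc1 hc' hx' hs hi hi').2 (by omega)
      refine rw_mono (rw_trans h1.2 h2 ?_) ?_ subset_rfl
      · rintro z hz hz'
        simp only [Set.mem_ofPred_eq, Set.mem_union] at hz hz'
        rcases hz' with hz' | hz' <;> omega
      · rintro z (hz | hz)
        · simp only [Set.mem_ofPred_eq] at hz ⊢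
          omega
        · simp only [Set.mem_ofPred_eq, Set.mem_union] at hz ⊢
          rcases hz with hz | hz <;> omega
  · subst hst
    exact rider_path h hc1 hc hc' hs hy hi hi'
  · -- ring s above ring t
    obtain ⟨x', hx', h1 | h1⟩ := reach_up h hc ht hy
    · have h2 := (win_in h hc1 hc' hx' hs hi hi').1 (by omega)
      refine rw_mono (rw_trans h1.2 h2 ?_) ?_ subset_rfl
      · rintro z hz hz'
        simp only [Set.mem_ofPred_eq, Set.mem_union] at hz hz'
        rcases hz with hz | hz
        · rcases hz' with hz' | hz' <;> omega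
        · rcases hz' with hz' | hz'
          · omega
          · have := hz'.2.2 t ht (by omega)
            omega
      · rintro z (hz | hz)
        · simp only [Set.mem_ofPred_eq] at hz ⊢
          omega
        · simp only [Set.mem_ofPred_eq, Set.mem_union] at hz ⊢
          rcases hz with hz | hz <;> omega
    · have h2 := (win_in h hc1 hc' hx' hs hi hi').1 (by omega)
      refine rw_mono (rw_trans h1.2 h2 ?_) ?_ subset_rfl
      · rintro z hz hz'
        simp only [Set.mem_ofPred_eq, Set.mem_union] at hz hz'
        rcases hz' with hz' | hz' <;> omega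
      · rintro z (hz | hz)
        · simp only [Set.mem_ofPred_eq] at hz ⊢
          omega
        · simp only [Set.mem_ofPred_eq, Set.mem_union] at hz ⊢
          rcases hz with hz | hz <;> omega

/-- riders of different rings -/
private theorem n6_rr (h : Neck G D p X w c0 C N a b l e r) {c : Sym2 V → ℕ}
    (hc1 : ∀ i < D, c s(p i, p (i + 1)) = i)
    (hc : ∀ t < N, ∀ y < l t, c s(r t y, r t (y + 1)) = rcol D C a b e t y)
    (hc' : ∀ ed : Sym2 V, (∀ z ∈ ed, z ∈ X) → ¬ PE D p ed → c0 ed < C → c ed = D + c0 ed)
    {t y : ℕ} (ht : t < N) (hy : y ≤ l t) {s z : ℕ} (hs : s < N) (hz : z ≤ l s) (hts : t < s) :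
    RW G c (neckSet D p X N l r) {z | z < D + C + offs e N} (r t y) (r s z) := by
  have hoff := n6_off e ht
  have hoffs := n6_off e hs
  have hoffts : offs e (t + 1) ≤ offs e s := offs_mono e hts
  have hbD := h.bD t ht
  have hbDs := h.bD s hs
  have hba := n6_ba h s t hts hs
  obtain ⟨x', hx', h1⟩ := reach_up h hc ht hy
  obtain ⟨y', hy', h3⟩ := reach_down h hc hs hz
  have hwx : w x' ≤ t + 1 := by rcases h1 with h1 | h1 <;> omega
  have hwy : s ≤ w y' := by rcases h3 with h3 | h3 <;> omega
  have h2 := win_win h hc1 hc' hx' hy' (by omega)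
  rcases h1 with h1 | h1 <;> rcases h3 with h3 | h3
  · refine rw_mono (rw_trans (rw_trans h1.2 h2 ?_) (rw_symm h3.2) ?_) ?_ subset_rfl
    · rintro u hu hu'
      simp only [Set.mem_ofPred_eq, Set.mem_union] at hu hu'
      rcases hu with hu | hu
      · rcases hu' with hu' | hu' <;> omega
      · rcases hu' with hu' | hu'
        · omega
        · have := (hu'.2 t ht).1 (by omega)
          omega
    · rintro u hu hu'
      simp only [Set.mem_ofPred_eq, Set.mem_union] at hu hu'
      rcases hu with (hu | hu) | (hu | hu)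
      · rcases hu' with hu' | hu' <;> omega
      · rcases hu' with hu' | hu' <;> omega
      · rcases hu' with hu' | hu' <;> omega
      · rcases hu' with hu' | hu'
        · omega
        · have := (hu.2 s hs).2 (by omega)
          omega
    · rintro u hu
      simp only [Set.mem_ofPred_eq, Set.mem_union] at hu ⊢
      rcases hu with ((hu | hu) | (hu | hu)) | (hu | hu) <;> omega
  · refine rw_mono (rw_trans (rw_trans h1.2 h2 ?_) (rw_symm h3.2) ?_) ?_ subset_rfl
    · rintro u hu hu'
      simp only [Set.mem_ofPred_eq, Set.mem_union] at hu hu'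
      rcases hu with hu | hu
      · rcases hu' with hu' | hu' <;> omega
      · rcases hu' with hu' | hu'
        · omega
        · have := (hu'.2 t ht).1 (by omega)
          omega
    · rintro u hu hu'
      simp only [Set.mem_ofPred_eq, Set.mem_union] at hu hu'
      rcases hu with (hu | hu) | (hu | hu) <;> omega
    · rintro u hu
      simp only [Set.mem_ofPred_eq, Set.mem_union] at hu ⊢
      rcases hu with ((hu | hu) | (hu | hu)) | hu <;> omega
  · refine rw_mono (rw_trans (rw_trans h1.2 h2 ?_) (rw_symm h3.2) ?_) ?_ subset_rfl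
    · rintro u hu hu'
      simp only [Set.mem_ofPred_eq, Set.mem_union] at hu hu'
      rcases hu' with hu' | hu' <;> omega
    · rintro u hu hu'
      simp only [Set.mem_ofPred_eq, Set.mem_union] at hu hu'
      rcases hu with hu | (hu | hu)
      · rcases hu' with hu' | hu' <;> omega
      · rcases hu' with hu' | hu' <;> omega
      · rcases hu' with hu' | hu'
        · omega
        · have := (hu.2 s hs).2 (by omega)
          omega
    · rintro u hu
      simp only [Set.mem_ofPred_eq, Set.mem_union] at hu ⊢
      rcases hu with (hu | (hu | hu)) | (hu | hu) <;> omega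
  · refine rw_mono (rw_trans (rw_trans h1.2 h2 ?_) (rw_symm h3.2) ?_) ?_ subset_rfl
    · rintro u hu hu'
      simp only [Set.mem_ofPred_eq, Set.mem_union] at hu hu'
      rcases hu' with hu' | hu' <;> omega
    · rintro u hu hu'
      simp only [Set.mem_ofPred_eq, Set.mem_union] at hu hu'
      rcases hu with hu | (hu | hu) <;> omega
    · rintro u hu
      simp only [Set.mem_ofPred_eq, Set.mem_union] at hu ⊢
      rcases hu with (hu | (hu | hu)) | hu <;> omega

/-- the vertices of a necklace -/
private theorem n6_cases (h : Neck G D p X w c0 C N a b l e r) {u : V}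
    (hu : u ∈ neckSet D p X N l r) :
    u ∈ X ∨ (∃ i s, s < N ∧ a s ≤ i ∧ i ≤ b s ∧ u = p i) ∨ ∃ t < N, ∃ y ≤ l t, u = r t y := by
  rcases hu with hu | ⟨i, hi, hu⟩ | hu
  · exact Or.inl hu
  · by_cases hX : p i ∈ X
    · rw [← hu] at hX
      exact Or.inl hX
    · rw [h.pX i hi] at hX
      push Not at hX
      obtain ⟨s, hs, h1, h2⟩ := hX
      exact Or.inr (Or.inl ⟨i, s, hs, h1.le, h2.le, hu⟩)
  · exact Or.inr (Or.inr hu)

end

/-- [N6] A necklace is rainbow connected with `D + C + ∑ e t` colours.
Proof. Colouring `c` of `neck_colour`; `rb_of_rw`. The vertices of `neckSet`: `x ∈ X`; `p i` not in `X`, i.e.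
`a s < i < b s` for some `s < N` (`pX`); `r t y` with `y ≤ l t`. Pairs (use `rw_symm`, `rw_trans`, `rw_mono`; all
colour sets are inside `[0, D + C + offs e N)`; `offs_mono`):
(X, X): `win_win` (wlog `w x ≤ w y`). (X, P): `win_in` (`w x ≤ s` or `s + 1 ≤ w x`). (P, P): `neck_path`.
(rider `t`, X): if `t + 1 ≤ w y`: `reach_up` to `x'`, then `win_win` from `x'` to `y` (`w x' ≤ t + 1 ≤ w y`); the path
colours `z` of `win_win` satisfy `b t ≤ z` if `w x' = t + 1`, so they are disjoint from `[a t, b t)`; in the case
`w x' = t` only private colours were used. If `w y ≤ t`: `reach_down`, symmetric.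
(rider `t`, path vertex inside ring `s`): `s = t`: `rider_path`. `t < s`: `reach_up` to `x'`, `w x' ≤ t + 1 ≤ s`,
`win_in` (first case: path colours `z ≥ b t` if `w x' = t + 1`). `s < t`: `reach_down`, `win_in` (second case).
(rider `t`, rider `t`): `rider_rider`. (rider `t`, rider `s`), `t < s`: `reach_up` for `t` (to `x'`), `reach_down` for `s`
(to `y'`), `w x' ≤ t + 1 ≤ s ≤ w y'`, `win_win`; private colours of different rings are disjoint (`offs_mono`),
`[a t, b t)` and `[a s, b s)` are disjoint (`b t ≤ a s`, by induction from `ba`, `ab`), and the path colours of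
`win_win` are `≥ b t` if `w x' = t + 1` and `< a s` if `w y' = s`. -/
theorem neck_rb {D : ℕ} {p : ℕ → V} {X : Set V} {w : V → ℕ} {c0 : Sym2 V → ℕ} {C N : ℕ}
    {a b l e : ℕ → ℕ} {r : ℕ → ℕ → V} (h : Neck G D p X w c0 C N a b l e r) :
    Rb G (neckSet D p X N l r) (D + C + offs e N) := by
  obtain ⟨c, hc1, hc, hc'⟩ := neck_colour h
  refine rb_of_rw (c := c) ?_
  have hPP : ∀ i ≤ D, ∀ j ≤ D, RW G c (neckSet D p X N l r) {z | z < D + C + offs e N}
      (p i) (p j) := by
    intro i hi j hj
    rcases le_total i j with hij | hij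
    · refine rw_mono (neck_path h hc1 hij hj) ?_ subset_rfl
      rintro z hz
      simp only [Set.mem_ofPred_eq] at hz ⊢
      omega
    · refine rw_mono (rw_symm (neck_path h hc1 hij hi)) ?_ subset_rfl
      rintro z hz
      simp only [Set.mem_ofPred_eq] at hz ⊢
      omega
  have hXX : ∀ x ∈ X, ∀ y ∈ X, RW G c (neckSet D p X N l r) {z | z < D + C + offs e N} x y := by
    intro x hx y hy
    rcases le_total (w x) (w y) with hxy | hxy
    · refine rw_mono (win_win h hc1 hc' hx hy hxy) ?_ subset_rfl
      rintro z hz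
      simp only [Set.mem_ofPred_eq, Set.mem_union] at hz ⊢
      rcases hz with hz | hz <;> omega
    · refine rw_mono (rw_symm (win_win h hc1 hc' hy hx hxy)) ?_ subset_rfl
      rintro z hz
      simp only [Set.mem_ofPred_eq, Set.mem_union] at hz ⊢
      rcases hz with hz | hz <;> omega
  intro u hu v hv
  rcases n6_cases h hu with hu | ⟨i, s, hs, hi, hi', rfl⟩ | ⟨t, ht, y, hy, rfl⟩
  · rcases n6_cases h hv with hv | ⟨j, s', hs', hj, hj', rfl⟩ | ⟨t', ht', y', hy', rfl⟩
    · exact hXX u hu v hv
    · exact n6_xp h hc1 hc' hu hs' hj hj'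
    · exact rw_symm (n6_rx h hc1 hc hc' ht' hy' hu)
  · rcases n6_cases h hv with hv | ⟨j, s', hs', hj, hj', rfl⟩ | ⟨t', ht', y', hy', rfl⟩
    · exact rw_symm (n6_xp h hc1 hc' hv hs hi hi')
    · exact hPP i (hi'.trans (h.bD s hs)) j (hj'.trans (h.bD s' hs'))
    · exact rw_symm (n6_rp h hc1 hc hc' ht' hy' hs hi hi')
  · rcases n6_cases h hv with hv | ⟨j, s', hs', hj, hj', rfl⟩ | ⟨t', ht', y', hy', rfl⟩
    · exact n6_rx h hc1 hc hc' ht hy hv
    · exact n6_rp h hc1 hc hc' ht hy hs' hj hj'
    · rcases lt_trichotomy t t' with htt | htt | htt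
      · exact n6_rr h hc1 hc hc' ht hy ht' hy' htt
      · subst htt
        exact rider_rider h hc1 hc hc' ht hy hy'
      · exact rw_symm (n6_rr h hc1 hc hc' ht' hy' ht hy htt)

end Pool.RBE.S4
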