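import Mathlib

set_option autoImplicit false

/-! [Q1] the long runs of a predicate on ℕ. -/

namespace Pool.RBE.S4

/-- [Q1] The long runs of `F`.
Proof. Strong induction on `D`. `D = 0`: `F` is empty, `N = 0`. `D > 0`: if `¬ F D` use the induction hypothesis for
`D - 1`. If `F D` let `j` be the largest number `< D` with `¬ F j` (exists: `h0`), apply the induction hypothesis to
`F' i := F i ∧ i ≤ j` (bounded by `j < D`) and get `N, s, e`. If `j + 1 + Λ ≤ D` add the interval `[j+1, D]` as number `N`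
(`Function.update`), otherwise keep `N, s, e`; numbers `i ∈ (j, D]` are covered by the new interval, resp. by the
second alternative with `j`. (`¬ F (e t + 1)`: for old intervals `e t ≤ j` and `¬ F' (e t + 1)`; `e t + 1 ≤ j` because `¬ F j`
implies `e t ≠ j`; for the new one `D + 1 > D`.) -/
theorem exists_runs (F : ℕ → Prop) (D Λ : ℕ) (h0 : ¬ F 0) (hD : ∀ i, F i → i ≤ D) :
    ∃ (N : ℕ) (s e : ℕ → ℕ),
      (∀ t < N, 1 ≤ s t ∧ s t + Λ ≤ e t ∧ e t ≤ D ∧ (∀ i, s t ≤ i → i ≤ e t → F i) ∧
        ¬ F (s t - 1) ∧ ¬ F (e t + 1)) ∧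
      (∀ t, t + 1 < N → e t + 1 < s (t + 1)) ∧
      ∀ i, F i → (∃ t < N, s t ≤ i ∧ i ≤ e t) ∨
        ∃ j, j < i ∧ i ≤ j + Λ + 1 ∧ ¬ F j ∧ ∀ j', j < j' → j' ≤ i → F j' := by
  classical
  induction D using Nat.strong_induction_on generalizing F with
  | _ D ih =>
  rcases Nat.eq_zero_or_pos D with hz | hpos
  · subst hz
    refine ⟨0, fun _ => 0, fun _ => 0, fun t ht => absurd ht (Nat.not_lt_zero t),
      fun t ht => absurd ht (Nat.not_lt_zero _), fun i hi => ?_⟩
    have h1 : i = 0 := Nat.le_zero.1 (hD i hi)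
    subst h1
    exact absurd hi h0
  by_cases hFD : F D
  · have hj0 : ∃ j, j < D ∧ ¬ F j ∧ ∀ j', j < j' → j' ≤ D → F j' := by
      refine ⟨Nat.findGreatest (fun i => ¬ F i) (D - 1), ?_, ?_, ?_⟩
      · have := Nat.findGreatest_le (P := fun i => ¬ F i) (D - 1)
        omega
      · exact Nat.findGreatest_spec (P := fun i => ¬ F i) (Nat.zero_le (D - 1)) h0
      · intro j' h1 h2
        rcases Nat.lt_or_ge j' D with h3 | h3
        · by_contra h4
          exact Nat.findGreatest_is_greatest (P := fun i => ¬ F i) h1 (by omega) h4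
        · have h4 : j' = D := le_antisymm h2 h3
          rw [h4]
          exact hFD
    obtain ⟨j, hjD, hFj, hup⟩ := hj0
    obtain ⟨N, s, e, hA, hB, hC⟩ := ih j hjD (fun i => F i ∧ i ≤ j) (fun h => h0 h.1) (fun i hi => hi.2)
    have hA' : ∀ t < N, 1 ≤ s t ∧ s t + Λ ≤ e t ∧ e t ≤ D ∧ (∀ i, s t ≤ i → i ≤ e t → F i) ∧
        ¬ F (s t - 1) ∧ ¬ F (e t + 1) ∧ e t < j := by
      intro t ht
      obtain ⟨h1, h2, h3, h4, h5, h6⟩ := hA t ht
      have h7 : e t ≠ j := by
        intro h
        have h8 := (h4 (e t) (by omega) le_rfl).1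
        rw [h] at h8
        exact hFj h8
      refine ⟨h1, h2, by omega, fun i hi1 hi2 => (h4 i hi1 hi2).1, fun h => h5 ⟨h, by omega⟩,
        fun h => h6 ⟨h, by omega⟩, by omega⟩
    have hC' : ∀ i, i ≤ j → F i → (∃ t < N, s t ≤ i ∧ i ≤ e t) ∨
        ∃ j, j < i ∧ i ≤ j + Λ + 1 ∧ ¬ F j ∧ ∀ j', j < j' → j' ≤ i → F j' := by
      intro i hij hi
      rcases hC i ⟨hi, hij⟩ with h | ⟨k, h1, h2, h3, h4⟩
      · exact Or.inl h
      · exact Or.inr ⟨k, h1, h2, fun h => h3 ⟨h, by omega⟩, fun j' h5 h6 => (h4 j' h5 h6).1⟩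
    by_cases hlong : j + 1 + Λ ≤ D
    · refine ⟨N + 1, fun t => if t = N then j + 1 else s t, fun t => if t = N then D else e t, ?_, ?_, ?_⟩
      · intro t ht
        rcases eq_or_ne t N with h | h
        · simp only [h, if_true]
          refine ⟨by omega, hlong, le_rfl, fun i h1 h2 => hup i (by omega) h2, ?_, fun h1 => ?_⟩
          · rw [Nat.add_sub_cancel]
            exact hFj
          · have := hD _ h1
            omega
        · simp only [if_neg h]
          obtain ⟨h1, h2, h3, h4, h5, h6, _⟩ := hA' t (by omega)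
          exact ⟨h1, h2, h3, h4, h5, h6⟩
      · intro t ht
        have h : t ≠ N := by omega
        simp only [if_neg h]
        rcases eq_or_ne (t + 1) N with h' | h'
        · simp only [h', if_true]
          have := (hA' t (by omega)).2.2.2.2.2.2
          omega
        · simp only [if_neg h']
          exact hB t (by omega)
      · intro i hi
        rcases Nat.lt_or_ge j i with h | h
        · left
          refine ⟨N, Nat.lt_succ_self N, ?_⟩
          simp only [if_true]
          exact ⟨h, hD i hi⟩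
        · rcases hC' i h hi with ⟨t, ht, h1⟩ | h1
          · left
            refine ⟨t, by omega, ?_⟩
            simp only [if_neg (ne_of_lt ht)]
            exact h1
          · exact Or.inr h1
    · refine ⟨N, s, e, fun t ht => ?_, hB, fun i hi => ?_⟩
      · obtain ⟨h1, h2, h3, h4, h5, h6, _⟩ := hA' t ht
        exact ⟨h1, h2, h3, h4, h5, h6⟩
      · rcases Nat.lt_or_ge j i with h | h
        · have hiD := hD i hi
          exact Or.inr ⟨j, h, by omega, hFj, fun j' h1 h2 => hup j' h1 (by omega)⟩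
        · exact hC' i h hi
  · have hD' : ∀ i, F i → i ≤ D - 1 := by
      intro i hi
      have h1 := hD i hi
      have h2 : i ≠ D := by
        intro h
        rw [h] at hi
        exact hFD hi
      omega
    obtain ⟨N, s, e, hA, hB, hC⟩ := ih (D - 1) (by omega) F h0 hD'
    refine ⟨N, s, e, fun t ht => ?_, hB, hC⟩
    obtain ⟨h1, h2, h3, h4⟩ := hA t ht
    exact ⟨h1, h2, by omega, h4⟩

end Pool.RBE.S4
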