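import Pool.Agent.RBE.S4.R4
import Pool.Agent.RBE.S4.Q1

set_option autoImplicit false

/-! [R5] the rings. -/

namespace Pool.RBE.S4

open SimpleGraph Pool.Agent.RBC

/-- [R5] 
Proof. `Λ0, M'` from `ring_exact`, `Λ = Λ0 + L + 2`, `M = M' + Λ + 2`. `exists_runs` for `F = FarL G v0 p L` (`¬ F 0`: level
`0` is `{v0}`, `p 0 = v0`; `F i → i ≤ D` by `Geo.top`). For each of the intervals `[s t, e t]`: `ring_exact`, `far_rider`,
`far_top` (choose `α t, ω t, r t`). `sep`: `far_sep`; `diam`: `far_facts`; `bot`: `¬ FarL (s t - 1)`; `cov`: let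
`i = lev x`. If `¬ F i` take `j = i` (for `t` with `e t < i` trivial). If `F i`: `exists_runs` gives an interval
containing `i`, or `j < i ≤ j + Λ + 1` with `¬ F j` (so all `y` of level `j` have `dist y (p j) ≤ 4L+4`) and all of `(j, i]` in
`F`; if `e t < i` and `j ≤ e t` then `e t + 1 ∈ (j, i]`, contradiction to `¬ F (e t + 1)`; so `e t < j`. -/
theorem exists_rings (q L m d0 : ℕ) (hq : 2 ≤ q) : ∃ M : ℕ, ∀ (V : Type) [Fintype V]
    (G : SimpleGraph V), KConn G (2 * q) → Irr G (2 * q) → ∀ (v0 : V) (p : ℕ → V) (D : ℕ),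
    Geo G v0 p D → J1 G v0 p L → J2 G v0 p L →
    ∃ (N : ℕ) (s e α ω : ℕ → ℕ) (r : ℕ → ℕ → V),
      Rings G v0 p D L q m d0 M N s e α ω r := by
  obtain ⟨Λ0, M', hRE⟩ := ring_exact q L m d0 hq
  refine ⟨M' + (Λ0 + L + 2) + 2, ?_⟩
  intro V _ G hk hI v0 p D hP h1 h2
  have hc : G.Connected := kconn_connected (k := 2 * q) hk (by omega)
  have hF0 : ¬ FarL G v0 p L 0 := by
    rintro ⟨x, hx, hd⟩
    have hx0 := eq_root_of_lev hc hx
    have hp0 := eq_root_of_lev hc (hP.lev 0 (Nat.zero_le _))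
    rw [hx0, hp0] at hd
    simp at hd
  have hFD : ∀ i, FarL G v0 p L i → i ≤ D := by
    rintro i ⟨x, hx, -⟩
    have := hP.top x
    omega
  obtain ⟨N, s, e, hse, hord, hcov⟩ := exists_runs (FarL G v0 p L) D (Λ0 + L + 2) hF0 hFD
  -- the data of ring t
  have hring : ∀ t, ∃ (a o : ℕ) (r : ℕ → V), t < N →
      (∀ i, s t ≤ i → i ≤ e t → q ≤ (An G v0 p L i).card ∧ q ≤ (Bn G v0 p L i).card) ∧
      (s t + d0 + m ≤ a ∧ a + 6 ≤ s t + M' ∧ a + 20 ≤ o ∧ o + m + d0 ≤ e t ∧ e t ≤ o + M' ∧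
        ∀ i, (a ≤ i + m ∧ i ≤ a + 6 ∨ o ≤ i + 6 ∧ i ≤ o + m) →
          (An G v0 p L i).card = q ∧ (Bn G v0 p L i).card = q) ∧
      (∀ i, s t ≤ i → i ≤ e t → lev G v0 (r i) = i ∧ ¬ Near G v0 p L (r i)) ∧
      (∀ i, s t ≤ i → i < e t → G.Adj (r i) (r (i + 1))) ∧
      e t < D ∧ ∃ y z, G.Adj y z ∧ lev G v0 y = e t ∧ ¬ Near G v0 p L y ∧ lev G v0 z = e t + 1 ∧
        G.dist z (p (e t + 1)) ≤ 4 * L + 4 := by
    intro t
    by_cases ht : t < N
    · obtain ⟨g1, g2, g3, g4, g5, g6⟩ := hse t ht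
      obtain ⟨hc1, a, o, hao⟩ := hRE V G hk hI v0 p D (s t) (e t) hP h1 h2 g1 (by omega) g3 g4 g5 g6
      obtain ⟨r, hr1, hr2⟩ := far_rider hc hP h1 (by omega : s t ≤ e t) g4
      obtain ⟨ht1, ht2⟩ := far_top hc hP h1 h2 (by omega : s t + L ≤ e t) g3 g4 g6
      exact ⟨a, o, r, fun _ => ⟨hc1, hao, hr1, hr2, ht1, ht2⟩⟩
    · exact ⟨0, 0, fun _ => v0, fun h => absurd h ht⟩
  choose α ω r hring using hring
  refine ⟨N, s, e, α, ω, r, ?_⟩
  constructor
  · intro t ht; exact (hse t ht).1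
  · intro t ht; exact (hring t ht).2.2.2.2.1
  · exact hord
  · intro t ht; exact (hring t ht).2.1.1
  · intro t ht
    have := (hring t ht).2.1.2.1
    omega
  · intro t ht; exact (hring t ht).2.1.2.2.1
  · intro t ht; exact (hring t ht).2.1.2.2.2.1
  · intro t ht
    have := (hring t ht).2.1.2.2.2.2.1
    omega
  · intro t ht x y hxy a1 a2 a3 a4 hn
    obtain ⟨g1, g2, g3, g4, g5, g6⟩ := hse t ht
    exact far_sep hc hP h1 hxy (g4 _ a1 a2) (g4 _ a3 a4) hn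
  · intro t ht x y hxy a1 a2 hx hy
    obtain ⟨g1, g2, g3, g4, g5, g6⟩ := hse t ht
    exact (far_facts hc h1 (g4 _ a1 a2)).2 x y rfl hxy.symm hx hy
  · intro t ht i hi1 hi2; exact ((hring t ht).1 i hi1 hi2).1
  · intro t ht i hi1 hi2; exact ((hring t ht).1 i hi1 hi2).2
  · intro t ht i hi; exact ((hring t ht).2.1.2.2.2.2.2 i hi).1
  · intro t ht i hi; exact ((hring t ht).2.1.2.2.2.2.2 i hi).2
  · intro t ht i hi1 hi2; exact (hring t ht).2.2.1 i hi1 hi2
  · intro t ht i hi1 hi2; exact (hring t ht).2.2.2.1 i hi1 hi2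
  · intro t ht x hx
    obtain ⟨g1, g2, g3, g4, g5, g6⟩ := hse t ht
    by_contra hcon
    exact g5 ⟨x, hx, by omega⟩
  · intro t ht; exact (hring t ht).2.2.2.2.2
  · intro x
    by_cases hFx : FarL G v0 p L (lev G v0 x)
    · rcases hcov _ hFx with h | ⟨j, hj1, hj2, hj3, hj4⟩
      · left; exact h
      · right
        refine ⟨j, hj1.le, by omega, ?_, ?_⟩
        · intro y hy
          by_contra hcon
          exact hj3 ⟨y, hy, by omega⟩
        · intro t ht het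
          obtain ⟨g1, g2, g3, g4, g5, g6⟩ := hse t ht
          by_contra hcon
          exact g6 (hj4 (e t + 1) (by omega) (by omega))
    · right
      refine ⟨lev G v0 x, le_rfl, by omega, ?_, fun t _ h => h⟩
      intro y hy
      by_contra hcon
      exact hFx ⟨y, hy, by omega⟩

end Pool.RBE.S4
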