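import Pool.Agent.RBE.S4.M7b
import Pool.Agent.RBE.S4.M7c
import Pool.Agent.RBE.S4.N6
import Pool.Agent.RBE.S4.R5

set_option autoImplicit false

/-! [M8] conclusion of section 4. -/

namespace Pool.RBE.S4

open SimpleGraph Pool.Agent.RBC

/-- [M8a] 
Proof. `exists_mrg`, `exists_neck`, `neck_rb`: `Rb G neckSet (D + CW + offs eo K)`; `neck_dom` and
`Pool.Agent.RBC.extend` (`KConn G 2` by `kconn_mono`) give `Rb G univ (D + CW + offs eo K + (3 T3^2 + 4 T3))`. -/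
theorem env_bd {V : Type} [Fintype V] {G : SimpleGraph V} {v0 : V} {p : ℕ → V}
    {D L q m d0 M N : ℕ} {s e α ω : ℕ → ℕ} {r : ℕ → ℕ → V}
    (E : Env G v0 p D L q m d0 M N s e α ω r) :
    Bd G (2 * q) (2 * q * (1 + CW (T3 L q m M) + (3 * T3 L q m M ^ 2 + 4 * T3 L q m M))) := by
  obtain ⟨K, σ, Zf, xf, zf, Mr⟩ := exists_mrg G v0 p D L N α ω
  obtain ⟨w, c0, l, eo, ρ, hN, hmass, hd⟩ := exists_neck E Mr
  have hRb := neck_rb hN
  have hq := E.hq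
  have hk2 : KConn G 2 := kconn_mono E.hk (by omega)
  have hne : (neckSet D p (X0 G v0 p D L N α ω) K l ρ).Nonempty :=
    ⟨p 0, Or.inr (Or.inl ⟨0, Nat.zero_le _, rfl⟩)⟩
  have hext := Pool.Agent.RBC.extend hk2 hRb hne (fun v => neck_dom E Mr hd v)
  refine ⟨_, hext, ?_⟩
  set T := T3 L q m M
  have e1 : 2 * q * (D + CW T + offs eo K + (3 * T ^ 2 + 4 * T)) =
      2 * q * (D + offs eo K) + 2 * q * (CW T + (3 * T ^ 2 + 4 * T)) := by ring
  have e2 : 2 * q * (1 + CW T + (3 * T ^ 2 + 4 * T)) =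
      2 * q + 2 * q * (CW T + (3 * T ^ 2 + 4 * T)) := by ring
  rw [e1, e2]
  omega

/-- [M8b] Section 4: an irreducible graph with (J1), (J2) satisfies the bound.
Proof. `m = L + 20`, `d0 = 4L + 20`, `M` of `exists_rings`. -/
theorem final_bd (q L : ℕ) (hq : 2 ≤ q) : ∃ C : ℕ, ∀ (V : Type) [Fintype V] (G : SimpleGraph V),
    KConn G (2 * q) → Irr G (2 * q) → ∀ (v0 : V) (p : ℕ → V) (D : ℕ), Geo G v0 p D →
    J1 G v0 p L → J2 G v0 p L → Bd G (2 * q) C := by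
  obtain ⟨M, hM⟩ := exists_rings q L (L + 20) (4 * L + 20) hq
  refine ⟨2 * q * (1 + CW (T3 L q (L + 20) M) +
    (3 * T3 L q (L + 20) M ^ 2 + 4 * T3 L q (L + 20) M)), ?_⟩
  intro V _ G hk hI v0 p D hP h1 h2
  obtain ⟨N, s, e, α, ω, r, hR⟩ := hM V G hk hI v0 p D hP h1 h2
  exact env_bd (E := ⟨hk, hq, hP, hR, le_refl _, le_refl _⟩)

/-- [M8c] The main theorem for even `k ≥ 4`, from section 3.
Proof. `bd_of_irr` (RA) with the `C` of `final_bd`. -/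
theorem even_bd (q : ℕ) (hq : 2 ≤ q)
    (H : ∃ L : ℕ, ∀ (V : Type) [Fintype V] (G : SimpleGraph V), KConn G (2 * q) →
      Irr G (2 * q) → ∃ (v0 : V) (p : ℕ → V) (D : ℕ), Geo G v0 p D ∧ J1 G v0 p L ∧
        J2 G v0 p L) :
    ∃ C : ℕ, ∀ (V : Type) [Fintype V] (G : SimpleGraph V), KConn G (2 * q) → Bd G (2 * q) C := by
  obtain ⟨L, hL⟩ := H
  obtain ⟨C, hC⟩ := final_bd q L hq
  refine ⟨C, Pool.RBE.bd_of_irr (k := 2 * q) (by omega) (C := C) ?_⟩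
  intro V _ G hk hI
  obtain ⟨v0, p, D, hP, h1, h2⟩ := hL V G hk hI
  exact hC V G hk hI v0 p D hP h1 h2

end Pool.RBE.S4
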