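import Pool.Agent.RBE.Base
import Pool.Agent.MP_dd54b8_co.L2
import Pool.Agent.MP_dd54b8_co.C3

set_option autoImplicit false

/-! [RBE] Section 4 (the final colouring).  Definitions: rainbow walks, necklaces, levels along a
geodesic, rings, windows. -/

namespace Pool.RBE.S4

open SimpleGraph Pool.Agent.RBC

section
variable {V : Type} (G : SimpleGraph V)

/-- Rainbow walks with colours in `A` and vertices in `D`. -/
def RW (c : Sym2 V → ℕ) (D : Set V) (A : Set ℕ) (u v : V) : Prop :=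
  ∃ w : G.Walk u v, (∀ x ∈ w.support, x ∈ D) ∧ (w.edges.map c).Nodup ∧ ∀ e ∈ w.edges, c e ∈ A

/-- both ends of the edge are vertices of the path `p 0, …, p D` -/
def PE (D : ℕ) (p : ℕ → V) (e : Sym2 V) : Prop := ∀ z ∈ e, ∃ i ≤ D, z = p i

/-- number of private colours used by the rings `< t` -/
def offs (e : ℕ → ℕ) (t : ℕ) : ℕ := ∑ s ∈ Finset.range t, e s

/-- The colour of the `y`-th edge of the rider of ring `t` (counted from the bottom): first `e t`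
private colours, then the colours of the path section `[a t, b t)` in reversed order, then the private
colours again. -/
def rcol (D C : ℕ) (a b e : ℕ → ℕ) (t y : ℕ) : ℕ :=
  if y < e t then D + C + offs e t + y
  else if y < e t + (b t - a t) then b t - 1 - (y - e t)
  else D + C + offs e t + (y - e t - (b t - a t))

/-- A necklace: a path `p 0 … p D`, a set `X` (union of windows, `w x` = number of the window of `x`)
meeting the path exactly outside the open intervals `(a t, b t)`, with a colouring `c0` of the edges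
inside `X` by `C` colours which gives exits to the path, and riders `r t` (from window `t` to
window `t+1`, `l t` edges). -/
structure Neck (D : ℕ) (p : ℕ → V) (X : Set V) (w : V → ℕ) (c0 : Sym2 V → ℕ) (C N : ℕ)
    (a b l e : ℕ → ℕ) (r : ℕ → ℕ → V) : Prop where
  padj : ∀ i < D, G.Adj (p i) (p (i + 1))
  pinj : ∀ i ≤ D, ∀ j ≤ D, p i = p j → i = j
  ab : ∀ t < N, a t < b t
  bD : ∀ t < N, b t ≤ D
  ba : ∀ t, t + 1 < N → b t ≤ a (t + 1)
  pX : ∀ i ≤ D, (p i ∈ X ↔ ∀ t < N, i ≤ a t ∨ b t ≤ i)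
  wlo : ∀ i ≤ D, p i ∈ X → ∀ t < N, i ≤ a t → w (p i) ≤ t
  whi : ∀ i ≤ D, p i ∈ X → ∀ t < N, b t ≤ i → t + 1 ≤ w (p i)
  wN : ∀ x ∈ X, w x ≤ N
  exit : ∀ x ∈ X, ∀ y ∈ X,
    (w x = w y ∧ ∃ W : G.Walk x y, (∀ z ∈ W.support, z ∈ X) ∧ (W.edges.map c0).Nodup ∧
      ∀ e ∈ W.edges, c0 e < C ∧ ¬ PE D p e) ∨
    ∃ i j, i ≤ D ∧ j ≤ D ∧ p i ∈ X ∧ p j ∈ X ∧ w (p i) = w x ∧ w (p j) = w y ∧
      ∃ (W1 : G.Walk x (p i)) (W2 : G.Walk y (p j)), (∀ z ∈ W1.support, z ∈ X) ∧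
        (∀ z ∈ W2.support, z ∈ X) ∧ ((W1.edges ++ W2.edges).map c0).Nodup ∧
        ∀ e ∈ W1.edges ++ W2.edges, c0 e < C ∧ ¬ PE D p e
  rlo : ∀ t < N, r t 0 ∈ X ∧ w (r t 0) = t
  rhi : ∀ t < N, r t (l t) ∈ X ∧ w (r t (l t)) = t + 1
  rin : ∀ t < N, ∀ y, 0 < y → y < l t → r t y ∉ X ∧ ∀ i ≤ D, r t y ≠ p i
  radj : ∀ t < N, ∀ y < l t, G.Adj (r t y) (r t (y + 1))
  rinj : ∀ t < N, ∀ s < N, ∀ y z, 0 < y → y < l t → 0 < z → z < l s → r t y = r s z →
    t = s ∧ y = z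
  l2 : ∀ t < N, 2 ≤ l t
  lle : ∀ t < N, l t ≤ (b t - a t) + 2 * e t

/-- the vertices of a necklace -/
def neckSet (D : ℕ) (p : ℕ → V) (X : Set V) (N : ℕ) (l : ℕ → ℕ) (r : ℕ → ℕ → V) : Set V :=
  {x | x ∈ X ∨ (∃ i ≤ D, x = p i) ∨ ∃ t < N, ∃ y ≤ l t, x = r t y}

/-- `p 0 … p D` is a geodesic starting in `v0`, and `D` is the largest level. -/
structure Geo (v0 : V) (p : ℕ → V) (D : ℕ) : Prop where
  adj : ∀ i < D, G.Adj (p i) (p (i + 1))
  lev : ∀ i ≤ D, lev G v0 (p i) = i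
  top : ∀ x, Pool.Agent.RBC.lev G v0 x ≤ D

/-- (J1): in every level the vertices far from the geodesic are close to each other. -/
def J1 (v0 : V) (p : ℕ → V) (L : ℕ) : Prop :=
  ∀ x x', lev G v0 x = lev G v0 x' →
    G.dist x (p (lev G v0 x)) ≤ L ∨ G.dist x' (p (lev G v0 x)) ≤ L ∨ G.dist x x' ≤ L

/-- (J2): tall upper components meet the geodesic. -/
def J2 (v0 : V) (p : ℕ → V) (L : ℕ) : Prop :=
  ∀ x z, Up G v0 (lev G v0 x) x z → lev G v0 x + L ≤ lev G v0 z →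
    Up G v0 (lev G v0 x) x (p (lev G v0 x))

/-- `x` is near the geodesic (at its own level). -/
def Near (v0 : V) (p : ℕ → V) (L : ℕ) (x : V) : Prop := G.dist x (p (lev G v0 x)) ≤ L

/-- level `i` contains a vertex far from the geodesic -/
def FarL (v0 : V) (p : ℕ → V) (L i : ℕ) : Prop :=
  ∃ x, lev G v0 x = i ∧ 4 * L + 4 < G.dist x (p i)

end

section
variable {V : Type} [Fintype V] (G : SimpleGraph V)

open Classical in
/-- the near part of level `i` -/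
noncomputable def An (v0 : V) (p : ℕ → V) (L i : ℕ) : Finset V :=
  Finset.univ.filter (fun x => lev G v0 x = i ∧ Near G v0 p L x)

open Classical in
/-- the far part of level `i` -/
noncomputable def Bn (v0 : V) (p : ℕ → V) (L i : ℕ) : Finset V :=
  Finset.univ.filter (fun x => lev G v0 x = i ∧ ¬ Near G v0 p L x)

/-- The rings: `N` disjoint intervals of levels `[s t, e t]`, in which the near part and the far part
of every level are separated and have at least `q` vertices (exactly `q` in the runs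
`[α t - m, α t + 6]` and `[ω t - 6, ω t + m]` near the bottom and near the top), with vertical riders
`r t`, closed at the bottom and at the top; all other vertices are near the geodesic (`cov`).
`M` = bound for the lengths. -/
structure Rings (v0 : V) (p : ℕ → V) (D L q m d0 M N : ℕ) (s e α ω : ℕ → ℕ) (r : ℕ → ℕ → V) :
    Prop where
  s1 : ∀ t < N, 1 ≤ s t
  eD : ∀ t < N, e t < D
  ord : ∀ t, t + 1 < N → e t + 1 < s (t + 1)
  hα : ∀ t < N, s t + d0 + m ≤ α t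
  hα' : ∀ t < N, α t + 6 ≤ s t + M
  hαω : ∀ t < N, α t + 20 ≤ ω t
  hω : ∀ t < N, ω t + m + d0 ≤ e t
  hω' : ∀ t < N, e t ≤ ω t + M
  sep : ∀ t < N, ∀ x y, G.Adj x y → s t ≤ lev G v0 x → lev G v0 x ≤ e t → s t ≤ lev G v0 y →
    lev G v0 y ≤ e t → Near G v0 p L x → Near G v0 p L y
  diam : ∀ t < N, ∀ x y, lev G v0 x = lev G v0 y → s t ≤ lev G v0 x → lev G v0 x ≤ e t →
    ¬ Near G v0 p L x → ¬ Near G v0 p L y → G.dist x y ≤ L
  cardA : ∀ t < N, ∀ i, s t ≤ i → i ≤ e t → q ≤ (An G v0 p L i).card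
  cardB : ∀ t < N, ∀ i, s t ≤ i → i ≤ e t → q ≤ (Bn G v0 p L i).card
  exA : ∀ t < N, ∀ i, (α t ≤ i + m ∧ i ≤ α t + 6 ∨ ω t ≤ i + 6 ∧ i ≤ ω t + m) →
    (An G v0 p L i).card = q
  exB : ∀ t < N, ∀ i, (α t ≤ i + m ∧ i ≤ α t + 6 ∨ ω t ≤ i + 6 ∧ i ≤ ω t + m) →
    (Bn G v0 p L i).card = q
  rB : ∀ t < N, ∀ i, s t ≤ i → i ≤ e t → lev G v0 (r t i) = i ∧ ¬ Near G v0 p L (r t i)
  radj : ∀ t < N, ∀ i, s t ≤ i → i < e t → G.Adj (r t i) (r t (i + 1))
  bot : ∀ t < N, ∀ x, lev G v0 x = s t - 1 → G.dist x (p (s t - 1)) ≤ 4 * L + 4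
  top : ∀ t < N, ∃ y z, G.Adj y z ∧ lev G v0 y = e t ∧ ¬ Near G v0 p L y ∧ lev G v0 z = e t + 1 ∧
    G.dist z (p (e t + 1)) ≤ 4 * L + 4
  cov : ∀ x, (∃ t < N, s t ≤ lev G v0 x ∧ lev G v0 x ≤ e t) ∨
    ∃ j, j ≤ lev G v0 x ∧ lev G v0 x ≤ j + M ∧
      (∀ y, lev G v0 y = j → G.dist y (p j) ≤ 4 * L + 4) ∧ ∀ t < N, e t < lev G v0 x → e t < j

/-- Everything together. -/
structure Env (v0 : V) (p : ℕ → V) (D L q m d0 M N : ℕ) (s e α ω : ℕ → ℕ) (r : ℕ → ℕ → V) :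
    Prop where
  hk : KConn G (2 * q)
  hq : 2 ≤ q
  geo : Geo G v0 p D
  rings : Rings G v0 p D L q m d0 M N s e α ω r
  hm : L + 20 ≤ m
  hd : 4 * L + 20 ≤ d0

end

section
variable {V : Type} (G : SimpleGraph V)

/-- The union of the windows: ring `t` is cut at the near levels `α t` and `ω t`, and at the far
levels `α t + 2` and `ω t - 2`; the vertices strictly between the cuts are removed. -/
def XX (v0 : V) (p : ℕ → V) (L N : ℕ) (α ω : ℕ → ℕ) : Set V :=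
  {x | ∀ t < N, (Near G v0 p L x → ¬ (α t < lev G v0 x ∧ lev G v0 x < ω t)) ∧
    (¬ Near G v0 p L x → ¬ (α t + 2 < lev G v0 x ∧ lev G v0 x + 2 < ω t))}

/-- The number of the window of `x`: the number of rings below. -/
noncomputable def win (v0 : V) (N : ℕ) (α : ℕ → ℕ) (x : V) : ℕ :=
  ((Finset.range N).filter (fun t => α t + 2 < lev G v0 x)).card

/-- the vertices of the geodesic -/
def PP (p : ℕ → V) (D : ℕ) : Set V := {x | ∃ i ≤ D, x = p i}

/-- at most one edge goes from `Z` to the rest of `Y`, from `x0` to `z0` -/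
def OneEdge (Y Z : Set V) (x0 z0 : V) : Prop :=
  ∀ x ∈ Z, ∀ y ∈ Y, y ∉ Z → G.Adj x y → x = x0 ∧ y = z0

/-- Window `t + 1` (between ring `t` and ring `t + 1`) is of type T: the far strands of the two
rings are in a set `Z` joined by a single edge (the rung) to the rest of the window. -/
structure TW (v0 : V) (p : ℕ → V) (D L N : ℕ) (α ω : ℕ → ℕ) (t : ℕ) (Z : Set V) (x0 z0 : V) :
    Prop where
  tN : t + 1 < N
  sub : ∀ x ∈ Z, x ∈ XX G v0 p L N α ω ∧ win G v0 N α x = t + 1 ∧ x ∉ PP p D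
  x0Z : x0 ∈ Z
  z0Z : z0 ∉ Z
  z0X : z0 ∈ XX G v0 p L N α ω
  adj : G.Adj x0 z0
  one : OneEdge G (XX G v0 p L N α ω) Z x0 z0
  lo : ∀ x, lev G v0 x + 2 = ω t → ¬ Near G v0 p L x → x ∈ Z
  hi : ∀ x, lev G v0 x = α (t + 1) + 2 → ¬ Near G v0 p L x → x ∈ Z
  noA : ∀ x ∈ Z, Near G v0 p L x → lev G v0 x ≠ ω t ∧ lev G v0 x ≠ α (t + 1)

/-- window number `j` is of type T -/
def IsT (v0 : V) (p : ℕ → V) (D L N : ℕ) (α ω : ℕ → ℕ) (j : ℕ) : Prop :=
  ∃ t Z x0 z0, j = t + 1 ∧ TW G v0 p D L N α ω t Z x0 z0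

/-- The union of the windows which are not of type T, without pendant vertices (vertices with at most
one neighbour in the windows). -/
def X0 (v0 : V) (p : ℕ → V) (D L N : ℕ) (α ω : ℕ → ℕ) : Set V :=
  {x | x ∈ XX G v0 p L N α ω ∧ ¬ IsT G v0 p D L N α ω (win G v0 N α x) ∧
    (x ∈ PP p D ∨ ¬ ∃ z, ∀ y ∈ XX G v0 p L N α ω, G.Adj x y → y = z)}

/-- the bound for the radius of the windows -/
def T3 (L q m M : ℕ) : ℕ := 2 * M + 2 * m + 12 * L + q + 20

/-- The far side of a merged ring (rings `f, …, g`), `Zf t` = the set `Z` of the window between ring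
`t` and ring `t + 1`. -/
def FarSide (v0 : V) (p : ℕ → V) (L : ℕ) (α ω : ℕ → ℕ) (Zf : ℕ → Set V) (f g : ℕ) : Set V :=
  {x | (∃ t, f ≤ t ∧ t ≤ g ∧ ¬ Near G v0 p L x ∧ α t + 2 ≤ lev G v0 x ∧ lev G v0 x + 2 ≤ ω t) ∨
    ∃ t, f ≤ t ∧ t < g ∧ x ∈ Zf t}

end

end Pool.RBE.S4
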