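import Pool.Agent.RBE.S4.W1b

set_option autoImplicit false

/-! [M1] levels of the far side. -/

namespace Pool.RBE.S4

open SimpleGraph Pool.Agent.RBC

section
variable {V : Type} [Fintype V] {G : SimpleGraph V} {v0 : V} {p : ℕ → V}
    {D L q m d0 M N : ℕ} {s e α ω : ℕ → ℕ} {r : ℕ → ℕ → V}

/-- [M1a] levels of the vertices of window `t + 1`: between `ω t - 2` and `α (t+1) + 2`
(`xx_lev`, `win = t + 1`, rings `t` and `t + 1`). -/
theorem tw_lev (E : Env G v0 p D L q m d0 M N s e α ω r) {t : ℕ} {Z : Set V} {x0 z0 : V}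
    (hT : TW G v0 p D L N α ω t Z x0 z0) {x : V} (hx : x ∈ Z) :
    ω t ≤ lev G v0 x + 2 ∧ lev G v0 x ≤ α (t + 1) + 2 := by
  obtain ⟨h1, h2, -⟩ := hT.sub x hx
  have htN := hT.tN
  have a := (xx_lev E h1 (t := t) (by omega)).1 (by omega)
  have b := (xx_lev E h1 (t := t + 1) htN).2.1 (by omega)
  exact ⟨a, b⟩

/-- [M1b] levels of the far side -/
theorem farside_lev (E : Env G v0 p D L q m d0 M N s e α ω r) {Zf : ℕ → Set V} {xf zf : ℕ → V}
    {f g : ℕ} (hg : g < N)
    (hT : ∀ t, f ≤ t → t < g → TW G v0 p D L N α ω t (Zf t) (xf t) (zf t)) {x : V}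
    (hx : x ∈ FarSide G v0 p L α ω Zf f g) :
    α f + 2 ≤ lev G v0 x ∧ lev G v0 x + 2 ≤ ω g := by
  have hmono : ∀ t t', t ≤ t' → t' < N → α t ≤ α t' ∧ ω t ≤ ω t' := by
    intro t t' h1 h2
    rcases Nat.lt_or_ge t t' with h | h
    · have := env_mono E h h2
      omega
    · have : t = t' := by omega
      subst this
      exact ⟨le_refl _, le_refl _⟩
  rcases hx with ⟨t, h1, h2, -, h3, h4⟩ | ⟨t, h1, h2, h3⟩
  · have a := hmono f t h1 (by omega)
    have b := hmono t g h2 hg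
    omega
  · have a := tw_lev E (hT t h1 h2) h3
    have b := hmono f t h1 (by omega)
    have c := hmono (t + 1) g (by omega) hg
    have d := E.rings.hαω t (by omega)
    have e' := E.rings.hαω (t + 1) (by omega)
    omega

/-- [M1c] A vertex of the far side whose level is strictly between `α t + 2` and `ω t - 2` (`t < N`)
is far (`Zf t' ⊆ XX`, and `XX` contains no vertex of such a level, `αω` gap). -/
theorem farside_far (E : Env G v0 p D L q m d0 M N s e α ω r) {Zf : ℕ → Set V}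
    {xf zf : ℕ → V} {f g : ℕ}
    (hT : ∀ t, f ≤ t → t < g → TW G v0 p D L N α ω t (Zf t) (xf t) (zf t)) {t : ℕ} (ht : t < N)
    {x : V} (hx : x ∈ FarSide G v0 p L α ω Zf f g) (h1 : α t + 2 < lev G v0 x)
    (h2 : lev G v0 x + 2 < ω t) : ¬ Near G v0 p L x := by
  rcases hx with ⟨t', -, -, h, -, -⟩ | ⟨t', a1, a2, a3⟩
  · exact h
  · intro hn
    obtain ⟨b1, -, -⟩ := (hT t' a1 a2).sub x a3
    exact (b1 t ht).1 hn ⟨by omega, by omega⟩

/-- [M1d] no vertex of the geodesic is in the far side (near; not in `Zf t`, `TW.sub`) -/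
theorem farside_pp (E : Env G v0 p D L q m d0 M N s e α ω r) {Zf : ℕ → Set V} {xf zf : ℕ → V}
    {f g : ℕ} (hT : ∀ t, f ≤ t → t < g → TW G v0 p D L N α ω t (Zf t) (xf t) (zf t)) {x : V}
    (hx : x ∈ FarSide G v0 p L α ω Zf f g) : x ∉ PP p D := by
  rcases hx with ⟨t', -, -, h, -, -⟩ | ⟨t', a1, a2, a3⟩
  · rintro ⟨i, hi, rfl⟩
    exact h (near_p E hi)
  · exact ((hT t' a1 a2).sub x a3).2.2

end

end Pool.RBE.S4
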