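import Pool.Agent.RBE.S4.W3f

set_option autoImplicit false

/-! [W4a] the leaving edge. -/

namespace Pool.RBE.S4

open SimpleGraph Pool.Agent.RBC

section
variable {V : Type} [Fintype V] {G : SimpleGraph V} {v0 : V} {p : ℕ → V}
    {D L q m d0 M N : ℕ} {s e α ω : ℕ → ℕ} {r : ℕ → ℕ → V}

private theorem w4a_walk {Y Z : Set V} {u v : V} (w : G.Walk u v) (hw : ∀ y ∈ w.support, y ∈ Y)
    (hu : u ∈ Z) (hv : v ∉ Z) :
    ∃ a b, G.Adj a b ∧ a ∈ Z ∧ b ∉ Z ∧ b ∈ Y ∧ ∃ w' : G.Walk u a, ∀ y ∈ w'.support, y ∈ Z := by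
  induction w with
  | nil => exact absurd hu hv
  | @cons u u' v h w' ih =>
    by_cases hu' : u' ∈ Z
    · obtain ⟨a, b, hab, ha, hb, hbY, w'', hw''⟩ := ih
        (fun y hy => hw y (by rw [Walk.support_cons]; exact List.mem_cons_of_mem _ hy)) hu' hv
      refine ⟨a, b, hab, ha, hb, hbY, Walk.cons h w'', ?_⟩
      intro y hy
      rw [Walk.support_cons, List.mem_cons] at hy
      rcases hy with rfl | hy
      · exact hu
      · exact hw'' y hy
    · refine ⟨u, u', h, hu, hu', hw u' ?_, Walk.nil, ?_⟩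
      · rw [Walk.support_cons]
        exact List.mem_cons_of_mem _ w'.start_mem_support
      · intro y hy
        rw [Walk.support_nil, List.mem_singleton] at hy
        rw [hy]
        exact hu

/-- [W4a] The leaving edge exists, and every vertex of `Z` is joined to it inside `Z`.
Proof. `radius`: a walk from `z` to some `p i` inside `XX`, `p i ∉ Z`. Its first edge `(a, b)` with `a ∈ Z`, `b ∉ Z`: all
vertices before `b` are in `Z` (induction on the walk), and `OneEdge` gives `a = x0`, `b = z0`. -/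
theorem exists_leave (E : Env G v0 p D L q m d0 M N s e α ω r) {Z : Set V} {x0 z0 : V}
    (hZ : ∀ x ∈ Z, x ∈ XX G v0 p L N α ω ∧ x ∉ PP p D)
    (h1 : OneEdge G (XX G v0 p L N α ω) Z x0 z0) {z : V} (hz : z ∈ Z) :
    x0 ∈ Z ∧ z0 ∉ Z ∧ z0 ∈ XX G v0 p L N α ω ∧ G.Adj x0 z0 ∧
      ∃ w : G.Walk z x0, ∀ y ∈ w.support, y ∈ Z := by
  obtain ⟨i, hi, w, hw, _⟩ := radius E (hZ z hz).1
  have hpi : p i ∉ Z := fun h => (hZ _ h).2 ⟨i, hi, rfl⟩
  obtain ⟨a, b, hab, ha, hb, hbY, w', hw'⟩ := w4a_walk w hw hz hpi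
  obtain ⟨e1, e2⟩ := h1 a ha b hbY hb hab
  subst e1 e2
  exact ⟨ha, hb, hbY, hab, w', hw'⟩

end

end Pool.RBE.S4
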