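import Pool.Agent.RBE.S4.M1
import Pool.Agent.RBE.S4.W4a
import Pool.Agent.RBE.S4.W2b

set_option autoImplicit false

/-! [M1e] the far side is connected. -/

namespace Pool.RBE.S4

open SimpleGraph Pool.Agent.RBC

section
variable {V : Type} [Fintype V] {G : SimpleGraph V} {v0 : V} {p : ℕ → V}
    {D L q m d0 M N : ℕ} {s e α ω : ℕ → ℕ} {r : ℕ → ℕ → V}

/-- [M1e] one ring: every far vertex `x` of level in `[α t + 2, ω t - 2]` is joined to
`r t (α t + 2)` by far vertices of such levels.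
Proof. Go down by parents (`par_spec`, `same_side`) to a far vertex `b` of level `α t + 2`; `comp_far` for the level
`α t + 3`, `v = r t (α t + 3)`: `b` is adjacent to `y ∈ K`, walk in `K` from `y` to `r t (α t + 3)`, then the edge to
`r t (α t + 2)` (`radj`). -/
theorem ring_conn (E : Env G v0 p D L q m d0 M N s e α ω r) {t : ℕ} (ht : t < N) {x : V}
    (hn : ¬ Near G v0 p L x) (h1 : α t + 2 ≤ lev G v0 x) (h2 : lev G v0 x + 2 ≤ ω t) :
    ∃ w : G.Walk x (r t (α t + 2)), ∀ y ∈ w.support, ¬ Near G v0 p L y ∧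
      α t + 2 ≤ lev G v0 y ∧ lev G v0 y + 2 ≤ ω t := by
  classical
  have hc := env_connected E
  have R := E.rings
  have a1 := R.hα t ht
  have a2 := R.hα' t ht
  have a3 := R.hαω t ht
  have a4 := R.hω t ht
  have a5 := R.hω' t ht
  have a6 := E.hd
  have a7 := E.hm
  obtain ⟨n, hn'⟩ : ∃ n, lev G v0 x = α t + 2 + n := ⟨lev G v0 x - (α t + 2), by omega⟩
  induction n generalizing x with
  | zero =>
    have hr3 := R.rB t ht (α t + 3) (by omega) (by omega)
    have hr2 := R.rB t ht (α t + 2) (by omega) (by omega)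
    obtain ⟨K, hK1, hK2, hK3, hK4⟩ := comp_far E ht (j := α t + 3) (Or.inl ⟨by omega, by omega⟩) hr3.1 hr3.2
    obtain ⟨y, hy, hxy⟩ := hK4 x hn (Or.inl (by omega))
    obtain ⟨w, hw⟩ := hK3 y hy
    have hadj := (R.radj t ht (α t + 2) (by omega) (by omega)).symm
    have hKp : ∀ z ∈ K, ¬ Near G v0 p L z ∧ lev G v0 z = α t + 3 := by
      intro z hz
      have := hK1 hz
      simp only [Bn, Finset.mem_filter, Finset.mem_univ, true_and] at this
      exact ⟨this.2, this.1⟩
    refine ⟨Walk.cons hxy (w.reverse.append (Walk.cons hadj Walk.nil)), ?_⟩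
    intro z hz
    rw [Walk.support_cons, List.mem_cons, Walk.mem_support_append_iff, Walk.support_reverse, List.mem_reverse,
      Walk.support_cons, List.mem_cons, Walk.support_nil, List.mem_singleton] at hz
    rcases hz with rfl | hz | rfl | rfl
    · exact ⟨hn, h1, h2⟩
    · have := hKp z (hw z hz)
      exact ⟨this.1, by omega, by omega⟩
    · exact ⟨hr3.2, by omega, by omega⟩
    · exact ⟨hr2.2, by omega, by omega⟩
  | succ n ih =>
    obtain ⟨b1, b2⟩ := par_spec hc (v0 := v0) (v := x) (by omega)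
    have b3 := same_side E ht b1 (by omega) (by omega) (by omega) (by omega)
    obtain ⟨w, hw⟩ := ih (x := par G v0 x) (fun h => hn (b3.2 h)) (by omega) (by omega) (by omega)
    refine ⟨Walk.cons b1 w, ?_⟩
    intro z hz
    rw [Walk.support_cons, List.mem_cons] at hz
    rcases hz with rfl | hz
    · exact ⟨hn, h1, h2⟩
    · exact hw z hz

/-- [M1f] The far side is connected.
Proof. Induction on `g`. `g = f`: `ring_conn`. Step `g → g + 1`: `FarSide f (g+1) = FarSide f g ∪ Zf g ∪ ring (g+1)`. All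
vertices of `Zf g` are joined inside `Zf g` to `xf g` (`exists_leave` with `TW.sub`, `TW.one`); `r g (ω g - 2) ∈ Zf g`
(`TW.lo`) is in `FarSide f g`; `r (g+1) (α (g+1) + 2) ∈ Zf g` (`TW.hi`); `ring_conn` for the ring `g + 1`. -/
theorem farside_conn (E : Env G v0 p D L q m d0 M N s e α ω r) {Zf : ℕ → Set V}
    {xf zf : ℕ → V} {f g : ℕ} (hfg : f ≤ g) (hg : g < N)
    (hT : ∀ t, f ≤ t → t < g → TW G v0 p D L N α ω t (Zf t) (xf t) (zf t)) {x : V}
    (hx : x ∈ FarSide G v0 p L α ω Zf f g) :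
    ∃ w : G.Walk x (r f (α f + 2)), ∀ y ∈ w.support, y ∈ FarSide G v0 p L α ω Zf f g := by
  classical
  have R := E.rings
  have a6 := E.hd
  have a7 := E.hm
  induction g, hfg using Nat.le_induction generalizing x with
  | base =>
    rcases hx with ⟨t, ht1, ht2, h1, h2, h3⟩ | ⟨t, ht1, ht2, -⟩
    · have htf : t = f := le_antisymm ht2 ht1
      subst htf
      obtain ⟨w, hw⟩ := ring_conn E hg h1 h2 h3
      exact ⟨w, fun y hy => Or.inl ⟨t, le_rfl, le_rfl, hw y hy⟩⟩
    · omega
  | succ g hfg ih =>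
    have hg' : g < N := by omega
    have T := hT g hfg (by omega)
    have hmono : ∀ y, y ∈ FarSide G v0 p L α ω Zf f g → y ∈ FarSide G v0 p L α ω Zf f (g + 1) := by
      intro y hy
      rcases hy with ⟨t, ht1, ht2, h⟩ | ⟨t, ht1, ht2, h⟩
      · exact Or.inl ⟨t, ht1, by omega, h⟩
      · exact Or.inr ⟨t, ht1, by omega, h⟩
    have IH : ∀ y, y ∈ FarSide G v0 p L α ω Zf f g →
        ∃ w : G.Walk y (r f (α f + 2)), ∀ z ∈ w.support, z ∈ FarSide G v0 p L α ω Zf f (g + 1) := by
      intro y hy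
      obtain ⟨w, hw⟩ := ih hg' (fun t h1 h2 => hT t h1 (by omega)) hy
      exact ⟨w, fun z hz => hmono z (hw z hz)⟩
    have hZsub : ∀ y ∈ Zf g, y ∈ FarSide G v0 p L α ω Zf f (g + 1) := fun y hy =>
      Or.inr ⟨g, hfg, by omega, hy⟩
    have c1 := R.hα g hg'
    have c2 := R.hα' g hg'
    have c3 := R.hαω g hg'
    have c4 := R.hω g hg'
    have c5 := R.hω' g hg'
    have hrg := R.rB g hg' (ω g - 2) (by omega) (by omega)
    have hrZ : r g (ω g - 2) ∈ Zf g := T.lo _ (by omega) hrg.2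
    have hrF : r g (ω g - 2) ∈ FarSide G v0 p L α ω Zf f g :=
      Or.inl ⟨g, hfg, le_rfl, hrg.2, by omega, by omega⟩
    have hZ : ∀ y ∈ Zf g, y ∈ XX G v0 p L N α ω ∧ y ∉ PP p D := fun y hy =>
      ⟨(T.sub y hy).1, (T.sub y hy).2.2⟩
    obtain ⟨w0, hw0⟩ := IH _ hrF
    obtain ⟨-, -, -, -, w1, hw1⟩ := exists_leave E hZ T.one hrZ
    have IZ : ∀ y ∈ Zf g, ∃ w : G.Walk y (r f (α f + 2)),
        ∀ z ∈ w.support, z ∈ FarSide G v0 p L α ω Zf f (g + 1) := by
      intro y hy
      obtain ⟨-, -, -, -, w2, hw2⟩ := exists_leave E hZ T.one hy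
      refine ⟨w2.append (w1.reverse.append w0), ?_⟩
      intro z hz
      rw [Walk.mem_support_append_iff, Walk.mem_support_append_iff, Walk.support_reverse, List.mem_reverse] at hz
      rcases hz with hz | hz | hz
      · exact hZsub z (hw2 z hz)
      · exact hZsub z (hw1 z hz)
      · exact hw0 z hz
    rcases hx with ⟨t, ht1, ht2, h⟩ | ⟨t, ht1, ht2, h⟩
    · by_cases htg : t = g + 1
      · subst htg
        have d1 := R.hα (g + 1) hg
        have d2 := R.hα' (g + 1) hg
        have d3 := R.hαω (g + 1) hg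
        have d4 := R.hω (g + 1) hg
        have hr' := R.rB (g + 1) hg (α (g + 1) + 2) (by omega) (by omega)
        obtain ⟨w3, hw3⟩ := ring_conn E hg h.1 h.2.1 h.2.2
        obtain ⟨w4, hw4⟩ := IZ _ (T.hi _ hr'.1 hr'.2)
        refine ⟨w3.append w4, ?_⟩
        intro z hz
        rw [Walk.mem_support_append_iff] at hz
        rcases hz with hz | hz
        · exact Or.inl ⟨g + 1, ht1, le_rfl, hw3 z hz⟩
        · exact hw4 z hz
      · exact IH x (Or.inl ⟨t, ht1, by omega, h⟩)
    · by_cases htg : t = g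
      · subst htg
        exact IZ x h
      · exact IH x (Or.inr ⟨t, ht1, by omega, h⟩)

end

end Pool.RBE.S4
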