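import Pool.Agent.RBE.S4.N0

set_option autoImplicit false

/-! [M2] the counting lemma. -/

namespace Pool.RBE.S4

open SimpleGraph Pool.Agent.RBC

/-- a separator has at least `k` vertices -/
private theorem m2_sep {V : Type} [Fintype V] {G : SimpleGraph V} {k : ℕ} (hk : KConn G k)
    {W S : Finset V} {w v : V} (hw : w ∈ W) (hWS : ∀ x ∈ W, x ∉ S)
    (hN : ∀ x ∈ W, ∀ y, G.Adj x y → y ∈ W ∨ y ∈ S) (hv : v ∉ W) (hvS : v ∉ S) : k ≤ S.card := by
  by_contra hlt
  have hlt' : S.card < k := by omega
  have hc := hk.2 S hlt'
  have hwS : w ∈ ((↑S : Set V)ᶜ) := fun h => hWS w hw (Finset.mem_coe.1 h)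
  have hvS' : v ∈ ((↑S : Set V)ᶜ) := fun h => hvS (Finset.mem_coe.1 h)
  obtain ⟨p⟩ := hc.preconnected ⟨w, hwS⟩ ⟨v, hvS'⟩
  have key : ∀ (a b : ((↑S : Set V)ᶜ : Set V)) (_ : (G.induce ((↑S : Set V)ᶜ)).Walk a b),
      (a : V) ∈ W → (b : V) ∈ W := by
    intro a b p
    induction p with
    | nil => exact id
    | @cons a c b h _ ih =>
      intro ha
      apply ih
      rcases hN _ ha _ h with h1 | h1
      · exact h1
      · exact absurd (Finset.mem_coe.2 h1) c.2
  exact hv (key _ _ p hw)

open Classical in
/-- [M2] One piece of the far side. `h` is 1-Lipschitz on `U ∪ Ehi`; the neighbours of `U` outside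
`U ∪ Ehi` are in `Em`, those of `(U \ Elo) ∪ Ehi` are in `Ep`, up to one edge `(x0, z0)`.
Proof. `Lo = {x ∈ U | h x < n}`, `Up = {x ∈ (U \ Elo) ∪ Ehi | n < h x}`.
(1) `Lo = ∅`: `{x ∈ Elo | h x ≤ n} = {x ∈ Elo | h x = n} ⊆ {x ∈ U | h x = n}`.
(2) `Lo ≠ ∅`, `x0 ∉ Lo`: all neighbours of `Lo` outside `Lo` are in `S = Em ∪ {x ∈ U | h x = n} ∪ {x ∈ Ehi | h x ≤ n}`
(`hlip`: `h y ≤ h x + 1 ≤ n`). If `|S| < 2q` then `G - S` is connected, contains a vertex of `Lo` (`Lo ∩ S = ∅`) and `v`, and no
edge from `Lo` to the rest: contradiction. So `2q ≤ |Em| + … ≤ q + |{U, = n}| + |{Ehi, ≤ n}|`, and `|{Elo, ≤ n}| ≤ |Elo| ≤ q`.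
(3) `x0 ∈ Lo`. If no `x ∈ Ehi` has `n < h x` then `|{Ehi, ≤ n}| = |Ehi| = q ≥ |Elo|`. Otherwise `Up ≠ ∅`, `x0 ∉ Up`; the
neighbours of `Up` outside `Up` are in `S = Ep ∪ {U, = n} ∪ {Ehi, = n} ∪ {x ∈ Elo | n < h x}` (`n < h x ≤ h y + 1` gives
`n ≤ h y`). As in (2) `2q ≤ |S| ≤ q + |{U, = n}| + |{Ehi, = n}| + |Elo| - |{Elo, ≤ n}|`, `|Elo| = q`. -/
theorem piece_count {V : Type} [Fintype V] {G : SimpleGraph V} {q : ℕ} (hk : KConn G (2 * q))
    {U Elo Ehi Em Ep : Finset V} (h : V → ℕ) (n : ℕ) {x0 z0 v : V}
    (hlip : ∀ x ∈ U ∪ Ehi, ∀ y ∈ U ∪ Ehi, G.Adj x y → h y ≤ h x + 1)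
    (hElo : Elo ⊆ U) (hdis : Disjoint U Ehi)
    (hEm : Disjoint Em (U ∪ Ehi)) (hEp : Disjoint Ep (U ∪ Ehi))
    (hNU : ∀ x ∈ U, ∀ y, G.Adj x y → y ∈ U ∪ Ehi ∨ y ∈ Em ∨ (x = x0 ∧ y = z0))
    (hNE : ∀ x ∈ (U \ Elo) ∪ Ehi, ∀ y, G.Adj x y → y ∈ U ∪ Ehi ∨ y ∈ Ep ∨ (x = x0 ∧ y = z0))
    (cEm : Em.card ≤ q) (cEp : Ep.card ≤ q) (cElo : Elo.card = q) (cEhi : Ehi.card = q)
    (hv : v ∉ U ∪ Ehi) (hvm : v ∉ Em) (hvp : v ∉ Ep) :
    (Elo.filter (fun x => h x ≤ n)).card ≤
      (U.filter (fun x => h x = n)).card + (Ehi.filter (fun x => h x ≤ n)).card := by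
  have hA : (Elo.filter (fun x => h x ≤ n)).card ≤ q := by
    rw [← cElo]
    exact Finset.card_filter_le _ _
  have hvU : v ∉ U := fun h => hv (Finset.mem_union_left _ h)
  have hvE : v ∉ Ehi := fun h => hv (Finset.mem_union_right _ h)
  by_cases hLo : ∃ x ∈ U, h x < n
  · obtain ⟨x1, hx1, hx1n⟩ := hLo
    by_cases hx0 : x0 ∈ U ∧ h x0 < n
    · by_cases hall : ∀ x ∈ Ehi, h x ≤ n
      · have h1 : Ehi.filter (fun x => h x ≤ n) = Ehi := Finset.filter_true_of_mem hall
        rw [h1, cEhi]
        omega
      · push Not at hall
        obtain ⟨x2, hx2, hx2n⟩ := hall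
        set Up : Finset V := ((U \ Elo) ∪ Ehi).filter (fun x => n < h x) with hUp
        set S : Finset V := Ep ∪ U.filter (fun x => h x = n) ∪ Ehi.filter (fun x => h x = n) ∪
          Elo.filter (fun x => n < h x) with hS
        have hcard : 2 * q ≤ S.card := by
          refine m2_sep hk (W := Up) (w := x2) (v := v) ?_ ?_ ?_ ?_ ?_
          · rw [hUp, Finset.mem_filter]
            exact ⟨Finset.mem_union_right _ hx2, hx2n⟩
          · intro x hx hxS
            rw [hUp, Finset.mem_filter, Finset.mem_union, Finset.mem_sdiff] at hx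
            rw [hS, Finset.mem_union, Finset.mem_union, Finset.mem_union, Finset.mem_filter,
              Finset.mem_filter, Finset.mem_filter] at hxS
            obtain ⟨hx3, hx4⟩ := hx
            rcases hxS with ((h1 | h1) | h1) | h1
            · refine Finset.disjoint_left.1 hEp h1 ?_
              rcases hx3 with h2 | h2
              · exact Finset.mem_union_left _ h2.1
              · exact Finset.mem_union_right _ h2
            · omega
            · omega
            · rcases hx3 with h2 | h2
              · exact h2.2 h1.1
              · exact Finset.disjoint_left.1 hdis (hElo h1.1) h2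
          · intro x hx y hxy
            rw [hUp, Finset.mem_filter] at hx
            obtain ⟨hx3, hx4⟩ := hx
            have hxU : x ∈ U ∪ Ehi := by
              rcases Finset.mem_union.1 hx3 with h2 | h2
              · exact Finset.mem_union_left _ (Finset.mem_sdiff.1 h2).1
              · exact Finset.mem_union_right _ h2
            rcases hNE x hx3 y hxy with h1 | h1 | h1
            · have h2 := hlip y h1 x hxU hxy.symm
              by_cases h3 : h y = n
              · right
                rw [hS]
                rcases Finset.mem_union.1 h1 with h4 | h4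
                · exact Finset.mem_union_left _ (Finset.mem_union_left _
                    (Finset.mem_union_right _ (Finset.mem_filter.2 ⟨h4, h3⟩)))
                · exact Finset.mem_union_left _ (Finset.mem_union_right _
                    (Finset.mem_filter.2 ⟨h4, h3⟩))
              · have h5 : n < h y := by omega
                by_cases h6 : y ∈ Elo
                · right
                  rw [hS]
                  exact Finset.mem_union_right _ (Finset.mem_filter.2 ⟨h6, h5⟩)
                · left
                  rw [hUp, Finset.mem_filter, Finset.mem_union, Finset.mem_sdiff]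
                  rcases Finset.mem_union.1 h1 with h4 | h4
                  · exact ⟨Or.inl ⟨h4, h6⟩, h5⟩
                  · exact ⟨Or.inr h4, h5⟩
            · right
              rw [hS]
              exact Finset.mem_union_left _ (Finset.mem_union_left _ (Finset.mem_union_left _ h1))
            · exfalso
              rw [h1.1] at hx4
              omega
          · intro hvU'
            rw [hUp, Finset.mem_filter, Finset.mem_union, Finset.mem_sdiff] at hvU'
            rcases hvU'.1 with h2 | h2
            · exact hvU h2.1
            · exact hvE h2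
          · intro hvS
            rw [hS, Finset.mem_union, Finset.mem_union, Finset.mem_union, Finset.mem_filter,
              Finset.mem_filter, Finset.mem_filter] at hvS
            rcases hvS with ((h1 | h1) | h1) | h1
            · exact hvp h1
            · exact hvU h1.1
            · exact hvE h1.1
            · exact hvU (hElo h1.1)
        have h1 : S.card ≤ Ep.card + (U.filter (fun x => h x = n)).card +
            (Ehi.filter (fun x => h x = n)).card + (Elo.filter (fun x => n < h x)).card := by
          rw [hS]
          refine (Finset.card_union_le _ _).trans ?_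
          gcongr
          refine (Finset.card_union_le _ _).trans ?_
          gcongr
          exact Finset.card_union_le _ _
        have h2 : (Ehi.filter (fun x => h x = n)).card ≤ (Ehi.filter (fun x => h x ≤ n)).card := by
          apply Finset.card_le_card
          intro x hx
          rw [Finset.mem_filter] at hx ⊢
          exact ⟨hx.1, hx.2.le⟩
        have h3 : (Elo.filter (fun x => h x ≤ n)).card + (Elo.filter (fun x => n < h x)).card =
            Elo.card := by
          have h4 := Finset.card_filter_add_card_filter_not (s := Elo) (fun x => h x ≤ n)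
          simpa only [not_le] using h4
        omega
    · have hcard : 2 * q ≤ (Em ∪ U.filter (fun x => h x = n) ∪
          Ehi.filter (fun x => h x ≤ n)).card := by
        refine m2_sep hk (W := U.filter (fun x => h x < n)) (w := x1) (v := v) ?_ ?_ ?_ ?_ ?_
        · exact Finset.mem_filter.2 ⟨hx1, hx1n⟩
        · intro x hx hxS
          rw [Finset.mem_filter] at hx
          rw [Finset.mem_union, Finset.mem_union, Finset.mem_filter, Finset.mem_filter] at hxS
          rcases hxS with (h1 | h1) | h1
          · exact Finset.disjoint_left.1 hEm h1 (Finset.mem_union_left _ hx.1)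
          · omega
          · exact Finset.disjoint_left.1 hdis hx.1 h1.1
        · intro x hx y hxy
          rw [Finset.mem_filter] at hx
          rcases hNU x hx.1 y hxy with h1 | h1 | h1
          · have h2 := hlip x (Finset.mem_union_left _ hx.1) y h1 hxy
            rcases Finset.mem_union.1 h1 with h4 | h4
            · by_cases h3 : h y = n
              · right
                exact Finset.mem_union_left _ (Finset.mem_union_right _
                  (Finset.mem_filter.2 ⟨h4, h3⟩))
              · left
                exact Finset.mem_filter.2 ⟨h4, by omega⟩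
            · right
              exact Finset.mem_union_right _ (Finset.mem_filter.2 ⟨h4, by omega⟩)
          · right
            exact Finset.mem_union_left _ (Finset.mem_union_left _ h1)
          · exfalso
            apply hx0
            rw [← h1.1]
            exact hx
        · intro h1
          exact hvU (Finset.mem_filter.1 h1).1
        · intro h1
          rw [Finset.mem_union, Finset.mem_union, Finset.mem_filter, Finset.mem_filter] at h1
          rcases h1 with (h1 | h1) | h1
          · exact hvm h1
          · exact hvU h1.1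
          · exact hvE h1.1
      have h1 : (Em ∪ U.filter (fun x => h x = n) ∪ Ehi.filter (fun x => h x ≤ n)).card ≤
          Em.card + (U.filter (fun x => h x = n)).card + (Ehi.filter (fun x => h x ≤ n)).card := by
        refine (Finset.card_union_le _ _).trans ?_
        gcongr
        exact Finset.card_union_le _ _
      omega
  · push Not at hLo
    have h1 : (Elo.filter (fun x => h x ≤ n)).card ≤ (U.filter (fun x => h x = n)).card := by
      apply Finset.card_le_card
      intro x hx
      rw [Finset.mem_filter] at hx ⊢
      have := hLo x (hElo hx.1)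
      exact ⟨hElo hx.1, by omega⟩
    omega

end Pool.RBE.S4
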