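import Pool.Agent.RBE.S4.M1
import Pool.Agent.RBE.S4.M2

set_option autoImplicit false

/-! [M3a] the ring piece. -/

namespace Pool.RBE.S4

open SimpleGraph Pool.Agent.RBC

section
variable {V : Type} [Fintype V] {G : SimpleGraph V} {v0 : V} {p : ℕ → V}
    {D L q m d0 M N : ℕ} {s e α ω : ℕ → ℕ} {r : ℕ → ℕ → V}

open Classical in
/-- the far vertices of ring `t` with levels in `[α t + 2, ω t - 3]` -/
noncomputable def ringU (G : SimpleGraph V) (v0 : V) (p : ℕ → V) (L : ℕ) (α ω : ℕ → ℕ) (t : ℕ) :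
    Finset V :=
  Finset.univ.filter (fun x => ¬ Near G v0 p L x ∧ α t + 2 ≤ lev G v0 x ∧ lev G v0 x + 3 ≤ ω t)

open Classical in
/-- [M3a] the ring piece.
Proof. `piece_count` with `U = ringU t`, `Elo = Bn (α t + 2)`, `Ehi = Bn (ω t - 2)`, `Em = Bn (α t + 1)`, `Ep = Bn (ω t - 1)`,
`x0 = z0 = v = p 0` (near, so in none of the sets). Neighbours of a far vertex of level in `[α t + 2, ω t - 2]` are far
(`same_side`) and have level within one. Cards: `exB`. -/
theorem ring_piece (E : Env G v0 p D L q m d0 M N s e α ω r) {t : ℕ} (ht : t < N) (h : V → ℕ)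
    (n : ℕ) (hlip : ∀ x y, ¬ Near G v0 p L x → α t + 2 ≤ lev G v0 x → lev G v0 x + 2 ≤ ω t →
      ¬ Near G v0 p L y → α t + 2 ≤ lev G v0 y → lev G v0 y + 2 ≤ ω t → G.Adj x y →
      h y ≤ h x + 1) :
    ((Bn G v0 p L (α t + 2)).filter (fun x => h x ≤ n)).card ≤
      ((ringU G v0 p L α ω t).filter (fun x => h x = n)).card +
        ((Bn G v0 p L (ω t - 2)).filter (fun x => h x ≤ n)).card := by
  have hconn := env_connected E
  have R := E.rings
  have hm := E.hm
  have hd := E.hd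
  have o1 := R.hα t ht
  have o2 := R.hαω t ht
  have o3 := R.hω t ht
  have mB : ∀ x j, x ∈ Bn G v0 p L j ↔ lev G v0 x = j ∧ ¬ Near G v0 p L x := by
    intro x j; simp [Bn]
  have mU : ∀ x, x ∈ ringU G v0 p L α ω t ↔
      ¬ Near G v0 p L x ∧ α t + 2 ≤ lev G v0 x ∧ lev G v0 x + 3 ≤ ω t := by
    intro x; simp [ringU]
  have mUE : ∀ x, x ∈ ringU G v0 p L α ω t ∪ Bn G v0 p L (ω t - 2) ↔
      ¬ Near G v0 p L x ∧ α t + 2 ≤ lev G v0 x ∧ lev G v0 x + 2 ≤ ω t := by
    intro x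
    rw [Finset.mem_union, mU, mB]
    constructor
    · rintro (⟨a, b, c⟩ | ⟨a, b⟩)
      · exact ⟨a, b, by omega⟩
      · exact ⟨b, by omega, by omega⟩
    · rintro ⟨a, b, c⟩
      rcases Nat.lt_or_ge (lev G v0 x + 2) (ω t) with h | h
      · left; exact ⟨a, b, by omega⟩
      · right; exact ⟨by omega, a⟩
  have near0 : Near G v0 p L (p 0) := near_p E (Nat.zero_le _)
  have nbr : ∀ x y, G.Adj x y → ¬ Near G v0 p L x → α t + 2 ≤ lev G v0 x → lev G v0 x + 2 ≤ ω t →
      ¬ Near G v0 p L y ∧ lev G v0 y ≤ lev G v0 x + 1 ∧ lev G v0 x ≤ lev G v0 y + 1 := by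
    intro x y hxy hn h1 h2
    have l1 := lev_adj hconn v0 hxy
    have l2 := lev_adj hconn v0 hxy.symm
    have ss := same_side E ht hxy (by omega) (by omega) (by omega) (by omega)
    exact ⟨fun hy => hn (ss.2 hy), l2, l1⟩
  refine piece_count E.hk h n (Em := Bn G v0 p L (α t + 1)) (Ep := Bn G v0 p L (ω t - 1))
    (x0 := p 0) (z0 := p 0) (v := p 0) ?_ ?_ ?_ ?_ ?_ ?_ ?_ ?_ ?_ ?_ ?_ ?_ ?_ ?_
  · intro x hx y hy hxy
    have hx' := (mUE x).1 hx
    have hy' := (mUE y).1 hy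
    exact hlip x y hx'.1 hx'.2.1 hx'.2.2 hy'.1 hy'.2.1 hy'.2.2 hxy
  · intro x hx
    have := (mB x _).1 hx
    exact (mU x).2 ⟨this.2, by omega, by omega⟩
  · rw [Finset.disjoint_left]
    intro x hx hx'
    have h1 := (mU x).1 hx
    have h2 := (mB x _).1 hx'
    omega
  · rw [Finset.disjoint_left]
    intro x hx hx'
    have h1 := (mUE x).1 hx'
    have h2 := (mB x _).1 hx
    omega
  · rw [Finset.disjoint_left]
    intro x hx hx'
    have h1 := (mUE x).1 hx'
    have h2 := (mB x _).1 hx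
    omega
  · intro x hx y hxy
    have h1 := (mU x).1 hx
    have h2 := nbr x y hxy h1.1 h1.2.1 (by omega)
    rcases Nat.lt_or_ge (lev G v0 y) (α t + 2) with h3 | h3
    · right; left
      exact (mB y _).2 ⟨by omega, h2.1⟩
    · left
      exact (mUE y).2 ⟨h2.1, h3, by omega⟩
  · intro x hx y hxy
    have h1 : ¬ Near G v0 p L x ∧ α t + 3 ≤ lev G v0 x ∧ lev G v0 x + 2 ≤ ω t := by
      rcases Finset.mem_union.1 hx with hx | hx
      · rw [Finset.mem_sdiff] at hx
        have h3 := (mU x).1 hx.1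
        have h4 : lev G v0 x ≠ α t + 2 := fun h4 => hx.2 ((mB x _).2 ⟨h4, h3.1⟩)
        exact ⟨h3.1, by omega, by omega⟩
      · have h3 := (mB x _).1 hx
        exact ⟨h3.2, by omega, by omega⟩
    have h2 := nbr x y hxy h1.1 (by omega) (by omega)
    rcases Nat.lt_or_ge (ω t) (lev G v0 y + 2) with h3 | h3
    · right; left
      exact (mB y _).2 ⟨by omega, h2.1⟩
    · left
      exact (mUE y).2 ⟨h2.1, by omega, by omega⟩
  · exact (R.exB t ht _ (Or.inl ⟨by omega, by omega⟩)).le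
  · exact (R.exB t ht _ (Or.inr ⟨by omega, by omega⟩)).le
  · exact R.exB t ht _ (Or.inl ⟨by omega, by omega⟩)
  · exact R.exB t ht _ (Or.inr ⟨by omega, by omega⟩)
  · intro hx; exact ((mUE _).1 hx).1 near0
  · intro hx; exact ((mB _ _).1 hx).2 near0
  · intro hx; exact ((mB _ _).1 hx).2 near0

end

end Pool.RBE.S4
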