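import Pool.Agent.RBE.S4.M1
import Pool.Agent.RBE.S4.M2

set_option autoImplicit false

/-! [M3b] the window piece. -/

namespace Pool.RBE.S4

open SimpleGraph Pool.Agent.RBC

section
variable {V : Type} [Fintype V] {G : SimpleGraph V} {v0 : V} {p : ℕ → V}
    {D L q m d0 M N : ℕ} {s e α ω : ℕ → ℕ} {r : ℕ → ℕ → V}

open Classical in
/-- `Z` without its upper far cut -/
noncomputable def zU (G : SimpleGraph V) (v0 : V) (p : ℕ → V) (L : ℕ) (α : ℕ → ℕ) (Z : Set V)
    (t : ℕ) : Finset V :=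
  Finset.univ.filter (fun x => x ∈ Z ∧ ¬ (¬ Near G v0 p L x ∧ lev G v0 x = α (t + 1) + 2))

open Classical in
/-- [M3b] the window piece.
Proof. `piece_count` with `U = zU Z t`, `Elo = Bn (ω t - 2)` (`⊆ Z` by `lo`), `Ehi = Bn (α (t+1) + 2)` (`⊆ Z` by `hi`; so
`U ∪ Ehi = Z`), `Em = Bn (ω t - 3)`, `Ep = Bn (α (t+1) + 3)` (no vertex of `XX`, so disjoint from `Z`), `x0, z0` of `TW`,
`v = p 0`. Neighbours `y` of `x ∈ Z`: `y ∈ Z`; or `y ∈ XX \ Z`: `(x0, z0)` by `TW.one`; or `y ∉ XX`: `nbr_out`: some `t'`; `x` near: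
`lev x ∈ {α t', ω t'}`, with the levels of `tw_lev` and `env_mono` only `ω t` and `α (t+1)` are possible (or, if `t' = t` and
`lev x = α t`: impossible, `α t < ω t - 2`): excluded by `noA`. `x` far: `lev x = α t' + 2`, `lev y = α t' + 3`: then `t' = t + 1`,
`y ∈ Ep` and `x ∈ Ehi` (not in `U`); or `lev x + 2 = ω t'`, `lev y + 3 = ω t'`: then `t' = t`, `y ∈ Em`, `x ∈ Elo`. -/
theorem window_piece (E : Env G v0 p D L q m d0 M N s e α ω r) {t : ℕ} {Z : Set V} {x0 z0 : V}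
    (hT : TW G v0 p D L N α ω t Z x0 z0) (h : V → ℕ) (n : ℕ)
    (hlip : ∀ x ∈ Z, ∀ y ∈ Z, G.Adj x y → h y ≤ h x + 1) :
    ((Bn G v0 p L (ω t - 2)).filter (fun x => h x ≤ n)).card ≤
      ((zU G v0 p L α Z t).filter (fun x => h x = n)).card +
        ((Bn G v0 p L (α (t + 1) + 2)).filter (fun x => h x ≤ n)).card := by
  classical
  have htN := hT.tN
  have ht0 : t < N := by omega
  have hαω0 := E.rings.hαω t ht0
  have hαω1 := E.rings.hαω (t + 1) htN
  have hm01 := env_mono E (show t < t + 1 by omega) htN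
  have memB : ∀ i (x : V), x ∈ Bn G v0 p L i ↔ lev G v0 x = i ∧ ¬ Near G v0 p L x := by
    intro i x
    simp [Bn]
  have memU : ∀ x : V, x ∈ zU G v0 p L α Z t ↔
      x ∈ Z ∧ ¬ (¬ Near G v0 p L x ∧ lev G v0 x = α (t + 1) + 2) := by
    intro x
    simp only [zU, Finset.mem_filter, Finset.mem_univ, true_and]
  have memZ : ∀ x : V, x ∈ zU G v0 p L α Z t ∪ Bn G v0 p L (α (t + 1) + 2) ↔ x ∈ Z := by
    intro x
    rw [Finset.mem_union, memU, memB]
    constructor
    · rintro (h1 | h1)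
      · exact h1.1
      · exact hT.hi x h1.1 h1.2
    · intro hx
      by_cases h1 : ¬ Near G v0 p L x ∧ lev G v0 x = α (t + 1) + 2
      · exact Or.inr ⟨h1.2, h1.1⟩
      · exact Or.inl ⟨hx, h1⟩
  have hge : ∀ t', t + 1 < t' → t' < N → ω (t + 1) < α t' ∧ ω (t + 1) < ω t' := by
    intro t' h1 h2
    have h3 := env_mono E h1 h2
    omega
  have hle : ∀ t', t' < t → α t' < α t ∧ ω t' < α t ∧ ω t' < ω t := by
    intro t' h1
    have h3 := env_mono E h1 ht0
    omega
  -- neighbours outside `XX`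
  have hout : ∀ x ∈ Z, ∀ y, G.Adj x y → y ∉ XX G v0 p L N α ω →
      (¬ Near G v0 p L x ∧ ¬ Near G v0 p L y ∧ lev G v0 x = α (t + 1) + 2 ∧
        lev G v0 y = α (t + 1) + 3) ∨
      (¬ Near G v0 p L x ∧ ¬ Near G v0 p L y ∧ lev G v0 x + 2 = ω t ∧ lev G v0 y + 3 = ω t) := by
    intro x hx y hxy hy
    obtain ⟨hl1, hl2⟩ := tw_lev E hT hx
    have hA := hT.noA x hx
    obtain ⟨t', ht', h1⟩ := nbr_out E (hT.sub x hx).1 hy hxy
    rcases lt_trichotomy t' t with h2 | h2 | h2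
    · have h3 := hle t' h2
      exfalso
      rcases h1 with ⟨_, _, h4 | h4⟩ | ⟨_, _, h4 | h4⟩ <;> omega
    · subst h2
      rcases h1 with ⟨h5, _, h4 | h4⟩ | ⟨h5, h6, h4 | h4⟩
      · exfalso
        omega
      · exact absurd h4.1 (hA h5).1
      · exfalso
        omega
      · exact Or.inr ⟨h5, h6, h4.1, h4.2⟩
    · rcases Nat.lt_or_ge (t + 1) t' with h7 | h7
      · have h3 := hge t' h7 ht'
        exfalso
        rcases h1 with ⟨_, _, h4 | h4⟩ | ⟨_, _, h4 | h4⟩ <;> omega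
      · have h8 : t' = t + 1 := by omega
        subst h8
        rcases h1 with ⟨h5, _, h4 | h4⟩ | ⟨h5, h6, h4 | h4⟩
        · exact absurd h4.1 (hA h5).2
        · exfalso
          omega
        · exact Or.inl ⟨h5, h6, h4.1, h4.2⟩
        · exfalso
          omega
  have key := piece_count (q := q) E.hk (U := zU G v0 p L α Z t) (Elo := Bn G v0 p L (ω t - 2))
    (Ehi := Bn G v0 p L (α (t + 1) + 2)) (Em := Bn G v0 p L (ω t - 3))
    (Ep := Bn G v0 p L (α (t + 1) + 3)) h n (x0 := x0) (z0 := z0) (v := p 0)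
  refine key ?_ ?_ ?_ ?_ ?_ ?_ ?_ ?_ ?_ ?_ ?_ ?_ ?_ ?_
  · intro x hx y hy hxy
    exact hlip x ((memZ x).1 hx) y ((memZ y).1 hy) hxy
  · intro x hx
    rw [memB] at hx
    rw [memU]
    refine ⟨hT.lo x (by omega) hx.2, ?_⟩
    rintro ⟨_, h2⟩
    omega
  · rw [Finset.disjoint_left]
    intro x hx hx'
    rw [memU] at hx
    rw [memB] at hx'
    exact hx.2 ⟨hx'.2, hx'.1⟩
  · rw [Finset.disjoint_left]
    intro x hx hx'
    rw [memZ] at hx'
    rw [memB] at hx
    exact ((hT.sub x hx').1 t ht0).2 hx.2 ⟨by omega, by omega⟩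
  · rw [Finset.disjoint_left]
    intro x hx hx'
    rw [memZ] at hx'
    rw [memB] at hx
    have := (tw_lev E hT hx').2
    omega
  · intro x hx y hxy
    have hxZ := ((memU x).1 hx).1
    by_cases hyZ : y ∈ Z
    · exact Or.inl ((memZ y).2 hyZ)
    · by_cases hyX : y ∈ XX G v0 p L N α ω
      · exact Or.inr (Or.inr (hT.one x hxZ y hyX hyZ hxy))
      · rcases hout x hxZ y hxy hyX with h1 | h1
        · exact absurd ⟨h1.1, h1.2.2.1⟩ ((memU x).1 hx).2
        · refine Or.inr (Or.inl ?_)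
          rw [memB]
          exact ⟨by omega, h1.2.1⟩
  · intro x hx y hxy
    have hxZ : x ∈ Z := by
      rw [← memZ]
      rcases Finset.mem_union.1 hx with h1 | h1
      · exact Finset.mem_union_left _ (Finset.mem_sdiff.1 h1).1
      · exact Finset.mem_union_right _ h1
    by_cases hyZ : y ∈ Z
    · exact Or.inl ((memZ y).2 hyZ)
    · by_cases hyX : y ∈ XX G v0 p L N α ω
      · exact Or.inr (Or.inr (hT.one x hxZ y hyX hyZ hxy))
      · rcases hout x hxZ y hxy hyX with h1 | h1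
        · refine Or.inr (Or.inl ?_)
          rw [memB]
          exact ⟨h1.2.2.2, h1.2.1⟩
        · exfalso
          rcases Finset.mem_union.1 hx with h2 | h2
          · exact (Finset.mem_sdiff.1 h2).2 ((memB _ _).2 ⟨by omega, h1.1⟩)
          · have h3 := ((memB _ _).1 h2).1
            omega
  · exact le_of_eq (E.rings.exB t ht0 _ (Or.inr ⟨by omega, by omega⟩))
  · exact le_of_eq (E.rings.exB (t + 1) htN _ (Or.inl ⟨by omega, by omega⟩))
  · exact E.rings.exB t ht0 _ (Or.inr ⟨by omega, by omega⟩)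
  · exact E.rings.exB (t + 1) htN _ (Or.inl ⟨by omega, by omega⟩)
  · rw [memZ]
    intro h1
    exact (hT.sub _ h1).2.2 ⟨0, Nat.zero_le _, rfl⟩
  · rw [memB]
    exact fun h1 => h1.2 (near_p E (Nat.zero_le _))
  · rw [memB]
    exact fun h1 => h1.2 (near_p E (Nat.zero_le _))

end

end Pool.RBE.S4
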