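import Pool.Agent.RBE.S4.M3a
import Pool.Agent.RBE.S4.M3b

set_option autoImplicit false

/-! [M3c] the level sets of the far side. -/

namespace Pool.RBE.S4

open SimpleGraph Pool.Agent.RBC

section
variable {V : Type} [Fintype V] {G : SimpleGraph V} {v0 : V} {p : ℕ → V}
    {D L q m d0 M N : ℕ} {s e α ω : ℕ → ℕ} {r : ℕ → ℕ → V}

open Classical in
/-- the far side without its upper far cut -/
private noncomputable def m3cR (G : SimpleGraph V) (v0 : V) (p : ℕ → V) (L : ℕ) (α ω : ℕ → ℕ)
    (Zf : ℕ → Set V) (f g : ℕ) : Finset V :=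
  Finset.univ.filter (fun x => x ∈ FarSide G v0 p L α ω Zf f g ∧
    ¬ (¬ Near G v0 p L x ∧ lev G v0 x + 2 = ω g))

omit [Fintype V] in
private theorem m3c_mono {Zf : ℕ → Set V} {f g g' : ℕ} (h : g ≤ g') {x : V}
    (hx : x ∈ FarSide G v0 p L α ω Zf f g) : x ∈ FarSide G v0 p L α ω Zf f g' := by
  rcases hx with ⟨t, h1, h2, h3⟩ | ⟨t, h1, h2, h3⟩
  · exact Or.inl ⟨t, h1, h2.trans h, h3⟩
  · exact Or.inr ⟨t, h1, lt_of_lt_of_le h2 h, h3⟩

open Classical in
private theorem m3c_aux (E : Env G v0 p D L q m d0 M N s e α ω r) {Zf : ℕ → Set V}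
    {xf zf : ℕ → V} {f g : ℕ} (hfg : f ≤ g) (hg : g < N)
    (hT : ∀ t, f ≤ t → t < g → TW G v0 p D L N α ω t (Zf t) (xf t) (zf t)) (h : V → ℕ) (n : ℕ)
    (hlip : ∀ x ∈ FarSide G v0 p L α ω Zf f g, ∀ y ∈ FarSide G v0 p L α ω Zf f g,
      G.Adj x y → h y ≤ h x + 1)
    (h0 : ∀ x, ¬ Near G v0 p L x → lev G v0 x = α f + 2 → h x = 0) :
    q ≤ ((m3cR G v0 p L α ω Zf f g).filter (fun x => h x = n)).card +
      ((Bn G v0 p L (ω g - 2)).filter (fun x => h x ≤ n)).card := by
  induction g, hfg using Nat.le_induction with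
  | base =>
    have h1 := ring_piece E hg h n (by
      intro x y hx1 hx2 hx3 hy1 hy2 hy3 hxy
      exact hlip x (Or.inl ⟨f, le_rfl, le_rfl, hx1, hx2, hx3⟩) y
        (Or.inl ⟨f, le_rfl, le_rfl, hy1, hy2, hy3⟩) hxy)
    have h2 : (Bn G v0 p L (α f + 2)).filter (fun x => h x ≤ n) = Bn G v0 p L (α f + 2) := by
      apply Finset.filter_true_of_mem
      intro x hx
      rw [Bn, Finset.mem_filter] at hx
      rw [h0 x hx.2.2 hx.2.1]
      exact Nat.zero_le _
    have h3 : (Bn G v0 p L (α f + 2)).card = q :=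
      E.rings.exB f hg _ (Or.inl ⟨by omega, by omega⟩)
    rw [h2, h3] at h1
    refine h1.trans (Nat.add_le_add_right (Finset.card_le_card ?_) _)
    intro x hx
    rw [Finset.mem_filter, ringU, Finset.mem_filter] at hx
    rw [Finset.mem_filter, m3cR, Finset.mem_filter]
    obtain ⟨⟨-, a1, a2, a3⟩, a4⟩ := hx
    refine ⟨⟨Finset.mem_univ _, Or.inl ⟨f, le_rfl, le_rfl, a1, a2, by omega⟩, ?_⟩, a4⟩
    rintro ⟨-, b2⟩
    omega
  | succ g hfg ih =>
    have ih' := ih (by omega) (fun t h1 h2 => hT t h1 (by omega))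
      (fun x hx y hy hxy => hlip x (m3c_mono (by omega) hx) y (m3c_mono (by omega) hy) hxy)
    have hTg := hT g hfg (by omega)
    have hw := window_piece E hTg h n (by
      intro x hx y hy hxy
      exact hlip x (Or.inr ⟨g, hfg, by omega, hx⟩) y (Or.inr ⟨g, hfg, by omega, hy⟩) hxy)
    have hr := ring_piece E hg h n (by
      intro x y hx1 hx2 hx3 hy1 hy2 hy3 hxy
      exact hlip x (Or.inl ⟨g + 1, by omega, le_rfl, hx1, hx2, hx3⟩) y
        (Or.inl ⟨g + 1, by omega, le_rfl, hy1, hy2, hy3⟩) hxy)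
    have hmono := env_mono E (show g < g + 1 by omega) hg
    have hαω := E.rings.hαω (g + 1) hg
    have hαωg := E.rings.hαω g (by omega)
    have hlevR : ∀ x ∈ FarSide G v0 p L α ω Zf f g, lev G v0 x + 2 ≤ ω g := fun x hx =>
      (farside_lev E (show g < N by omega) (fun t h1 h2 => hT t h1 (by omega)) hx).2
    have hcard : ((m3cR G v0 p L α ω Zf f g).filter (fun x => h x = n)).card +
        ((zU G v0 p L α (Zf g) g).filter (fun x => h x = n)).card +
        ((ringU G v0 p L α ω (g + 1)).filter (fun x => h x = n)).card ≤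
        ((m3cR G v0 p L α ω Zf f (g + 1)).filter (fun x => h x = n)).card := by
      have d1 : Disjoint ((m3cR G v0 p L α ω Zf f g).filter (fun x => h x = n))
          ((zU G v0 p L α (Zf g) g).filter (fun x => h x = n)) := by
        rw [Finset.disjoint_left]
        intro x hx hy
        rw [Finset.mem_filter, m3cR, Finset.mem_filter] at hx
        rw [Finset.mem_filter, zU, Finset.mem_filter] at hy
        obtain ⟨⟨-, a1, a2⟩, -⟩ := hx
        obtain ⟨⟨-, b1, b2⟩, -⟩ := hy
        have c1 := hlevR x a1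
        have c2 := (tw_lev E hTg b1).1
        have c3 : Near G v0 p L x := by
          by_contra c
          exact a2 ⟨c, by omega⟩
        have c4 := ((hTg.sub x b1).1 g (by omega)).1 c3
        apply c4
        constructor <;> omega
      have d2 : Disjoint ((m3cR G v0 p L α ω Zf f g).filter (fun x => h x = n) ∪
          (zU G v0 p L α (Zf g) g).filter (fun x => h x = n))
          ((ringU G v0 p L α ω (g + 1)).filter (fun x => h x = n)) := by
        rw [Finset.disjoint_left]
        intro x hx hy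
        rw [Finset.mem_filter, ringU, Finset.mem_filter] at hy
        obtain ⟨⟨-, b1, b2, b3⟩, -⟩ := hy
        rw [Finset.mem_union] at hx
        rcases hx with hx | hx
        · rw [Finset.mem_filter, m3cR, Finset.mem_filter] at hx
          have c1 := hlevR x hx.1.2.1
          omega
        · rw [Finset.mem_filter, zU, Finset.mem_filter] at hx
          have c2 := (tw_lev E hTg hx.1.2.1).2
          exact hx.1.2.2 ⟨b1, by omega⟩
      rw [← Finset.card_union_of_disjoint d1, ← Finset.card_union_of_disjoint d2]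
      apply Finset.card_le_card
      intro x hx
      rw [Finset.mem_filter, m3cR, Finset.mem_filter]
      rw [Finset.mem_union, Finset.mem_union] at hx
      rcases hx with (hx | hx) | hx
      · rw [Finset.mem_filter, m3cR, Finset.mem_filter] at hx
        have c1 := hlevR x hx.1.2.1
        refine ⟨⟨Finset.mem_univ _, m3c_mono (by omega) hx.1.2.1, ?_⟩, hx.2⟩
        rintro ⟨-, c⟩
        omega
      · rw [Finset.mem_filter, zU, Finset.mem_filter] at hx
        have c2 := (tw_lev E hTg hx.1.2.1).2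
        refine ⟨⟨Finset.mem_univ _, Or.inr ⟨g, hfg, by omega, hx.1.2.1⟩, ?_⟩, hx.2⟩
        rintro ⟨-, c⟩
        omega
      · rw [Finset.mem_filter, ringU, Finset.mem_filter] at hx
        refine ⟨⟨Finset.mem_univ _, Or.inl ⟨g + 1, by omega, le_rfl, hx.1.2.1, hx.1.2.2.1,
          by omega⟩, ?_⟩, hx.2⟩
        rintro ⟨-, c⟩
        omega
    omega

open Classical in
/-- [M3c] The level sets of the far side.
Proof. Let `R g' = FarSide f g'` without `Bn (ω g' - 2)`. By induction on `g'` (`f ≤ g' ≤ g`):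
`q ≤ |{x ∈ R g' | h x = n}| + |{x ∈ Bn (ω g' - 2) | h x ≤ n}|`. `g' = f`: `ring_piece` for `f`; `|Bn (α f + 2)| = q` and
`h = 0 ≤ n` there. Step: `window_piece` for `g'` and `ring_piece` for `g' + 1`; the sets `R g'`, `zU (Zf g') g'`, `ringU (g'+1)` are
pairwise disjoint subsets of `R (g'+1)` (levels: `R g'` has far vertices of level `≤ ω g' - 3` or is below; `tw_lev`,
`farside_lev`; `zU` has no vertex of `ringU (g'+1)`: a far vertex of `XX` of level `≥ α (g'+1) + 2` in the window has level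
`α (g'+1) + 2`). For `g' = g`: `h > n` on `Bn (ω g - 2)`. -/
theorem level_count (E : Env G v0 p D L q m d0 M N s e α ω r) {Zf : ℕ → Set V} {xf zf : ℕ → V}
    {f g : ℕ} (hfg : f ≤ g) (hg : g < N)
    (hT : ∀ t, f ≤ t → t < g → TW G v0 p D L N α ω t (Zf t) (xf t) (zf t)) (h : V → ℕ) (n : ℕ)
    (hlip : ∀ x ∈ FarSide G v0 p L α ω Zf f g, ∀ y ∈ FarSide G v0 p L α ω Zf f g,
      G.Adj x y → h y ≤ h x + 1)
    (h0 : ∀ x, ¬ Near G v0 p L x → lev G v0 x = α f + 2 → h x = 0)
    (hn : ∀ x, ¬ Near G v0 p L x → lev G v0 x + 2 = ω g → n < h x) :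
    q ≤ (Finset.univ.filter (fun x => x ∈ FarSide G v0 p L α ω Zf f g ∧ h x = n)).card := by
  have h1 := m3c_aux E hfg hg hT h n hlip h0
  have hαω := E.rings.hαω g hg
  have h2 : (Bn G v0 p L (ω g - 2)).filter (fun x => h x ≤ n) = ∅ := by
    apply Finset.filter_eq_empty_iff.2
    intro x hx
    rw [Bn, Finset.mem_filter] at hx
    have := hn x hx.2.2 (by omega)
    omega
  rw [h2, Finset.card_empty, add_zero] at h1
  refine h1.trans (Finset.card_le_card ?_)
  intro x hx
  rw [Finset.mem_filter, m3cR, Finset.mem_filter] at hx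
  rw [Finset.mem_filter]
  exact ⟨Finset.mem_univ _, hx.1.2.1, hx.2⟩

end

end Pool.RBE.S4
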