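import Pool.Agent.RBE.S4.M3c
import Pool.Agent.RBE.S4.M1e
import Pool.Agent.RBE.RD

set_option autoImplicit false

/-! [M4a] the rider of a merged ring. -/

namespace Pool.RBE.S4

open SimpleGraph Pool.Agent.RBC

section
variable {V : Type} [Fintype V] {G : SimpleGraph V} {v0 : V} {p : ℕ → V}
    {D L q m d0 M N : ℕ} {s e α ω : ℕ → ℕ} {r : ℕ → ℕ → V}

private theorem m4a_reach {V : Type} {G : SimpleGraph V} {R : Set V} {x y : V} (w : G.Walk x y)
    (hw : ∀ z ∈ w.support, z ∈ R) (hx : x ∈ R) (hy : y ∈ R) :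
    (G.induce R).Reachable ⟨x, hx⟩ ⟨y, hy⟩ := by
  induction w with
  | nil => exact Reachable.refl _
  | @cons a b c hab w ih =>
    have hb : b ∈ R := hw b (by simp)
    have h1 : (G.induce R).Adj ⟨a, hx⟩ ⟨b, hb⟩ := by simpa using hab
    exact h1.reachable.trans (ih (fun z hz => hw z (by simp [hz])) hb hy)

open Classical in
private theorem m4a_sum {V : Type} [Fintype V] {q ℓ : ℕ} (R : Set V) (h : V → ℕ)
    (hh : ∀ n < ℓ, q ≤ (Finset.univ.filter (fun x => x ∈ R ∧ h x = n)).card) :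
    ∀ n ≤ ℓ, q * n ≤ (Finset.univ.filter (fun x => x ∈ R ∧ h x < n)).card := by
  intro n
  induction n with
  | zero => intro _; simp
  | succ n ih =>
    intro hn
    have h1 := ih (by omega)
    have h2 := hh n (by omega)
    have hd : Disjoint (Finset.univ.filter (fun x => x ∈ R ∧ h x < n))
        (Finset.univ.filter (fun x => x ∈ R ∧ h x = n)) := by
      rw [Finset.disjoint_left]
      intro x hx hy
      rw [Finset.mem_filter] at hx hy
      omega
    have h3 : ((Finset.univ.filter (fun x => x ∈ R ∧ h x < n)) ∪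
        (Finset.univ.filter (fun x => x ∈ R ∧ h x = n))).card ≤
        (Finset.univ.filter (fun x => x ∈ R ∧ h x < n + 1)).card := by
      apply Finset.card_le_card
      intro x hx
      rw [Finset.mem_union, Finset.mem_filter, Finset.mem_filter] at hx
      rw [Finset.mem_filter]
      rcases hx with hx | hx
      · exact ⟨Finset.mem_univ _, hx.2.1, by omega⟩
      · exact ⟨Finset.mem_univ _, hx.2.1, by omega⟩
    rw [Finset.card_union_of_disjoint hd] at h3
    rw [Nat.mul_succ]
    omega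

open Classical in
/-- [M4a] A shortest path of the far side from its lower end to its upper end.
Proof. `R = FarSide f g`; `G.induce R` is connected (`farside_conn`). A forest `(h, π)` of it over the far vertices of level
`α f + 2` (`exists_forest`; nonempty: `r f (α f + 2)`). `u` = a far vertex of level `ω g - 2` (in `R`; exists) with
`ℓ := h u` minimal. `ρ y := π^[ℓ - y] u` for `y ≤ ℓ` (`forest_h_iter` in RD: its height is `y`). Height `0` iff in the
lower end: gives `ρ 0` and the condition on `ρ y`, `0 < y`; the condition for `y < ℓ`: minimality of `ℓ`. Different heights: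
injective. The count: for `n < ℓ` `level_count` (with `h` extended by `0` outside `R`): `q` vertices of height `n`; together
with the `q` vertices of `Bn (ω g - 2)` (height `≥ ℓ`) `q (ℓ + 1)` vertices. -/
theorem merged_rider (E : Env G v0 p D L q m d0 M N s e α ω r) {Zf : ℕ → Set V} {xf zf : ℕ → V}
    {f g : ℕ} (hfg : f ≤ g) (hg : g < N)
    (hT : ∀ t, f ≤ t → t < g → TW G v0 p D L N α ω t (Zf t) (xf t) (zf t)) :
    ∃ (ℓ : ℕ) (ρ : ℕ → V), (∀ y ≤ ℓ, ρ y ∈ FarSide G v0 p L α ω Zf f g) ∧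
      ¬ Near G v0 p L (ρ 0) ∧ lev G v0 (ρ 0) = α f + 2 ∧
      ¬ Near G v0 p L (ρ ℓ) ∧ lev G v0 (ρ ℓ) + 2 = ω g ∧
      (∀ y < ℓ, G.Adj (ρ y) (ρ (y + 1))) ∧ (∀ y ≤ ℓ, ∀ z ≤ ℓ, ρ y = ρ z → y = z) ∧
      (∀ y ≤ ℓ, 0 < y → ¬ (¬ Near G v0 p L (ρ y) ∧ lev G v0 (ρ y) = α f + 2)) ∧
      (∀ y < ℓ, ¬ (¬ Near G v0 p L (ρ y) ∧ lev G v0 (ρ y) + 2 = ω g)) ∧
      q * (ℓ + 1) ≤
        (Finset.univ.filter (fun x => x ∈ FarSide G v0 p L α ω Zf f g)).card := by
  set R : Set V := FarSide G v0 p L α ω Zf f g with hR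
  have hf : f < N := by omega
  have af := E.rings.hα f hf
  have ag := E.rings.hα g hg
  have bf := E.rings.hαω f hf
  have bg := E.rings.hαω g hg
  have cf := E.rings.hω f hf
  have cg := E.rings.hω g hg
  have rf := E.rings.rB f hf (α f + 2) (by omega) (by omega)
  have rg := E.rings.rB g hg (ω g - 2) (by omega) (by omega)
  have hbase : r f (α f + 2) ∈ R :=
    Or.inl ⟨f, le_rfl, hfg, rf.2, by rw [rf.1], by rw [rf.1]; omega⟩
  have hup : ∀ x, ¬ Near G v0 p L x → lev G v0 x + 2 = ω g → x ∈ R := fun x h1 h2 =>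
    Or.inl ⟨g, hfg, le_rfl, h1, by omega, by omega⟩
  have hconn : (G.induce R).Connected := by
    have : Nonempty R := ⟨⟨_, hbase⟩⟩
    refine ⟨fun x y => ?_⟩
    obtain ⟨w1, hw1⟩ := farside_conn E hfg hg hT x.2
    obtain ⟨w2, hw2⟩ := farside_conn E hfg hg hT y.2
    exact (m4a_reach w1 hw1 x.2 hbase).trans (m4a_reach w2 hw2 y.2 hbase).symm
  obtain ⟨h, π, F, -⟩ := exists_forest hconn
    (D := {x : R | ¬ Near G v0 p L x.1 ∧ lev G v0 x.1 = α f + 2})
    ⟨⟨_, hbase⟩, rf.2, rf.1⟩
  -- the upper end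
  have hex : ∃ n, ∃ u : R, ¬ Near G v0 p L u.1 ∧ lev G v0 u.1 + 2 = ω g ∧ h u = n :=
    ⟨_, ⟨r g (ω g - 2), hup _ rg.2 (by rw [rg.1]; omega)⟩, rg.2, by
      show lev G v0 (r g (ω g - 2)) + 2 = ω g
      rw [rg.1]; omega, rfl⟩
  obtain ⟨u, hu1, hu2, hu3⟩ := Nat.find_spec hex
  have hmin : ∀ x : R, ¬ Near G v0 p L x.1 → lev G v0 x.1 + 2 = ω g → h u ≤ h x := by
    intro x h1 h2
    rw [hu3]
    exact Nat.find_min' hex ⟨x, h1, h2, rfl⟩
  have hht : ∀ y ≤ h u, h (π^[h u - y] u) = y := by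
    intro y hy
    rw [forest_h_iter F u (h u - y) (by omega)]
    omega
  refine ⟨h u, fun y => (π^[h u - y] u).1, fun y _ => (π^[h u - y] u).2, ?_, ?_, ?_, ?_, ?_, ?_,
    ?_, ?_, ?_⟩
  · exact ((F.zero _).1 (hht 0 (Nat.zero_le _))).1
  · exact ((F.zero _).1 (hht 0 (Nat.zero_le _))).2
  · simpa using hu1
  · simpa using hu2
  · intro y hy
    have h1 := (F.step (π^[h u - (y + 1)] u) (by rw [hht (y + 1) hy]; omega)).1
    have h2 : π^[h u - y] u = π (π^[h u - (y + 1)] u) := by
      rw [show h u - y = (h u - (y + 1)) + 1 by omega, Function.iterate_succ_apply']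
    show G.Adj (π^[h u - y] u).1 (π^[h u - (y + 1)] u).1
    rw [h2]
    have h3 : G.Adj (π^[h u - (y + 1)] u).1 (π (π^[h u - (y + 1)] u)).1 := by simpa using h1
    exact h3.symm
  · intro y hy z hz hyz
    have h1 : π^[h u - y] u = π^[h u - z] u := Subtype.ext hyz
    rw [← hht y hy, h1, hht z hz]
  · intro y hy hy0 hc
    have h1 := (F.zero (π^[h u - y] u)).2 hc
    rw [hht y hy] at h1
    omega
  · intro y hy hc
    have h1 := hmin (π^[h u - y] u) hc.1 hc.2
    rw [hht y hy.le] at h1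
    omega
  · -- the count
    let h' : V → ℕ := fun x => if hx : x ∈ R then h ⟨x, hx⟩ else 0
    have hh' : ∀ x (hx : x ∈ R), h' x = h ⟨x, hx⟩ := fun x hx => dif_pos hx
    have hlev : ∀ n < h u,
        q ≤ (Finset.univ.filter (fun x => x ∈ R ∧ h' x = n)).card := by
      intro n hn
      refine level_count E hfg hg hT h' n ?_ ?_ ?_
      · intro x hx y hy hxy
        rw [hh' x hx, hh' y hy]
        refine F.lip _ _ ?_
        simpa using hxy.symm
      · intro x h1 h2
        by_cases hx : x ∈ R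
        · rw [hh' x hx]
          exact (F.zero _).2 ⟨h1, h2⟩
        · exact dif_neg hx
      · intro x h1 h2
        have hx := hup x h1 h2
        rw [hh' x hx]
        have := hmin ⟨x, hx⟩ h1 h2
        omega
    have h1 := m4a_sum R h' hlev (h u) le_rfl
    have h2 : (Bn G v0 p L (ω g - 2)).card = q :=
      E.rings.exB g hg _ (Or.inr ⟨by omega, by omega⟩)
    have hd : Disjoint (Finset.univ.filter (fun x => x ∈ R ∧ h' x < h u))
        (Bn G v0 p L (ω g - 2)) := by
      rw [Finset.disjoint_left]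
      intro x hx hy
      rw [Finset.mem_filter] at hx
      rw [Bn, Finset.mem_filter] at hy
      have h3 := hmin ⟨x, hx.2.1⟩ hy.2.2 (by show lev G v0 x + 2 = ω g; omega)
      have h4 := hh' x hx.2.1
      omega
    have h3 : ((Finset.univ.filter (fun x => x ∈ R ∧ h' x < h u)) ∪
        (Bn G v0 p L (ω g - 2))).card ≤ (Finset.univ.filter (fun x => x ∈ R)).card := by
      apply Finset.card_le_card
      intro x hx
      rw [Finset.mem_union, Finset.mem_filter, Bn, Finset.mem_filter] at hx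
      rw [Finset.mem_filter]
      rcases hx with hx | hx
      · exact ⟨Finset.mem_univ _, hx.2.1⟩
      · exact ⟨Finset.mem_univ _, hup x hx.2.2 (by omega)⟩
    rw [Finset.card_union_of_disjoint hd, h2] at h3
    rw [Nat.mul_succ]
    omega

end

end Pool.RBE.S4
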