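import Pool.Agent.RBE.S4.M1
import Pool.Agent.RBE.S4.W2b

set_option autoImplicit false

/-! [M4b] attaching the ends. -/

namespace Pool.RBE.S4

open SimpleGraph Pool.Agent.RBC

section
variable {V : Type} [Fintype V] {G : SimpleGraph V} {v0 : V} {p : ℕ → V}
    {D L q m d0 M N : ℕ} {s e α ω : ℕ → ℕ} {r : ℕ → ℕ → V}

private theorem M4b_lo (E : Env G v0 p D L q m d0 M N s e α ω r) {t : ℕ} (ht : t < N) {x : V}
    (hx : ¬ Near G v0 p L x) (h1 : α t ≤ lev G v0 x) (h2 : lev G v0 x ≤ α t + 2) :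
    x ∈ XX G v0 p L N α ω ∧ win G v0 N α x = t := by
  have R := E.rings
  have hm := E.hm
  constructor
  · intro t' ht'
    refine ⟨fun hn => absurd hn hx, fun _ => ?_⟩
    rintro ⟨h3, h4⟩
    rcases Nat.lt_trichotomy t' t with h | h | h
    · have := env_mono E h ht
      omega
    · subst h; omega
    · have := env_mono E h ht'
      have := R.hαω t' ht'
      omega
  · have a1 : ¬ (t < win G v0 N α x) := by
      rw [win_lt E ht]; omega
    rcases Nat.eq_zero_or_pos t with h | h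
    · omega
    · have a2 : t - 1 < win G v0 N α x := by
        rw [win_lt E (by omega)]
        have := env_mono E (show t - 1 < t by omega) ht
        have := R.hαω (t - 1) (by omega)
        omega
      omega

private theorem M4b_hi (E : Env G v0 p D L q m d0 M N s e α ω r) {t : ℕ} (ht : t < N) {x : V}
    (hx : ¬ Near G v0 p L x) (h1 : ω t ≤ lev G v0 x + 2) (h2 : lev G v0 x ≤ ω t) :
    x ∈ XX G v0 p L N α ω ∧ win G v0 N α x = t + 1 := by
  have R := E.rings
  have hm := E.hm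
  have o2 := R.hαω t ht
  constructor
  · intro t' ht'
    refine ⟨fun hn => absurd hn hx, fun _ => ?_⟩
    rintro ⟨h3, h4⟩
    rcases Nat.lt_trichotomy t' t with h | h | h
    · have := env_mono E h ht
      omega
    · subst h; omega
    · have := env_mono E h ht'
      omega
  · have a1 : t < win G v0 N α x := by
      rw [win_lt E ht]; omega
    rcases Nat.lt_or_ge (t + 1) N with h | h
    · have a2 : ¬ (t + 1 < win G v0 N α x) := by
        rw [win_lt E h]
        have := env_mono E (Nat.lt_succ_self t) h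
        have h5 : ω t + m + d0 < α (t + 1) := this.2.1
        omega
      omega
    · have a3 := win_le (G := G) (v0 := v0) (N := N) (α := α) x
      omega

private theorem M4b_two (E : Env G v0 p D L q m d0 M N s e α ω r) {z y1 y2 : V}
    (h1 : y1 ∈ XX G v0 p L N α ω) (h2 : y2 ∈ XX G v0 p L N α ω) (a1 : G.Adj z y1)
    (a2 : G.Adj z y2) (hne : lev G v0 y1 ≠ lev G v0 y2) :
    ¬ ∃ z', ∀ y ∈ XX G v0 p L N α ω, G.Adj z y → y = z' := by
  rintro ⟨z', h⟩
  apply hne
  rw [h y1 h1 a1, h y2 h2 a2]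

private theorem M4b_ex (E : Env G v0 p D L q m d0 M N s e α ω r) {t j : ℕ} (ht : t < N)
    (hj : α t ≤ j + m ∧ j ≤ α t + 6 ∨ ω t ≤ j + 6 ∧ j ≤ ω t + m) :
    ∃ v, lev G v0 v = j ∧ ¬ Near G v0 p L v := by
  have h1 := E.rings.exB t ht j hj
  have h2 := E.hq
  have h3 : (Bn G v0 p L j).Nonempty := by
    rw [← Finset.card_pos]; omega
  obtain ⟨v, hv⟩ := h3
  simp only [Bn, Finset.mem_filter, Finset.mem_univ, true_and] at hv
  exact ⟨v, hv⟩

/-- [M4b] Both ends of the far side can be attached to `X0`, by at most one edge: the lower end.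
Proof. If `b ∈ X0` take `z = b`. Otherwise: `comp_far` for the level `α t + 1` (some far `v` of that level): `b` is adjacent to
`z ∈ K ⊆ Bn (α t + 1)`. `z ∈ XX`, `win z = win b = t` (`adj_win`; `win_lt`), not of type T; `z` has two different neighbours in `XX`:
`comp_far` for `α t + 2` and `α t` (`z` far of level `α t + 1`): one of level `α t + 2`, one of level `α t`. So `z ∈ X0`. -/
theorem attach_lo (E : Env G v0 p D L q m d0 M N s e α ω r) {t : ℕ} (ht : t < N)
    (hnT : ¬ IsT G v0 p D L N α ω t) {b : V} (hb : ¬ Near G v0 p L b)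
    (hl : lev G v0 b = α t + 2) :
    b ∈ X0 G v0 p D L N α ω ∧ win G v0 N α b = t ∨
      ∃ z, G.Adj z b ∧ z ∈ X0 G v0 p D L N α ω ∧ win G v0 N α z = t ∧
        b ∉ X0 G v0 p D L N α ω := by
  have hm := E.hm
  have hbb := M4b_lo E ht hb (by omega) (by omega)
  by_cases hbX : b ∈ X0 G v0 p D L N α ω
  · exact Or.inl ⟨hbX, hbb.2⟩
  · right
    obtain ⟨v, hv1, hv2⟩ := M4b_ex E ht (j := α t + 1) (Or.inl ⟨by omega, by omega⟩)
    obtain ⟨K, hK, _, _, hK3⟩ := comp_far E ht (j := α t + 1) (Or.inl ⟨by omega, by omega⟩) hv1 hv2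
    obtain ⟨z, hzK, hbz⟩ := hK3 b hb (Or.inr (by omega))
    have hz := hK hzK
    simp only [Bn, Finset.mem_filter, Finset.mem_univ, true_and] at hz
    have hzz := M4b_lo E ht hz.2 (by omega) (by omega)
    obtain ⟨K1, hK1, _, _, hK13⟩ := comp_far E ht (j := α t + 2) (Or.inl ⟨by omega, by omega⟩) hl hb
    obtain ⟨y1, hy1K, hy1⟩ := hK13 z hz.2 (Or.inl (by omega))
    have hy1' := hK1 hy1K
    simp only [Bn, Finset.mem_filter, Finset.mem_univ, true_and] at hy1'
    obtain ⟨v', hv1', hv2'⟩ := M4b_ex E ht (j := α t) (Or.inl ⟨by omega, by omega⟩)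
    obtain ⟨K2, hK2, _, _, hK23⟩ := comp_far E ht (j := α t) (Or.inl ⟨by omega, by omega⟩) hv1' hv2'
    obtain ⟨y2, hy2K, hy2⟩ := hK23 z hz.2 (Or.inr (by omega))
    have hy2' := hK2 hy2K
    simp only [Bn, Finset.mem_filter, Finset.mem_univ, true_and] at hy2'
    refine ⟨z, hbz.symm, ⟨hzz.1, by rw [hzz.2]; exact hnT, Or.inr ?_⟩, hzz.2, hbX⟩
    exact M4b_two E (M4b_lo E ht hy1'.2 (by omega) (by omega)).1
      (M4b_lo E ht hy2'.2 (by omega) (by omega)).1 hy1 hy2 (by omega)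

/-- [M4c] the upper end. Proof as `attach_lo`, with the levels `ω t - 1` (and `ω t - 2`, `ω t`). -/
theorem attach_hi (E : Env G v0 p D L q m d0 M N s e α ω r) {t : ℕ} (ht : t < N)
    (hnT : ¬ IsT G v0 p D L N α ω (t + 1)) {b : V} (hb : ¬ Near G v0 p L b)
    (hl : lev G v0 b + 2 = ω t) :
    b ∈ X0 G v0 p D L N α ω ∧ win G v0 N α b = t + 1 ∨
      ∃ z, G.Adj b z ∧ z ∈ X0 G v0 p D L N α ω ∧ win G v0 N α z = t + 1 ∧
        b ∉ X0 G v0 p D L N α ω := by
  have hm := E.hm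
  have hbb := M4b_hi E ht hb (by omega) (by omega)
  by_cases hbX : b ∈ X0 G v0 p D L N α ω
  · exact Or.inl ⟨hbX, hbb.2⟩
  · right
    obtain ⟨v, hv1, hv2⟩ := M4b_ex E ht (j := ω t - 1) (Or.inr ⟨by omega, by omega⟩)
    obtain ⟨K, hK, _, _, hK3⟩ := comp_far E ht (j := ω t - 1) (Or.inr ⟨by omega, by omega⟩) hv1 hv2
    obtain ⟨z, hzK, hbz⟩ := hK3 b hb (Or.inl (by omega))
    have hz := hK hzK
    simp only [Bn, Finset.mem_filter, Finset.mem_univ, true_and] at hz
    have hzz := M4b_hi E ht hz.2 (by omega) (by omega)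
    obtain ⟨K1, hK1, _, _, hK13⟩ := comp_far E ht (j := ω t - 2) (Or.inr ⟨by omega, by omega⟩)
      (show lev G v0 b = ω t - 2 by omega) hb
    obtain ⟨y1, hy1K, hy1⟩ := hK13 z hz.2 (Or.inr (by omega))
    have hy1' := hK1 hy1K
    simp only [Bn, Finset.mem_filter, Finset.mem_univ, true_and] at hy1'
    obtain ⟨v', hv1', hv2'⟩ := M4b_ex E ht (j := ω t) (Or.inr ⟨by omega, by omega⟩)
    obtain ⟨K2, hK2, _, _, hK23⟩ := comp_far E ht (j := ω t) (Or.inr ⟨by omega, by omega⟩) hv1' hv2'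
    obtain ⟨y2, hy2K, hy2⟩ := hK23 z hz.2 (Or.inl (by omega))
    have hy2' := hK2 hy2K
    simp only [Bn, Finset.mem_filter, Finset.mem_univ, true_and] at hy2'
    refine ⟨z, hbz, ⟨hzz.1, by rw [hzz.2]; exact hnT, Or.inr ?_⟩, hzz.2, hbX⟩
    exact M4b_two E (M4b_hi E ht hy1'.2 (by omega) (by omega)).1
      (M4b_hi E ht hy2'.2 (by omega) (by omega)).1 hy1 hy2 (by omega)

/-- [M4d] the vertices of the far side which are not far vertices of its two end levels are not in
`X0`.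
Proof. Let `x ∈ FarSide f g`, `x ∈ X0 ⊆ XX`. If `x ∈ Zf t` (`f ≤ t < g`): `win x = t + 1` is of type T. Otherwise `x` is far
with `α t + 2 ≤ lev x ≤ ω t - 2`, `f ≤ t ≤ g`; `x ∈ XX` gives `lev x = α t + 2` or `lev x + 2 = ω t`. `lev x = α t + 2`: if
`t = f` it is an end; otherwise `f ≤ t - 1 < g` and `x ∈ Zf (t-1)` by `TW.hi`: the first case. `lev x + 2 = ω t`: `t = g` an
end; otherwise `x ∈ Zf t` by `TW.lo`. -/
theorem farside_x0 (E : Env G v0 p D L q m d0 M N s e α ω r) {Zf : ℕ → Set V} {xf zf : ℕ → V}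
    {f g : ℕ} (hg : g < N)
    (hT : ∀ t, f ≤ t → t < g → TW G v0 p D L N α ω t (Zf t) (xf t) (zf t)) {x : V}
    (hx : x ∈ FarSide G v0 p L α ω Zf f g) (hx0 : x ∈ X0 G v0 p D L N α ω) :
    ¬ Near G v0 p L x ∧ (lev G v0 x = α f + 2 ∨ lev G v0 x + 2 = ω g) := by
  have noZ : ∀ t, f ≤ t → t < g → x ∉ Zf t := by
    intro t h1 h2 hz
    have h3 := ((hT t h1 h2).sub x hz).2.1
    exact hx0.2.1 ⟨t, Zf t, xf t, zf t, h3, hT t h1 h2⟩
  rcases hx with ⟨t, h1, h2, hn, h3, h4⟩ | ⟨t, h1, h2, hz⟩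
  · refine ⟨hn, ?_⟩
    have h5 := (hx0.1 t (by omega)).2 hn
    rcases Nat.eq_or_lt_of_le h3 with h6 | h6
    · rcases Nat.eq_or_lt_of_le h1 with h7 | h7
      · subst h7; left; exact h6.symm
      · exfalso
        have h8 := (hT (t - 1) (by omega) (by omega)).hi x
        have h9 : t - 1 + 1 = t := by omega
        rw [h9] at h8
        exact noZ (t - 1) (by omega) (by omega) (h8 h6.symm hn)
    · have h6' : lev G v0 x + 2 = ω t := by
        by_contra h
        exact h5 ⟨h6, by omega⟩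
      rcases Nat.eq_or_lt_of_le h2 with h7 | h7
      · subst h7; right; exact h6'
      · exfalso
        exact noZ t h1 h7 ((hT t h1 h7).lo x h6' hn)
  · exact absurd hz (noZ t h1 h2)

end

end Pool.RBE.S4
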