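import Pool.Agent.RBE.S4.M4a
import Pool.Agent.RBE.S4.M4b

set_option autoImplicit false

/-! [M4e] the rider with its ends. -/

namespace Pool.RBE.S4

open SimpleGraph Pool.Agent.RBC

private theorem M4e_ivt (F : ℕ → ℕ) (ℓ i : ℕ) (h : ∀ y < ℓ, F (y + 1) ≤ F y + 1) (h0 : F 0 < i)
    (h1 : i < F ℓ) : ∃ u, 0 < u ∧ u < ℓ ∧ F u = i := by
  classical
  have hex : ∃ u, i ≤ F u := ⟨ℓ, h1.le⟩
  have hs := Nat.find_spec hex
  have hle : Nat.find hex ≤ ℓ := Nat.find_min' hex h1.le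
  have hpos : 0 < Nat.find hex := by
    rcases Nat.eq_zero_or_pos (Nat.find hex) with h2 | h2
    · rw [h2] at hs; omega
    · exact h2
  have hmin : ¬ i ≤ F (Nat.find hex - 1) := Nat.find_min hex (by omega)
  have h3 := h (Nat.find hex - 1) (by omega)
  have h4 : Nat.find hex - 1 + 1 = Nat.find hex := by omega
  rw [h4] at h3
  refine ⟨Nat.find hex, hpos, ?_, by omega⟩
  rcases Nat.eq_or_lt_of_le hle with h5 | h5
  · exfalso; rw [← h5] at h1; omega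
  · exact h5

section
variable {V : Type} [Fintype V] {G : SimpleGraph V} {v0 : V} {p : ℕ → V}
    {D L q m d0 M N : ℕ} {s e α ω : ℕ → ℕ} {r : ℕ → ℕ → V}

open Classical in
/-- [M4e] The rider of a merged ring, with both ends in `X0`.
Proof. `ρ0, ℓ` of `merged_rider`; prepend `z` of `attach_lo` if `ρ0 0 ∉ X0`, append `z` of `attach_hi` if `ρ0 ℓ ∉ X0`; so
`l ∈ {ℓ, ℓ+1, ℓ+2}`. Interior vertices are vertices `ρ0 y` of the far side, and not in `X0`: `ρ0 0` and `ρ0 ℓ` are interior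
only if they are not in `X0`; for `0 < y < ℓ` `farside_x0` and the conditions of `merged_rider`. `ω g ≤ α f + 4 + ℓ`: levels
change by at most one along `ρ0`. Every level `i` strictly between is attained at an interior vertex (discrete
intermediate value theorem along `ρ0`, `lev (ρ0 0) < i < lev (ρ0 ℓ)`). `2 ≤ l` because `ω f ≥ α f + 20`. -/
theorem ext_rider (E : Env G v0 p D L q m d0 M N s e α ω r) {Zf : ℕ → Set V} {xf zf : ℕ → V}
    {f g : ℕ} (hfg : f ≤ g) (hg : g < N)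
    (hT : ∀ t, f ≤ t → t < g → TW G v0 p D L N α ω t (Zf t) (xf t) (zf t))
    (hf : ¬ IsT G v0 p D L N α ω f) (hg' : ¬ IsT G v0 p D L N α ω (g + 1)) :
    ∃ (ℓ l : ℕ) (ρ : ℕ → V), l ≤ ℓ + 2 ∧ 2 ≤ l ∧ ω g ≤ α f + 4 + ℓ ∧
      (ρ 0 ∈ X0 G v0 p D L N α ω ∧ win G v0 N α (ρ 0) = f) ∧
      (ρ l ∈ X0 G v0 p D L N α ω ∧ win G v0 N α (ρ l) = g + 1) ∧
      (∀ y < l, G.Adj (ρ y) (ρ (y + 1))) ∧
      (∀ y, 0 < y → y < l → ρ y ∈ FarSide G v0 p L α ω Zf f g ∧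
        ρ y ∉ X0 G v0 p D L N α ω) ∧
      (∀ y z, 0 < y → y < l → 0 < z → z < l → ρ y = ρ z → y = z) ∧
      (∀ i, α f + 2 < i → i + 2 < ω g → ∃ y, 0 < y ∧ y < l ∧ lev G v0 (ρ y) = i) ∧
      q * (ℓ + 1) ≤
        (Finset.univ.filter (fun x => x ∈ FarSide G v0 p L α ω Zf f g)).card := by
  have hconn := env_connected E
  have hfN : f < N := by omega
  obtain ⟨ℓ, ρ0, k1, k2, k3, k4, k5, k6, k7, k8, k9, k10⟩ := merged_rider E hfg hg hT
  have hstep : ∀ y < ℓ, lev G v0 (ρ0 (y + 1)) ≤ lev G v0 (ρ0 y) + 1 := by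
    intro y hy
    exact lev_adj hconn v0 (k6 y hy).symm
  have hlen : ∀ y ≤ ℓ, lev G v0 (ρ0 y) ≤ lev G v0 (ρ0 0) + y := by
    intro y
    induction y with
    | zero => intro _; omega
    | succ y ih =>
      intro hy
      have h1 := ih (by omega)
      have h2 := hstep y (by omega)
      omega
  have hωg : ω g ≤ α f + 4 + ℓ := by
    have := hlen ℓ le_rfl
    omega
  have hωf : α f + 20 ≤ ω g := by
    have h1 := E.rings.hαω f hfN
    rcases Nat.eq_or_lt_of_le hfg with h | h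
    · subst h; exact h1
    · have := env_mono E h hg
      omega
  -- lower end
  obtain ⟨a, zlo, hlo⟩ : ∃ (a : ℕ) (zlo : V),
      (a = 0 ∧ ρ0 0 ∈ X0 G v0 p D L N α ω ∧ win G v0 N α (ρ0 0) = f) ∨
      (a = 1 ∧ G.Adj zlo (ρ0 0) ∧ zlo ∈ X0 G v0 p D L N α ω ∧ win G v0 N α zlo = f ∧
        ρ0 0 ∉ X0 G v0 p D L N α ω) := by
    rcases attach_lo E hfN hf k2 k3 with h | ⟨z, h⟩
    · exact ⟨0, ρ0 0, Or.inl ⟨rfl, h⟩⟩
    · exact ⟨1, z, Or.inr ⟨rfl, h⟩⟩
  obtain ⟨c, zhi, hhi⟩ : ∃ (c : ℕ) (zhi : V),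
      (c = 0 ∧ ρ0 ℓ ∈ X0 G v0 p D L N α ω ∧ win G v0 N α (ρ0 ℓ) = g + 1) ∨
      (c = 1 ∧ G.Adj (ρ0 ℓ) zhi ∧ zhi ∈ X0 G v0 p D L N α ω ∧ win G v0 N α zhi = g + 1 ∧
        ρ0 ℓ ∉ X0 G v0 p D L N α ω) := by
    rcases attach_hi E hg hg' k4 k5 with h | ⟨z, h⟩
    · exact ⟨0, ρ0 ℓ, Or.inl ⟨rfl, h⟩⟩
    · exact ⟨1, z, Or.inr ⟨rfl, h⟩⟩
  have ha : a ≤ 1 := by rcases hlo with h | h <;> omega
  have hc : c ≤ 1 := by rcases hhi with h | h <;> omega
  set ρ : ℕ → V := fun y => if y < a then zlo else if y ≤ ℓ + a then ρ0 (y - a) else zhi with hρ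
  have e1 : ∀ y, a ≤ y → y ≤ ℓ + a → ρ y = ρ0 (y - a) := by
    intro y h1 h2
    simp only [hρ]
    rw [if_neg (by omega), if_pos h2]
  have e2 : ∀ y, y < a → ρ y = zlo := by
    intro y h1
    simp only [hρ]
    rw [if_pos h1]
  have e3 : ∀ y, ℓ + a < y → ρ y = zhi := by
    intro y h1
    simp only [hρ]
    rw [if_neg (by omega), if_neg (by omega)]
  have hint : ∀ y, 0 < y → y < ℓ + a + c → a ≤ y ∧ y ≤ ℓ + a := by
    intro y h1 h2
    exact ⟨by omega, by omega⟩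
  refine ⟨ℓ, ℓ + a + c, ρ, by omega, by omega, hωg, ?_, ?_, ?_, ?_, ?_, ?_, k10⟩
  · rcases hlo with ⟨h0, h1, h2⟩ | ⟨h0, h1, h2, h3, h4⟩
    · have : ρ 0 = ρ0 0 := by
        rw [e1 0 (by omega) (by omega), h0]
      rw [this]; exact ⟨h1, h2⟩
    · rw [e2 0 (by omega)]; exact ⟨h2, h3⟩
  · rcases hhi with ⟨h0, h1, h2⟩ | ⟨h0, h1, h2, h3, h4⟩
    · have : ρ (ℓ + a + c) = ρ0 ℓ := by
        rw [e1 _ (by omega) (by omega)]
        congr 1; omega
      rw [this]; exact ⟨h1, h2⟩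
    · rw [e3 _ (by omega)]; exact ⟨h2, h3⟩
  · intro y hy
    rcases Nat.lt_or_ge y a with h | h
    · rw [e2 y h]
      rcases hlo with ⟨h0, _⟩ | ⟨h0, h1, _⟩
      · omega
      · have : ρ (y + 1) = ρ0 0 := by
          rw [e1 _ (by omega) (by omega)]
          congr 1; omega
        rw [this]; exact h1
    · rcases Nat.lt_or_ge y (ℓ + a) with h' | h'
      · rw [e1 y h (by omega), e1 (y + 1) (by omega) (by omega)]
        have : y + 1 - a = y - a + 1 := by omega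
        rw [this]
        exact k6 (y - a) (by omega)
      · rcases hhi with ⟨h0, _⟩ | ⟨h0, h1, _⟩
        · omega
        · have : ρ y = ρ0 ℓ := by
            rw [e1 y h (by omega)]
            congr 1; omega
          rw [this, e3 (y + 1) (by omega)]
          exact h1
  · intro y h1 h2
    obtain ⟨h3, h4⟩ := hint y h1 h2
    rw [e1 y h3 h4]
    refine ⟨k1 _ (by omega), ?_⟩
    intro hX
    rcases Nat.eq_zero_or_pos (y - a) with h5 | h5
    · rw [h5] at hX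
      rcases hlo with ⟨h0, _⟩ | ⟨h0, _, _, _, h6⟩
      · omega
      · exact h6 hX
    · rcases Nat.eq_or_lt_of_le (show y - a ≤ ℓ by omega) with h6 | h6
      · rw [h6] at hX
        rcases hhi with ⟨h0, _⟩ | ⟨h0, _, _, _, h7⟩
        · omega
        · exact h7 hX
      · have h7 := farside_x0 E hg hT (k1 _ h6.le) hX
        rcases h7.2 with h8 | h8
        · exact k8 _ h6.le h5 ⟨h7.1, h8⟩
        · exact k9 _ h6 ⟨h7.1, h8⟩
  · intro y z h1 h2 h3 h4 h5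
    obtain ⟨a1, a2⟩ := hint y h1 h2
    obtain ⟨b1, b2⟩ := hint z h3 h4
    rw [e1 y a1 a2, e1 z b1 b2] at h5
    have := k7 _ (by omega) _ (by omega) h5
    omega
  · intro i h1 h2
    obtain ⟨u, hu1, hu2, hu3⟩ := M4e_ivt (fun y => lev G v0 (ρ0 y)) ℓ i hstep (by
      show lev G v0 (ρ0 0) < i
      omega) (by
      show i < lev G v0 (ρ0 ℓ)
      omega)
    refine ⟨u + a, by omega, by omega, ?_⟩
    rw [e1 (u + a) (by omega) (by omega), Nat.add_sub_cancel]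
    exact hu3

end

end Pool.RBE.S4
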