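import Pool.Agent.RBE.S4.W1b

set_option autoImplicit false

/-! [M5a] full levels. -/

namespace Pool.RBE.S4

open SimpleGraph Pool.Agent.RBC

/-- propagation of a property in a `k`-connected graph minus fewer than `k` vertices -/
theorem M5a_prop {V : Type} [Fintype V] {G : SimpleGraph V} {k : ℕ} (hk : KConn G k)
    {S : Finset V} (hS : S.card < k) {P : V → Prop}
    (hP : ∀ x y, G.Adj x y → x ∉ S → y ∉ S → P x → P y) {a b : V} (haS : a ∉ S) (hbS : b ∉ S)
    (ha : P a) : P b := by
  have hc := hk.2 S hS
  have ha' : a ∈ ((↑S : Set V)ᶜ) := by simpa using haS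
  have hb' : b ∈ ((↑S : Set V)ᶜ) := by simpa using hbS
  obtain ⟨w⟩ := hc.preconnected ⟨a, ha'⟩ ⟨b, hb'⟩
  have key : ∀ (u v : ((↑S : Set V)ᶜ : Set V)), (G.induce ((↑S : Set V)ᶜ)).Walk u v →
      P u.1 → P v.1 := by
    intro u v w
    induction w with
    | nil => exact id
    | cons h w ih =>
      intro hu
      refine ih (hP _ _ ?_ ?_ ?_ hu)
      · exact h
      · rename_i u1 _ _
        have h1 := u1.2
        rw [Set.mem_compl_iff, Finset.mem_coe] at h1
        exact h1
      · rename_i _ v1 _
        have h1 := v1.2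
        rw [Set.mem_compl_iff, Finset.mem_coe] at h1
        exact h1
  exact key _ _ w ha

section
variable {V : Type} [Fintype V] {G : SimpleGraph V} {v0 : V} {p : ℕ → V}
    {D L q m d0 M N : ℕ} {s e α ω : ℕ → ℕ} {r : ℕ → ℕ → V}

open Classical in
/-- [M5a] full levels.
Proof. If the level set `S` of `i` has `< 2q` vertices then `G - S` is connected (`E.hk.2`) and contains `p 0` and `p D`
(levels `0 < i < D`); a walk of `G - S` between them avoids level `i`, but levels change by at most one. -/
theorem full_level (E : Env G v0 p D L q m d0 M N s e α ω r) {i : ℕ} (h1 : 1 ≤ i) (h2 : i < D) :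
    2 * q ≤ (Finset.univ.filter (fun x => lev G v0 x = i)).card := by
  by_contra hcon
  have hlt : (Finset.univ.filter (fun x => lev G v0 x = i)).card < 2 * q := by omega
  have hconn := env_connected E
  have h0 : lev G v0 (p 0) = 0 := E.geo.lev 0 (Nat.zero_le _)
  have hD : lev G v0 (p D) = D := E.geo.lev D le_rfl
  have := M5a_prop E.hk hlt (P := fun x => lev G v0 x < i) (a := p 0) (b := p D) ?_ ?_ ?_ ?_
  · simp only [hD] at this; omega
  · intro x y hxy hx hy hlx
    simp only [Finset.mem_filter, Finset.mem_univ, true_and] at hx hy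
    have h3 := lev_adj hconn v0 hxy
    have h4 := lev_adj hconn v0 hxy.symm
    have h5 : lev G v0 x < i := hlx
    show lev G v0 y < i
    omega
  · simp only [Finset.mem_filter, Finset.mem_univ, true_and, h0]; omega
  · simp only [Finset.mem_filter, Finset.mem_univ, true_and, hD]; omega
  · simp only [h0]; omega

end

end Pool.RBE.S4
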