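import Pool.Agent.RBE.S4.M1
import Pool.Agent.RBE.S4.M5a

set_option autoImplicit false

/-! [M5b] the near side in a window of type T. -/

namespace Pool.RBE.S4

open SimpleGraph Pool.Agent.RBC

section
variable {V : Type} [Fintype V] {G : SimpleGraph V} {v0 : V} {p : ℕ → V}
    {D L q m d0 M N : ℕ} {s e α ω : ℕ → ℕ} {r : ℕ → ℕ → V}

open Classical in
/-- [M5b] The near side in a window of type T.
Proof. `U = {x ∈ XX | win x = t + 1, x ∉ Z}`, `F = {x ∈ U | lev x = i}`; `Lo = {x ∈ U | lev x < i}`, `Up = {x ∈ U | i < lev x}`,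
`p (ω t) ∈ Lo`, `p (α (t+1)) ∈ Up` (`win_lt`; in `XX` by `p_mem_xx`; not in `Z`).
Neighbours `y` of `x ∈ Lo` outside `Lo`: `y ∈ XX`: `win y = t + 1`; `y ∈ Z`: then `y = x0`, `x = z0` (`TW.one` for the edge
`(y, x)`); `y ∉ Z`: `lev y ≤ i`, so `y ∈ F`. `y ∉ XX`: `nbr_out`, `win x = t + 1`, `lev x < i < α (t+1)`: only `x` near with
`lev x = ω t`, `y ∈ An (ω t - 1)`, or `x` far with `lev x + 2 = ω t`, but then `x ∈ Z` (`TW.lo`). So they are in
`S = An (ω t - 1) ∪ F ∪ {x0}`, and in `An (ω t - 1) ∪ F` if `z0 ∉ Lo`. Symmetrically for `Up` with `An (α (t+1) + 1)` (`TW.hi`).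
`z0` is not in both. Say `z0 ∉ Lo`: if `|An (ω t - 1) ∪ F| < 2q` the graph without this set is connected, but `Lo` is
separated from `p (α (t+1))` (not in `Lo`, not in the set): contradiction. So `2q ≤ q + |F|` (`exA`). -/
theorem near_side (E : Env G v0 p D L q m d0 M N s e α ω r) {t : ℕ} {Z : Set V} {x0 z0 : V}
    (hT : TW G v0 p D L N α ω t Z x0 z0) {i : ℕ} (h1 : ω t < i) (h2 : i < α (t + 1)) :
    q ≤ (Finset.univ.filter (fun x => lev G v0 x = i ∧ x ∈ XX G v0 p L N α ω ∧
      win G v0 N α x = t + 1 ∧ x ∉ Z)).card := by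
  set F : Finset V := Finset.univ.filter (fun x => lev G v0 x = i ∧ x ∈ XX G v0 p L N α ω ∧
      win G v0 N α x = t + 1 ∧ x ∉ Z) with hF
  have hconn := env_connected E
  have tN : t + 1 < N := hT.tN
  have tN' : t < N := by omega
  have R := E.rings
  have hm := E.hm
  have hd := E.hd
  have o1 := R.hα t tN'
  have o2 := R.hαω t tN'
  have o3 := R.hω t tN'
  have o4 := R.hα (t + 1) tN
  have o5 := R.hαω (t + 1) tN
  have o6 := R.hω (t + 1) tN
  have o7 := R.eD t tN'
  have o8 := R.eD (t + 1) tN
  have o9 := R.ord t tN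
  have memF : ∀ x, x ∈ F ↔ (lev G v0 x = i ∧ x ∈ XX G v0 p L N α ω ∧
      win G v0 N α x = t + 1 ∧ x ∉ Z) := by
    intro x; simp [hF]
  -- window levels
  have wl : ∀ x ∈ XX G v0 p L N α ω, win G v0 N α x = t + 1 →
      (ω t ≤ lev G v0 x + 2 ∧ lev G v0 x ≤ α (t + 1) + 2) ∧
      (Near G v0 p L x → ω t ≤ lev G v0 x ∧ lev G v0 x ≤ α (t + 1)) := by
    intro x hx hw
    have a1 := xx_lev E hx tN'
    have a2 := xx_lev E hx tN
    refine ⟨⟨a1.1 (by omega), a2.2.1 (by omega)⟩, fun hn => ⟨(a1.2.2 hn).1 (by omega),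
      (a2.2.2 hn).2 (by omega)⟩⟩
  -- the path vertices
  have pwin : ∀ j, ω t ≤ j → j ≤ α (t + 1) → p j ∈ XX G v0 p L N α ω ∧
      win G v0 N α (p j) = t + 1 ∧ p j ∉ Z ∧ lev G v0 (p j) = j := by
    intro j hj1 hj2
    have hjD : j ≤ D := by omega
    have hl := E.geo.lev j hjD
    refine ⟨(p_mem_xx E hjD).2 ?_, ?_, ?_, hl⟩
    · intro t' ht'
      rcases Nat.lt_trichotomy t' t with h | h | h
      · have := env_mono E h tN'
        right; omega
      · subst h; right; exact hj1
      · rcases Nat.eq_or_lt_of_le (Nat.succ_le_of_lt h) with h | h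
        · left; rw [← h]; exact hj2
        · have := env_mono E h ht'
          left
          have : α (t + 1) < α t' := this.2.2.1
          omega
    · have b1 : t < win G v0 N α (p j) := (win_lt E tN' _).2 (by rw [hl]; omega)
      have b2 : ¬ (t + 1 < win G v0 N α (p j)) := by
        rw [win_lt E tN]; rw [hl]; omega
      omega
    · intro hz
      exact (hT.sub _ hz).2.2 ⟨j, hjD, rfl⟩
  -- neighbours outside
  have nb : ∀ x y, G.Adj x y → x ∈ XX G v0 p L N α ω → win G v0 N α x = t + 1 → x ∉ Z →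
      (y ∈ XX G v0 p L N α ω ∧ win G v0 N α y = t + 1 ∧ (y ∉ Z ∨ (y = x0 ∧ x = z0))) ∨
      (y ∈ An G v0 p L (ω t - 1) ∧ lev G v0 x = ω t) ∨
      (y ∈ An G v0 p L (α (t + 1) + 1) ∧ lev G v0 x = α (t + 1)) := by
    intro x y hxy hx hw hxZ
    by_cases hy : y ∈ XX G v0 p L N α ω
    · left
      refine ⟨hy, by rw [← adj_win E hx hy hxy]; exact hw, ?_⟩
      by_cases hyZ : y ∈ Z
      · right; exact hT.one y hyZ x hx hxZ hxy.symm
      · left; exact hyZ
    · right
      have c0 := wl x hx hw
      obtain ⟨t', ht'N, hc⟩ := nbr_out E hx hy hxy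
      have htt : t' = t ∨ t' = t + 1 := by
        rcases Nat.lt_trichotomy t' t with h | h | h
        · exfalso
          have hmm := env_mono E h tN'
          have r1 := R.hαω t' ht'N
          have r2 := hmm.2.1
          rcases hc with ⟨_, _, hc⟩ | ⟨_, _, hc⟩
          · omega
          · omega
        · left; exact h
        · rcases Nat.eq_or_lt_of_le (Nat.succ_le_of_lt h) with h | h
          · right; exact h.symm
          · exfalso
            have h' : t + 1 < t' := h
            have hmm := env_mono E h' ht'N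
            have r2 := hmm.2.1
            have r1 := R.hαω t' ht'N
            rcases hc with ⟨_, _, hc⟩ | ⟨_, _, hc⟩
            · omega
            · omega
      rcases htt with rfl | rfl
      · left
        rcases hc with ⟨n1, n2, hc⟩ | ⟨n1, n2, hc⟩
        · rcases hc with hc | hc
          · have := (c0.2 n1).1; omega
          · refine ⟨?_, hc.1⟩
            simp only [An, Finset.mem_filter, Finset.mem_univ, true_and]
            exact ⟨by omega, n2⟩
        · rcases hc with hc | hc
          · omega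
          · exact absurd (hT.lo x hc.1 n1) hxZ
      · right
        rcases hc with ⟨n1, n2, hc⟩ | ⟨n1, n2, hc⟩
        · rcases hc with hc | hc
          · refine ⟨?_, hc.1⟩
            simp only [An, Finset.mem_filter, Finset.mem_univ, true_and]
            exact ⟨by omega, n2⟩
          · have := (c0.2 n1).2; omega
        · rcases hc with hc | hc
          · exact absurd (hT.hi x hc.1 n1) hxZ
          · omega
  have cA1 : (An G v0 p L (ω t - 1)).card = q := R.exA t tN' _ (Or.inr ⟨by omega, by omega⟩)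
  have cA2 : (An G v0 p L (α (t + 1) + 1)).card = q :=
    R.exA (t + 1) tN _ (Or.inl ⟨by omega, by omega⟩)
  have pl := pwin (ω t) le_rfl (by omega)
  have pu := pwin (α (t + 1)) (by omega) le_rfl
  have hAn : ∀ x j, x ∈ An G v0 p L j → lev G v0 x = j := by
    intro x j hx
    simp only [An, Finset.mem_filter, Finset.mem_univ, true_and] at hx
    exact hx.1
  by_cases hz : lev G v0 z0 < i
  · -- z0 is not in the upper part
    have hS : ¬ ((An G v0 p L (α (t + 1) + 1) ∪ F).card < 2 * q) := by
      intro hlt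
      have := M5a_prop E.hk hlt (P := fun x => (x ∈ XX G v0 p L N α ω ∧
        win G v0 N α x = t + 1 ∧ x ∉ Z) ∧ i < lev G v0 x) (a := p (α (t + 1))) (b := p (ω t))
        ?_ ?_ ?_ ?_
      · have h3 : i < lev G v0 (p (ω t)) := this.2
        rw [pl.2.2.2] at h3
        omega
      · rintro x y hxy hxS hyS ⟨⟨hx1, hx2, hx3⟩, hx4⟩
        simp only [Finset.mem_union, not_or] at hxS hyS
        have l1 := lev_adj hconn v0 hxy
        rcases nb x y hxy hx1 hx2 hx3 with ⟨hy1, hy2, hy3⟩ | ⟨_, hy2⟩ | ⟨hy1, _⟩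
        · have hy4 : y ∉ Z := by
            rcases hy3 with hy3 | hy3
            · exact hy3
            · exfalso
              rw [hy3.2] at hx4
              omega
          refine ⟨⟨hy1, hy2, hy4⟩, ?_⟩
          rcases Nat.lt_or_ge i (lev G v0 y) with h | h
          · exact h
          · exact absurd ((memF y).2 ⟨by omega, hy1, hy2, hy4⟩) hyS.2
        · exfalso; omega
        · exact absurd hy1 hyS.1
      · simp only [Finset.mem_union, not_or]
        refine ⟨fun h => ?_, fun h => ?_⟩
        · have := hAn _ _ h; rw [pu.2.2.2] at this; omega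
        · have := ((memF _).1 h).1; rw [pu.2.2.2] at this; omega
      · simp only [Finset.mem_union, not_or]
        refine ⟨fun h => ?_, fun h => ?_⟩
        · have := hAn _ _ h; rw [pl.2.2.2] at this; omega
        · have := ((memF _).1 h).1; rw [pl.2.2.2] at this; omega
      · exact ⟨⟨pu.1, pu.2.1, pu.2.2.1⟩, by rw [pu.2.2.2]; exact h2⟩
    have := Finset.card_union_le (An G v0 p L (α (t + 1) + 1)) F
    omega
  · have hS : ¬ ((An G v0 p L (ω t - 1) ∪ F).card < 2 * q) := by
      intro hlt
      have := M5a_prop E.hk hlt (P := fun x => (x ∈ XX G v0 p L N α ω ∧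
        win G v0 N α x = t + 1 ∧ x ∉ Z) ∧ lev G v0 x < i) (a := p (ω t)) (b := p (α (t + 1)))
        ?_ ?_ ?_ ?_
      · have h3 : lev G v0 (p (α (t + 1))) < i := this.2
        rw [pu.2.2.2] at h3
        omega
      · rintro x y hxy hxS hyS ⟨⟨hx1, hx2, hx3⟩, hx4⟩
        simp only [Finset.mem_union, not_or] at hxS hyS
        have l1 := lev_adj hconn v0 hxy.symm
        rcases nb x y hxy hx1 hx2 hx3 with ⟨hy1, hy2, hy3⟩ | ⟨hy1, _⟩ | ⟨_, hy2⟩
        · have hy4 : y ∉ Z := by
            rcases hy3 with hy3 | hy3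
            · exact hy3
            · exfalso
              rw [hy3.2] at hx4
              omega
          refine ⟨⟨hy1, hy2, hy4⟩, ?_⟩
          rcases Nat.lt_or_ge (lev G v0 y) i with h | h
          · exact h
          · exact absurd ((memF y).2 ⟨by omega, hy1, hy2, hy4⟩) hyS.2
        · exact absurd hy1 hyS.1
        · exfalso; omega
      · simp only [Finset.mem_union, not_or]
        refine ⟨fun h => ?_, fun h => ?_⟩
        · have := hAn _ _ h; rw [pl.2.2.2] at this; omega
        · have := ((memF _).1 h).1; rw [pl.2.2.2] at this; omega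
      · simp only [Finset.mem_union, not_or]
        refine ⟨fun h => ?_, fun h => ?_⟩
        · have := hAn _ _ h; rw [pu.2.2.2] at this; omega
        · have := ((memF _).1 h).1; rw [pu.2.2.2] at this; omega
      · exact ⟨⟨pl.1, pl.2.1, pl.2.2.1⟩, by rw [pl.2.2.2]; exact h1⟩
    have := Finset.card_union_le (An G v0 p L (ω t - 1)) F
    omega

end

end Pool.RBE.S4
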