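import Pool.Agent.RBE.S4.M5b

set_option autoImplicit false

/-! [M5c] the near side of a merged ring. -/

namespace Pool.RBE.S4

open SimpleGraph Pool.Agent.RBC

private theorem M5c_cover (α ω : ℕ → ℕ) (f i : ℕ) (h1 : α f < i) :
    ∀ g, f ≤ g → i < ω g → (∃ t, f ≤ t ∧ t ≤ g ∧ α t < i ∧ i < ω t) ∨
      ∃ t, f ≤ t ∧ t < g ∧ ω t ≤ i ∧ i ≤ α (t + 1) := by
  intro g
  induction g with
  | zero =>
    intro hf h2
    have : f = 0 := by omega
    subst this
    exact Or.inl ⟨0, le_rfl, le_rfl, by omega, by omega⟩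
  | succ g ih =>
    intro hf h2
    rcases Nat.eq_or_lt_of_le hf with h | h
    · subst h
      exact Or.inl ⟨g + 1, le_rfl, le_rfl, by omega, by omega⟩
    · by_cases h3 : α (g + 1) < i
      · exact Or.inl ⟨g + 1, hf, le_rfl, h3, by omega⟩
      · by_cases h4 : ω g ≤ i
        · exact Or.inr ⟨g, by omega, by omega, h4, by omega⟩
        · rcases ih (by omega) (by omega) with ⟨t, ht1, ht2, ht3⟩ | ⟨t, ht1, ht2, ht3⟩
          · exact Or.inl ⟨t, ht1, by omega, ht3⟩
          · exact Or.inr ⟨t, ht1, by omega, ht3⟩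

section
variable {V : Type} [Fintype V] {G : SimpleGraph V} {v0 : V} {p : ℕ → V}
    {D L q m d0 M N : ℕ} {s e α ω : ℕ → ℕ} {r : ℕ → ℕ → V}

open Classical in
/-- [M5c] The near side of a merged ring.
Proof. Let `f ≤ t ≤ g` be the largest `t` with `α t + 2 ≤ i` (or by induction: `i ∈ [α f + 2, ω g - 2]` is covered by the
intervals `(α t, ω t)`, `f ≤ t ≤ g`, and `[ω t, α (t+1)]`, `f ≤ t < g`).
(1) `α t < i < ω t`: all `x ∈ An i` are outside the far side: `x ∈ Zf t'` would give `x ∈ XX`, but `XX` contains no near vertex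
of level in `(α t, ω t)`. `|An i| ≥ q` (`cardA`). (2) `i = ω t` or `i = α (t+1)`, `f ≤ t < g`: `x ∈ An i`, `x ∈ Zf t'`: by `tw_lev`
`t' = t`, and `TW.noA` excludes it. (3) `ω t < i < α (t+1)`: the set of `near_side` is outside the far side: a vertex of it in
`Zf t'` has `win = t' + 1`, so `t' = t`: no; and the level `i` is not in `[α t' + 2, ω t' - 2]` for any `t'`. -/
theorem rest_in (E : Env G v0 p D L q m d0 M N s e α ω r) {Zf : ℕ → Set V} {xf zf : ℕ → V}
    {f g : ℕ} (hfg : f ≤ g) (hg : g < N)
    (hT : ∀ t, f ≤ t → t < g → TW G v0 p D L N α ω t (Zf t) (xf t) (zf t)) {i : ℕ}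
    (h1 : α f + 2 ≤ i) (h2 : i + 2 ≤ ω g) :
    q ≤ (Finset.univ.filter (fun x => lev G v0 x = i ∧
      x ∉ FarSide G v0 p L α ω Zf f g)).card := by
  have R := E.rings
  have hm := E.hm
  have hd := E.hd
  have amono : ∀ t t', t ≤ t' → t' < N → α t ≤ α t' ∧ ω t ≤ ω t' := by
    intro t t' h h'
    rcases Nat.eq_or_lt_of_le h with h | h
    · subst h; exact ⟨le_rfl, le_rfl⟩
    · have := env_mono E h h'
      exact ⟨by omega, by omega⟩
  have wa : ∀ t, t + 1 < N → ω t + m + d0 < α (t + 1) := by
    intro t ht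
    exact (env_mono E (Nat.lt_succ_self t) ht).2.1
  have useAn : ∀ t, t < N → s t ≤ i → i ≤ e t →
      (∀ x, lev G v0 x = i → Near G v0 p L x → ∀ t', f ≤ t' → t' < g → x ∉ Zf t') →
      q ≤ (Finset.univ.filter (fun x => lev G v0 x = i ∧
        x ∉ FarSide G v0 p L α ω Zf f g)).card := by
    intro t ht hs he hno
    refine le_trans (R.cardA t ht i hs he) (Finset.card_le_card ?_)
    intro x hx
    simp only [An, Finset.mem_filter, Finset.mem_univ, true_and] at hx ⊢
    refine ⟨hx.1, ?_⟩
    rintro (⟨t', _, _, hn, _⟩ | ⟨t', ht1, ht2, hz⟩)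
    · exact hn hx.2
    · exact hno x hx.1 hx.2 t' ht1 ht2 hz
  rcases M5c_cover α ω f i (by omega) g hfg (by omega) with ⟨t, ht1, ht2, ht3, ht4⟩ |
    ⟨t, ht1, ht2, ht3, ht4⟩
  · have tN : t < N := by omega
    have o1 := R.hα t tN
    have o2 := R.hω t tN
    refine useAn t tN (by omega) (by omega) ?_
    intro x hx hn t' hf hg' hz
    have hX := ((hT t' hf hg').sub x hz).1
    exact (hX t tN).1 hn ⟨by omega, by omega⟩
  · have tN : t + 1 < N := by omega
    have tN' : t < N := by omega
    have o1 := R.hα t tN'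
    have o2 := R.hω t tN'
    have o3 := R.hαω t tN'
    have o4 := R.hα (t + 1) tN
    have o5 := R.hω (t + 1) tN
    have o6 := R.hαω (t + 1) tN
    have o7 := wa t tN
    have same : ∀ x, lev G v0 x = i → ∀ t', f ≤ t' → t' < g → x ∈ Zf t' → (i = ω t ∨ i = α (t + 1)) →
        t' = t := by
      intro x hx t' hf hg' hz hi
      have hl := tw_lev E (hT t' hf hg') hz
      rw [hx] at hl
      rcases Nat.lt_trichotomy t' t with h | h | h
      · exfalso
        have m1 := amono (t' + 1) t (by omega) tN'
        omega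
      · exact h
      · exfalso
        have m1 := amono (t + 1) t' (by omega) (by omega)
        have m2 := R.hαω t' (by omega)
        omega
    rcases Nat.eq_or_lt_of_le ht3 with h | h
    · refine useAn t tN' (by omega) (by omega) ?_
      intro x hx hn t' hf hg' hz
      have := same x hx t' hf hg' hz (Or.inl h.symm)
      subst this
      exact ((hT t' hf hg').noA x hz hn).1 (by omega)
    · rcases Nat.eq_or_lt_of_le ht4 with h' | h'
      · refine useAn (t + 1) tN (by omega) (by omega) ?_
        intro x hx hn t' hf hg' hz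
        have := same x hx t' hf hg' hz (Or.inr h')
        subst this
        exact ((hT t' hf hg').noA x hz hn).2 (by omega)
      · refine le_trans (near_side E (hT t ht1 ht2) h h') (Finset.card_le_card ?_)
        intro x hx
        simp only [Finset.mem_filter, Finset.mem_univ, true_and] at hx ⊢
        obtain ⟨hx1, hx2, hx3, hx4⟩ := hx
        refine ⟨hx1, ?_⟩
        rintro (⟨t', hf, hg', hn, ha, hb⟩ | ⟨t', hf, hg', hz⟩)
        · rcases Nat.lt_or_ge t t' with h3 | h3
          · have m1 := amono (t + 1) t' (by omega) (by omega)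
            omega
          · have m1 := amono t' t h3 tN'
            omega
        · have hw := ((hT t' hf hg').sub x hz).2.1
          have : t' = t := by omega
          subst this
          exact hx4 hz

end

end Pool.RBE.S4
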