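import Mathlib

set_option autoImplicit false

/-! [Q3] enumeration. -/

namespace Pool.RBE.S4

/-- [Q1b] Enumeration of a finite set `T ∋ 0, N` of numbers `≤ N`.
Proof. E.g. induction on `N` (strong): if `N = 0`: `K = 0`. Otherwise let `N'` be the largest element of `T` which is
`< N` (exists, `0 ∈ T`), the induction hypothesis for `T ∩ [0, N']`, and append `N`. Or `Finset.orderIsoOfFin`. -/
theorem exists_enum (T : ℕ → Prop) (N : ℕ) (h0 : T 0) (hN : T N) (hT : ∀ t, T t → t ≤ N) :
    ∃ (K : ℕ) (σ : ℕ → ℕ), σ 0 = 0 ∧ σ K = N ∧ (∀ k < K, σ k < σ (k + 1)) ∧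
      (∀ k ≤ K, T (σ k)) ∧ ∀ t, T t → ∃ k ≤ K, σ k = t := by
  classical
  induction N using Nat.strong_induction_on generalizing T with
  | _ N ih =>
    rcases Nat.eq_zero_or_pos N with hN0 | hN0
    · subst hN0
      refine ⟨0, fun _ => 0, rfl, rfl, fun k hk => absurd hk (by omega), fun k _ => h0, ?_⟩
      intro t ht
      exact ⟨0, le_rfl, (Nat.le_zero.1 (hT t ht)).symm⟩
    · obtain ⟨N', hN'⟩ : ∃ N', N' = Nat.findGreatest T (N - 1) := ⟨_, rfl⟩
      have hTN' : T N' := by
        rw [hN']
        exact Nat.findGreatest_spec (P := T) (m := 0) (Nat.zero_le _) h0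
      have hlt : N' < N := by
        have : N' ≤ N - 1 := by rw [hN']; exact Nat.findGreatest_le _
        omega
      have hmax : ∀ t, T t → t < N → t ≤ N' := by
        intro t ht htN
        rw [hN']
        exact Nat.le_findGreatest (by omega) ht
      obtain ⟨K, σ, hσ0, hσK, hmono, hσT, hsurj⟩ := ih N' hlt (fun t => T t ∧ t ≤ N')
        ⟨h0, Nat.zero_le _⟩ ⟨hTN', le_rfl⟩ (fun t ht => ht.2)
      refine ⟨K + 1, fun k => if k ≤ K then σ k else N, ?_, ?_, ?_, ?_, ?_⟩
      · show (if 0 ≤ K then σ 0 else N) = 0
        rw [if_pos (Nat.zero_le _), hσ0]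
      · show (if K + 1 ≤ K then σ (K + 1) else N) = N
        rw [if_neg (by omega)]
      · intro k hk
        show (if k ≤ K then σ k else N) < (if k + 1 ≤ K then σ (k + 1) else N)
        rw [if_pos (by omega)]
        by_cases hk' : k + 1 ≤ K
        · rw [if_pos hk']
          exact hmono k (by omega)
        · rw [if_neg hk']
          have : k = K := by omega
          rw [this, hσK]
          exact hlt
      · intro k hk
        show T (if k ≤ K then σ k else N)
        by_cases hk' : k ≤ K
        · rw [if_pos hk']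
          exact (hσT k hk').1
        · rw [if_neg hk']
          exact hN
      · intro t ht
        by_cases htN : t < N
        · obtain ⟨k, hk, hk'⟩ := hsurj t ⟨ht, hmax t ht htN⟩
          refine ⟨k, by omega, ?_⟩
          show (if k ≤ K then σ k else N) = t
          rw [if_pos hk, hk']
        · refine ⟨K + 1, le_rfl, ?_⟩
          show (if K + 1 ≤ K then σ (K + 1) else N) = t
          rw [if_neg (by omega)]
          have := hT t ht
          omega

end Pool.RBE.S4
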