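import Pool.Agent.RBE.S4.M1
import Pool.Agent.RBE.S4.Q3

set_option autoImplicit false

/-! [M6a] merged rings: enumeration. -/

namespace Pool.RBE.S4

open SimpleGraph Pool.Agent.RBC

section
variable {V : Type} [Fintype V] (G : SimpleGraph V)

/-- The merged rings: `σ 0 = 0 < σ 1 < … < σ K = N` are the windows which are not of type T; the merged
ring `k < K` consists of the rings `σ k, …, σ (k+1) - 1`. -/
structure Mrg (v0 : V) (p : ℕ → V) (D L N : ℕ) (α ω : ℕ → ℕ) (K : ℕ) (σ : ℕ → ℕ)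
    (Zf : ℕ → Set V) (xf zf : ℕ → V) : Prop where
  s0 : σ 0 = 0
  sK : σ K = N
  slt : ∀ k < K, σ k < σ (k + 1)
  nT : ∀ k ≤ K, ¬ IsT G v0 p D L N α ω (σ k)
  tw : ∀ k < K, ∀ t, σ k ≤ t → t < σ (k + 1) - 1 → TW G v0 p D L N α ω t (Zf t) (xf t) (zf t)
  all : ∀ j ≤ N, ¬ IsT G v0 p D L N α ω j → ∃ k ≤ K, σ k = j

end

section
variable {V : Type} [Fintype V] {G : SimpleGraph V} {v0 : V} {p : ℕ → V}
    {D L q m d0 M N : ℕ} {s e α ω : ℕ → ℕ} {r : ℕ → ℕ → V}

/-- [M6a] 
Proof. `exists_enum` for `T j := j ≤ N ∧ ¬ IsT j` (`0`, `N` are not of type T: `IsT j` means `j = t + 1` with `t + 1 < N`).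
For `t` with `σ k ≤ t`, `t + 1 < σ (k+1)`: `t + 1` is strictly between two consecutive values of the enumeration (`σ` is
strictly increasing), so it is of type T: choose `Zf t, xf t, zf t` (classical choice; junk otherwise). -/
theorem exists_mrg (G : SimpleGraph V) (v0 : V) (p : ℕ → V) (D L N : ℕ) (α ω : ℕ → ℕ) :
    ∃ (K : ℕ) (σ : ℕ → ℕ) (Zf : ℕ → Set V) (xf zf : ℕ → V),
      Mrg G v0 p D L N α ω K σ Zf xf zf := by
  classical
  have hTlt : ∀ j, IsT G v0 p D L N α ω j → 1 ≤ j ∧ j < N := by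
    rintro j ⟨t, Z, x0, z0, rfl, tw⟩
    have := tw.tN
    omega
  obtain ⟨K, σ, s0, sK, slt, sT, sall⟩ := exists_enum
    (fun j => j ≤ N ∧ ¬ IsT G v0 p D L N α ω j) N
    ⟨Nat.zero_le _, fun h => by have := hTlt 0 h; omega⟩
    ⟨le_refl _, fun h => by have := hTlt N h; omega⟩ (fun t h => h.1)
  have hmono : ∀ n k, k + n ≤ K → σ k ≤ σ (k + n) := by
    intro n
    induction n with
    | zero => intro k _; exact le_refl _
    | succ n ih =>
      intro k hk
      have h1 := ih k (by omega)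
      have h2 := slt (k + n) (by omega)
      have : k + (n + 1) = k + n + 1 := by omega
      rw [this]
      omega
  have hmono' : ∀ k k', k ≤ k' → k' ≤ K → σ k ≤ σ k' := by
    intro k k' h1 h2
    have := hmono (k' - k) k (by omega)
    have h3 : k + (k' - k) = k' := by omega
    rwa [h3] at this
  have hex : ∀ t, ∃ (Z : Set V) (x0 z0 : V), IsT G v0 p D L N α ω (t + 1) →
      TW G v0 p D L N α ω t Z x0 z0 := by
    intro t
    by_cases h : IsT G v0 p D L N α ω (t + 1)
    · obtain ⟨t', Z, x0, z0, h1, tw⟩ := h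
      have : t = t' := by omega
      subst this
      exact ⟨Z, x0, z0, fun _ => tw⟩
    · exact ⟨∅, v0, v0, fun h' => absurd h' h⟩
  choose Zf xf zf hZ using hex
  refine ⟨K, σ, Zf, xf, zf, ⟨s0, sK, slt, fun k hk => (sT k hk).2, ?_, fun j hj h => sall j ⟨hj, h⟩⟩⟩
  intro k hk t h1 h2
  apply hZ
  by_contra hcon
  have hkN : σ (k + 1) ≤ N := (sT (k + 1) hk).1
  obtain ⟨k', hk', hk'e⟩ := sall (t + 1) ⟨by omega, hcon⟩
  rcases Nat.lt_or_ge k k' with h | h
  · have := hmono' (k + 1) k' h hk'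
    omega
  · have := hmono' k' k h hk.le
    omega

/-- [M6b] every ring belongs to exactly one merged ring; values of `σ` are `≤ N` and increasing -/
theorem mrg_ring {K : ℕ} {σ : ℕ → ℕ} {Zf : ℕ → Set V} {xf zf : ℕ → V}
    (Mr : Mrg G v0 p D L N α ω K σ Zf xf zf) :
    (∀ k k', k < k' → k' ≤ K → σ k < σ k') ∧ (∀ k ≤ K, σ k ≤ N) ∧
      ∀ t < N, ∃ k < K, σ k ≤ t ∧ t < σ (k + 1) := by
  have slt := Mr.slt
  have hmono : ∀ n k, k + (n + 1) ≤ K → σ k < σ (k + (n + 1)) := by
    intro n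
    induction n with
    | zero => intro k hk; exact slt k (by omega)
    | succ n ih =>
      intro k hk
      have h1 := ih k (by omega)
      have h2 := slt (k + (n + 1)) (by omega)
      have : k + (n + 1 + 1) = k + (n + 1) + 1 := by omega
      rw [this]
      omega
  have h1 : ∀ k k', k < k' → k' ≤ K → σ k < σ k' := by
    intro k k' h1 h2
    have := hmono (k' - k - 1) k (by omega)
    have h3 : k + (k' - k - 1 + 1) = k' := by omega
    rwa [h3] at this
  have h2 : ∀ k ≤ K, σ k ≤ N := by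
    intro k hk
    rcases Nat.lt_or_ge k K with h | h
    · have := h1 k K h le_rfl
      rw [Mr.sK] at this
      omega
    · have : k = K := by omega
      rw [this, Mr.sK]
  refine ⟨h1, h2, ?_⟩
  intro t ht
  have key : ∀ n, n ≤ K → t < σ n → ∃ k < n, σ k ≤ t ∧ t < σ (k + 1) := by
    intro n
    induction n with
    | zero =>
      intro _ h
      rw [Mr.s0] at h
      omega
    | succ n ih =>
      intro hn h
      rcases Nat.lt_or_ge t (σ n) with h' | h'
      · obtain ⟨k, hk, hk'⟩ := ih (by omega) h'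
        exact ⟨k, by omega, hk'⟩
      · exact ⟨n, by omega, h', h⟩
  exact key K le_rfl (by rw [Mr.sK]; exact ht)

end

end Pool.RBE.S4
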