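import Pool.Agent.RBE.S4.M6a
import Pool.Agent.RBE.S4.M5a
import Pool.Agent.RBE.S4.M5c

set_option autoImplicit false

/-! [M6c] the mass. -/

namespace Pool.RBE.S4

open SimpleGraph Pool.Agent.RBC

section
variable {V : Type} [Fintype V] {G : SimpleGraph V} {v0 : V} {p : ℕ → V}
    {D L q m d0 M N : ℕ} {s e α ω : ℕ → ℕ} {r : ℕ → ℕ → V}

open Classical in
/-- [M6c] The mass.
Notation: `f = σ k`, `g = σ (k+1) - 1`, `F k = FarSide (σ k) (σ (k+1) - 1)`, `I k = [α f + 2, ω g - 2]` (disjoint intervals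
contained in `[1, D-1]`, with `ω g - α f - 3` elements; `env_mono`).
Proof. The `F k` are pairwise disjoint (`farside_lev`). `|V| ≥ ∑_k |F k| + ∑_{i=0}^{D} ρ i`, `ρ i` = number of vertices of level
`i` outside all `F k`. For `i ∈ I k`: `ρ i ≥ q` (`rest_in`; the other `F k'` have no vertices of level `i`, `farside_lev`). For
`i` in no `I k`, `1 ≤ i < D`: `ρ i` = the whole level, `≥ 2q` (`full_level`). So
`|V| ≥ ∑_k q (ℓ k + 1) + 2q (D - 1) - q ∑_k (ω g - α f - 3)`, and `q (ℓ k + 1) - q (ω g - α f - 3) = q (ℓ k + 4 - (ω g - α f))`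
(natural subtraction is exact here, `hge`, `α f + 20 ≤ ω g`). Suggestion: prove by induction on `k ≤ K` the statement for the
levels `≤ ω (σ k - 1)`, or use the function `i ↦ if ∃ k, i ∈ I k then q else 2q`. -/
theorem mass (E : Env G v0 p D L q m d0 M N s e α ω r) {K : ℕ} {σ : ℕ → ℕ} {Zf : ℕ → Set V}
    {xf zf : ℕ → V} (Mr : Mrg G v0 p D L N α ω K σ Zf xf zf) (ℓ : ℕ → ℕ)
    (hge : ∀ k < K, ω (σ (k + 1) - 1) ≤ α (σ k) + 4 + ℓ k)
    (hℓ : ∀ k < K, q * (ℓ k + 1) ≤ (Finset.univ.filter
      (fun x => x ∈ FarSide G v0 p L α ω Zf (σ k) (σ (k + 1) - 1))).card) :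
    2 * q * D + q * ∑ k ∈ Finset.range K, (ℓ k + 4 - (ω (σ (k + 1) - 1) - α (σ k))) ≤
      Fintype.card V + 2 * q := by
  obtain ⟨m1, m2, m3⟩ := mrg_ring Mr
  set F : ℕ → Set V := fun k => FarSide G v0 p L α ω Zf (σ k) (σ (k + 1) - 1) with hFdef
  have hσ : ∀ k < K, σ k ≤ σ (k + 1) - 1 ∧ σ (k + 1) - 1 < N := by
    intro k hk
    have h1 := Mr.slt k hk
    have h2 := m2 (k + 1) hk
    omega
  have hlevF : ∀ k < K, ∀ x ∈ F k,
      α (σ k) + 2 ≤ lev G v0 x ∧ lev G v0 x + 2 ≤ ω (σ (k + 1) - 1) := by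
    intro k hk x hx
    exact farside_lev E (hσ k hk).2 (fun t h1 h2 => Mr.tw k hk t h1 h2) hx
  -- the intervals are disjoint
  have hdis : ∀ k < K, ∀ k' < K, ∀ i, α (σ k) + 2 ≤ i → i + 2 ≤ ω (σ (k + 1) - 1) →
      α (σ k') + 2 ≤ i → i + 2 ≤ ω (σ (k' + 1) - 1) → k = k' := by
    have aux : ∀ k < K, ∀ k' < K, k < k' → ∀ i, i + 2 ≤ ω (σ (k + 1) - 1) →
        α (σ k') + 2 ≤ i → False := by
      intro k hk k' hk' hkk i h1 h2
      have h3 : σ (k + 1) ≤ σ k' := by
        rcases Nat.lt_or_ge (k + 1) k' with h | h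
        · exact (m1 _ _ h hk'.le).le
        · have : k + 1 = k' := by omega
          rw [this]
      have h4 := Mr.slt k hk
      have h5 : σ k' < N := lt_of_lt_of_le (Mr.slt k' hk') (m2 (k' + 1) hk')
      have h6 := env_mono E (t := σ (k + 1) - 1) (t' := σ k') (by omega) h5
      omega
    intro k hk k' hk' i a1 a2 a3 a4
    rcases lt_trichotomy k k' with h | h | h
    · exact (aux k hk k' hk' h i a2 a3).elim
    · exact h
    · exact (aux k' hk' k hk h i a4 a1).elim
  set ρ : ℕ → ℕ := fun i => (Finset.univ.filter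
    (fun x => lev G v0 x = i ∧ ∀ k < K, x ∉ F k)).card with hρ
  -- first count
  have hcount : ∑ k ∈ Finset.range K, (Finset.univ.filter (fun x => x ∈ F k)).card +
      ∑ i ∈ Finset.range (D + 1), ρ i ≤ Fintype.card V := by
    have e1 : ∀ k, (Finset.univ.filter (fun x => x ∈ F k)).card =
        ∑ x : V, if x ∈ F k then 1 else 0 := fun k => Finset.card_filter _ _
    have e2 : ∀ i, ρ i = ∑ x : V, if (lev G v0 x = i ∧ ∀ k < K, x ∉ F k) then 1 else 0 :=
      fun i => Finset.card_filter _ _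
    simp_rw [e1, e2]
    rw [Finset.sum_comm, Finset.sum_comm (s := Finset.range (D + 1)), ← Finset.sum_add_distrib]
    have e3 : Fintype.card V = ∑ x : V, 1 := by simp
    rw [e3]
    apply Finset.sum_le_sum
    intro x _
    by_cases hx : ∃ k < K, x ∈ F k
    · obtain ⟨k, hk, hxk⟩ := hx
      have z2 : ∑ i ∈ Finset.range (D + 1),
          (if (lev G v0 x = i ∧ ∀ k < K, x ∉ F k) then 1 else 0) = 0 := by
        apply Finset.sum_eq_zero
        intro i _
        rw [if_neg]
        rintro ⟨-, h⟩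
        exact h k hk hxk
      have z1 : ∑ k' ∈ Finset.range K, (if x ∈ F k' then 1 else 0) ≤ 1 := by
        rw [Finset.sum_eq_single_of_mem k (Finset.mem_range.2 hk)]
        · split_ifs <;> omega
        · intro k' hk' hne
          rw [if_neg]
          intro hxk'
          apply hne
          have hk'' := Finset.mem_range.1 hk'
          have a := hlevF k hk x hxk
          have b := hlevF k' hk'' x hxk'
          exact (hdis k hk k' hk'' _ a.1 a.2 b.1 b.2).symm
      omega
    · push Not at hx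
      have z1 : ∑ k' ∈ Finset.range K, (if x ∈ F k' then 1 else 0) = 0 := by
        apply Finset.sum_eq_zero
        intro k' hk'
        rw [if_neg (hx k' (Finset.mem_range.1 hk'))]
      have z2 : ∑ i ∈ Finset.range (D + 1),
          (if (lev G v0 x = i ∧ ∀ k < K, x ∉ F k) then 1 else 0) ≤ 1 := by
        have hxD := E.geo.top x
        rw [Finset.sum_eq_single_of_mem (lev G v0 x) (Finset.mem_range.2 (by omega))]
        · split_ifs <;> omega
        · intro i _ hne
          rw [if_neg]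
          rintro ⟨h, -⟩
          exact hne h.symm
      omega
  -- the levels
  have hlevel : ∀ i ∈ Finset.Ico 1 D, 2 * q ≤ ρ i + q * ∑ k ∈ Finset.range K,
      (if (α (σ k) + 2 ≤ i ∧ i + 2 ≤ ω (σ (k + 1) - 1)) then 1 else 0) := by
    intro i hi
    rw [Finset.mem_Ico] at hi
    by_cases hk : ∃ k < K, α (σ k) + 2 ≤ i ∧ i + 2 ≤ ω (σ (k + 1) - 1)
    · obtain ⟨k, hk, hi1, hi2⟩ := hk
      have hr := rest_in E (hσ k hk).1 (hσ k hk).2 (fun t h1 h2 => Mr.tw k hk t h1 h2) hi1 hi2
      have hsub : (Finset.univ.filter (fun x => lev G v0 x = i ∧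
          x ∉ FarSide G v0 p L α ω Zf (σ k) (σ (k + 1) - 1))).card ≤ ρ i := by
        apply Finset.card_le_card
        intro x hx
        rw [Finset.mem_filter] at hx ⊢
        refine ⟨Finset.mem_univ _, hx.2.1, ?_⟩
        intro k' hk' hxk'
        have b := hlevF k' hk' x hxk'
        rw [hx.2.1] at b
        have := hdis k hk k' hk' i hi1 hi2 b.1 b.2
        subst this
        exact hx.2.2 hxk'
      have hone : 1 ≤ ∑ k ∈ Finset.range K,
          (if (α (σ k) + 2 ≤ i ∧ i + 2 ≤ ω (σ (k + 1) - 1)) then 1 else 0) := by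
        have := Finset.single_le_sum (f := fun k =>
          (if (α (σ k) + 2 ≤ i ∧ i + 2 ≤ ω (σ (k + 1) - 1)) then 1 else 0))
          (fun _ _ => Nat.zero_le _) (Finset.mem_range.2 hk)
        simp only [hi1, hi2, and_self, if_true] at this
        exact this
      have := Nat.mul_le_mul_left q hone
      omega
    · push Not at hk
      have hf := full_level E hi.1 hi.2
      have hsub : (Finset.univ.filter (fun x => lev G v0 x = i)).card ≤ ρ i := by
        apply Finset.card_le_card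
        intro x hx
        rw [Finset.mem_filter] at hx ⊢
        refine ⟨Finset.mem_univ _, hx.2, ?_⟩
        intro k' hk' hxk'
        have b := hlevF k' hk' x hxk'
        rw [hx.2] at b
        have := hk k' hk' b.1
        omega
      omega
  have hsum := Finset.sum_le_sum hlevel
  rw [Finset.sum_const, Nat.card_Ico, Finset.sum_add_distrib, ← Finset.mul_sum,
    Finset.sum_comm] at hsum
  have hI : ∀ k ∈ Finset.range K, ∑ i ∈ Finset.Ico 1 D,
      (if (α (σ k) + 2 ≤ i ∧ i + 2 ≤ ω (σ (k + 1) - 1)) then 1 else 0) ≤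
        ω (σ (k + 1) - 1) - α (σ k) - 3 := by
    intro k _
    rw [← Finset.card_filter]
    calc _ ≤ (Finset.Icc (α (σ k) + 2) (ω (σ (k + 1) - 1) - 2)).card := by
          apply Finset.card_le_card
          intro i hi
          rw [Finset.mem_filter] at hi
          rw [Finset.mem_Icc]
          omega
      _ ≤ _ := by
          rw [Nat.card_Icc]
          omega
  have hI' := Finset.sum_le_sum hI
  have hρsub : ∑ i ∈ Finset.Ico 1 D, ρ i ≤ ∑ i ∈ Finset.range (D + 1), ρ i := by
    apply Finset.sum_le_sum_of_subset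
    intro i hi
    rw [Finset.mem_Ico] at hi
    rw [Finset.mem_range]
    omega
  have hF' : ∑ k ∈ Finset.range K, q * (ℓ k + 1) ≤
      ∑ k ∈ Finset.range K, (Finset.univ.filter (fun x => x ∈ F k)).card :=
    Finset.sum_le_sum (fun k hk => hℓ k (Finset.mem_range.1 hk))
  have hsplit : ∑ k ∈ Finset.range K, q * (ℓ k + 1) =
      q * ∑ k ∈ Finset.range K, (ℓ k + 4 - (ω (σ (k + 1) - 1) - α (σ k))) +
      q * ∑ k ∈ Finset.range K, (ω (σ (k + 1) - 1) - α (σ k) - 3) := by
    rw [Finset.mul_sum, Finset.mul_sum, ← Finset.sum_add_distrib]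
    apply Finset.sum_congr rfl
    intro k hk
    have hk' := Finset.mem_range.1 hk
    rw [← Nat.mul_add]
    congr 1
    have h1 := hge k hk'
    have h2 := E.rings.hαω (σ k) (by have := hσ k hk'; omega)
    have h3 : ω (σ k) ≤ ω (σ (k + 1) - 1) := by
      rcases Nat.lt_or_ge (σ k) (σ (k + 1) - 1) with h | h
      · exact (env_mono E h (hσ k hk').2).2.2.2.1.le
      · have : σ k = σ (k + 1) - 1 := by have := hσ k hk'; omega
        rw [← this]
    omega
  have hmul := Nat.mul_le_mul_left q hI'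
  have hD : 2 * q * D ≤ (D - 1) * (2 * q) + 2 * q := by
    rcases Nat.eq_zero_or_pos D with h | h
    · rw [h]; omega
    · obtain ⟨D', rfl⟩ : ∃ D', D = D' + 1 := ⟨D - 1, by omega⟩
      have : D' + 1 - 1 = D' := by omega
      rw [this]
      nlinarith
  rw [smul_eq_mul] at hsum
  omega

end

end Pool.RBE.S4
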