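import Pool.Agent.RBE.S4.M6a

set_option autoImplicit false

/-! [M7a] positions. -/

namespace Pool.RBE.S4

open SimpleGraph Pool.Agent.RBC

section
variable {V : Type} [Fintype V] {G : SimpleGraph V} {v0 : V} {p : ℕ → V}
    {D L q m d0 M N : ℕ} {s e α ω : ℕ → ℕ} {r : ℕ → ℕ → V}

/-- [M7a] positions of the path vertices of `X0`.
Proof. (→) `p i ∈ X0 ⊆ XX`, its window `j = win (p i)` is not of type T, `j = σ k'` (`all`). For `k < k'`: the ring
`t = σ (k+1) - 1 < j`: `xx_lev` (near): `ω t ≤ i`. For `k ≥ k'`: the ring `σ k ≥ j`: `i ≤ α (σ k)`.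
(←) Let `t < N`, `σ k ≤ t < σ (k+1)` (`mrg_ring`): `i ≤ α (σ k) ≤ α t` or `i ≥ ω (σ (k+1) - 1) ≥ ω t` (`env_mono`): `p i ∈ XX`
(`p_mem_xx`). If its window `j` is of type T then `σ k < j < σ (k+1)` for some `k` (`all`, `mrg_ring` for `t = j` or `j - 1`): the
ring `σ k < j` gives `ω (σ k) ≤ i` hence not `i ≤ α (σ k)`; the ring `σ (k+1) - 1 ≥ j` gives `i ≤ α (σ (k+1) - 1)`, not
`ω (σ (k+1) - 1) ≤ i`: contradiction to the hypothesis for `k`. -/
theorem p_mem_x0 (E : Env G v0 p D L q m d0 M N s e α ω r) {K : ℕ} {σ : ℕ → ℕ}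
    {Zf : ℕ → Set V} {xf zf : ℕ → V} (Mr : Mrg G v0 p D L N α ω K σ Zf xf zf) {i : ℕ}
    (hi : i ≤ D) :
    p i ∈ X0 G v0 p D L N α ω ↔ ∀ k < K, i ≤ α (σ k) ∨ ω (σ (k + 1) - 1) ≤ i := by
  have hl : lev G v0 (p i) = i := E.geo.lev i hi
  have hn : Near G v0 p L (p i) := near_p E hi
  have hPP : p i ∈ PP p D := ⟨i, hi, rfl⟩
  obtain ⟨m1, m2, m3⟩ := mrg_ring Mr
  have hmono : ∀ t t', t ≤ t' → t' < N → α t ≤ α t' ∧ ω t ≤ ω t' := by
    intro t t' h1 h2
    rcases Nat.lt_or_ge t t' with h | h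
    · have := env_mono E h h2
      omega
    · have : t = t' := by omega
      subst this
      exact ⟨le_refl _, le_refl _⟩
  constructor
  · rintro ⟨hx, hT, -⟩ k hk
    have hw := win_le (G := G) (v0 := v0) (N := N) (α := α) (p i)
    obtain ⟨k', hk', hj⟩ := Mr.all _ hw hT
    have hσN : σ (k + 1) ≤ N := m2 (k + 1) hk
    have hslt := Mr.slt k hk
    rcases Nat.lt_or_ge k k' with h | h
    · right
      have h1 : σ (k + 1) ≤ σ k' := by
        rcases Nat.lt_or_ge (k + 1) k' with h2 | h2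
        · exact (m1 _ _ h2 hk').le
        · have : k + 1 = k' := by omega
          rw [this]
      have h3 := ((xx_lev E hx (t := σ (k + 1) - 1) (by omega)).2.2 hn).1 (by omega)
      rwa [hl] at h3
    · left
      have h1 : σ k' ≤ σ k := by
        rcases Nat.lt_or_ge k' k with h2 | h2
        · exact (m1 _ _ h2 hk.le).le
        · have : k = k' := by omega
          rw [this]
      have h3 := ((xx_lev E hx (t := σ k) (by omega)).2.2 hn).2 (by omega)
      rwa [hl] at h3
  · intro h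
    have hxx : p i ∈ XX G v0 p L N α ω := by
      rw [p_mem_xx E hi]
      intro t ht
      obtain ⟨k, hk, h1, h2⟩ := m3 t ht
      have hσN : σ (k + 1) ≤ N := m2 (k + 1) hk
      have a1 := hmono (σ k) t h1 ht
      have a2 := hmono t (σ (k + 1) - 1) (by omega) (by omega)
      rcases h k hk with h3 | h3
      · left; omega
      · right; omega
    refine ⟨hxx, ?_, Or.inl hPP⟩
    intro hT
    have hT' := hT
    obtain ⟨t, Z, x0, z0, hj, tw⟩ := hT'
    have htN := tw.tN
    obtain ⟨k, hk, h1, h2⟩ := m3 (win G v0 N α (p i)) (by omega)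
    have hσN : σ (k + 1) ≤ N := m2 (k + 1) hk
    have hne : σ k ≠ win G v0 N α (p i) := by
      intro h3
      exact Mr.nT k hk.le (by rw [h3]; exact hT)
    have b1 := ((xx_lev E hxx (t := σ k) (by omega)).2.2 hn).1 (by omega)
    have b2 := ((xx_lev E hxx (t := σ (k + 1) - 1) (by omega)).2.2 hn).2 (by omega)
    rw [hl] at b1 b2
    have c1 := E.rings.hαω (σ k) (by omega)
    have c2 := E.rings.hαω (σ (k + 1) - 1) (by omega)
    rcases h k hk with h3 | h3
    · omega
    · omega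

end

end Pool.RBE.S4
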