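import Pool.Agent.RBE.S4.W3f

set_option autoImplicit false

/-! [W6b] radius of X0. -/

namespace Pool.RBE.S4

open SimpleGraph Pool.Agent.RBC

/-- the inner vertices of a path have two neighbours on the path -/
private theorem w6b_two {V : Type} {G : SimpleGraph V} {a b : V} (w : G.Walk a b) :
    w.IsPath → ∀ u ∈ w.support, u = a ∨ u = b ∨
      ∃ y ∈ w.support, ∃ y' ∈ w.support, y ≠ y' ∧ G.Adj u y ∧ G.Adj u y' := by
  induction w with
  | nil =>
    intro _ u hu
    rw [Walk.support_nil, List.mem_singleton] at hu
    exact Or.inl hu
  | @cons a c b h p ih =>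
    intro hp u hu
    rw [Walk.cons_isPath_iff] at hp
    rw [Walk.support_cons, List.mem_cons] at hu
    rcases hu with hu | hu
    · exact Or.inl hu
    · right
      rcases ih hp.1 u hu with h1 | h1 | ⟨y, hy, y', hy', h2⟩
      · subst h1
        cases p with
        | nil => exact Or.inl rfl
        | @cons _ d _ h' p' =>
          right
          refine ⟨a, ?_, d, ?_, ?_, h.symm, h'⟩
          · rw [Walk.support_cons]
            exact List.mem_cons_self
          · rw [Walk.support_cons, Walk.support_cons]
            exact List.mem_cons_of_mem _ (List.mem_cons_of_mem _ p'.start_mem_support)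
          · rintro rfl
            apply hp.2
            rw [Walk.support_cons]
            exact List.mem_cons_of_mem _ p'.start_mem_support
      · exact Or.inl h1
      · right
        refine ⟨y, ?_, y', ?_, h2⟩
        · rw [Walk.support_cons]
          exact List.mem_cons_of_mem _ hy
        · rw [Walk.support_cons]
          exact List.mem_cons_of_mem _ hy'

section
variable {V : Type} [Fintype V] {G : SimpleGraph V} {v0 : V} {p : ℕ → V}
    {D L q m d0 M N : ℕ} {s e α ω : ℕ → ℕ} {r : ℕ → ℕ → V}

private theorem w6b_win (E : Env G v0 p D L q m d0 M N s e α ω r) {a b : V} (w : G.Walk a b) :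
    (∀ y ∈ w.support, y ∈ XX G v0 p L N α ω) → ∀ u ∈ w.support,
      win G v0 N α u = win G v0 N α a := by
  induction w with
  | nil =>
    intro _ u hu
    rw [Walk.support_nil, List.mem_singleton] at hu
    rw [hu]
  | @cons a c b h p ih =>
    intro hX u hu
    rw [Walk.support_cons] at hX hu
    have ha := hX a List.mem_cons_self
    have hc := hX c (List.mem_cons_of_mem _ p.start_mem_support)
    rcases List.mem_cons.1 hu with hu | hu
    · rw [hu]
    · rw [ih (fun y hy => hX y (List.mem_cons_of_mem _ hy)) u hu, adj_win E ha hc h]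

/-- [W6b] bounded radius of `X0`.
Proof. The walk of `radius`, made a path (`bypass`, length and support do not grow). All its vertices are in the same
window as `x` (`adj_win`), which is not of type T. Let `u` be a vertex of the path. If `u = x`: in `X0`. If `u = p i`: on the
path `p`. Otherwise `u` has two different neighbours on the path, both in `XX`, so it is not pendant. -/
theorem radius0 (E : Env G v0 p D L q m d0 M N s e α ω r) {x : V}
    (hx : x ∈ X0 G v0 p D L N α ω) :
    ∃ i ≤ D, p i ∈ X0 G v0 p D L N α ω ∧ ∃ w : G.Walk x (p i),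
      (∀ y ∈ w.support, y ∈ X0 G v0 p D L N α ω) ∧ w.length ≤ T3 L q m M := by
  classical
  obtain ⟨hxX, hxT, hx2⟩ := hx
  obtain ⟨i, hi, w, hw, hl⟩ := radius E hxX
  have hb : ∀ y ∈ w.bypass.support, y ∈ XX G v0 p L N α ω := fun y hy =>
    hw y (w.support_bypass_subset_support hy)
  have key : ∀ y ∈ w.bypass.support, y ∈ X0 G v0 p D L N α ω := by
    intro y hy
    refine ⟨hb y hy, ?_, ?_⟩
    · rw [w6b_win E w.bypass hb y hy]
      exact hxT
    · rcases w6b_two w.bypass w.bypass_isPath y hy with h | h | ⟨u, hu, u', hu', h1, h2, h3⟩
      · rw [h]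
        exact hx2
      · left
        exact ⟨i, hi, h⟩
      · right
        rintro ⟨z, hz⟩
        apply h1
        rw [hz u (hb u hu) h2, hz u' (hb u' hu') h3]
  refine ⟨i, hi, key _ w.bypass.end_mem_support, w.bypass, key, ?_⟩
  exact (w.length_bypass_le_length).trans hl

end

end Pool.RBE.S4
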