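import Pool.Agent.RBE.S4.W6a
import Pool.Agent.RBE.S4.W6b
import Pool.Agent.RBE.RE

set_option autoImplicit false

/-! [W6c] the exits. -/

namespace Pool.RBE.S4

open SimpleGraph Pool.Agent.RBC

/-- the first vertex of a walk in a set -/
private theorem w6c_first {Y : Type} {H : SimpleGraph Y} {D0 : Set Y} {a b : Y}
    (W : H.Walk a b) (h : ∃ z ∈ W.support, z ∈ D0) :
    ∃ (u : Y) (W1 : H.Walk a u) (R : H.Walk u b), u ∈ D0 ∧ W.edges = W1.edges ++ R.edges ∧
      ∀ e ∈ W1.edges, ∃ z ∈ e, z ∉ D0 := by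
  induction W with
  | @nil a =>
    obtain ⟨z, hz, hzD⟩ := h
    rw [Walk.support_nil, List.mem_singleton] at hz
    subst hz
    exact ⟨z, Walk.nil, Walk.nil, hzD, by simp, by simp⟩
  | @cons a b e hab W ih =>
    by_cases ha : a ∈ D0
    · exact ⟨a, Walk.nil, Walk.cons hab W, ha, by simp, by simp⟩
    · obtain ⟨z, hz, hzD⟩ := h
      have hz' : z ∈ W.support := by
        rw [Walk.support_cons, List.mem_cons] at hz
        rcases hz with rfl | hz
        · exact absurd hzD ha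
        · exact hz
      obtain ⟨u, W1, R, h1, h2, h3⟩ := ih ⟨z, hz', hzD⟩
      refine ⟨u, Walk.cons hab W1, R, h1, ?_, ?_⟩
      · rw [Walk.edges_cons, Walk.edges_cons, h2, List.cons_append]
      · intro e' he'
        rw [Walk.edges_cons, List.mem_cons] at he'
        rcases he' with rfl | he'
        · exact ⟨a, Sym2.mem_mk_left a b, ha⟩
        · exact h3 e' he'

/-- lifting walks -/
private theorem w6c_lift {V : Type} {G : SimpleGraph V} {Y : Set V} {H : SimpleGraph Y}
    {D0 : Set Y} (hH : ∀ a b : Y, H.Adj a b → (a ∉ D0 ∨ b ∉ D0) → G.Adj a.1 b.1) {a b : Y}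
    (W : H.Walk a b) (h : ∀ e ∈ W.edges, ∃ z ∈ e, z ∉ D0) :
    ∃ W' : G.Walk a.1 b.1, W'.edges = W.edges.map (Sym2.map Subtype.val) ∧
      W'.support = W.support.map Subtype.val := by
  induction W with
  | nil => exact ⟨Walk.nil, by simp, by simp⟩
  | @cons a b e hab W ih =>
    obtain ⟨W', h1, h2⟩ := ih fun e' he' => h e' (by
      rw [Walk.edges_cons]
      exact List.mem_cons_of_mem _ he')
    obtain ⟨z, hz, hzD⟩ := h s(a, b) (by
      rw [Walk.edges_cons]
      exact List.mem_cons_self)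
    have hadj : G.Adj a.1 b.1 := by
      apply hH a b hab
      rcases Sym2.mem_iff.1 hz with rfl | rfl
      · exact Or.inl hzD
      · exact Or.inr hzD
    refine ⟨Walk.cons hadj W', ?_, ?_⟩
    · rw [Walk.edges_cons, Walk.edges_cons, List.map_cons, h1]
      rfl
    · rw [Walk.support_cons, Walk.support_cons, List.map_cons, h2]

/-- walks stay in a window -/
private theorem w6c_win {V : Type} [Fintype V] {G : SimpleGraph V} {v0 : V} {p : ℕ → V}
    {D L q m d0 M N : ℕ} {s e α ω : ℕ → ℕ} {r : ℕ → ℕ → V}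
    (E : Env G v0 p D L q m d0 M N s e α ω r) {a b : V} (W : G.Walk a b)
    (h : ∀ z ∈ W.support, z ∈ X0 G v0 p D L N α ω) :
    win G v0 N α a = win G v0 N α b := by
  induction W with
  | nil => rfl
  | @cons a b e hab W ih =>
    rw [← ih fun z hz => h z (by
      rw [Walk.support_cons]
      exact List.mem_cons_of_mem _ hz)]
    refine adj_win E (h a (by simp)).1 (h b ?_).1 hab
    rw [Walk.support_cons]
    exact List.mem_cons_of_mem _ (Walk.start_mem_support W)

section
variable {V : Type} [Fintype V] {G : SimpleGraph V} {v0 : V} {p : ℕ → V}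
    {D L q m d0 M N : ℕ} {s e α ω : ℕ → ℕ} {r : ℕ → ℕ → V}

/-- the number of colours for the windows -/
def CW (T : ℕ) : ℕ := 1 + T * (6 * (T + 1) + 1)

/-- [W6c] The windows have a colouring with few colours and with exits.
Proof. Let `Y = X0` (a subtype), `H` the graph on `Y` with `x, y` adjacent iff `x ≠ y` and (`G.Adj x y` or both are in `PP`).
`H` is connected (`radius0`; the vertices in `PP` are pairwise adjacent). Let `D0 = {x : Y | x ∈ PP}` (nonempty:
`X0` contains some `p i` if it is nonempty; if `Y` is empty the theorem is trivial). `Rb H D0 1` (colour everything `0`,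
walks of length `≤ 1`). `(h, π)` a forest of `H` over `D0` (`exists_forest`), `h ≤ T := T3 L q m M` (`radius0`; `h x ≤ H.dist`).
`closure` (file RE, `c = T + 1`, `T := Finset.univ`, `H := T`) gives `K = univ`, `Rb H univ (1 + #bridges + T (6(T+1)+1))`. There
are no bridge vertices: if `BV H h π (T+1) u`, let `Z = {x | Desc h π u x}` (as a set of vertices of `G`): nonempty, disjoint
from `PP` (`h = 0` there, `h u > 0`), and `BV` says `OneEdge G X0 Z u (π u)` (an edge of `H` with an end outside `PP` is an edge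
of `G`): contradiction to `no_bridge`. So we get `c' : Sym2 Y → ℕ` with rainbow walks in `H` of colours `< CW T`. `c0 e` =
`c' e'` if `e = e'.map Subtype.val` and `0` otherwise.
Exits: `x, y ∈ X0`, `W` a rainbow walk in `H`. If `W` contains no vertex of `PP`, all its edges are edges of `G`, not `PE`:
a walk of `G` in `X0` (first alternative; `win x = win y` by `adj_win` along the walk). Otherwise let `p i` be the first and
`p j` the last vertex of `W` in `PP`: `W1` = the part up to `p i`, `W2` = the reversed part from `p j` on (`takeUntil`,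
`dropUntil` or induction): their edges have an end outside `PP`, so are edges of `G` and not `PE`, and the edge lists are
disjoint parts of the edge list of `W`, so the colours are distinct. `win (p i) = win x`, `win (p j) = win y` by `adj_win`. -/
theorem exits (E : Env G v0 p D L q m d0 M N s e α ω r) : ∃ c0 : Sym2 V → ℕ,
    ∀ x ∈ X0 G v0 p D L N α ω, ∀ y ∈ X0 G v0 p D L N α ω,
    (win G v0 N α x = win G v0 N α y ∧ ∃ W : G.Walk x y,
      (∀ z ∈ W.support, z ∈ X0 G v0 p D L N α ω) ∧ (W.edges.map c0).Nodup ∧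
      ∀ e ∈ W.edges, c0 e < CW (T3 L q m M) ∧ ¬ PE D p e) ∨
    ∃ i j, i ≤ D ∧ j ≤ D ∧ p i ∈ X0 G v0 p D L N α ω ∧ p j ∈ X0 G v0 p D L N α ω ∧
      win G v0 N α (p i) = win G v0 N α x ∧ win G v0 N α (p j) = win G v0 N α y ∧
      ∃ (W1 : G.Walk x (p i)) (W2 : G.Walk y (p j)),
        (∀ z ∈ W1.support, z ∈ X0 G v0 p D L N α ω) ∧
        (∀ z ∈ W2.support, z ∈ X0 G v0 p D L N α ω) ∧
        ((W1.edges ++ W2.edges).map c0).Nodup ∧
        ∀ e ∈ W1.edges ++ W2.edges, c0 e < CW (T3 L q m M) ∧ ¬ PE D p e := by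
  classical
  set Y : Set V := X0 G v0 p D L N α ω with hY
  set T := T3 L q m M with hT
  by_cases hYe : Y.Nonempty
  swap
  · refine ⟨fun _ => 0, fun x hx => absurd ⟨x, hx⟩ hYe⟩
  obtain ⟨x00, hx00⟩ := hYe
  set D0 : Set Y := {x : Y | x.1 ∈ PP p D} with hD0
  let H : SimpleGraph Y :=
    { Adj := fun x y => x ≠ y ∧ (G.Adj x.1 y.1 ∨ (x.1 ∈ PP p D ∧ y.1 ∈ PP p D))
      symm := ⟨fun x y h => ⟨h.1.symm, h.2.imp (fun h' => h'.symm) (fun h' => ⟨h'.2, h'.1⟩)⟩⟩
      loopless := ⟨fun x h => h.1 rfl⟩ }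
  have hle : G.induce Y ≤ H := by
    intro a b hab
    have hab' : G.Adj a.1 b.1 := hab
    exact ⟨fun h => hab'.ne (congrArg Subtype.val h), Or.inl hab'⟩
  have hHG : ∀ a b : Y, H.Adj a b → (a ∉ D0 ∨ b ∉ D0) → G.Adj a.1 b.1 := by
    intro a b hab h
    rcases hab.2 with h1 | h1
    · exact h1
    · rcases h with h2 | h2
      · exact absurd h1.1 h2
      · exact absurd h1.2 h2
  -- bounded distance to the path
  have hrad : ∀ x : Y, ∃ u ∈ D0, ∃ w : H.Walk x u, w.length ≤ T := by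
    rintro ⟨x, hx⟩
    obtain ⟨i, hi, hpi, w, hw, hwl⟩ := radius0 E hx
    refine ⟨⟨p i, hpi⟩, ⟨i, hi, rfl⟩, (w.induce Y hw).mapLe hle, ?_⟩
    have h1 : ((w.induce Y hw).mapLe hle).length = (w.induce Y hw).length := by
      simp [Walk.mapLe]
    have h2 : (w.induce Y hw).length = w.length := by
      have h3 := congrArg Walk.length (Walk.map_induce w hw)
      rw [Walk.length_map] at h3
      exact h3
    rw [h1, h2]
    exact hwl
  have hDD : ∀ a ∈ D0, ∀ b ∈ D0, ∃ w : H.Walk a b,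
      (∀ x ∈ w.support, x ∈ D0) ∧ (w.edges.map fun _ => 0).Nodup := by
    intro a ha b hb
    by_cases hab : a = b
    · subst hab
      exact ⟨Walk.nil, by simpa using ha, by simp⟩
    · have h1 : H.Adj a b := ⟨hab, Or.inr ⟨ha, hb⟩⟩
      refine ⟨Walk.cons h1 Walk.nil, ?_, by simp⟩
      intro x hx
      have h2 : x = a ∨ x = b := by simpa using hx
      rcases h2 with rfl | rfl
      · exact ha
      · exact hb
  have hconn : H.Connected := by
    have : Nonempty Y := ⟨⟨x00, hx00⟩⟩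
    refine ⟨fun a b => ?_⟩
    obtain ⟨u, hu, w, _⟩ := hrad a
    obtain ⟨v, hv, w', _⟩ := hrad b
    obtain ⟨w'', _⟩ := hDD u hu v hv
    exact ⟨(w.append w'').append w'.reverse⟩
  have hDne : D0.Nonempty := by
    obtain ⟨u, hu, _⟩ := hrad ⟨x00, hx00⟩
    exact ⟨u, hu⟩
  have hRb : Rb H D0 1 := by
    refine ⟨fun _ => 0, fun a ha b hb => ?_⟩
    obtain ⟨w, h1, h2⟩ := hDD a ha b hb
    exact ⟨w, h1, h2, fun _ _ => Nat.zero_lt_one⟩
  obtain ⟨h, π, F, hF⟩ := exists_forest hconn hDne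
  have hT' : ∀ v, h v ≤ T := by
    intro v
    obtain ⟨u, hu, w, hw⟩ := hrad v
    exact ((hF v u hu).trans (SimpleGraph.dist_le w)).trans hw
  have : Fintype Y := Fintype.ofFinite Y
  obtain ⟨K, _, hK, _, hKR⟩ := Pool.RBE.closure hconn hDne F (c := T + 1) (Nat.succ_pos T) hRb
    Finset.univ (fun v _ _ => Or.inl (Finset.mem_univ _)) T (Nat.le_succ T)
    (fun v _ => hT' v)
  -- there are no bridge vertices
  have hbv : ∀ u, ¬ BV H h π (T + 1) u := by
    intro u hu
    obtain ⟨hu1, hu2, hu3⟩ := hu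
    refine no_bridge E (Z := {x | ∃ hx : x ∈ Y, Desc h π u ⟨x, hx⟩}) ⟨u.1, u.2, ?_⟩ ?_ u.1
      (π u).1 ?_
    · refine ⟨le_rfl, ?_⟩
      rw [Nat.sub_self]
      rfl
    · rintro x ⟨hx, hd⟩
      refine ⟨hx, fun hxp => ?_⟩
      have h1 : h ⟨x, hx⟩ = 0 := (F.zero _).2 hxp
      have h2 := hd.1
      omega
    · rintro x ⟨hx, hd⟩ y hy hyZ hxy
      have h1 : H.Adj ⟨x, hx⟩ ⟨y, hy⟩ := hle (by exact hxy)
      have h2 := hu3 ⟨x, hx⟩ ⟨y, hy⟩ h1 ((hT' _).trans (Nat.le_succ T))
        ((hT' _).trans (Nat.le_succ T)) hd (fun h3 => hyZ ⟨hy, h3⟩)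
      exact ⟨congrArg Subtype.val h2.1, congrArg Subtype.val h2.2⟩
  have hemp : (Finset.univ.filter (fun u => BV H h π (T + 1) u)) = ∅ :=
    Finset.filter_eq_empty_iff.2 fun u _ => hbv u
  rw [hemp, Finset.card_empty, Nat.add_zero] at hKR
  obtain ⟨c', hc'⟩ := hKR
  have hinj : Function.Injective (Sym2.map (Subtype.val : Y → V)) :=
    Sym2.map.injective Subtype.val_injective
  let c0 : Sym2 V → ℕ := fun e => if h : ∃ e' : Sym2 Y, e'.map Subtype.val = e then
    c' h.choose else 0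
  have hc0 : ∀ e' : Sym2 Y, c0 (e'.map Subtype.val) = c' e' := by
    intro e'
    have h1 : ∃ e'' : Sym2 Y, e''.map Subtype.val = e'.map (Subtype.val : Y → V) := ⟨e', rfl⟩
    change (if h : ∃ e'' : Sym2 Y, e''.map Subtype.val = e'.map (Subtype.val : Y → V) then
      c' h.choose else 0) = c' e'
    rw [dif_pos h1, hinj h1.choose_spec]
  have hmap : ∀ l : List (Sym2 Y), (l.map (Sym2.map Subtype.val)).map c0 = l.map c' := by
    intro l
    rw [List.map_map]
    exact List.map_congr_left fun e' _ => hc0 e'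
  have hsup : ∀ l : List Y, ∀ z ∈ l.map (Subtype.val : Y → V), z ∈ Y := by
    intro l z hz
    obtain ⟨z', _, rfl⟩ := List.mem_map.1 hz
    exact z'.2
  have hnPE : ∀ e' : Sym2 Y, (∃ z ∈ e', z ∉ D0) → ¬ PE D p (e'.map Subtype.val) := by
    rintro e' ⟨z, hz, hzD⟩ hPE
    exact hzD (hPE z.1 (Sym2.mem_map.2 ⟨z, hz, rfl⟩))
  refine ⟨c0, fun x hx y hy => ?_⟩
  obtain ⟨W, _, hnd, hlt⟩ := hc' ⟨x, hx⟩ (hK (Finset.mem_coe.2 (Finset.mem_univ _))) ⟨y, hy⟩
    (hK (Finset.mem_coe.2 (Finset.mem_univ _)))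
  by_cases hex : ∃ z ∈ W.support, z ∈ D0
  swap
  · left
    have h1 : ∀ e ∈ W.edges, ∃ z ∈ e, z ∉ D0 := by
      intro e he
      induction e using Sym2.ind with
      | _ a b =>
        exact ⟨a, Sym2.mem_mk_left a b, fun ha =>
          hex ⟨a, Walk.fst_mem_support_of_mem_edges W he, ha⟩⟩
    obtain ⟨W', h2, h3⟩ := w6c_lift hHG W h1
    have h4 : ∀ z ∈ W'.support, z ∈ Y := by
      rw [h3]
      exact hsup _
    refine ⟨w6c_win E W' h4, W', h4, ?_, ?_⟩
    · rw [h2, hmap]
      exact hnd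
    · intro e he
      rw [h2] at he
      obtain ⟨e', he', rfl⟩ := List.mem_map.1 he
      refine ⟨?_, hnPE e' (h1 e' he')⟩
      rw [hc0]
      exact hlt e' he'
  · right
    obtain ⟨⟨u1, hu1⟩, W1, R, hD1, hE1, hO1⟩ := w6c_first W hex
    obtain ⟨⟨u2, hu2⟩, W2, R2, hD2, hE2, hO2⟩ := w6c_first R.reverse
      ⟨⟨u1, hu1⟩, Walk.end_mem_support _, hD1⟩
    obtain ⟨i, hi, rfl⟩ : ∃ i ≤ D, u1 = p i := hD1
    obtain ⟨j, hj, rfl⟩ : ∃ j ≤ D, u2 = p j := hD2
    obtain ⟨W1', h2, h3⟩ := w6c_lift hHG W1 hO1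
    obtain ⟨W2', h2', h3'⟩ := w6c_lift hHG W2 hO2
    have h4 : ∀ z ∈ W1'.support, z ∈ Y := by
      rw [h3]
      exact hsup _
    have h4' : ∀ z ∈ W2'.support, z ∈ Y := by
      rw [h3']
      exact hsup _
    have hperm : W.edges.Perm (W1.edges ++ (W2.edges ++ R2.edges)) := by
      rw [hE1, ← hE2, Walk.edges_reverse]
      exact List.Perm.append_left _ (List.reverse_perm _).symm
    have hsub : (W1.edges ++ W2.edges).Sublist (W1.edges ++ (W2.edges ++ R2.edges)) :=
      List.Sublist.append (List.Sublist.refl _) (List.sublist_append_left _ _)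
    have hmem : ∀ e ∈ W1.edges ++ W2.edges, e ∈ W.edges := fun e he =>
      hperm.mem_iff.2 (hsub.subset he)
    refine ⟨i, j, hi, hj, hu1, hu2, (w6c_win E W1' h4).symm, (w6c_win E W2' h4').symm,
      W1', W2', h4, h4', ?_, ?_⟩
    · rw [h2, h2', ← List.map_append, hmap]
      have h5 : ((W1.edges ++ (W2.edges ++ R2.edges)).map c').Nodup :=
        (hperm.map c').nodup_iff.1 hnd
      exact h5.sublist (hsub.map c')
    · intro e he
      rw [h2, h2', ← List.map_append] at he
      obtain ⟨e', he', rfl⟩ := List.mem_map.1 he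
      refine ⟨?_, hnPE e' ?_⟩
      · rw [hc0]
        exact hlt e' (hmem e' he')
      · rcases List.mem_append.1 he' with h6 | h6
        · exact hO1 e' h6
        · exact hO2 e' h6

end

end Pool.RBE.S4
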