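import Pool.Agent.RBE.S4.M7a
import Pool.Agent.RBE.S4.M6c
import Pool.Agent.RBE.S4.M4e
import Pool.Agent.RBE.S4.W6c

set_option autoImplicit false

/-! [M7b] the necklace. -/

namespace Pool.RBE.S4

open SimpleGraph Pool.Agent.RBC

section
variable {V : Type} [Fintype V] {G : SimpleGraph V} {v0 : V} {p : ℕ → V}
    {D L q m d0 M N : ℕ} {s e α ω : ℕ → ℕ} {r : ℕ → ℕ → V}

/-- [M7b] The necklace of `G`.
Proof. `w x` = the `k ≤ K` with `σ k = win x` if there is one (for `x ∈ X0` by `Mrg.all`), `0` otherwise. `c0` of `exits`.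
`a k = α (σ k)`, `b k = ω (σ (k+1) - 1)`. For `k < K`: `ext_rider` with `f = σ k`, `g = σ (k+1) - 1` gives `ℓ k, l k, ρ k`.
`eo k = (ℓ k + 4 - (b k - a k)) / 2`. Fields of `Neck`: `padj`, `pinj`: `Geo` (levels). `ab, bD, ba`: `env_mono`, `hαω`, `eD`.
`pX`: `p_mem_x0`. `wlo, whi`: from `win (p i) = σ (w (p i))`, `win_lt` and `p_mem_x0`-type inequalities (`i ≤ α (σ k)` implies
`win (p i) ≤ σ k`; `ω (σ (k+1) - 1) ≤ i` implies `σ (k+1) ≤ win (p i)`; `σ` strictly increasing). `exit`: `exits`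
(`win x = win y → w x = w y`). `rlo, rhi, radj`: `ext_rider` (`w = k`, resp. `g + 1 = σ (k+1)`, `w = k + 1`). `rin`: `ext_rider`,
`farside_pp`. `rinj`: far sides of different merged rings are disjoint (`farside_lev`, `env_mono`). `l2`. `lle`:
`l ≤ ℓ + 2 ≤ (b - a) + 2 eo` because `2 eo ≥ ℓ + 3 - (b - a)` (natural subtraction).
The mass: `mass` and `2 q eo k ≤ q (ℓ k + 4 - (b k - a k))`, `offs eo K = ∑ k ∈ range K, eo k`. -/
theorem exists_neck (E : Env G v0 p D L q m d0 M N s e α ω r) {K : ℕ} {σ : ℕ → ℕ}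
    {Zf : ℕ → Set V} {xf zf : ℕ → V} (Mr : Mrg G v0 p D L N α ω K σ Zf xf zf) :
    ∃ (w : V → ℕ) (c0 : Sym2 V → ℕ) (l eo : ℕ → ℕ) (ρ : ℕ → ℕ → V),
      Neck G D p (X0 G v0 p D L N α ω) w c0 (CW (T3 L q m M)) K (fun k => α (σ k))
        (fun k => ω (σ (k + 1) - 1)) l eo ρ ∧
      2 * q * (D + offs eo K) ≤ Fintype.card V + 2 * q ∧
      ∀ k < K, (∀ y, 0 < y → y < l k →
          ρ k y ∈ FarSide G v0 p L α ω Zf (σ k) (σ (k + 1) - 1)) ∧
        ∀ i, α (σ k) + 2 < i → i + 2 < ω (σ (k + 1) - 1) →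
          ∃ y, 0 < y ∧ y < l k ∧ lev G v0 (ρ k y) = i := by
  classical
  obtain ⟨hmono, hσN, hring⟩ := mrg_ring Mr
  obtain ⟨c0, hc0⟩ := exits E
  have hs1 : ∀ k < K, σ k ≤ σ (k + 1) - 1 ∧ σ (k + 1) - 1 + 1 = σ (k + 1) ∧
      σ (k + 1) - 1 < N := by
    intro k hk
    have h1 := Mr.slt k hk
    have h2 := hσN (k + 1) (by omega)
    omega
  have hσk : ∀ k < K, σ k < N := by
    intro k hk
    have h1 := hs1 k hk
    omega
  have key : ∀ k, ∃ (ℓ l : ℕ) (ρ : ℕ → V), k < K → (l ≤ ℓ + 2 ∧ 2 ≤ l ∧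
      ω (σ (k + 1) - 1) ≤ α (σ k) + 4 + ℓ ∧
      (ρ 0 ∈ X0 G v0 p D L N α ω ∧ win G v0 N α (ρ 0) = σ k) ∧
      (ρ l ∈ X0 G v0 p D L N α ω ∧ win G v0 N α (ρ l) = σ (k + 1) - 1 + 1) ∧
      (∀ y < l, G.Adj (ρ y) (ρ (y + 1))) ∧
      (∀ y, 0 < y → y < l → ρ y ∈ FarSide G v0 p L α ω Zf (σ k) (σ (k + 1) - 1) ∧
        ρ y ∉ X0 G v0 p D L N α ω) ∧
      (∀ y z, 0 < y → y < l → 0 < z → z < l → ρ y = ρ z → y = z) ∧
      (∀ i, α (σ k) + 2 < i → i + 2 < ω (σ (k + 1) - 1) →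
        ∃ y, 0 < y ∧ y < l ∧ lev G v0 (ρ y) = i) ∧
      q * (ℓ + 1) ≤ (Finset.univ.filter
        (fun x => x ∈ FarSide G v0 p L α ω Zf (σ k) (σ (k + 1) - 1))).card) := by
    intro k
    by_cases hk : k < K
    · obtain ⟨h1, h2, h3⟩ := hs1 k hk
      obtain ⟨ℓ, l, ρ, h⟩ := ext_rider E h1 h3 (Mr.tw k hk) (Mr.nT k hk.le) (by
        rw [h2]
        exact Mr.nT (k + 1) (by omega))
      exact ⟨ℓ, l, ρ, fun _ => h⟩
    · exact ⟨0, 0, fun _ => v0, fun h => absurd h hk⟩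
  choose ℓ l ρ hρ using key
  -- the window numbers
  set W : ℕ → ℕ := fun j => if h : ∃ k ≤ K, σ k = j then h.choose else 0 with hW
  have hWs : ∀ j, (∃ k ≤ K, σ k = j) → W j ≤ K ∧ σ (W j) = j := by
    intro j hj
    have h1 : W j = hj.choose := dif_pos hj
    rw [h1]
    exact hj.choose_spec
  have hinj : ∀ k ≤ K, ∀ k' ≤ K, σ k = σ k' → k = k' := by
    intro k hk k' hk' h
    rcases lt_trichotomy k k' with h1 | h1 | h1
    · have := hmono k k' h1 hk'
      omega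
    · exact h1
    · have := hmono k' k h1 hk
      omega
  have hWx : ∀ x ∈ X0 G v0 p D L N α ω, W (win G v0 N α x) ≤ K ∧
      σ (W (win G v0 N α x)) = win G v0 N α x :=
    fun x hx => hWs _ (Mr.all _ (win_le x) hx.2.1)
  have hWσ : ∀ k ≤ K, W (σ k) = k := by
    intro k hk
    obtain ⟨h1, h2⟩ := hWs (σ k) ⟨k, hk, rfl⟩
    exact hinj _ h1 _ hk h2
  have hab : ∀ k < K, α (σ k) + 20 ≤ ω (σ (k + 1) - 1) := by
    intro k hk
    obtain ⟨h1, h2, h3⟩ := hs1 k hk
    have h4 := E.rings.hαω _ h3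
    rcases Nat.eq_or_lt_of_le h1 with h5 | h5
    · rw [h5]
      exact h4
    · have h6 := (env_mono E h5 h3).2.2.1
      omega
  refine ⟨fun x => W (win G v0 N α x), c0, l,
    fun k => (ℓ k + 4 - (ω (σ (k + 1) - 1) - α (σ k))) / 2, ρ, ?_, ?_, ?_⟩
  · refine
      { padj := E.geo.adj
        pinj := ?_
        ab := ?_
        bD := ?_
        ba := ?_
        pX := fun i hi => p_mem_x0 E Mr hi
        wlo := ?_
        whi := ?_
        wN := fun x hx => (hWx x hx).1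
        exit := ?_
        rlo := ?_
        rhi := ?_
        rin := ?_
        radj := fun k hk y hy => (hρ k hk).2.2.2.2.2.1 y hy
        rinj := ?_
        l2 := fun k hk => (hρ k hk).2.1
        lle := ?_ }
    · intro i hi j hj h
      have h1 := E.geo.lev i hi
      have h2 := E.geo.lev j hj
      rw [h] at h1
      exact h1.symm.trans h2
    · intro k hk
      have h1 := hab k hk
      show α (σ k) < ω (σ (k + 1) - 1)
      omega
    · intro k hk
      obtain ⟨h1, h2, h3⟩ := hs1 k hk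
      have h4 := E.rings.hω _ h3
      have h5 := E.rings.eD _ h3
      show ω (σ (k + 1) - 1) ≤ D
      omega
    · intro k hk
      obtain ⟨h1, h2, h3⟩ := hs1 k (by omega)
      have h4 := hσk (k + 1) hk
      have h5 := (env_mono E (show σ (k + 1) - 1 < σ (k + 1) by omega) h4).2.1
      show ω (σ (k + 1) - 1) ≤ α (σ (k + 1))
      omega
    · intro i hi hx k hk hik
      obtain ⟨h1, h2⟩ := hWx _ hx
      by_contra hcon
      push Not at hcon
      have h3 := hmono k _ hcon h1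
      rw [h2] at h3
      have h4 := (win_lt E (hσk k hk) (p i)).1 h3
      rw [E.geo.lev i hi] at h4
      have h5 : i ≤ α (σ k) := hik
      omega
    · intro i hi hx k hk hik
      obtain ⟨h1, h2⟩ := hWx _ hx
      obtain ⟨h3, h4, h5⟩ := hs1 k hk
      by_contra hcon
      push Not at hcon
      have h6 : σ (W (win G v0 N α (p i))) ≤ σ k := by
        rcases Nat.eq_or_lt_of_le (Nat.le_of_lt_succ hcon) with h7 | h7
        · rw [h7]
        · exact (hmono _ k h7 hk.le).le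
      rw [h2] at h6
      have h7 : ¬ (σ (k + 1) - 1 < win G v0 N α (p i)) := by omega
      rw [win_lt E h5 (p i), E.geo.lev i hi] at h7
      have h8 := E.rings.hαω _ h5
      have h9 : ω (σ (k + 1) - 1) ≤ i := hik
      omega
    · intro x hx y hy
      rcases hc0 x hx y hy with ⟨h1, h2⟩ | ⟨i, j, hi, hj, h1, h2, h3, h4, h5⟩
      · exact Or.inl ⟨congrArg W h1, h2⟩
      · exact Or.inr ⟨i, j, hi, hj, h1, h2, congrArg W h3, congrArg W h4, h5⟩
    · intro k hk
      obtain ⟨h1, h2⟩ := (hρ k hk).2.2.2.1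
      refine ⟨h1, ?_⟩
      show W (win G v0 N α (ρ k 0)) = k
      rw [h2]
      exact hWσ k hk.le
    · intro k hk
      obtain ⟨h1, h2⟩ := (hρ k hk).2.2.2.2.1
      refine ⟨h1, ?_⟩
      show W (win G v0 N α (ρ k (l k))) = k + 1
      rw [h2, (hs1 k hk).2.1]
      exact hWσ (k + 1) (by omega)
    · intro k hk y hy hy'
      obtain ⟨h1, h2⟩ := (hρ k hk).2.2.2.2.2.2.1 y hy hy'
      refine ⟨h2, fun i hi h => ?_⟩
      exact farside_pp E (Mr.tw k hk) h1 ⟨i, hi, h⟩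
    · intro t ht t' ht' y z hy hy' hz hz' h
      have h1 := ((hρ t ht).2.2.2.2.2.2.1 y hy hy').1
      have h2 := ((hρ t' ht').2.2.2.2.2.2.1 z hz hz').1
      have l1 := farside_lev E (hs1 t ht).2.2 (Mr.tw t ht) h1
      have l2 := farside_lev E (hs1 t' ht').2.2 (Mr.tw t' ht') h2
      have hlt : ∀ u u', u < u' → u' < K → ω (σ (u + 1) - 1) < α (σ u') := by
        intro u u' huu' hu'
        have h3 : σ (u + 1) ≤ σ u' := by
          rcases Nat.eq_or_lt_of_le (Nat.succ_le_of_lt huu') with h7 | h7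
          · rw [show u + 1 = u' from h7]
          · exact (hmono _ u' h7 hu'.le).le
        have h4 := hs1 u (by omega)
        have h5 := (env_mono E (show σ (u + 1) - 1 < σ u' by omega) (hσk u' hu')).2.1
        omega
      have htt : t = t' := by
        rw [← h] at l2
        rcases lt_trichotomy t t' with h3 | h3 | h3
        · have h4 := hlt t t' h3 ht'
          omega
        · exact h3
        · have h4 := hlt t' t h3 ht
          omega
      subst htt
      exact ⟨rfl, (hρ t ht).2.2.2.2.2.2.2.1 y z hy hy' hz hz' h⟩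
    · intro k hk
      have h1 := (hρ k hk).1
      show l k ≤ (ω (σ (k + 1) - 1) - α (σ k)) +
        2 * ((ℓ k + 4 - (ω (σ (k + 1) - 1) - α (σ k))) / 2)
      omega
  · have h1 := mass E Mr ℓ (fun k hk => (hρ k hk).2.2.1)
      (fun k hk => (hρ k hk).2.2.2.2.2.2.2.2.2)
    refine le_trans ?_ h1
    unfold offs
    rw [mul_add, mul_comm 2 q, mul_assoc q 2 (∑ s ∈ Finset.range K, _), Finset.mul_sum]
    refine Nat.add_le_add_left (Nat.mul_le_mul_left q (Finset.sum_le_sum fun k _ => ?_)) _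
    exact Nat.mul_div_le _ 2
  · intro k hk
    exact ⟨fun y hy hy' => ((hρ k hk).2.2.2.2.2.2.1 y hy hy').1, (hρ k hk).2.2.2.2.2.2.2.2.1⟩

end

end Pool.RBE.S4
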