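import Pool.Agent.RBE.S4.N0

set_option autoImplicit false

/-! [N1] rainbow walks. -/

namespace Pool.RBE.S4

open SimpleGraph Pool.Agent.RBC

variable {V : Type} {G : SimpleGraph V}

/-! The proofs of the first four are in `Pool/Agent/MP_dd54b8_co/C2.lean` (private `Rw`). -/

theorem rw_refl {c : Sym2 V → ℕ} {D : Set V} {A : Set ℕ} {u : V} (hu : u ∈ D) :
    RW G c D A u u := by
  refine ⟨Walk.nil, ?_, ?_, ?_⟩
  · intro x hx
    rw [Walk.support_nil, List.mem_singleton] at hx
    rw [hx]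
    exact hu
  · simp
  · intro e he
    rw [Walk.edges_nil] at he
    exact absurd he (List.not_mem_nil)

theorem rw_symm {c : Sym2 V → ℕ} {D : Set V} {A : Set ℕ} {u v : V} (h : RW G c D A u v) :
    RW G c D A v u := by
  obtain ⟨w, h1, h2, h3⟩ := h
  refine ⟨w.reverse, ?_, ?_, ?_⟩
  · intro x hx
    rw [Walk.support_reverse, List.mem_reverse] at hx
    exact h1 x hx
  · rw [Walk.edges_reverse, List.map_reverse]
    exact List.nodup_reverse.2 h2
  · intro e he
    rw [Walk.edges_reverse, List.mem_reverse] at he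
    exact h3 e he

theorem rw_trans {c : Sym2 V → ℕ} {D : Set V} {A B : Set ℕ} {u v z : V} (h : RW G c D A u v)
    (h' : RW G c D B v z) (hd : ∀ x ∈ A, x ∉ B) : RW G c D (A ∪ B) u z := by
  obtain ⟨w, h1, h2, h3⟩ := h
  obtain ⟨w', h1', h2', h3'⟩ := h'
  refine ⟨w.append w', ?_, ?_, ?_⟩
  · intro x hx
    rcases (Walk.mem_support_append_iff _ _).1 hx with hx | hx
    · exact h1 x hx
    · exact h1' x hx
  · rw [Walk.edges_append, List.map_append]
    refine List.nodup_append.2 ⟨h2, h2', ?_⟩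
    intro x hx y hy hxy
    obtain ⟨e, he, rfl⟩ := List.mem_map.1 hx
    obtain ⟨e', he', rfl⟩ := List.mem_map.1 hy
    exact hd _ (h3 e he) (hxy ▸ h3' e' he')
  · intro e he
    rw [Walk.edges_append, List.mem_append] at he
    rcases he with he | he
    · exact Or.inl (h3 e he)
    · exact Or.inr (h3' e he)

theorem rw_mono {c : Sym2 V → ℕ} {D D' : Set V} {A B : Set ℕ} {u v : V} (h : RW G c D A u v)
    (hA : ∀ x ∈ A, x ∈ B) (hD : D ⊆ D') : RW G c D' B u v := by
  obtain ⟨w, h1, h2, h3⟩ := h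
  exact ⟨w, fun x hx => hD (h1 x hx), h2, fun e he => hA _ (h3 e he)⟩

private theorem n1_seq_walk (P : ℕ → V) (n : ℕ) :
    ∀ (i : ℕ), (∀ t, i ≤ t → t < i + n → G.Adj (P t) (P (t+1))) →
    ∃ w : G.Walk (P i) (P (i + n)), (∀ x ∈ w.support, ∃ t, i ≤ t ∧ t ≤ i + n ∧ x = P t) ∧
      w.edges = (List.range' i n).map (fun t => s(P t, P (t+1))) := by
  induction n with
  | zero =>
    intro i _
    refine ⟨Walk.nil, ?_, ?_⟩
    · intro x hx
      refine ⟨i, le_rfl, by omega, ?_⟩
      simpa using hx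
    · simp
  | succ n ih =>
    intro i h
    have h1 := h i le_rfl (by omega)
    obtain ⟨w, hw1, hw2⟩ := ih (i+1) (fun t h1 h2 => h t (by omega) (by omega))
    refine ⟨Walk.cons h1 (w.copy rfl (by congr 1; omega)), ?_, ?_⟩
    · intro x hx
      rw [Walk.support_cons, Walk.support_copy] at hx
      rcases List.mem_cons.1 hx with rfl | hx
      · exact ⟨i, le_rfl, by omega, rfl⟩
      · obtain ⟨t, h1, h2, h3⟩ := hw1 x hx
        exact ⟨t, by omega, by omega, h3⟩
    · rw [Walk.edges_cons, Walk.edges_copy, hw2, List.range'_succ]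
      simp

/-- A walk along the sequence `P i, P (i+1), …, P (i+n)`; the colour of the edge number `t` is `f t`,
these colours are distinct. (Compare `seq_walk` in `C2.lean`.) -/
theorem rw_seq {c : Sym2 V → ℕ} {D : Set V} (P : ℕ → V) (i n : ℕ) (f : ℕ → ℕ)
    (hadj : ∀ t, i ≤ t → t < i + n → G.Adj (P t) (P (t + 1)))
    (hD : ∀ t, i ≤ t → t ≤ i + n → P t ∈ D)
    (hc : ∀ t, i ≤ t → t < i + n → c s(P t, P (t + 1)) = f t)
    (hinj : ∀ t t', i ≤ t → t < t' → t' < i + n → f t ≠ f t') :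
    RW G c D {z | ∃ t, i ≤ t ∧ t < i + n ∧ z = f t} (P i) (P (i + n)) := by
  obtain ⟨w, hw1, hw2⟩ := n1_seq_walk P n i hadj
  refine ⟨w, ?_, ?_, ?_⟩
  · intro x hx
    obtain ⟨t, h1, h2, rfl⟩ := hw1 x hx
    exact hD t h1 h2
  · rw [hw2, List.map_map]
    refine List.Nodup.map_on ?_ List.nodup_range'
    intro t ht t' ht' htt
    rw [List.mem_range'_1] at ht ht'
    simp only [Function.comp] at htt
    rw [hc t ht.1 ht.2, hc t' ht'.1 ht'.2] at htt
    rcases lt_trichotomy t t' with h | h | h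
    · exact absurd htt (hinj t t' ht.1 h ht'.2)
    · exact h
    · exact absurd htt.symm (hinj t' t ht'.1 h ht.2)
  · intro e he
    rw [hw2] at he
    obtain ⟨t, ht, rfl⟩ := List.mem_map.1 he
    rw [List.mem_range'_1] at ht
    exact ⟨t, ht.1, ht.2, hc t ht.1 ht.2⟩

/-- A set is rainbow connected as soon as all its pairs are joined by `RW` with colours `< q`. -/
theorem rb_of_rw {c : Sym2 V → ℕ} {D : Set V} {q : ℕ}
    (h : ∀ u ∈ D, ∀ v ∈ D, RW G c D {z | z < q} u v) : Rb G D q :=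
  ⟨c, h⟩

end Pool.RBE.S4
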