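import Pool.Agent.RBE.S4.N1

set_option autoImplicit false

/-! [N2] the colouring of a necklace. -/

namespace Pool.RBE.S4

open SimpleGraph Pool.Agent.RBC

variable {V : Type} {G : SimpleGraph V}

/-- a rider vertex equal to an interior rider vertex is the same rider vertex -/
private theorem N2_eqv {D : ℕ} {p : ℕ → V} {X : Set V} {w : V → ℕ} {c0 : Sym2 V → ℕ} {C N : ℕ}
    {a b l e : ℕ → ℕ} {r : ℕ → ℕ → V} (h : Neck G D p X w c0 C N a b l e r)
    {t t' y y' : ℕ} (ht : t < N) (ht' : t' < N) (hy0 : 0 < y) (hy : y < l t) (hy' : y' ≤ l t')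
    (he : r t y = r t' y') : t = t' ∧ y = y' := by
  have h1 := (h.rin t ht y hy0 hy).1
  have h2 : 0 < y' := by
    rcases Nat.eq_zero_or_pos y' with h0 | h0
    · exfalso
      rw [h0] at he
      exact h1 (he ▸ (h.rlo t' ht').1)
    · exact h0
  have h3 : y' < l t' := by
    rcases Nat.lt_or_ge y' (l t') with h0 | h0
    · exact h0
    · exfalso
      have h4 : y' = l t' := le_antisymm hy' h0
      rw [h4] at he
      exact h1 (he ▸ (h.rhi t' ht').1)
  exact h.rinj t ht t' ht' y y' hy0 hy h2 h3 he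

/-- the edges of the riders are distinct -/
private theorem N2_uniq {D : ℕ} {p : ℕ → V} {X : Set V} {w : V → ℕ} {c0 : Sym2 V → ℕ} {C N : ℕ}
    {a b l e : ℕ → ℕ} {r : ℕ → ℕ → V} (h : Neck G D p X w c0 C N a b l e r)
    {t t' y y' : ℕ} (ht : t < N) (ht' : t' < N) (hy : y < l t) (hy' : y' < l t')
    (he : s(r t y, r t (y + 1)) = s(r t' y', r t' (y' + 1))) : t = t' ∧ y = y' := by
  have hends : ∀ s < N, r s (l s) ≠ r s 0 := by
    intro s hs h0
    have h1 := (h.rlo s hs).2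
    have h2 := (h.rhi s hs).2
    rw [h0] at h2
    omega
  have hl := h.l2 t ht
  rcases Sym2.eq_iff.1 he with ⟨h1, h2⟩ | ⟨h1, h2⟩
  · rcases Nat.eq_zero_or_pos y with h0 | h0
    · obtain ⟨h3, h4⟩ := N2_eqv h ht ht' (Nat.succ_pos y) (by omega) (by omega) h2
      exact ⟨h3, by omega⟩
    · exact N2_eqv h ht ht' h0 hy (le_of_lt hy') h1
  · exfalso
    rcases Nat.eq_zero_or_pos y with h0 | h0
    · obtain ⟨h3, h4⟩ := N2_eqv h ht ht' (Nat.succ_pos y) (by omega) (le_of_lt hy') h2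
      subst h3
      rcases Nat.lt_or_ge (y' + 1) (l t) with h5 | h5
      · obtain ⟨_, h6⟩ := N2_eqv h ht ht (Nat.succ_pos y') h5 (le_of_lt hy) h1.symm
        omega
      · have h6 : y' + 1 = l t := by omega
        rw [h0, h6] at h1
        exact hends t ht h1.symm
    · obtain ⟨h3, h4⟩ := N2_eqv h ht ht' h0 hy (by omega) h1
      subst h3
      rcases Nat.lt_or_ge (y + 1) (l t) with h5 | h5
      · obtain ⟨_, h6⟩ := N2_eqv h ht ht (Nat.succ_pos y) h5 (le_of_lt hy') h2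
        omega
      · have h6 : y + 1 = l t := by omega
        rcases Nat.eq_zero_or_pos y' with h7 | h7
        · rw [h6, h7] at h2
          exact hends t ht h2
        · obtain ⟨_, h8⟩ := N2_eqv h ht ht h7 hy' (by omega) h2.symm
          omega

/-- every rider edge has an interior rider vertex -/
private theorem N2_int {D : ℕ} {p : ℕ → V} {X : Set V} {w : V → ℕ} {c0 : Sym2 V → ℕ} {C N : ℕ}
    {a b l e : ℕ → ℕ} {r : ℕ → ℕ → V} (h : Neck G D p X w c0 C N a b l e r)
    {t y : ℕ} (ht : t < N) (hy : y < l t) :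
    ∃ v ∈ s(r t y, r t (y + 1)), v ∉ X ∧ ∀ i ≤ D, v ≠ p i := by
  have hl := h.l2 t ht
  rcases Nat.eq_zero_or_pos y with h0 | h0
  · refine ⟨r t (y + 1), Sym2.mem_mk_right _ _, ?_⟩
    exact h.rin t ht (y + 1) (Nat.succ_pos y) (by omega)
  · exact ⟨r t y, Sym2.mem_mk_left _ _, h.rin t ht y h0 hy⟩

/-- [N2] The colouring.
Proof. Define (classically) `c ed := if h : ∃ t y, t < N ∧ y < l t ∧ ed = s(r t y, r t (y+1)) then
rcol D C a b e t y` (for the chosen `t, y`) `else if h : ∃ i, i < D ∧ ed = s(p i, p (i+1)) then i else D + c0 ed`.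
Uniqueness of `(t, y)`: every rider edge contains an interior rider vertex (`l t ≥ 2`: `r t y` if `y ≥ 1`,
`r t 1` if `y = 0`), interior vertices are not in `X` (`rin`) while `r t 0, r t (l t) ∈ X`. Let
`s(r t y, r t (y+1)) = s(r t' y', r t' (y'+1))`. An interior vertex of the first side equals a vertex of the
second side, which is not in `X`, so interior; `rinj` gives `t = t'` and equal indices. If both edges are equal
as ordered pairs we get `y = y'` (from the interior vertex). If they are reversed, `r t y = r t (y'+1)` and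
`r t (y+1) = r t y'`: the interior one of these gives `y = y'+1` or `y + 1 = y'`; say `y = y' + 1` (other case
symmetric): then `r t (y+1) = r t (y-1)`; if one of the indices `y+1, y-1` is interior then so is the other (not
in `X`), contradiction to `rinj`; otherwise `y + 1 = l t`, `y - 1 = 0` and `w (r t 0) = t ≠ t + 1 = w (r t (l t))`.
A rider edge is not a path edge and not inside `X` (its interior vertex is not a `p i`, not in `X`).
A path edge `s(p i, p (i+1))` determines `i` (`pinj`). An edge with `¬ PE D p ed` is not a path edge. -/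
theorem neck_colour {D : ℕ} {p : ℕ → V} {X : Set V} {w : V → ℕ} {c0 : Sym2 V → ℕ} {C N : ℕ}
    {a b l e : ℕ → ℕ} {r : ℕ → ℕ → V} (h : Neck G D p X w c0 C N a b l e r) :
    ∃ c : Sym2 V → ℕ, (∀ i < D, c s(p i, p (i + 1)) = i) ∧
      (∀ t < N, ∀ y < l t, c s(r t y, r t (y + 1)) = rcol D C a b e t y) ∧
      ∀ ed : Sym2 V, (∀ z ∈ ed, z ∈ X) → ¬ PE D p ed → c0 ed < C → c ed = D + c0 ed := by
  classical
  have hnp : ∀ t y i, t < N → y < l t → i < D → s(r t y, r t (y + 1)) ≠ s(p i, p (i + 1)) := by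
    intro t y i ht hy hi h0
    obtain ⟨v, hv, _, hv2⟩ := N2_int h ht hy
    rw [h0] at hv
    rcases Sym2.mem_iff.1 hv with h1 | h1
    · exact hv2 i (le_of_lt hi) h1
    · exact hv2 (i + 1) hi h1
  have hpp : ∀ i j, i < D → j < D → s(p i, p (i + 1)) = s(p j, p (j + 1)) → i = j := by
    intro i j hi hj h0
    rcases Sym2.eq_iff.1 h0 with ⟨h1, _⟩ | ⟨h1, h2⟩
    · exact h.pinj i (le_of_lt hi) j (le_of_lt hj) h1
    · have h3 := h.pinj i (le_of_lt hi) (j + 1) hj h1
      have h4 := h.pinj (i + 1) hi j (le_of_lt hj) h2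
      omega
  refine ⟨fun ed => if h1 : ∃ ty : ℕ × ℕ, ty.1 < N ∧ ty.2 < l ty.1 ∧
      ed = s(r ty.1 ty.2, r ty.1 (ty.2 + 1)) then rcol D C a b e h1.choose.1 h1.choose.2
    else if h2 : ∃ i, i < D ∧ ed = s(p i, p (i + 1)) then h2.choose else D + c0 ed, ?_, ?_, ?_⟩
  · intro i hi
    have h1 : ¬ ∃ ty : ℕ × ℕ, ty.1 < N ∧ ty.2 < l ty.1 ∧
        s(p i, p (i + 1)) = s(r ty.1 ty.2, r ty.1 (ty.2 + 1)) := by
      rintro ⟨ty, h2, h3, h4⟩
      exact hnp ty.1 ty.2 i h2 h3 hi h4.symm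
    have h2 : ∃ j, j < D ∧ s(p i, p (i + 1)) = s(p j, p (j + 1)) := ⟨i, hi, rfl⟩
    show dite _ _ _ = _
    rw [dif_neg h1, dif_pos h2]
    exact (hpp i _ hi h2.choose_spec.1 h2.choose_spec.2).symm
  · intro t ht y hy
    have h1 : ∃ ty : ℕ × ℕ, ty.1 < N ∧ ty.2 < l ty.1 ∧
        s(r t y, r t (y + 1)) = s(r ty.1 ty.2, r ty.1 (ty.2 + 1)) := ⟨(t, y), ht, hy, rfl⟩
    show dite _ _ _ = _
    rw [dif_pos h1]
    obtain ⟨h2, h3⟩ := N2_uniq h ht h1.choose_spec.1 hy h1.choose_spec.2.1 h1.choose_spec.2.2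
    rw [← h2, ← h3]
  · intro ed hX hPE _
    have h1 : ¬ ∃ ty : ℕ × ℕ, ty.1 < N ∧ ty.2 < l ty.1 ∧
        ed = s(r ty.1 ty.2, r ty.1 (ty.2 + 1)) := by
      rintro ⟨ty, h2, h3, h4⟩
      obtain ⟨v, hv, hv1, _⟩ := N2_int h h2 h3
      rw [← h4] at hv
      exact hv1 (hX v hv)
    have h2 : ¬ ∃ i, i < D ∧ ed = s(p i, p (i + 1)) := by
      rintro ⟨i, hi, h3⟩
      refine hPE ?_
      intro z hz
      rw [h3] at hz
      rcases Sym2.mem_iff.1 hz with h4 | h4
      · exact ⟨i, le_of_lt hi, h4⟩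
      · exact ⟨i + 1, hi, h4⟩
    show dite _ _ _ = _
    rw [dif_neg h1, dif_neg h2]

end Pool.RBE.S4
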