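import Pool.Agent.RBE.S4.N1

set_option autoImplicit false

/-! [N3] the riders of a necklace. -/

namespace Pool.RBE.S4

open SimpleGraph Pool.Agent.RBC

variable {V : Type} {G : SimpleGraph V}

theorem offs_succ (e : ℕ → ℕ) (t : ℕ) : offs e (t + 1) = offs e t + e t := by
  unfold offs
  exact Finset.sum_range_succ _ _

theorem offs_mono (e : ℕ → ℕ) {s t : ℕ} (h : s ≤ t) : offs e s ≤ offs e t := by
  unfold offs
  exact Finset.sum_le_sum_of_subset (Finset.range_mono h)

/-- [N3a] Two edges of the same rider at distance `< e t + (b t - a t)` have different colours.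
Proof. Unfold `rcol`, cases; `omega` (here `z < (b t - a t) + 2 * e t`). -/
theorem rcol_inj {D C : ℕ} {a b e : ℕ → ℕ} {t y z : ℕ} (hab : a t < b t) (hb : b t ≤ D)
    (hyz : y < z) (hz : z < y + (e t + (b t - a t))) (hz' : z < (b t - a t) + 2 * e t) :
    rcol D C a b e t y ≠ rcol D C a b e t z := by
  unfold rcol
  split_ifs <;> omega

section
variable {D : ℕ} {p : ℕ → V} {X : Set V} {w : V → ℕ} {c0 : Sym2 V → ℕ} {C N : ℕ}
    {a b l e : ℕ → ℕ} {r : ℕ → ℕ → V}

private theorem n3_seg (h : Neck G D p X w c0 C N a b l e r) {c : Sym2 V → ℕ}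
    (hc : ∀ t < N, ∀ y < l t, c s(r t y, r t (y + 1)) = rcol D C a b e t y) {t y n : ℕ}
    (ht : t < N) (hy : y + n ≤ l t) (hn : y + n ≤ y + (e t + (b t - a t)) ∨ e t ≤ y) :
    RW G c (neckSet D p X N l r) {z | ∃ t', y ≤ t' ∧ t' < y + n ∧ z = rcol D C a b e t t'}
      (r t y) (r t (y + n)) := by
  have hl := h.lle t ht
  apply rw_seq (r t) y n (rcol D C a b e t)
  · intro z _ hz
    exact h.radj t ht z (by omega)
  · intro z _ hz
    exact Or.inr (Or.inr ⟨t, ht, z, by omega, rfl⟩)
  · intro z _ hz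
    exact hc t ht z (by omega)
  · intro z z' hz hzz hz'
    exact rcol_inj (h.ab t ht) (h.bD t ht) hzz (by omega) (by omega)

/-- [N3b] Going down the rider.
Proof. `rw_seq` (for the sequence `r t`, from `0` to `y`; then `rw_symm`), colours `rcol … t z`, `z < y`: for `z < e t` the
private colour `D + C + offs e t + z`; for `e t ≤ z < y ≤ e t + (b t - a t)` the colour `b t - 1 - (z - e t)`. Distinct by
`rcol_inj`. -/
theorem rider_down (h : Neck G D p X w c0 C N a b l e r) {c : Sym2 V → ℕ}
    (hc : ∀ t < N, ∀ y < l t, c s(r t y, r t (y + 1)) = rcol D C a b e t y) {t y : ℕ}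
    (ht : t < N) (hy : y ≤ l t) (hy' : y ≤ e t + (b t - a t)) :
    RW G c (neckSet D p X N l r)
      ({z | D + C + offs e t ≤ z ∧ z < D + C + offs e t + min y (e t)} ∪
        {z | b t - (y - e t) ≤ z ∧ z < b t}) (r t y) (r t 0) := by
  have hab := h.ab t ht
  have h1 := n3_seg h hc (t := t) (y := 0) (n := y) ht (by omega) (Or.inl (by omega))
  rw [Nat.zero_add] at h1
  apply rw_symm
  apply rw_mono h1 _ (le_refl _)
  rintro x ⟨t', h2, h3, rfl⟩
  unfold rcol
  simp only [Set.mem_union, Set.mem_ofPred_eq]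
  split_ifs <;> omega

/-- [N3c] Going up the rider. Proof: as `rider_down`, sequence from `y` to `l t ≤ (b t - a t) + 2 e t`: for
`z < e t + (b t - a t)` the colour `b t - 1 - (z - e t)`, for larger `z` the private colour number
`z - e t - (b t - a t)`. The distance of two edges is `< l t - e t ≤ e t + (b t - a t)`. -/
theorem rider_up (h : Neck G D p X w c0 C N a b l e r) {c : Sym2 V → ℕ}
    (hc : ∀ t < N, ∀ y < l t, c s(r t y, r t (y + 1)) = rcol D C a b e t y) {t y : ℕ}
    (ht : t < N) (hy : y ≤ l t) (hy' : e t ≤ y) :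
    RW G c (neckSet D p X N l r)
      ({z | a t ≤ z ∧ z < b t - (y - e t)} ∪
        {z | D + C + offs e t + (y - (e t + (b t - a t))) ≤ z ∧ z < D + C + offs e (t + 1)})
      (r t y) (r t (l t)) := by
  have hab := h.ab t ht
  have hl := h.lle t ht
  have hs := offs_succ e t
  have h1 := n3_seg h hc (t := t) (y := y) (n := l t - y) ht (by omega) (Or.inr hy')
  rw [show y + (l t - y) = l t by omega] at h1
  apply rw_mono h1 _ (le_refl _)
  rintro x ⟨t', h2, h3, rfl⟩
  unfold rcol
  simp only [Set.mem_union, Set.mem_ofPred_eq]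
  split_ifs <;> omega

/-- [N3d] A short segment of the rider. -/
theorem rider_seg (h : Neck G D p X w c0 C N a b l e r) {c : Sym2 V → ℕ}
    (hc : ∀ t < N, ∀ y < l t, c s(r t y, r t (y + 1)) = rcol D C a b e t y) {t y z : ℕ}
    (ht : t < N) (hyz : y ≤ z) (hz : z ≤ l t) (hz' : z ≤ y + (e t + (b t - a t))) :
    RW G c (neckSet D p X N l r) {z | z < D + C + offs e N} (r t y) (r t z) := by
  have hab := h.ab t ht
  have hbD := h.bD t ht
  have hl := h.lle t ht
  have hs := offs_succ e t
  have hm : offs e (t + 1) ≤ offs e N := offs_mono e (by omega)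
  have h1 := n3_seg h hc (t := t) (y := y) (n := z - y) ht (by omega) (Or.inl (by omega))
  rw [show y + (z - y) = z by omega] at h1
  apply rw_mono h1 _ (le_refl _)
  rintro x ⟨t', h2, h3, rfl⟩
  unfold rcol
  simp only [Set.mem_ofPred_eq]
  split_ifs <;> omega

end

end Pool.RBE.S4
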