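import Pool.Agent.RBE.S4.N1

set_option autoImplicit false

/-! [N4] moving between the windows of a necklace. -/

namespace Pool.RBE.S4

open SimpleGraph Pool.Agent.RBC

variable {V : Type} {G : SimpleGraph V}

section
variable {D : ℕ} {p : ℕ → V} {X : Set V} {w : V → ℕ} {c0 : Sym2 V → ℕ} {C N : ℕ}
    {a b l e : ℕ → ℕ} {r : ℕ → ℕ → V}

/-- the intervals of the rings are increasing -/
theorem n4_ord (h : Neck G D p X w c0 C N a b l e r) {s t : ℕ} (hst : s < t) (ht : t < N) :
    b s ≤ a t := by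
  induction t with
  | zero => omega
  | succ t ih =>
    rcases Nat.lt_succ_iff_lt_or_eq.1 hst with h1 | h1
    · have h2 := ih h1 (by omega)
      have h3 := h.ab t (by omega)
      have h4 := h.ba t ht
      omega
    · subst h1
      exact h.ba s ht

/-- the colours of the edges of a walk in `X` -/
theorem n4_col (_h : Neck G D p X w c0 C N a b l e r) {c : Sym2 V → ℕ}
    (hc' : ∀ ed : Sym2 V, (∀ z ∈ ed, z ∈ X) → ¬ PE D p ed → c0 ed < C → c ed = D + c0 ed)
    {x y : V} (W : G.Walk x y) (h1 : ∀ z ∈ W.support, z ∈ X)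
    (h2 : ∀ ed ∈ W.edges, c0 ed < C ∧ ¬ PE D p ed) (ed : Sym2 V) (hed : ed ∈ W.edges) :
    c ed = D + c0 ed :=
  hc' ed (fun _ hz => h1 _ (Walk.mem_support_of_mem_edges hed hz)) (h2 ed hed).2 (h2 ed hed).1

/-- a walk in `X` -/
theorem n4_walk (h : Neck G D p X w c0 C N a b l e r) {c : Sym2 V → ℕ}
    (hc' : ∀ ed : Sym2 V, (∀ z ∈ ed, z ∈ X) → ¬ PE D p ed → c0 ed < C → c ed = D + c0 ed)
    {x y : V} (W : G.Walk x y) (h1 : ∀ z ∈ W.support, z ∈ X)
    (h2 : ∀ ed ∈ W.edges, c0 ed < C ∧ ¬ PE D p ed) (h3 : (W.edges.map c0).Nodup) :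
    RW G c (neckSet D p X N l r) {z | ∃ ed ∈ W.edges, z = D + c0 ed} x y := by
  refine ⟨W, fun z hz => Or.inl (h1 z hz), ?_, fun ed hed => ⟨ed, hed, n4_col h hc' W h1 h2 ed hed⟩⟩
  have h4 : W.edges.map c = (W.edges.map c0).map (fun z => D + z) := by
    rw [List.map_map]
    exact List.map_congr_left (fun ed hed => n4_col h hc' W h1 h2 ed hed)
  rw [h4]
  exact h3.map (fun _ _ hh => Nat.add_left_cancel hh)

/-- [N4a] the position of the path vertices of window `j` : `p i ∈ X` with `w (p i) = j` lies above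
the rings `< j` and below the rings `≥ j`. (`pX`, `wlo`, `whi`.) -/
theorem neck_pos (h : Neck G D p X w c0 C N a b l e r) {i : ℕ} (hi : i ≤ D) (hX : p i ∈ X) {t : ℕ}
    (ht : t < N) : (t < w (p i) → b t ≤ i) ∧ (w (p i) ≤ t → i ≤ a t) := by
  have h1 := (h.pX i hi).1 hX t ht
  constructor
  · intro h2
    rcases h1 with h1 | h1
    · have h3 := h.wlo i hi hX t ht h1
      omega
    · exact h1
  · intro h2
    rcases h1 with h1 | h1
    · exact h1
    · have h3 := h.whi i hi hX t ht h1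
      omega

/-- [N4b] along the path: colours `i, …, j - 1`. (`rw_seq`.) -/
theorem neck_path (h : Neck G D p X w c0 C N a b l e r) {c : Sym2 V → ℕ}
    (hc : ∀ i < D, c s(p i, p (i + 1)) = i) {i j : ℕ} (hij : i ≤ j) (hj : j ≤ D) :
    RW G c (neckSet D p X N l r) {z | i ≤ z ∧ z < j} (p i) (p j) := by
  have h1 : RW G c (neckSet D p X N l r) {z | ∃ t, i ≤ t ∧ t < i + (j - i) ∧ z = t} (p i)
      (p (i + (j - i))) := by
    apply rw_seq p i (j - i) (fun t => t)
    · intro t _ ht
      exact h.padj t (by omega)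
    · intro t _ ht
      exact Or.inr (Or.inl ⟨t, by omega, rfl⟩)
    · intro t _ ht
      exact hc t (by omega)
    · intro t t' _ ht _
      omega
  rw [show i + (j - i) = j by omega] at h1
  refine rw_mono h1 ?_ subset_rfl
  rintro z ⟨t, h2, h3, rfl⟩
  exact ⟨h2, h3⟩

/-- along the path, in both directions -/
theorem n4_path (h : Neck G D p X w c0 C N a b l e r) {c : Sym2 V → ℕ}
    (hc : ∀ i < D, c s(p i, p (i + 1)) = i) {i j : ℕ} (hi : i ≤ D) (hj : j ≤ D) :
    RW G c (neckSet D p X N l r) {z | min i j ≤ z ∧ z < max i j} (p i) (p j) := by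
  rcases le_total i j with hij | hij
  · refine rw_mono (neck_path h hc hij hj) ?_ subset_rfl
    intro z hz
    rw [Set.mem_ofPred_eq] at hz ⊢
    omega
  · refine rw_mono (rw_symm (neck_path h hc hij hi)) ?_ subset_rfl
    intro z hz
    rw [Set.mem_ofPred_eq] at hz ⊢
    omega

/-- [N4c] from window to window.
Proof. Use `h.exit x hx y hy`. First case: the walk `W` in `X`; its edges have ends in `X` (they are in the
support), are not `PE` and `c0 < C`, so `c = D + c0` on them: the colours are distinct and in `[D, D+C)`. Second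
case: walk `W1` from `x` to `p i`, the path from `p i` to `p j`, `W2` reversed; the colours of `W1`, `W2` are in
`[D, D + C)` and distinct altogether; the colours of the path are in `[min i j, max i j)`. By `neck_pos`
(`w (p i) = w x ≤ w y = w (p j)`): for `t < w x` both `b t ≤ i` and `b t ≤ j`; for `w y ≤ t` both `i ≤ a t`, `j ≤ a t`. -/
theorem win_win (h : Neck G D p X w c0 C N a b l e r) {c : Sym2 V → ℕ}
    (hc : ∀ i < D, c s(p i, p (i + 1)) = i)
    (hc' : ∀ ed : Sym2 V, (∀ z ∈ ed, z ∈ X) → ¬ PE D p ed → c0 ed < C → c ed = D + c0 ed)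
    {x y : V} (hx : x ∈ X) (hy : y ∈ X) (hxy : w x ≤ w y) :
    RW G c (neckSet D p X N l r)
      ({z | D ≤ z ∧ z < D + C} ∪
        {z | z < D ∧ ∀ t < N, (t < w x → b t ≤ z) ∧ (w y ≤ t → z < a t)}) x y := by
  rcases h.exit x hx y hy with ⟨_, W, h1, h2, h3⟩ | ⟨i, j, hi, hj, hXi, hXj, hwi, hwj, W1, W2, h1, h2,
    h3, h4⟩
  · refine rw_mono (n4_walk h hc' W h1 h3 h2) ?_ subset_rfl
    rintro z ⟨ed, hed, rfl⟩
    have h4 := (h3 ed hed).1
    left
    exact ⟨by omega, by omega⟩
  · rw [List.map_append, List.nodup_append] at h3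
    obtain ⟨hn1, hn2, hn3⟩ := h3
    have hW1 := n4_walk h hc' W1 h1 (fun ed hed => h4 ed (List.mem_append_left _ hed)) hn1
    have hW2 := n4_walk h hc' W2 h2 (fun ed hed => h4 ed (List.mem_append_right _ hed)) hn2
    have hP := n4_path h hc hi hj
    have h5 : RW G c (neckSet D p X N l r) ({z | ∃ ed ∈ W1.edges, z = D + c0 ed} ∪
        {z | min i j ≤ z ∧ z < max i j}) x (p j) := by
      apply rw_trans hW1 hP
      rintro z ⟨ed, _, rfl⟩ ⟨_, h6⟩
      omega
    have h6 := rw_trans h5 (rw_symm hW2) (by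
      rintro z (⟨ed, hed, rfl⟩ | ⟨_, h6⟩) ⟨ed', hed', h7⟩
      · have h8 : c0 ed = c0 ed' := by omega
        exact hn3 _ (List.mem_map_of_mem hed) _ (List.mem_map_of_mem hed') h8
      · omega)
    refine rw_mono h6 ?_ subset_rfl
    rintro z ((⟨ed, hed, rfl⟩ | ⟨h7, h8⟩) | ⟨ed, hed, rfl⟩)
    · have h9 := (h4 ed (List.mem_append_left _ hed)).1
      left
      exact ⟨by omega, by omega⟩
    · right
      refine ⟨by omega, fun t ht => ?_⟩
      have hpi := neck_pos h hi hXi ht
      have hpj := neck_pos h hj hXj ht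
      rw [hwi] at hpi
      rw [hwj] at hpj
      constructor
      · intro h9
        have h10 := hpi.1 h9
        have h11 := hpj.1 (by omega)
        omega
      · intro h9
        have h10 := hpi.2 (by omega)
        have h11 := hpj.2 h9
        omega
    · have h9 := (h4 ed (List.mem_append_right _ hed)).1
      left
      exact ⟨by omega, by omega⟩

theorem n4_a (h : Neck G D p X w c0 C N a b l e r) {s : ℕ} (hs : s < N) :
    p (a s) ∈ X ∧ w (p (a s)) = s := by
  have hab := h.ab s hs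
  have hbD := h.bD s hs
  have haD : a s ≤ D := by omega
  have hX : p (a s) ∈ X := by
    rw [h.pX (a s) haD]
    intro t ht
    rcases lt_trichotomy t s with h1 | h1 | h1
    · exact Or.inr (n4_ord h h1 hs)
    · subst h1
      exact Or.inl le_rfl
    · have h2 := n4_ord h h1 ht
      left
      omega
  refine ⟨hX, le_antisymm (h.wlo (a s) haD hX s hs le_rfl) ?_⟩
  rcases Nat.eq_zero_or_pos s with h0 | h0
  · omega
  · have h1 := h.whi (a s) haD hX (s - 1) (by omega) (n4_ord h (by omega) hs)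
    omega

theorem n4_b (h : Neck G D p X w c0 C N a b l e r) {s : ℕ} (hs : s < N) :
    p (b s) ∈ X ∧ w (p (b s)) = s + 1 := by
  have hab := h.ab s hs
  have hbD := h.bD s hs
  have hX : p (b s) ∈ X := by
    rw [h.pX (b s) hbD]
    intro t ht
    rcases lt_trichotomy t s with h1 | h1 | h1
    · have h2 := n4_ord h h1 hs
      right
      omega
    · subst h1
      exact Or.inr le_rfl
    · exact Or.inl (n4_ord h h1 ht)
  refine ⟨hX, le_antisymm ?_ (h.whi (b s) hbD hX s hs le_rfl)⟩
  by_cases h1 : s + 1 < N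
  · exact h.wlo (b s) hbD hX (s + 1) h1 (h.ba s h1)
  · have h2 := h.wN _ hX
    omega

/-- [N4d] from a window below or above ring `s` to a path vertex inside the ring.
Proof. `p (a s) ∈ X` with `w (p (a s)) ≤ s` (`pX`, `ab`, `ba`: the intervals are increasing; `wlo`) and
`w (p (a s)) ≥ s` (`whi` for the rings `t < s`, as `b t ≤ a s`). So `w (p (a s)) = s`; `win_win` from `x` to
`p (a s)`, then the path from `a s` to `i` (colours `[a s, i)`, disjoint from the colours `< a s` of `win_win`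
since `w (p (a s)) = s ≤ s`). Upper case: the same with `p (b s)`, `w (p (b s)) = s + 1` and the path from `i` to `b s`. -/
theorem win_in (h : Neck G D p X w c0 C N a b l e r) {c : Sym2 V → ℕ}
    (hc : ∀ i < D, c s(p i, p (i + 1)) = i)
    (hc' : ∀ ed : Sym2 V, (∀ z ∈ ed, z ∈ X) → ¬ PE D p ed → c0 ed < C → c ed = D + c0 ed)
    {x : V} (hx : x ∈ X) {s i : ℕ} (hs : s < N) (hi : a s ≤ i) (hi' : i ≤ b s) :
    (w x ≤ s → RW G c (neckSet D p X N l r)
      ({z | D ≤ z ∧ z < D + C} ∪ {z | z < D ∧ z < i ∧ ∀ t < N, t < w x → b t ≤ z}) x (p i)) ∧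
    (s + 1 ≤ w x → RW G c (neckSet D p X N l r)
      ({z | D ≤ z ∧ z < D + C} ∪ {z | z < D ∧ i ≤ z ∧ ∀ t < N, w x ≤ t → z < a t}) x (p i)) := by
  have hbD := h.bD s hs
  constructor
  · intro hw
    obtain ⟨hX, hws⟩ := n4_a h hs
    have h1 := win_win h hc hc' hx hX (by rw [hws]; exact hw)
    rw [hws] at h1
    have h2 := neck_path h hc hi (by omega : i ≤ D)
    have h3 := rw_trans h1 h2 (by
      rintro z (⟨h4, _⟩ | ⟨_, h4⟩) ⟨h5, h6⟩
      · omega
      · have h7 := (h4 s hs).2 le_rfl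
        omega)
    refine rw_mono h3 ?_ subset_rfl
    rintro z ((h4 | ⟨h4, h5⟩) | ⟨h4, h5⟩)
    · exact Or.inl h4
    · have h6 := (h5 s hs).2 le_rfl
      exact Or.inr ⟨h4, by omega, fun t ht => (h5 t ht).1⟩
    · refine Or.inr ⟨by omega, by omega, fun t ht h6 => ?_⟩
      have h7 := n4_ord h (by omega : t < s) hs
      omega
  · intro hw
    obtain ⟨hX, hws⟩ := n4_b h hs
    have h1 := win_win h hc hc' hX hx (by rw [hws]; exact hw)
    rw [hws] at h1
    have h2 := neck_path h hc hi' hbD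
    have h3 := rw_trans h2 h1 (by
      rintro z ⟨h5, h6⟩ (⟨h4, _⟩ | ⟨_, h4⟩)
      · omega
      · have h7 := (h4 s hs).1 (by omega)
        omega)
    refine rw_mono (rw_symm h3) ?_ subset_rfl
    rintro z (⟨h4, h5⟩ | (h4 | ⟨h4, h5⟩))
    · refine Or.inr ⟨by omega, by omega, fun t ht h6 => ?_⟩
      have h7 := n4_ord h (by omega : s < t) ht
      omega
    · exact Or.inl h4
    · have h6 := (h5 s hs).1 (by omega)
      exact Or.inr ⟨h4, by omega, fun t ht => (h5 t ht).2⟩

end

end Pool.RBE.S4
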