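import Pool.Agent.RBE.S4.N2
import Pool.Agent.RBE.S4.N3
import Pool.Agent.RBE.S4.N4

set_option autoImplicit false

/-! [N5] a necklace is rainbow connected. -/

namespace Pool.RBE.S4

open SimpleGraph Pool.Agent.RBC

variable {V : Type} {G : SimpleGraph V}

section
variable {D : ℕ} {p : ℕ → V} {X : Set V} {w : V → ℕ} {c0 : Sym2 V → ℕ} {C N : ℕ}
    {a b l e : ℕ → ℕ} {r : ℕ → ℕ → V}

/-- [N5a] The exit of a rider vertex which is good for all windows above ring `t`: either up (then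
the colours of the ring may be used), or (if `y < e t`) down, with private colours of the ring only.
Proof. `e t ≤ y`: `rider_up`, left case. `y < e t`: `rider_down`, right case (`y - e t = 0`, the second colour
set is empty). (`offs_succ`, and `b t ≤ D`.) -/
theorem reach_up (h : Neck G D p X w c0 C N a b l e r) {c : Sym2 V → ℕ}
    (hc : ∀ t < N, ∀ y < l t, c s(r t y, r t (y + 1)) = rcol D C a b e t y) {t y : ℕ}
    (ht : t < N) (hy : y ≤ l t) : ∃ x ∈ X,
      (w x = t + 1 ∧ RW G c (neckSet D p X N l r)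
        {z | (D + C + offs e t ≤ z ∧ z < D + C + offs e (t + 1)) ∨ (a t ≤ z ∧ z < b t)}
        (r t y) x) ∨
      (w x = t ∧ RW G c (neckSet D p X N l r)
        {z | D + C + offs e t ≤ z ∧ z < D + C + offs e (t + 1)} (r t y) x) := by
  obtain ⟨hx1, hw1⟩ := h.rlo t ht
  obtain ⟨hx2, hw2⟩ := h.rhi t ht
  have hab := h.ab t ht
  have hs := offs_succ e t
  by_cases hy' : e t ≤ y
  · refine ⟨r t (l t), hx2, Or.inl ⟨hw2, ?_⟩⟩
    refine rw_mono (rider_up h hc ht hy hy') ?_ (fun _ h => h)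
    rintro z (⟨h1, h2⟩ | ⟨h1, h2⟩)
    · right
      exact ⟨h1, by omega⟩
    · left
      exact ⟨by omega, h2⟩
  · refine ⟨r t 0, hx1, Or.inr ⟨hw1, ?_⟩⟩
    refine rw_mono (rider_down h hc ht hy (by omega)) ?_ (fun _ h => h)
    rintro z (⟨h1, h2⟩ | ⟨h1, h2⟩)
    · exact ⟨h1, by omega⟩
    · exact absurd h2 (by omega)

/-- [N5b] The exit which is good for all windows below ring `t`. Proof: `y ≤ e t + (b t - a t)`:
`rider_down` (left case), otherwise `rider_up` (right case; the first colour set is empty since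
`b t - (y - e t) ≤ a t`). -/
theorem reach_down (h : Neck G D p X w c0 C N a b l e r) {c : Sym2 V → ℕ}
    (hc : ∀ t < N, ∀ y < l t, c s(r t y, r t (y + 1)) = rcol D C a b e t y) {t y : ℕ}
    (ht : t < N) (hy : y ≤ l t) : ∃ x ∈ X,
      (w x = t ∧ RW G c (neckSet D p X N l r)
        {z | (D + C + offs e t ≤ z ∧ z < D + C + offs e (t + 1)) ∨ (a t ≤ z ∧ z < b t)}
        (r t y) x) ∨
      (w x = t + 1 ∧ RW G c (neckSet D p X N l r)
        {z | D + C + offs e t ≤ z ∧ z < D + C + offs e (t + 1)} (r t y) x) := by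
  obtain ⟨hx1, hw1⟩ := h.rlo t ht
  obtain ⟨hx2, hw2⟩ := h.rhi t ht
  have hab := h.ab t ht
  have hs := offs_succ e t
  by_cases hy' : y ≤ e t + (b t - a t)
  · refine ⟨r t 0, hx1, Or.inl ⟨hw1, ?_⟩⟩
    refine rw_mono (rider_down h hc ht hy hy') ?_ (fun _ h => h)
    rintro z (⟨h1, h2⟩ | ⟨h1, h2⟩)
    · left
      exact ⟨h1, by omega⟩
    · right
      exact ⟨by omega, h2⟩
  · refine ⟨r t (l t), hx2, Or.inr ⟨hw2, ?_⟩⟩
    refine rw_mono (rider_up h hc ht hy (by omega)) ?_ (fun _ h => h)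
    rintro z (⟨h1, h2⟩ | ⟨h1, h2⟩)
    · exact absurd h2 (by omega)
    · exact ⟨by omega, h2⟩

/-- [N5c] A rider vertex of ring `t` and a path vertex inside the same ring (`a t ≤ i ≤ b t`).
Proof. Let `m = b t - a t`. If `y < e t`: `reach_up`'s second case, i.e. `rider_down`, private colours only, then
`win_in` from `r t 0` (`w = t ≤ t`). If `e t + m < y`: `rider_up`, private colours only, `win_in` from `r t (l t)`
(`w = t + 1`). Otherwise `e t ≤ y ≤ e t + m`. If `i ≤ b t - (y - e t)`: `rider_down` (ring colours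
`≥ b t - (y - e t) ≥ i`) and `win_in` (first case, path colours `< i`). If `i ≥ b t - (y - e t)`: `rider_up` (ring
colours `< b t - (y - e t) ≤ i`) and `win_in` (second case, path colours `≥ i`). -/
theorem rider_path (h : Neck G D p X w c0 C N a b l e r) {c : Sym2 V → ℕ}
    (hc1 : ∀ i < D, c s(p i, p (i + 1)) = i)
    (hc : ∀ t < N, ∀ y < l t, c s(r t y, r t (y + 1)) = rcol D C a b e t y)
    (hc' : ∀ ed : Sym2 V, (∀ z ∈ ed, z ∈ X) → ¬ PE D p ed → c0 ed < C → c ed = D + c0 ed)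
    {t y i : ℕ} (ht : t < N) (hy : y ≤ l t) (hi : a t ≤ i) (hi' : i ≤ b t) :
    RW G c (neckSet D p X N l r) {z | z < D + C + offs e N} (r t y) (p i) := by
  obtain ⟨hx1, hw1⟩ := h.rlo t ht
  obtain ⟨hx2, hw2⟩ := h.rhi t ht
  have hab := h.ab t ht
  have hbD := h.bD t ht
  have hs := offs_succ e t
  have hN : offs e (t + 1) ≤ offs e N := offs_mono e (by omega)
  by_cases hc1' : y ≤ e t + (b t - a t) ∧ i ≤ b t - (y - e t)
  · have h1 := rider_down h hc ht hy hc1'.1
    have h2 := (win_in h hc1 hc' hx1 ht hi hi').1 (le_of_eq hw1)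
    refine rw_mono (rw_trans h1 h2 ?_) ?_ (fun _ h => h)
    · rintro x (⟨g1, g2⟩ | ⟨g1, g2⟩) (⟨g3, g4⟩ | ⟨g3, g4, -⟩) <;> omega
    · rintro x ((⟨g1, g2⟩ | ⟨g1, g2⟩) | (⟨g3, g4⟩ | ⟨g3, g4, -⟩)) <;>
        (show x < D + C + offs e N) <;> omega
  · have hyy : e t ≤ y := by
      by_contra hcon
      apply hc1'
      constructor <;> omega
    have h1 := rider_up h hc ht hy hyy
    have h2 := (win_in h hc1 hc' hx2 ht hi hi').2 (le_of_eq hw2.symm)
    refine rw_mono (rw_trans h1 h2 ?_) ?_ (fun _ h => h)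
    · rintro x (⟨g1, g2⟩ | ⟨g1, g2⟩) (⟨g3, g4⟩ | ⟨g3, g4, -⟩) <;> omega
    · rintro x ((⟨g1, g2⟩ | ⟨g1, g2⟩) | (⟨g3, g4⟩ | ⟨g3, g4, -⟩)) <;>
        (show x < D + C + offs e N) <;> omega

/-- [N5d] Two vertices of the same rider.
Proof. Wlog `y ≤ z`. If `z ≤ y + (e t + m)` (`m = b t - a t`): `rider_seg`. Otherwise `y < e t` (as `z ≤ l t ≤ m + 2 e t`)
and `z > e t + m`: `rider_down` from `r t y` (colours: private numbers `< y`, since `y - e t = 0`), `win_win` from `r t 0`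
(`w = t`) to `r t (l t)` (`w = t + 1`), and `rider_up` from `r t z` (colours: private numbers
`≥ z - (e t + m) > y`, the first set is empty). Disjoint. -/
theorem rider_rider (h : Neck G D p X w c0 C N a b l e r) {c : Sym2 V → ℕ}
    (hc1 : ∀ i < D, c s(p i, p (i + 1)) = i)
    (hc : ∀ t < N, ∀ y < l t, c s(r t y, r t (y + 1)) = rcol D C a b e t y)
    (hc' : ∀ ed : Sym2 V, (∀ z ∈ ed, z ∈ X) → ¬ PE D p ed → c0 ed < C → c ed = D + c0 ed)
    {t y z : ℕ} (ht : t < N) (hy : y ≤ l t) (hz : z ≤ l t) :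
    RW G c (neckSet D p X N l r) {z | z < D + C + offs e N} (r t y) (r t z) := by
  have key : ∀ y z : ℕ, y ≤ z → z ≤ l t →
      RW G c (neckSet D p X N l r) {z | z < D + C + offs e N} (r t y) (r t z) := by
    intro y z hyz hz
    by_cases hz' : z ≤ y + (e t + (b t - a t))
    · exact rider_seg h hc ht hyz hz hz'
    · obtain ⟨hx1, hw1⟩ := h.rlo t ht
      obtain ⟨hx2, hw2⟩ := h.rhi t ht
      have hab := h.ab t ht
      have hbD := h.bD t ht
      have hll := h.lle t ht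
      have hs := offs_succ e t
      have hN : offs e (t + 1) ≤ offs e N := offs_mono e (by omega)
      have h1 := rider_down h hc ht (hyz.trans hz) (by omega : y ≤ e t + (b t - a t))
      have h2 := win_win h hc1 hc' hx1 hx2 (by rw [hw1, hw2]; omega)
      have h3 := rider_up h hc ht hz (by omega : e t ≤ z)
      have h12 := rw_trans h1 h2 (by
        rintro x (⟨g1, g2⟩ | ⟨g1, g2⟩) (⟨g3, g4⟩ | ⟨g3, -⟩) <;> omega)
      refine rw_mono (rw_trans h12 (rw_symm h3) ?_) ?_ (fun _ h => h)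
      · rintro x ((⟨g1, g2⟩ | ⟨g1, g2⟩) | (⟨g3, g4⟩ | ⟨g3, -⟩)) (⟨g5, g6⟩ | ⟨g5, g6⟩) <;> omega
      · rintro x (((⟨g1, g2⟩ | ⟨g1, g2⟩) | (⟨g3, g4⟩ | ⟨g3, -⟩)) | (⟨g5, g6⟩ | ⟨g5, g6⟩)) <;>
          (show x < D + C + offs e N) <;> omega
  rcases le_total y z with hyz | hyz
  · exact key y z hyz hz
  · exact rw_symm (key z y hyz hy)

end

end Pool.RBE.S4
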