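import Mathlib

set_option autoImplicit false

/-! [Q2] counting in a ring. -/

namespace Pool.RBE.S4

/-- one sequence: no thin level, or the sum is large -/
private theorem Q2_one (q s e : ℕ) (a : ℕ → ℕ)
    (ha : ∀ i j, s ≤ i → i + 2 ≤ j → j ≤ e → 2 * q ≤ a i + a j) :
    (∀ i, s ≤ i → i ≤ e → q ≤ a i) ∨ (e - s - 2) * (q + 1) ≤ ∑ i ∈ Finset.Icc s e, a i := by
  by_cases h : ∀ i, s ≤ i → i ≤ e → q ≤ a i
  · exact Or.inl h
  right
  push Not at h
  obtain ⟨i0, hs, he, hlt⟩ := h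
  set T := (Finset.Icc s e).filter (fun j => j + 2 ≤ i0 ∨ i0 + 2 ≤ j) with hT
  have hcard : (Finset.Icc s e).card ≤ T.card + 3 := by
    have h1 : Finset.Icc s e ⊆ T ∪ Finset.Icc (i0 - 1) (i0 + 1) := by
      intro j hj
      rw [Finset.mem_union]
      by_cases h2 : j + 2 ≤ i0 ∨ i0 + 2 ≤ j
      · exact Or.inl (Finset.mem_filter.2 ⟨hj, h2⟩)
      · right
        rw [Finset.mem_Icc]
        omega
    have h3 := (Finset.card_le_card h1).trans (Finset.card_union_le _ _)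
    have h4 : (Finset.Icc (i0 - 1) (i0 + 1)).card ≤ 3 := by
      rw [Nat.card_Icc]
      omega
    omega
  have hc : e - s - 2 ≤ T.card := by
    rw [Nat.card_Icc] at hcard
    omega
  have hbig : ∀ j ∈ T, q + 1 ≤ a j := by
    intro j hj
    obtain ⟨hj1, hj2⟩ := Finset.mem_filter.1 hj
    rw [Finset.mem_Icc] at hj1
    rcases hj2 with h5 | h5
    · have h6 := ha j i0 hj1.1 h5 he
      omega
    · have h6 := ha i0 j hs h5 hj1.2
      omega
  calc (e - s - 2) * (q + 1) ≤ T.card * (q + 1) := Nat.mul_le_mul_right _ hc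
    _ = ∑ _j ∈ T, (q + 1) := by rw [Finset.sum_const, smul_eq_mul]
    _ ≤ ∑ j ∈ T, a j := Finset.sum_le_sum hbig
    _ ≤ ∑ j ∈ Finset.Icc s e, a j :=
        Finset.sum_le_sum_of_subset (Finset.filter_subset _ _)

private theorem Q2_low (q s e : ℕ) (a : ℕ → ℕ)
    (ha : ∀ i j, s ≤ i → i + 2 ≤ j → j ≤ e → 2 * q ≤ a i + a j) :
    (e - s - 2) * q ≤ ∑ i ∈ Finset.Icc s e, a i := by
  rcases Q2_one q s e a ha with h | h
  · calc (e - s - 2) * q ≤ (Finset.Icc s e).card * q := by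
          apply Nat.mul_le_mul_right
          rw [Nat.card_Icc]
          omega
      _ = ∑ _j ∈ Finset.Icc s e, q := by rw [Finset.sum_const, smul_eq_mul]
      _ ≤ ∑ j ∈ Finset.Icc s e, a j := by
          apply Finset.sum_le_sum
          intro j hj
          rw [Finset.mem_Icc] at hj
          exact h j hj.1 hj.2
  · exact (Nat.mul_le_mul_left _ (Nat.le_succ q)).trans h

/-- [Q2a] No thin levels, few non-exact levels.
Proof. Let `n = e - s`. Claim A: for `a` (and for `b`): either all `a i ≥ q` on `[s, e]` (so `∑ a ≥ q (n+1)`), or some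
`a i0 < q` and then `a j ≥ q + 1` for all `j ∈ [s, e]` with `|j - i0| ≥ 2` (by `ha`), which are at least `n - 2` levels, so
`∑ a ≥ (q+1)(n-2)`. In both cases `∑ a ≥ q (n - 2)`. If `a` (or `b`) has a thin level then
`∑ (a+b) ≥ (q+1)(n-2) + q(n-2) = 2 q n + n - 4q - 2 > 2 q n + C` as `n ≥ C + 8q + 8`: contradiction to `hsum`. So all
`a i, b i ≥ q`; then `∑ (a i + b i) ≥ 2q (n+1) + #{i : a i ≠ q ∨ b i ≠ q}` gives the bound. -/
theorem thin_levels (q C s e : ℕ) (a b : ℕ → ℕ)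
    (ha : ∀ i j, s ≤ i → i + 2 ≤ j → j ≤ e → 2 * q ≤ a i + a j)
    (hb : ∀ i j, s ≤ i → i + 2 ≤ j → j ≤ e → 2 * q ≤ b i + b j)
    (hsum : ∑ i ∈ Finset.Icc s e, (a i + b i) ≤ 2 * q * (e - s) + C)
    (hlong : s + (C + 8 * q + 8) ≤ e) :
    (∀ i, s ≤ i → i ≤ e → q ≤ a i ∧ q ≤ b i) ∧
      ((Finset.Icc s e).filter (fun i => a i ≠ q ∨ b i ≠ q)).card ≤ C := by
  rw [Finset.sum_add_distrib] at hsum
  obtain ⟨m, hm⟩ : ∃ m, e - s = m + 2 := ⟨e - s - 2, by omega⟩
  have hm2 : e - s - 2 = m := by omega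
  have hmC : C + 8 * q + 6 ≤ m := by omega
  have a1 := Q2_one q s e a ha
  have b1 := Q2_one q s e b hb
  have a0 := Q2_low q s e a ha
  have b0 := Q2_low q s e b hb
  rw [hm2] at a1 b1 a0 b0
  rw [hm] at hsum
  have e1 : m * (q + 1) = m * q + m := by ring
  have e2 : 2 * q * (m + 2) = 2 * (m * q) + 4 * q := by ring
  rw [e1] at a1 b1
  rw [e2] at hsum
  have hA : ∀ i, s ≤ i → i ≤ e → q ≤ a i := by
    rcases a1 with h | h
    · exact h
    · exfalso
      omega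
  have hB : ∀ i, s ≤ i → i ≤ e → q ≤ b i := by
    rcases b1 with h | h
    · exact h
    · exfalso
      omega
  refine ⟨fun i h1 h2 => ⟨hA i h1 h2, hB i h1 h2⟩, ?_⟩
  have h3 : ∑ i ∈ Finset.Icc s e, (2 * q + if a i ≠ q ∨ b i ≠ q then 1 else 0) ≤
      ∑ i ∈ Finset.Icc s e, (a i + b i) := by
    apply Finset.sum_le_sum
    intro i hi
    rw [Finset.mem_Icc] at hi
    have h4 := hA i hi.1 hi.2
    have h5 := hB i hi.1 hi.2
    split_ifs with h6
    · omega
    · omega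
  rw [Finset.sum_add_distrib, Finset.sum_const, smul_eq_mul, ← Finset.card_filter,
    Finset.sum_add_distrib, Nat.card_Icc] at h3
  have h7 : (e + 1 - s) * (2 * q) = 2 * (m * q) + 6 * q := by
    have h8 : e + 1 - s = m + 3 := by omega
    rw [h8]
    ring
  rw [h7] at h3
  omega

end Pool.RBE.S4
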