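import Mathlib

set_option autoImplicit false

/-! [Q4] a run without bad numbers. -/

namespace Pool.RBE.S4

/-- [Q2b] A run without bad numbers.
Proof. Otherwise each of the `C + 1` disjoint blocks `[lo + j (m+1), lo + j (m+1) + m]`, `j ≤ C` (all inside `[lo, hi]`),
contains an element of `bad`: an injection from `range (C+1)` to `bad`. -/
theorem exists_run (C m lo hi : ℕ) (bad : Finset ℕ) (hbad : bad.card ≤ C)
    (h : lo + (C + 1) * (m + 1) ≤ hi + 1) :
    ∃ β, lo ≤ β ∧ β + m ≤ hi ∧ ∀ i, β ≤ i → i ≤ β + m → i ∉ bad := by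
  classical
  by_contra hcon
  push Not at hcon
  have hblk : ∀ j : ℕ, j ≤ C → lo + j * (m + 1) + m ≤ hi := by
    intro j hj
    have h1 : j * (m + 1) ≤ C * (m + 1) := Nat.mul_le_mul_right _ hj
    have h2 : (C + 1) * (m + 1) = C * (m + 1) + (m + 1) := by ring
    omega
  have hex : ∀ j : ℕ, ∃ i, j ≤ C → (lo + j * (m + 1) ≤ i ∧ i ≤ lo + j * (m + 1) + m ∧ i ∈ bad) := by
    intro j
    by_cases hj : j ≤ C
    · obtain ⟨i, hi1, hi2, hi3⟩ := hcon (lo + j * (m + 1)) (Nat.le_add_right _ _) (hblk j hj)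
      exact ⟨i, fun _ => ⟨hi1, hi2, hi3⟩⟩
    · exact ⟨0, fun h' => absurd h' hj⟩
  choose f hf using hex
  have hmaps : ∀ j ∈ Finset.range (C + 1), f j ∈ bad := by
    intro j hj
    exact (hf j (by have := Finset.mem_range.1 hj; omega)).2.2
  have hinj : Set.InjOn f (Finset.range (C + 1) : Set ℕ) := by
    intro j hj j' hj' heq
    have h1 := hf j (by have := Finset.mem_range.1 (Finset.mem_coe.1 hj); omega)
    have h2 := hf j' (by have := Finset.mem_range.1 (Finset.mem_coe.1 hj'); omega)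
    by_contra hne
    rcases lt_or_gt_of_ne hne with hlt | hlt
    · have h3 : (j + 1) * (m + 1) ≤ j' * (m + 1) := Nat.mul_le_mul_right _ hlt
      have h4 : (j + 1) * (m + 1) = j * (m + 1) + (m + 1) := by ring
      omega
    · have h3 : (j' + 1) * (m + 1) ≤ j * (m + 1) := Nat.mul_le_mul_right _ hlt
      have h4 : (j' + 1) * (m + 1) = j' * (m + 1) + (m + 1) := by ring
      omega
  have hcard := Finset.card_le_card_of_injOn f hmaps hinj
  rw [Finset.card_range] at hcard
  omega

end Pool.RBE.S4
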