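import Pool.Agent.RBE.S4.N0

set_option autoImplicit false

/-! [R1] far levels. -/

namespace Pool.RBE.S4

open SimpleGraph Pool.Agent.RBC

variable {V : Type} {G : SimpleGraph V}

/-- [R1a] In a far level the vertices which are not near are very far from the geodesic and close
to each other.
Proof. `x0` with `lev x0 = i`, `dist x0 (p i) > 4L+4`. For `x` not near: `h1 x x0` gives `dist x x0 ≤ L` (the other
alternatives are false), so `dist x (p i) ≥ dist x0 (p i) - L`. For `x, y` not near: `h1 x y`. -/
theorem far_facts (hc : G.Connected) {v0 : V} {p : ℕ → V} {L : ℕ} (h1 : J1 G v0 p L) {i : ℕ}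
    (hF : FarL G v0 p L i) :
    (∀ x, lev G v0 x = i → ¬ Near G v0 p L x → 3 * L + 4 < G.dist x (p i)) ∧
      ∀ x y, lev G v0 x = i → lev G v0 y = i → ¬ Near G v0 p L x → ¬ Near G v0 p L y →
        G.dist x y ≤ L := by
  obtain ⟨x0, hx0, hd0⟩ := hF
  constructor
  · intro x hx hn
    have h3 : G.dist x x0 ≤ L := by
      rcases h1 x x0 (hx.trans hx0.symm) with h | h | h
      · exact absurd h hn
      · rw [hx] at h
        omega
      · exact h
    have h4 := hc.dist_triangle (u := x0) (v := x) (w := p i)
    rw [SimpleGraph.dist_comm (u := x0) (v := x)] at h4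
    omega
  · intro x y hx hy hn hn'
    rcases h1 x y (hx.trans hy.symm) with h | h | h
    · exact absurd h hn
    · rw [hx, ← hy] at h
      exact absurd h hn'
    · exact h

/-- [R1b] No edges between near and far vertices of far levels.
Proof. If `y` is not near then `3L+4 < dist y (p (lev y)) ≤ dist y x + dist x (p (lev x)) + dist (p (lev x)) (p (lev y))
≤ 1 + L + 1` (levels of adjacent vertices differ by at most `1`, `lev_adj`; the levels are `≤ D` and consecutive
vertices of the geodesic are adjacent). -/
theorem far_sep (hc : G.Connected) {v0 : V} {p : ℕ → V} {D L : ℕ} (hP : Geo G v0 p D)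
    (h1 : J1 G v0 p L) {x y : V} (hxy : G.Adj x y) (hx : FarL G v0 p L (lev G v0 x))
    (hy : FarL G v0 p L (lev G v0 y)) (hn : Near G v0 p L x) : Near G v0 p L y := by
  by_contra hn'
  have h2 := (far_facts hc h1 hy).1 y rfl hn'
  have h3 : G.dist y x = 1 := SimpleGraph.dist_eq_one_iff_adj.mpr hxy.symm
  have h4 := lev_adj hc v0 hxy
  have h5 := lev_adj hc v0 hxy.symm
  have h6 := hP.top x
  have h7 := hP.top y
  have h8 : G.dist (p (lev G v0 x)) (p (lev G v0 y)) ≤ 1 := by
    rcases Nat.lt_trichotomy (lev G v0 x) (lev G v0 y) with h | h | h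
    · have e : lev G v0 y = lev G v0 x + 1 := by omega
      rw [e]
      exact (SimpleGraph.dist_eq_one_iff_adj.mpr (hP.adj _ (by omega))).le
    · rw [h, SimpleGraph.dist_self]
      exact Nat.zero_le _
    · have e : lev G v0 x = lev G v0 y + 1 := by omega
      rw [e]
      exact (SimpleGraph.dist_eq_one_iff_adj.mpr (hP.adj _ (by omega)).symm).le
  have h9 := hc.dist_triangle (u := y) (v := x) (w := p (lev G v0 y))
  have h10 := hc.dist_triangle (u := x) (v := p (lev G v0 x)) (w := p (lev G v0 y))
  have h11 : G.dist x (p (lev G v0 x)) ≤ L := hn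
  omega

/-- distances on the geodesic -/
theorem geo_dist (hc : G.Connected) {v0 : V} {p : ℕ → V} {D : ℕ} (hP : Geo G v0 p D) {i j : ℕ}
    (hij : i ≤ j) (hj : j ≤ D) : G.dist (p i) (p j) = j - i := by
  have h1 : ∀ d, i + d ≤ D → G.dist (p i) (p (i + d)) ≤ d := by
    intro d
    induction d with
    | zero =>
      intro _
      rw [Nat.add_zero, SimpleGraph.dist_self]
    | succ d ih =>
      intro hd
      have h2 := ih (by omega)
      have h3 := hc.dist_triangle (u := p i) (v := p (i + d)) (w := p (i + (d + 1)))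
      have h4 : G.dist (p (i + d)) (p (i + (d + 1))) = 1 :=
        SimpleGraph.dist_eq_one_iff_adj.mpr (hP.adj (i + d) (by omega))
      omega
  have h2 := h1 (j - i) (by omega)
  have e : i + (j - i) = j := by omega
  rw [e] at h2
  have h3 := lev_le_add hc v0 (p j) (p i)
  rw [hP.lev j hj, hP.lev i (by omega), SimpleGraph.dist_comm] at h3
  omega

end Pool.RBE.S4
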