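import Pool.Agent.RBE.S4.R1

set_option autoImplicit false

/-! [R1b] vertical riders, closed tops. -/

namespace Pool.RBE.S4

open SimpleGraph Pool.Agent.RBC

variable {V : Type} {G : SimpleGraph V}

/-- [R1c] A vertical rider through a far interval.
Proof. `FarL` at level `e` gives `y` with `lev y = e`, not near (`4L+4 > L`). `r i := anc G v0 y i`
(file `MP_dd54b8_co/L1.lean`: `lev_anc`, `adj_anc`, `anc_self`). None of them (`s ≤ i ≤ e`) is near: if `r i` is near,
then `r (i+1)` is near by `far_sep`, …, `r e = y` is near. -/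
theorem far_rider (hc : G.Connected) {v0 : V} {p : ℕ → V} {D L s e : ℕ} (hP : Geo G v0 p D)
    (h1 : J1 G v0 p L) (hse : s ≤ e) (hF : ∀ i, s ≤ i → i ≤ e → FarL G v0 p L i) :
    ∃ r : ℕ → V, (∀ i, s ≤ i → i ≤ e → lev G v0 (r i) = i ∧ ¬ Near G v0 p L (r i)) ∧
      ∀ i, s ≤ i → i < e → G.Adj (r i) (r (i + 1)) := by
  obtain ⟨y, hy, hyd⟩ := hF e hse le_rfl
  have hyn : ¬ Near G v0 p L y := by
    intro h
    unfold Near at h
    rw [hy] at h
    omega
  refine ⟨fun i => anc G v0 y i, ?_, ?_⟩
  · have hlev : ∀ i, i ≤ e → lev G v0 (anc G v0 y i) = i := fun i hi => lev_anc hc (by omega)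
    have key : ∀ n, ∀ i, s ≤ i → i + n = e → ¬ Near G v0 p L (anc G v0 y i) := by
      intro n
      induction n with
      | zero =>
        intro i _ hi
        have : anc G v0 y i = y := by
          have h := anc_self (G := G) v0 y
          rw [hy] at h
          have hie : i = e := by omega
          rw [hie]; exact h
        rw [this]; exact hyn
      | succ n ih =>
        intro i hi hin hnear
        have h2 := ih (i + 1) (by omega) (by omega)
        apply h2
        have hadj : G.Adj (anc G v0 y i) (anc G v0 y (i + 1)) :=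
          (adj_anc hc (v0 := v0) (v := y) (i := i) (by omega)).symm
        refine far_sep hc hP h1 hadj ?_ ?_ hnear
        · rw [hlev i (by omega)]; exact hF i hi (by omega)
        · rw [hlev (i + 1) (by omega)]; exact hF (i + 1) (by omega) (by omega)
    intro i hi1 hi2
    exact ⟨hlev i hi2, key (e - i) i hi1 (by omega)⟩
  · intro i _ hi2
    exact (adj_anc hc (v0 := v0) (v := y) (i := i) (by omega)).symm

/-- [R1d] A long far interval is closed at its top.
Proof. `r` from `far_rider`. `Up s (r s) (r e)` (walk along `r`), `s + L ≤ e`, so `J2` gives `Up s (r s) (p s)`: a walk from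
`r s` (not near) to `p s` (near: distance `0`) with all levels `≥ s`. Let `S = {x | ¬ Near x ∧ lev x ≤ e}`; the walk
leaves `S` (`Walk.exists_boundary_dart`) with an edge `(y, z)`. `s ≤ lev y ≤ e`. If `lev z ≤ e` then `z` is near and
`far_sep` (applied to `(z, y)`) makes `y` near: contradiction. So `lev z > e`, hence `lev y = e`, `lev z = e + 1 ≤ D`
(`lev_adj`, `hP.top`). `¬ FarL (e+1)` gives `dist z (p (e+1)) ≤ 4L+4`. -/
theorem far_top (hc : G.Connected) {v0 : V} {p : ℕ → V} {D L s e : ℕ} (hP : Geo G v0 p D)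
    (h1 : J1 G v0 p L) (h2 : J2 G v0 p L) (hse : s + L ≤ e) (he : e ≤ D)
    (hF : ∀ i, s ≤ i → i ≤ e → FarL G v0 p L i) (hF' : ¬ FarL G v0 p L (e + 1)) :
    e < D ∧ ∃ y z, G.Adj y z ∧ lev G v0 y = e ∧ ¬ Near G v0 p L y ∧ lev G v0 z = e + 1 ∧
      G.dist z (p (e + 1)) ≤ 4 * L + 4 := by
  obtain ⟨r, hr, hra⟩ := far_rider hc hP h1 (le_trans (Nat.le_add_right s L) hse) hF
  have hUp : ∀ n, s + n ≤ e → Up G v0 s (r s) (r (s + n)) := by
    intro n
    induction n with
    | zero =>
      intro _
      apply up_refl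
      rw [(hr s le_rfl (by omega)).1]
    | succ n ih =>
      intro hn
      refine up_trans (ih (by omega)) ?_
      apply up_adj (hra (s + n) (by omega) (by omega))
      · rw [(hr (s + n) (by omega) (by omega)).1]; omega
      · rw [(hr (s + n + 1) (by omega) (by omega)).1]; omega
  have hs := hr s le_rfl (by omega)
  have he' := hr e (by omega) le_rfl
  have hU1 : Up G v0 s (r s) (r e) := by
    have h := hUp (e - s) (by omega)
    have : s + (e - s) = e := by omega
    rwa [this] at h
  have hU2 : Up G v0 s (r s) (p s) := by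
    have h := h2 (r s) (r e)
    rw [hs.1, he'.1] at h
    exact h hU1 hse
  obtain ⟨w, hw⟩ := hU2
  have hps : lev G v0 (p s) = s := hP.lev s (by omega)
  have hpn : Near G v0 p L (p s) := by
    unfold Near
    rw [hps]
    simp
  obtain ⟨d, hd, hd1, hd2⟩ := w.exists_boundary_dart {x | ¬ Near G v0 p L x ∧ lev G v0 x ≤ e}
    ⟨hs.2, by rw [hs.1]; omega⟩ (fun h => h.1 hpn)
  obtain ⟨hd1a, hd1b⟩ := hd1
  have hdy : s ≤ lev G v0 d.fst := hw _ (w.dart_fst_mem_support_of_mem_darts hd)
  have hdz : s ≤ lev G v0 d.snd := hw _ (w.dart_snd_mem_support_of_mem_darts hd)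
  have hadj : G.Adj d.fst d.snd := d.adj
  have hgt : e < lev G v0 d.snd := by
    by_contra hcon
    have hle : lev G v0 d.snd ≤ e := by omega
    have hzn : Near G v0 p L d.snd := by
      by_contra h
      exact hd2 ⟨h, hle⟩
    apply hd1a
    exact far_sep hc hP h1 hadj.symm (hF _ hdz hle) (hF _ hdy hd1b) hzn
  have hl1 := lev_adj hc v0 hadj.symm
  have hlz : lev G v0 d.snd = e + 1 := by omega
  have hly : lev G v0 d.fst = e := by omega
  have htop := hP.top d.snd
  refine ⟨by omega, d.fst, d.snd, hadj, hly, hd1a, hlz, ?_⟩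
  by_contra hcon
  apply hF'
  exact ⟨d.snd, hlz, by omega⟩

end Pool.RBE.S4
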