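import Pool.Agent.RBE.S4.R1b

set_option autoImplicit false

/-! [R2] the cycle of a ring is cheap. -/

namespace Pool.RBE.S4

open SimpleGraph Pool.Agent.RBC

private theorem r2_seq {V : Type} {G : SimpleGraph V} {f : ℕ → V} {i j : ℕ} (hij : i ≤ j)
    (hadj : ∀ t, i ≤ t → t < j → G.Adj (f t) (f (t + 1))) :
    ∃ w : G.Walk (f i) (f j), w.length = j - i ∧
      w.support = (List.range (j - i + 1)).map (fun t => f (i + t)) := by
  induction j, hij using Nat.le_induction with
  | base => exact ⟨Walk.nil, by simp, by simp⟩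
  | succ j hij ih =>
    obtain ⟨w, hw1, hw2⟩ := ih (fun t h1 h2 => hadj t h1 (by omega))
    refine ⟨w.concat (hadj j hij (by omega)), ?_, ?_⟩
    · rw [Walk.length_concat, hw1]
      omega
    · rw [Walk.support_concat, hw2]
      have h1 : j + 1 - i + 1 = (j - i + 1) + 1 := by omega
      have h2 : i + (j - i + 1) = j + 1 := by omega
      rw [h1, List.range_succ (n := j - i + 1), List.map_append, List.map_singleton, h2]

private theorem r2_mem {V : Type} {f : ℕ → V} {i j : ℕ} (hij : i ≤ j) {x : V} :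
    x ∈ (List.range (j - i + 1)).map (fun t => f (i + t)) ↔ ∃ t, i ≤ t ∧ t ≤ j ∧ x = f t := by
  rw [List.mem_map]
  constructor
  · rintro ⟨t, ht, rfl⟩
    rw [List.mem_range] at ht
    exact ⟨i + t, by omega, by omega, rfl⟩
  · rintro ⟨t, h1, h2, rfl⟩
    refine ⟨t - i, List.mem_range.2 (by omega), ?_⟩
    rw [show i + (t - i) = t by omega]

private theorem r2_ends {V : Type} {G : SimpleGraph V} {a b : V} (w : G.Walk a b) (hab : a ≠ b) :
    ∃ L, w.support = a :: (L ++ [b]) := by
  cases w with
  | nil => exact absurd rfl hab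
  | cons h q =>
    refine ⟨q.support.dropLast, ?_⟩
    rw [Walk.support_cons]
    congr 1
    have h1 := List.dropLast_append_getLast (l := q.support) (by simp)
    rw [Walk.getLast_support] at h1
    exact h1.symm

private theorem r2_dist {V : Type} {G : SimpleGraph V} {x y z : V} (w : G.Walk x y)
    (hz : z ∈ w.support) : G.dist x z ≤ w.length := by
  classical
  exact (SimpleGraph.dist_le (w.takeUntil z hz)).trans (w.length_takeUntil_le_length hz)

private theorem r2_lev {V : Type} {G : SimpleGraph V} (hc : G.Connected) (v0 : V) {x y z : V}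
    (w : G.Walk x y) (hz : z ∈ w.support) : lev G v0 x ≤ lev G v0 z + w.length := by
  have h1 := lev_le_add hc v0 x z
  have h2 := r2_dist w hz
  omega

private theorem r2_touch {V : Type} (L0 l : List V) (D : Set V) {_inst : DecidablePred (fun x => x ∈ D)}
    (hnd : L0.Nodup) (hD : ∀ x ∈ L0, x ∈ D → x ∈ l) :
    (L0.filter (fun x => decide (x ∈ D))).length ≤ l.length :=
  (List.subperm_of_subset (hnd.filter _) (by
    intro x hx
    rw [List.mem_filter] at hx
    exact hD x hx.1 (of_decide_eq_true hx.2))).length_le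

/-- the cycle, as a path from `r s` to `p (s-1)` -/
private theorem r2_path {V : Type} {G : SimpleGraph V} (hc : G.Connected) {v0 : V}
    {p r : ℕ → V} {D L s e : ℕ} (hP : Geo G v0 p D) (h1 : J1 G v0 p L)
    (hs : 1 ≤ s) (hse : s + (6 * L + 10) ≤ e) (heD : e < D)
    (hF : ∀ i, s ≤ i → i ≤ e → FarL G v0 p L i)
    (hr : ∀ i, s ≤ i → i ≤ e → lev G v0 (r i) = i ∧ ¬ Near G v0 p L (r i))
    (hra : ∀ i, s ≤ i → i < e → G.Adj (r i) (r (i + 1)))
    {y z : V} (hyz : G.Adj y z) (hy : lev G v0 y = e) (hyn : ¬ Near G v0 p L y)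
    (hz : lev G v0 z = e + 1) (hzd : G.dist z (p (e + 1)) ≤ 4 * L + 4) :
    ∃ w : G.Walk (r s) (p (s - 1)), w.support.Nodup ∧
      w.length + (10 * L + 8) ≤ 2 * (e - s) + (15 * L + 15) ∧
      (∀ i, s ≤ i → i ≤ e - (5 * L + 4) → r i ∈ w.support) ∧
      ∀ i, s ≤ i → i ≤ e - (5 * L + 4) → p i ∈ w.support := by
  classical
  obtain ⟨h, hh⟩ : ∃ h, h = e - (5 * L + 4) := ⟨_, rfl⟩
  have hsh : s < h := by omega
  have hhe : h ≤ e := by omega
  rw [← hh]
  -- the top
  obtain ⟨w1, l1, s1⟩ := r2_seq (G := G) (f := r) hhe (fun t a b => hra t (by omega) b)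
  obtain ⟨w2, l2⟩ := hc.exists_walk_length_eq_dist (r e) y
  obtain ⟨w3, l3⟩ := hc.exists_walk_length_eq_dist z (p (e + 1))
  obtain ⟨w4, l4, s4⟩ := r2_seq (G := G) (f := p) (show h ≤ e + 1 by omega)
    (fun t a b => hP.adj t (by omega))
  have hre := hr e (by omega) le_rfl
  have hd2 : G.dist (r e) y ≤ L :=
    (far_facts hc h1 (hF e (by omega) le_rfl)).2 _ _ hre.1 hy hre.2 hyn
  let Ω0 : G.Walk (r h) (p h) := w1.append (w2.append (Walk.cons hyz (w3.append w4.reverse)))
  have hΩlen : Ω0.length ≤ 15 * L + 14 := by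
    simp only [Ω0, Walk.length_append, Walk.length_cons, Walk.length_reverse]
    omega
  have hΩlev : ∀ x ∈ Ω0.support, h ≤ lev G v0 x := by
    intro x hx
    simp only [Ω0, Walk.mem_support_append_iff, Walk.support_cons, List.mem_cons,
      Walk.support_reverse, List.mem_reverse] at hx
    rcases hx with hx | hx | hx | hx | hx
    · rw [s1, r2_mem hhe] at hx
      obtain ⟨t, a, b, rfl⟩ := hx
      rw [(hr t (by omega) b).1]
      exact a
    · have := r2_lev hc v0 w2 hx
      rw [hre.1] at this
      omega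
    · rw [hx, hy]
      exact hhe
    · have := r2_lev hc v0 w3 hx
      rw [hz] at this
      omega
    · rw [s4, r2_mem (show h ≤ e + 1 by omega)] at hx
      obtain ⟨t, a, b, rfl⟩ := hx
      rw [hP.lev t (by omega)]
      exact a
  let σ : G.Walk (r h) (p h) := Ω0.bypass
  have hσp : σ.IsPath := Ω0.bypass_isPath
  have hσlen : σ.length ≤ 15 * L + 14 := (Ω0.length_bypass_le_length).trans hΩlen
  have hσlev : ∀ x ∈ σ.support, h ≤ lev G v0 x := fun x hx =>
    hΩlev x (Ω0.support_bypass_subset_support hx)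
  -- the sides
  obtain ⟨u1, m1, t1⟩ := r2_seq (G := G) (f := r) hsh.le (fun t a b => hra t a (by omega))
  obtain ⟨u2, m2, t2⟩ := r2_seq (G := G) (f := p) (show s - 1 ≤ h by omega)
    (fun t a b => hP.adj t (by omega))
  have hmem1 : ∀ x, x ∈ u1.support ↔ ∃ t, s ≤ t ∧ t ≤ h ∧ x = r t := by
    intro x
    rw [t1, r2_mem hsh.le]
  have hmem2 : ∀ x, x ∈ u2.support ↔ ∃ t, s - 1 ≤ t ∧ t ≤ h ∧ x = p t := by
    intro x
    rw [t2, r2_mem (show s - 1 ≤ h by omega)]
  have hnd1 : u1.support.Nodup := by
    rw [t1]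
    apply List.Nodup.map_on _ List.nodup_range
    intro a ha b hb hab
    rw [List.mem_range] at ha hb
    have h3 := congrArg (lev G v0) hab
    rw [(hr (s + a) (by omega) (by omega)).1, (hr (s + b) (by omega) (by omega)).1] at h3
    omega
  have hnd2 : u2.support.Nodup := by
    rw [t2]
    apply List.Nodup.map_on _ List.nodup_range
    intro a ha b hb hab
    rw [List.mem_range] at ha hb
    have h3 := congrArg (lev G v0) hab
    rw [hP.lev (s - 1 + a) (by omega), hP.lev (s - 1 + b) (by omega)] at h3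
    omega
  have hpn : ∀ t, t ≤ D → Near G v0 p L (p t) := by
    intro t ht
    unfold Near
    rw [hP.lev t ht, SimpleGraph.dist_self]
    exact Nat.zero_le _
  have hσc : σ.support = r h :: σ.support.tail := (Walk.cons_tail_support σ).symm
  have hrh : r h ∉ σ.support.tail := by
    have h3 := hσp.support_nodup
    rw [hσc, List.nodup_cons] at h3
    exact h3.1
  have hrc : u2.reverse.support = p h :: u2.reverse.support.tail :=
    (Walk.cons_tail_support u2.reverse).symm
  have hrnd : (p h :: u2.reverse.support.tail).Nodup := by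
    rw [← hrc, Walk.support_reverse]
    exact List.nodup_reverse.2 hnd2
  have htail : ∀ x ∈ u2.reverse.support.tail, ∃ t, s - 1 ≤ t ∧ t < h ∧ x = p t := by
    intro x hx
    have h3 : x ∈ u2.support := by
      have h4 : x ∈ u2.reverse.support := List.mem_of_mem_tail hx
      rwa [Walk.support_reverse, List.mem_reverse] at h4
    obtain ⟨t, a, b, rfl⟩ := (hmem2 x).1 h3
    refine ⟨t, a, ?_, rfl⟩
    rcases Nat.lt_or_ge t h with h5 | h5
    · exact h5
    · exfalso
      have h6 : t = h := by omega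
      subst h6
      exact (List.nodup_cons.1 hrnd).1 hx
  refine ⟨u1.append (σ.append u2.reverse), ?_, ?_, ?_, ?_⟩
  · rw [Walk.support_append, Walk.support_append]
    have h3 : (σ.support ++ u2.reverse.support.tail).tail =
        σ.support.tail ++ u2.reverse.support.tail := by
      rw [hσc]
      rfl
    rw [h3, List.nodup_append]
    refine ⟨hnd1, ?_, ?_⟩
    · rw [List.nodup_append]
      refine ⟨?_, (List.nodup_cons.1 hrnd).2, ?_⟩
      · have h4 := hσp.support_nodup
        rw [hσc] at h4
        exact (List.nodup_cons.1 h4).2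
      · rintro x hx x' hx' rfl
        have h4 := hσlev x (List.mem_of_mem_tail hx)
        obtain ⟨t, a, b, rfl⟩ := htail x hx'
        rw [hP.lev t (by omega)] at h4
        omega
    · rintro x hx x' hx' rfl
      obtain ⟨t, a, b, rfl⟩ := (hmem1 x).1 hx
      rcases List.mem_append.1 hx' with h4 | h4
      · have h5 := hσlev _ (List.mem_of_mem_tail h4)
        rw [(hr t a (by omega)).1] at h5
        have h6 : t = h := by omega
        subst h6
        exact hrh h4
      · obtain ⟨t', a', b', h5⟩ := htail _ h4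
        apply (hr t a (by omega)).2
        rw [h5]
        exact hpn t' (by omega)
  · simp only [Walk.length_append, Walk.length_reverse]
    omega
  · intro i a b
    rw [Walk.mem_support_append_iff]
    exact Or.inl ((hmem1 _).2 ⟨i, a, b, rfl⟩)
  · intro i a b
    rw [Walk.mem_support_append_iff, Walk.mem_support_append_iff, Walk.support_reverse,
      List.mem_reverse]
    exact Or.inr (Or.inr ((hmem2 _).2 ⟨i, by omega, b, rfl⟩))

/-- [R2] The vertices of a ring of height `e - s` are dominated by a cycle of cost `e - s + const`.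
Notation `T = 4L+4`, `h = e - (T + L)`.
Proof. `r` from `far_rider`, `y, z` from `far_top`. (1) `σ`: a path from `r h` to `p h` all of whose vertices have
level `≥ h`, of length `≤ 3T + 3L + 2`: the bypass of the walk `r h → r e` (along `r`), `r e → y` (length `≤ L` by
`far_facts`, levels `≥ e - L`), `y → z`, `z → p (e+1)` (length `≤ T`, levels `≥ e + 1 - T`; all vertices of a
shortest walk of length `n` starting in `x` have level `≥ lev x - n`, `lev_le_add`), `p (e+1) → p h` (along `p`).
(2) `D0` = support of a shortest walk from `p (s-1)` to `r s`: `par (r s)` has level `s - 1`, which is not far, so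
`dist (p (s-1)) (r s) ≤ T + 1`; `Rb G D0 (T+1)` by `rb_singleton`, `rb_walk`; `|D0| ≤ T + 2`.
(3) the ear `L0 = [r (s+1), …, r (h-1)] ++ σ.support ++ [p (h-1), …, p s]` from `a = r s` to `b = p (s-1)`: it is a chain,
nodup (levels of the `r i`, `p i` with `i < h` are `< h` and distinct, `r i` is not near, `p i` is near; `σ` is a
path with levels `≥ h`), of length `≤ 2 (h - s) + 3T + 3L + 3`, and at most `T + 2` of its vertices are in `D0`.
`rb_ear_touch`: cost `≤ (T + 1) + (2 (h-s) + 3T + 3L + 3 + T + 2 + 2) / 2 ≤ (e - s) + 30 L + 40`.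
(4) Every `x` with `s ≤ lev x = i ≤ e` is at distance `≤ L` from `p i` (near) or from `r i` (not near, `far_facts`); and
`p i`, `r i` are in `W` for `i ≤ h` and at distance `≤ T + L` from `p h`, `r h` for `i > h`. So `R = T + 2L = 6L + 4`. -/
theorem ring_cycle {V : Type} [Fintype V] {G : SimpleGraph V} (hc : G.Connected) {v0 : V}
    {p : ℕ → V} {D L s e : ℕ} (hP : Geo G v0 p D) (h1 : J1 G v0 p L) (h2 : J2 G v0 p L)
    (hs : 1 ≤ s) (hse : s + (6 * L + 10) ≤ e) (he : e ≤ D)
    (hF : ∀ i, s ≤ i → i ≤ e → FarL G v0 p L i) (hF0 : ¬ FarL G v0 p L (s - 1))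
    (hF' : ¬ FarL G v0 p L (e + 1)) :
    ∃ W : Set V, W.Nonempty ∧ Rb G W (e - s + (30 * L + 40)) ∧
      ∀ x, s ≤ lev G v0 x → lev G v0 x ≤ e → ∃ u ∈ W, G.dist x u ≤ 6 * L + 4 := by
  classical
  obtain ⟨r, hr, hra⟩ := far_rider hc hP h1 (show s ≤ e by omega) hF
  obtain ⟨heD, y, z, hyz, hy, hyn, hz, hzd⟩ := far_top hc hP h1 h2 (show s + L ≤ e by omega) he hF hF'
  obtain ⟨Ω, hnd, hlen, hrm, hpm⟩ := r2_path hc hP h1 hs hse heD hF hr hra hyz hy hyn hz hzd
  have hrs := hr s le_rfl (by omega)
  -- the bottom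
  have hbot : G.dist (p (s - 1)) (r s) ≤ 4 * L + 5 := by
    have hps := par_spec hc (v0 := v0) (v := r s) (by rw [hrs.1]; omega)
    have h3 : G.dist (par G v0 (r s)) (p (s - 1)) ≤ 4 * L + 4 := by
      by_contra hcon
      apply hF0
      refine ⟨par G v0 (r s), ?_, by omega⟩
      have := hps.2
      rw [hrs.1] at this
      omega
    have h4 : G.dist (r s) (par G v0 (r s)) = 1 := SimpleGraph.dist_eq_one_iff_adj.2 hps.1
    have h5 := hc.dist_triangle (u := r s) (v := par G v0 (r s)) (w := p (s - 1))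
    rw [SimpleGraph.dist_comm]
    omega
  obtain ⟨w0, hw0⟩ := hc.exists_walk_length_eq_dist (p (s - 1)) (r s)
  have hR0 : Rb G ({p (s - 1)} ∪ {x | x ∈ w0.support}) (0 + w0.length) :=
    rb_walk (rb_singleton (p (s - 1))) (Set.mem_singleton _) w0
  have hne : r s ≠ p (s - 1) := by
    intro h3
    have h4 := hrs.1
    rw [h3, hP.lev (s - 1) (by omega)] at h4
    omega
  obtain ⟨L0, hL0⟩ := r2_ends Ω hne
  have hch : List.IsChain G.Adj (r s :: (L0 ++ [p (s - 1)])) := by
    rw [← hL0]
    exact Ω.isChain_adj_support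
  have hndL : L0.Nodup := by
    rw [hL0] at hnd
    exact (List.nodup_append.1 (List.nodup_cons.1 hnd).2).1
  have hLlen : L0.length + 1 = Ω.length := by
    have h3 := Ω.length_support
    rw [hL0] at h3
    simp only [List.length_cons, List.length_append, List.length_nil] at h3
    omega
  have hRb := rb_ear_touch hR0 (a := r s) (b := p (s - 1)) (Or.inr w0.end_mem_support)
    (Or.inl (Set.mem_singleton _)) L0 hch hndL (4 * L + 6) (by
      refine (r2_touch L0 w0.support _ hndL ?_).trans ?_
      · rintro x - (h5 | h5)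
        · rw [Set.mem_singleton_iff] at h5
          rw [h5]
          exact w0.start_mem_support
        · exact h5
      · rw [Walk.length_support]
        omega)
  have hΩW : ∀ x ∈ Ω.support,
      x ∈ ({p (s - 1)} ∪ {x | x ∈ w0.support}) ∪ {x | x ∈ L0} := by
    intro x hx
    rw [hL0] at hx
    rcases List.mem_cons.1 hx with rfl | hx
    · exact Or.inl (Or.inr w0.end_mem_support)
    · rcases List.mem_append.1 hx with hx | hx
      · exact Or.inr hx
      · rw [List.mem_singleton] at hx
        exact Or.inl (Or.inl hx)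
  refine ⟨_, ⟨r s, Or.inl (Or.inr w0.end_mem_support)⟩, rb_mono hRb (by omega), ?_⟩
  intro x hxs hxe
  have hgd : ∀ (f : ℕ → V) (i j : ℕ), i ≤ j → (∀ t, i ≤ t → t < j → G.Adj (f t) (f (t + 1))) →
      G.dist (f j) (f i) ≤ j - i := by
    intro f i j hij hadj
    obtain ⟨w, hw, -⟩ := r2_seq (G := G) hij hadj
    rw [SimpleGraph.dist_comm, ← hw]
    exact SimpleGraph.dist_le w
  by_cases hn : Near G v0 p L x
  · have hn' : G.dist x (p (lev G v0 x)) ≤ L := hn
    by_cases hi : lev G v0 x ≤ e - (5 * L + 4)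
    · exact ⟨_, hΩW _ (hpm _ hxs hi), by omega⟩
    · refine ⟨_, hΩW _ (hpm (e - (5 * L + 4)) (by omega) le_rfl), ?_⟩
      have h3 := hgd p (e - (5 * L + 4)) (lev G v0 x) (by omega) (fun t a b => hP.adj t (by omega))
      have h4 := hc.dist_triangle (u := x) (v := p (lev G v0 x)) (w := p (e - (5 * L + 4)))
      omega
  · have hri := hr (lev G v0 x) hxs hxe
    have hn' : G.dist x (r (lev G v0 x)) ≤ L :=
      (far_facts hc h1 (hF _ hxs hxe)).2 _ _ rfl hri.1 hn hri.2
    by_cases hi : lev G v0 x ≤ e - (5 * L + 4)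
    · exact ⟨_, hΩW _ (hrm _ hxs hi), by omega⟩
    · refine ⟨_, hΩW _ (hrm (e - (5 * L + 4)) (by omega) le_rfl), ?_⟩
      have h3 := hgd r (e - (5 * L + 4)) (lev G v0 x) (by omega)
        (fun t a b => hra t (by omega) (by omega))
      have h4 := hc.dist_triangle (u := x) (v := r (lev G v0 x)) (w := r (e - (5 * L + 4)))
      omega

end Pool.RBE.S4
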