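import Pool.Agent.RBE.S4.R1b

set_option autoImplicit false

/-! [R3] the near (far) parts of two levels of a ring have together at least `2q` vertices. -/

namespace Pool.RBE.S4

open SimpleGraph Pool.Agent.RBC

/-- a walk avoiding a small set leaves `M` -/
private theorem r3_cut {V : Type} [Fintype V] {G : SimpleGraph V} {k : ℕ} (hk : KConn G k)
    (S : Finset V) (hS : S.card < k) (M : Set V) {u v : V} (hu : u ∉ S) (hv : v ∉ S)
    (huM : u ∈ M) (hvM : v ∉ M) :
    ∃ x y, G.Adj x y ∧ x ∈ M ∧ y ∉ M ∧ x ∉ S ∧ y ∉ S := by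
  have hc := hk.2 S hS
  obtain ⟨w⟩ := hc.preconnected ⟨u, by simpa using hu⟩ ⟨v, by simpa using hv⟩
  obtain ⟨d, _, h1, h2⟩ := w.exists_boundary_dart {z | z.1 ∈ M} huM hvM
  refine ⟨d.fst.1, d.snd.1, d.adj, h1, h2, ?_, ?_⟩
  · exact fun h => d.fst.2 (Finset.mem_coe.mpr h)
  · exact fun h => d.snd.2 (Finset.mem_coe.mpr h)

private theorem r3_conn {V : Type} [Fintype V] {G : SimpleGraph V} {k : ℕ} (hk : KConn G k)
    (hk0 : 0 < k) : G.Connected := by
  classical
  have hc := hk.2 ∅ (by simpa using hk0)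
  have : Nonempty V := by
    obtain ⟨z⟩ := hc.nonempty
    exact ⟨z.1⟩
  refine ⟨fun u v => ?_⟩
  obtain ⟨w⟩ := hc.preconnected ⟨u, by simp⟩ ⟨v, by simp⟩
  exact ⟨w.map (SimpleGraph.Embedding.induce _).toHom⟩

/-- [R3] 
Proof. Near part: let `S = An i ∪ An j`, suppose `|S| < k`. `p (i+1) ∉ S` (level), and there is `x0` of level
`i + 1`, not near, `x0 ∉ S`. `G - S` is connected (`hk.2`): a walk of it from `p (i+1)` to `x0` leaves
`M = {x | Near x ∧ i < lev x ∧ lev x < j}` with an edge `(x, y)`, `y ∉ M`, `y ∉ S`. `i ≤ lev y ≤ j` (`lev_adj`), so `y` is near by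
`far_sep`, and `lev y ∈ {i, j}` means `y ∈ S`: contradiction. Far part: the same with `M = {x | ¬ Near x ∧ i < lev x < j}`,
a walk from `x0` to `p (i+1)` in `G - (Bn i ∪ Bn j)` (`far_sep` applied to the reversed edge). -/
theorem ring_sep {V : Type} [Fintype V] {G : SimpleGraph V} {k : ℕ} (hk : KConn G k) (hk0 : 0 < k)
    {v0 : V} {p : ℕ → V} {D L s e : ℕ} (hP : Geo G v0 p D) (h1 : J1 G v0 p L) (he : e ≤ D)
    (hF : ∀ i, s ≤ i → i ≤ e → FarL G v0 p L i) {i j : ℕ} (hi : s ≤ i) (hij : i + 2 ≤ j)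
    (hj : j ≤ e) :
    k ≤ (An G v0 p L i).card + (An G v0 p L j).card ∧
      k ≤ (Bn G v0 p L i).card + (Bn G v0 p L j).card := by
  classical
  have hc := r3_conn hk hk0
  have hD : i + 1 ≤ D := by omega
  have hplev : lev G v0 (p (i + 1)) = i + 1 := hP.lev (i + 1) hD
  have hpn : Near G v0 p L (p (i + 1)) := by
    unfold Near
    rw [hplev, SimpleGraph.dist_self]
    exact Nat.zero_le _
  obtain ⟨x0, hx0, hx0d⟩ := hF (i + 1) (by omega) (by omega)
  have hx0n : ¬ Near G v0 p L x0 := by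
    unfold Near
    rw [hx0]
    omega
  constructor
  · by_contra hcon
    have hS : (An G v0 p L i ∪ An G v0 p L j).card < k :=
      lt_of_le_of_lt (Finset.card_union_le _ _) (by omega)
    have hnot : ∀ z, lev G v0 z = i + 1 → z ∉ An G v0 p L i ∪ An G v0 p L j := by
      intro z hz hzS
      rw [Finset.mem_union] at hzS
      unfold An at hzS
      rw [Finset.mem_filter, Finset.mem_filter] at hzS
      omega
    obtain ⟨x, y, hxy, hx, hy, _, hyS⟩ := r3_cut hk _ hS
      {x | Near G v0 p L x ∧ i < lev G v0 x ∧ lev G v0 x < j} (hnot _ hplev) (hnot _ hx0)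
      ⟨hpn, by omega, by omega⟩ (fun h => hx0n h.1)
    obtain ⟨hxn, hx1, hx2⟩ := hx
    have ha := lev_adj hc v0 hxy
    have hb := lev_adj hc v0 hxy.symm
    have hyn : Near G v0 p L y := far_sep hc hP h1 hxy (hF _ (by omega) (by omega))
      (hF _ (by omega) (by omega)) hxn
    apply hy
    refine ⟨hyn, ?_, ?_⟩
    · by_contra h
      apply hyS
      rw [Finset.mem_union]
      left
      unfold An
      rw [Finset.mem_filter]
      exact ⟨Finset.mem_univ _, by omega, hyn⟩
    · by_contra h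
      apply hyS
      rw [Finset.mem_union]
      right
      unfold An
      rw [Finset.mem_filter]
      exact ⟨Finset.mem_univ _, by omega, hyn⟩
  · by_contra hcon
    have hS : (Bn G v0 p L i ∪ Bn G v0 p L j).card < k :=
      lt_of_le_of_lt (Finset.card_union_le _ _) (by omega)
    have hnot : ∀ z, lev G v0 z = i + 1 → z ∉ Bn G v0 p L i ∪ Bn G v0 p L j := by
      intro z hz hzS
      rw [Finset.mem_union] at hzS
      unfold Bn at hzS
      rw [Finset.mem_filter, Finset.mem_filter] at hzS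
      omega
    obtain ⟨x, y, hxy, hx, hy, _, hyS⟩ := r3_cut hk _ hS
      {x | ¬ Near G v0 p L x ∧ i < lev G v0 x ∧ lev G v0 x < j} (hnot _ hx0) (hnot _ hplev)
      ⟨hx0n, by omega, by omega⟩ (fun h => h.1 hpn)
    obtain ⟨hxn, hx1, hx2⟩ := hx
    have ha := lev_adj hc v0 hxy
    have hb := lev_adj hc v0 hxy.symm
    have hyn : ¬ Near G v0 p L y := fun h => hxn (far_sep hc hP h1 hxy.symm
      (hF _ (by omega) (by omega)) (hF _ (by omega) (by omega)) h)
    apply hy
    refine ⟨hyn, ?_, ?_⟩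
    · by_contra h
      apply hyS
      rw [Finset.mem_union]
      left
      unfold Bn
      rw [Finset.mem_filter]
      exact ⟨Finset.mem_univ _, by omega, hyn⟩
    · by_contra h
      apply hyS
      rw [Finset.mem_union]
      right
      unfold Bn
      rw [Finset.mem_filter]
      exact ⟨Finset.mem_univ _, by omega, hyn⟩

end Pool.RBE.S4
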