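import Pool.Agent.RBE.S4.R2
import Pool.Agent.RBE.S4.R3
import Pool.Agent.RBE.S4.Q2
import Pool.Agent.RBE.S4.Q4
import Pool.Agent.RBE.RS

set_option autoImplicit false

/-! [R4] a long far interval is a ring with exact runs. -/

namespace Pool.RBE.S4

open SimpleGraph Pool.Agent.RBC

private theorem r4_mem_nbh {V : Type} [Fintype V] {G : SimpleGraph V} {W : Set V} {R : ℕ} {x u : V}
    (hu : u ∈ W) (hd : G.dist x u ≤ R) : x ∈ nbh G W R := by
  classical
  unfold nbh
  rw [Finset.mem_filter]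
  exact ⟨Finset.mem_univ _, u, hu, hd⟩

open Classical in
/-- [R4] 
Proof. `C` from `slack (2q) (R := 6L+4)`, `C1 = 2 q (30 L + 40) + C`, `B = (C1 + 1)(m + 8)`,
`Λ = C1 + 8 q + 8 + 2 (d0 + B) + 2 m + 6 L + 60`, `M' = d0 + B + m + 20`.
Given the interval: `ring_cycle` gives `W`; `slack` gives `|nbh G W (6L+4)| < 2q (e - s + 30L + 40) + C`. The sets
`An i`, `Bn i` (`s ≤ i ≤ e`) are pairwise disjoint subsets of `nbh`, so `∑_{i ∈ Icc s e} (|An i| + |Bn i|) ≤
2q (e - s) + C1`. `thin_levels` (with `ring_sep`, `k = 2q`) gives `q ≤ |An i|, |Bn i|` for all `i`, and at most `C1` bad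
levels (`|An i| ≠ q` or `|Bn i| ≠ q`). `exists_run` with run length `m + 6` in `[s + d0, s + d0 + B]` gives `β`;
put `α = β + m` (so `β = α - m`, `β + m + 6 = α + 6`). `exists_run` in `[e - d0 - B, e - d0]` gives `β'`, put `ω = β' + 6`
(the run is `[ω - 6, ω + m]`). The inequalities follow from the choice of `Λ`, `M'`. -/
theorem ring_exact (q L m d0 : ℕ) (hq : 2 ≤ q) : ∃ Λ M' : ℕ, ∀ (V : Type) [Fintype V]
    (G : SimpleGraph V), KConn G (2 * q) → Irr G (2 * q) → ∀ (v0 : V) (p : ℕ → V) (D s e : ℕ),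
    Geo G v0 p D → J1 G v0 p L → J2 G v0 p L → 1 ≤ s → s + Λ ≤ e → e ≤ D →
    (∀ i, s ≤ i → i ≤ e → FarL G v0 p L i) → ¬ FarL G v0 p L (s - 1) → ¬ FarL G v0 p L (e + 1) →
    (∀ i, s ≤ i → i ≤ e → q ≤ (An G v0 p L i).card ∧ q ≤ (Bn G v0 p L i).card) ∧
    ∃ α ω, s + d0 + m ≤ α ∧ α + 6 ≤ s + M' ∧ α + 20 ≤ ω ∧ ω + m + d0 ≤ e ∧ e ≤ ω + M' ∧
      ∀ i, (α ≤ i + m ∧ i ≤ α + 6 ∨ ω ≤ i + 6 ∧ i ≤ ω + m) →
        (An G v0 p L i).card = q ∧ (Bn G v0 p L i).card = q := by
  obtain ⟨C, hC⟩ := slack (2 * q) (by omega) (6 * L + 4)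
  set C1 : ℕ := 2 * q * (30 * L + 40) + C with hC1
  set B : ℕ := (C1 + 1) * (m + 8) with hB
  have hB' : (C1 + 1) * (m + 6 + 1) ≤ B := Nat.mul_le_mul_left _ (by omega)
  refine ⟨C1 + 8 * q + 8 + 2 * (d0 + B) + 2 * m + 6 * L + 60, d0 + B + m + 20, ?_⟩
  intro V _ G hG hIrr v0 p D s e hP h1 h2 hs hse he hF hF0 hF'
  have hc : G.Connected := kconn_connected hG (by omega)
  obtain ⟨W, hWn, hW, hcov⟩ := ring_cycle hc hP h1 h2 hs (by omega) he hF hF0 hF'
  have hsl := hC V G hG hIrr W _ hWn hW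
  have hsum : ∑ i ∈ Finset.Icc s e, ((An G v0 p L i).card + (Bn G v0 p L i).card) ≤
      2 * q * (e - s) + C1 := by
    have e1 : ∀ i ∈ Finset.Icc s e, (An G v0 p L i).card + (Bn G v0 p L i).card =
        (((nbh G W (6 * L + 4)).filter (fun x => s ≤ lev G v0 x ∧ lev G v0 x ≤ e)).filter
          (fun x => lev G v0 x = i)).card := by
      intro i hi
      rw [Finset.mem_Icc] at hi
      have hAB : Disjoint (An G v0 p L i) (Bn G v0 p L i) := by
        rw [Finset.disjoint_left]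
        intro x hx hx'
        exact (Finset.mem_filter.1 hx').2.2 (Finset.mem_filter.1 hx).2.2
      rw [← Finset.card_union_of_disjoint hAB]
      congr 1
      ext x
      rw [Finset.mem_union, Finset.mem_filter, Finset.mem_filter]
      constructor
      · intro hx
        have hxi : lev G v0 x = i := by
          rcases hx with hx | hx
          · exact (Finset.mem_filter.1 hx).2.1
          · exact (Finset.mem_filter.1 hx).2.1
        refine ⟨⟨?_, by omega, by omega⟩, hxi⟩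
        obtain ⟨u, hu, hd⟩ := hcov x (by omega) (by omega)
        exact r4_mem_nbh hu hd
      · rintro ⟨-, hxi⟩
        by_cases hn : Near G v0 p L x
        · exact Or.inl (Finset.mem_filter.2 ⟨Finset.mem_univ _, hxi, hn⟩)
        · exact Or.inr (Finset.mem_filter.2 ⟨Finset.mem_univ _, hxi, hn⟩)
    rw [Finset.sum_congr rfl e1, ← Finset.card_eq_sum_card_fiberwise]
    · have h3 := Finset.card_filter_le (nbh G W (6 * L + 4))
        (fun x => s ≤ lev G v0 x ∧ lev G v0 x ≤ e)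
      have h4 : 2 * q * (e - s + (30 * L + 40)) = 2 * q * (e - s) + 2 * q * (30 * L + 40) := by
        ring
      omega
    · intro x hx
      have hx' := (Finset.mem_filter.1 (Finset.mem_coe.1 hx)).2
      exact Finset.mem_coe.2 (Finset.mem_Icc.2 hx')
  obtain ⟨hthin, hbad⟩ := thin_levels q C1 s e (fun i => (An G v0 p L i).card)
    (fun i => (Bn G v0 p L i).card)
    (fun i j hi hij hj => (ring_sep hG (by omega) hP h1 he hF hi hij hj).1)
    (fun i j hi hij hj => (ring_sep hG (by omega) hP h1 he hF hi hij hj).2)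
    hsum (by omega)
  refine ⟨hthin, ?_⟩
  obtain ⟨β, hβ1, hβ2, hβ3⟩ := exists_run C1 (m + 6) (s + d0) (s + d0 + B) _ hbad (by omega)
  obtain ⟨γ, hγ1, hγ2, hγ3⟩ := exists_run C1 (m + 6) (e - d0 - B) (e - d0) _ hbad (by omega)
  have key : ∀ i, s ≤ i → i ≤ e → i ∉ ((Finset.Icc s e).filter
      (fun i => (An G v0 p L i).card ≠ q ∨ (Bn G v0 p L i).card ≠ q)) →
      (An G v0 p L i).card = q ∧ (Bn G v0 p L i).card = q := by
    intro i hi1 hi2 hi
    by_contra hcon
    apply hi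
    rw [Finset.mem_filter, Finset.mem_Icc]
    exact ⟨⟨hi1, hi2⟩, by tauto⟩
  refine ⟨β + m, γ + 6, by omega, by omega, by omega, by omega, by omega, ?_⟩
  rintro i (⟨hi1, hi2⟩ | ⟨hi1, hi2⟩)
  · exact key i (by omega) (by omega) (hβ3 i (by omega) (by omega))
  · exact key i (by omega) (by omega) (hγ3 i (by omega) (by omega))

end Pool.RBE.S4
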