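import Pool.Agent.RBE.S4.R1

set_option autoImplicit false

/-! [W1] windows, basic facts. -/

namespace Pool.RBE.S4

open SimpleGraph Pool.Agent.RBC

section
variable {V : Type} [Fintype V] {G : SimpleGraph V} {v0 : V} {p : ℕ → V}
    {D L q m d0 M N : ℕ} {s e α ω : ℕ → ℕ} {r : ℕ → ℕ → V}

theorem env_connected (E : Env G v0 p D L q m d0 M N s e α ω r) : G.Connected :=
  kconn_connected E.hk (by have := E.hq; omega)

/-- `1 ≤ D` (the graph has more than one vertex), `p 0 = v0` -/
theorem env_D (E : Env G v0 p D L q m d0 M N s e α ω r) : 1 ≤ D ∧ p 0 = v0 := by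
  have hc := env_connected E
  constructor
  · have h1 := E.hk.1
    have h2 := E.hq
    obtain ⟨x, hx⟩ := Fintype.exists_ne_of_one_lt_card (by omega : 1 < Fintype.card V) v0
    by_contra hD
    have h3 := E.geo.top x
    exact hx (eq_root_of_lev hc (by omega))
  · exact eq_root_of_lev hc (E.geo.lev 0 (Nat.zero_le _))

/-- the order of all the levels: `ω t < α (t + 1)`, so everything is increasing in `t` -/
theorem env_mono (E : Env G v0 p D L q m d0 M N s e α ω r) {t t' : ℕ} (htt : t < t')
    (ht : t' < N) : ω t + m + d0 < s t' ∧ ω t + m + d0 < α t' ∧ α t < α t' ∧ ω t < ω t' ∧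
      e t < s t' := by
  have R := E.rings
  have key : ∀ n, t + 1 + n < N → e t < s (t + 1 + n) := by
    intro n
    induction n with
    | zero =>
      intro h
      have := R.ord t h
      simp only [Nat.add_zero]
      omega
    | succ n ih =>
      intro h
      have h1 := ih (by omega)
      have h2 := R.ord (t + 1 + n) (by omega)
      have h3 := R.hα (t + 1 + n) (by omega)
      have h4 := R.hαω (t + 1 + n) (by omega)
      have h5 := R.hω (t + 1 + n) (by omega)
      have h6 : t + 1 + (n + 1) = t + 1 + n + 1 := by omega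
      rw [h6]
      omega
  have h0 := key (t' - (t + 1)) (by omega)
  have h1 : t + 1 + (t' - (t + 1)) = t' := by omega
  rw [h1] at h0
  have h2 := R.hω t (by omega)
  have h3 := R.hα t' ht
  have h4 := R.hαω t (by omega)
  have h5 := R.hαω t' ht
  refine ⟨by omega, by omega, by omega, by omega, h0⟩

theorem near_p (E : Env G v0 p D L q m d0 M N s e α ω r) {i : ℕ} (hi : i ≤ D) :
    Near G v0 p L (p i) := by
  unfold Near
  rw [E.geo.lev i hi, SimpleGraph.dist_self]
  exact Nat.zero_le _

/-- the sides of a ring: adjacent vertices in the levels `[s t, e t]` are of the same type -/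
theorem same_side (E : Env G v0 p D L q m d0 M N s e α ω r) {t : ℕ} (ht : t < N) {x y : V}
    (hxy : G.Adj x y) (h1 : s t ≤ lev G v0 x) (h2 : lev G v0 x ≤ e t) (h3 : s t ≤ lev G v0 y)
    (h4 : lev G v0 y ≤ e t) : Near G v0 p L x ↔ Near G v0 p L y :=
  ⟨E.rings.sep t ht x y hxy h1 h2 h3 h4, E.rings.sep t ht y x hxy.symm h3 h4 h1 h2⟩

/-- the rings below the window of `x` are exactly the first `win x` rings. (The set of all `t < N` with
`α t + 2 < lev x` is an initial segment, by `env_mono`.) -/
theorem win_lt (E : Env G v0 p D L q m d0 M N s e α ω r) {t : ℕ} (ht : t < N) (x : V) :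
    t < win G v0 N α x ↔ α t + 2 < lev G v0 x := by
  unfold win
  constructor
  · intro h
    by_contra hc
    have h1 : (Finset.range N).filter (fun t => α t + 2 < lev G v0 x) ⊆ Finset.range t := by
      intro u hu
      rw [Finset.mem_filter, Finset.mem_range] at hu
      rw [Finset.mem_range]
      by_contra hut
      rcases Nat.eq_or_lt_of_le (Nat.le_of_not_lt hut) with h2 | h2
      · subst h2
        exact hc hu.2
      · have h3 := (env_mono E h2 hu.1).2.2.1
        omega
    have h2 := Finset.card_le_card h1
    rw [Finset.card_range] at h2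
    omega
  · intro h
    have h1 : Finset.range (t + 1) ⊆ (Finset.range N).filter (fun t => α t + 2 < lev G v0 x) := by
      intro u hu
      rw [Finset.mem_range] at hu
      rw [Finset.mem_filter, Finset.mem_range]
      refine ⟨by omega, ?_⟩
      rcases Nat.eq_or_lt_of_le (Nat.le_of_lt_succ hu) with h2 | h2
      · subst h2
        exact h
      · have h3 := (env_mono E h2 ht).2.2.1
        omega
    have h2 := Finset.card_le_card h1
    rw [Finset.card_range] at h2
    omega

theorem win_le (x : V) : win G v0 N α x ≤ N := by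
  unfold win
  refine (Finset.card_filter_le _ _).trans ?_
  rw [Finset.card_range]

/-- levels outside all `(α t, ω t)` -/
theorem xx_of_lev {x : V} (h : ∀ t < N, lev G v0 x ≤ α t ∨ ω t ≤ lev G v0 x) :
    x ∈ XX G v0 p L N α ω := by
  intro t ht
  have := h t ht
  constructor
  · intro _
    omega
  · intro _
    omega

theorem p_mem_xx (E : Env G v0 p D L q m d0 M N s e α ω r) {i : ℕ} (hi : i ≤ D) :
    p i ∈ XX G v0 p L N α ω ↔ ∀ t < N, i ≤ α t ∨ ω t ≤ i := by
  constructor
  · intro h t ht
    have h1 := (h t ht).1 (near_p E hi)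
    rw [E.geo.lev i hi] at h1
    omega
  · intro h
    apply xx_of_lev
    intro t ht
    rw [E.geo.lev i hi]
    exact h t ht

end

end Pool.RBE.S4
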