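import Pool.Agent.RBE.S4.W1

set_option autoImplicit false

/-! [W1b] windows, more facts. -/

namespace Pool.RBE.S4

open SimpleGraph Pool.Agent.RBC

section
variable {V : Type} [Fintype V] {G : SimpleGraph V} {v0 : V} {p : ℕ → V}
    {D L q m d0 M N : ℕ} {s e α ω : ℕ → ℕ} {r : ℕ → ℕ → V}

/-- A vertex `x ∈ XX` and a ring `t`: below the window `lev x ≥ ω t - 2`, above `lev x ≤ α t + 2`. -/
theorem xx_lev (E : Env G v0 p D L q m d0 M N s e α ω r) {x : V}
    (hx : x ∈ XX G v0 p L N α ω) {t : ℕ} (ht : t < N) :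
    (t < win G v0 N α x → ω t ≤ lev G v0 x + 2) ∧
      (win G v0 N α x ≤ t → lev G v0 x ≤ α t + 2) ∧
      (Near G v0 p L x → (t < win G v0 N α x → ω t ≤ lev G v0 x) ∧
        (win G v0 N α x ≤ t → lev G v0 x ≤ α t)) := by
  have h1 := win_lt E ht x
  have h2 := hx t ht
  have h3 := E.rings.hαω t ht
  by_cases hn : Near G v0 p L x
  · have h4 := h2.1 hn
    refine ⟨fun h => ?_, fun h => ?_, fun _ => ⟨fun h => ?_, fun h => ?_⟩⟩ <;> omega
  · have h4 := h2.2 hn
    refine ⟨fun h => ?_, fun h => ?_, fun h => absurd h hn⟩ <;> omega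

private theorem W1b_adj (E : Env G v0 p D L q m d0 M N s e α ω r) {x y : V}
    (hx : x ∈ XX G v0 p L N α ω) (hy : y ∈ XX G v0 p L N α ω) (hxy : G.Adj x y)
    (hw : win G v0 N α x < win G v0 N α y) : False := by
  have hc := env_connected E
  have hN : win G v0 N α y ≤ N := win_le y
  have ht : win G v0 N α x < N := by omega
  have h1 := (xx_lev E hx ht).2.1 le_rfl
  have h2 := (xx_lev E hy ht).1 hw
  have h3 := E.rings.hαω _ ht
  have h4 := lev_adj hc v0 hxy.symm
  omega

/-- adjacent vertices of `XX` are in the same window (levels differ by at most one; a vertex of `XX`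
has level `≤ α t + 2` or `≥ ω t - 2 ≥ α t + 18`) -/
theorem adj_win (E : Env G v0 p D L q m d0 M N s e α ω r) {x y : V}
    (hx : x ∈ XX G v0 p L N α ω) (hy : y ∈ XX G v0 p L N α ω) (hxy : G.Adj x y) :
    win G v0 N α x = win G v0 N α y := by
  rcases lt_trichotomy (win G v0 N α x) (win G v0 N α y) with h | h | h
  · exact (W1b_adj E hx hy hxy h).elim
  · exact h
  · exact (W1b_adj E hy hx hxy.symm h).elim

/-- [W1b] only the cut vertices have neighbours outside `XX`; the neighbour is of the same type.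
Proof. `y ∉ XX`: some `t` with `Near y`, `α t < lev y < ω t` or `¬ Near y`, `α t + 2 < lev y`, `lev y + 2 < ω t`.
`lev x` is within one of `lev y` (`lev_adj`), so both are in `[s t, e t]` and `same_side` applies; since
`x ∈ XX`, `lev x` is the cut level. -/
theorem nbr_out (E : Env G v0 p D L q m d0 M N s e α ω r) {x y : V}
    (hx : x ∈ XX G v0 p L N α ω) (hy : y ∉ XX G v0 p L N α ω) (hxy : G.Adj x y) :
    ∃ t < N, (Near G v0 p L x ∧ Near G v0 p L y ∧
        (lev G v0 x = α t ∧ lev G v0 y = α t + 1 ∨ lev G v0 x = ω t ∧ lev G v0 y + 1 = ω t)) ∨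
      (¬ Near G v0 p L x ∧ ¬ Near G v0 p L y ∧
        (lev G v0 x = α t + 2 ∧ lev G v0 y = α t + 3 ∨
          lev G v0 x + 2 = ω t ∧ lev G v0 y + 3 = ω t)) := by
  have hc := env_connected E
  have ha := lev_adj hc v0 hxy
  have hb := lev_adj hc v0 hxy.symm
  have hd := E.hd
  have hy' : ¬ ∀ t < N, (Near G v0 p L y → ¬ (α t < lev G v0 y ∧ lev G v0 y < ω t)) ∧
    (¬ Near G v0 p L y → ¬ (α t + 2 < lev G v0 y ∧ lev G v0 y + 2 < ω t)) := hy
  push Not at hy'
  obtain ⟨t, ht, h⟩ := hy'
  have h1 := E.rings.hα t ht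
  have h2 := E.rings.hω t ht
  have h3 := E.rings.hαω t ht
  have hxt := hx t ht
  refine ⟨t, ht, ?_⟩
  by_cases hn : Near G v0 p L y
  · by_cases hl : α t < lev G v0 y ∧ lev G v0 y < ω t
    · have hs := (same_side E ht hxy (by omega) (by omega) (by omega) (by omega)).2 hn
      have h4 := hxt.1 hs
      left
      exact ⟨hs, hn, by omega⟩
    · have h5 := h (fun _ h6 => by
        by_contra h7
        exact hl ⟨h6, by omega⟩)
      exact absurd hn h5.1
  · by_cases hl : α t + 2 < lev G v0 y ∧ lev G v0 y + 2 < ω t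
    · have hs : ¬ Near G v0 p L x := fun hh =>
        hn ((same_side E ht hxy (by omega) (by omega) (by omega) (by omega)).1 hh)
      have h4 := hxt.2 hs
      right
      exact ⟨hs, hn, by omega⟩
    · exfalso
      have h5 := h (fun hh => absurd hh hn)
      exact hl h5.2

end

end Pool.RBE.S4
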