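import Pool.Agent.RBE.S4.W1b

set_option autoImplicit false

/-! [W3a] radius outside the rings. -/

namespace Pool.RBE.S4

open SimpleGraph Pool.Agent.RBC

section
variable {V : Type} [Fintype V] {G : SimpleGraph V} {v0 : V} {p : ℕ → V}
    {D L q m d0 M N : ℕ} {s e α ω : ℕ → ℕ} {r : ℕ → ℕ → V}

omit [Fintype V] in
private theorem w3a_walk (hc : G.Connected) (x y : V) : ∃ w : G.Walk x y, w.length = G.dist x y ∧
    ∀ z ∈ w.support, G.dist x z + G.dist z y ≤ G.dist x y := by
  classical
  obtain ⟨w, hw⟩ := hc.exists_walk_length_eq_dist x y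
  refine ⟨w, hw, ?_⟩
  intro z hz
  have h1 : (w.takeUntil z hz).length + (w.dropUntil z hz).length = w.length := by
    rw [← Walk.length_append, Walk.take_spec]
  have h2 := SimpleGraph.dist_le (w.takeUntil z hz)
  have h3 := SimpleGraph.dist_le (w.dropUntil z hz)
  omega

/-- [W3a] A shortest walk of length `≤ n` starting in a vertex of level `i` stays in the levels
`[i - n, i + n]`. (`lev_le_add`, and the distance from the start to any vertex of the walk is `≤ n`:
`Walk.takeUntil`.) -/
theorem walk_lev (hc : G.Connected) (x y : V) : ∃ w : G.Walk x y, w.length = G.dist x y ∧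
    ∀ z ∈ w.support, lev G v0 z ≤ lev G v0 x + G.dist x y ∧
      lev G v0 x ≤ lev G v0 z + G.dist x y := by
  obtain ⟨w, hw, h⟩ := w3a_walk hc x y
  refine ⟨w, hw, ?_⟩
  intro z hz
  have h1 := h z hz
  have h2 := lev_le_add hc v0 z x
  have h3 := lev_le_add hc v0 x z
  rw [SimpleGraph.dist_comm] at h2
  omega

/-- [W3b] vertices outside the rings.
Proof. `cov` gives `j ≤ lev x ≤ j + M` with `dist y (p j) ≤ 4L+4` for all `y` of level `j` and `e t < j` whenever
`e t < lev x`. The walk: down from `x` to `anc G v0 x j` (levels in `[j, lev x]`; `L1.lean`), then `walk_lev` to `p j`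
(levels within `4L+4` of `j`). All these levels `l` satisfy `∀ t < N, l ≤ α t ∨ ω t ≤ l` (`xx_of_lev`): if `e t < lev x`
then `l ≥ j - (4L+4) ≥ e t + 1 - (4L+4) ≥ ω t` (`hω`, `d0 ≥ 4L+20`); otherwise `lev x ≤ e t`, and `lev x ∉ [s t, e t]`
gives `lev x < s t`, so `l ≤ lev x + 4L + 4 ≤ α t` (`hα`). `j ≤ lev x ≤ D`. -/
theorem radius_out (E : Env G v0 p D L q m d0 M N s e α ω r) {x : V}
    (hx : ∀ t < N, ¬ (s t ≤ lev G v0 x ∧ lev G v0 x ≤ e t)) :
    ∃ i ≤ D, ∃ w : G.Walk x (p i), (∀ y ∈ w.support, y ∈ XX G v0 p L N α ω) ∧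
      w.length ≤ T3 L q m M := by
  have hc := env_connected E
  rcases E.rings.cov x with ⟨t, ht, h1, h2⟩ | ⟨j, hj1, hj2, hj3, hj4⟩
  · exact absurd ⟨h1, h2⟩ (hx t ht)
  · have hla : lev G v0 (anc G v0 x j) = j := lev_anc hc hj1
    have hda : G.dist x (anc G v0 x j) = lev G v0 x - j := dist_self_anc hc hj1
    have hdp := hj3 _ hla
    obtain ⟨w1, hw1, hs1⟩ := w3a_walk hc x (anc G v0 x j)
    obtain ⟨w2, hw2, hs2⟩ := walk_lev (v0 := v0) hc (anc G v0 x j) (p j)
    refine ⟨j, hj1.trans (E.geo.top x), w1.append w2, ?_, ?_⟩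
    · intro y hy
      have hlev : lev G v0 y ≤ lev G v0 x + (4 * L + 4) ∧ j ≤ lev G v0 y + (4 * L + 4) := by
        rw [Walk.mem_support_append_iff] at hy
        rcases hy with hy | hy
        · have h1 := hs1 y hy
          have h2 := lev_le_add hc v0 y (anc G v0 x j)
          have h3 := lev_le_add hc v0 x y
          omega
        · have h1 := hs2 y hy
          omega
      apply xx_of_lev
      intro t ht
      have hd0 := E.hd
      by_cases h1 : e t < lev G v0 x
      · right
        have h2 := hj4 t ht h1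
        have h3 := E.rings.hω t ht
        omega
      · left
        have h2 := hx t ht
        have h3 := E.rings.hα t ht
        have h4 : lev G v0 x < s t := by
          by_contra h5
          exact h2 ⟨by omega, by omega⟩
        omega
    · rw [Walk.length_append, hw1, hw2, hda]
      unfold T3
      omega

end

end Pool.RBE.S4
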