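import Pool.Agent.RBE.S4.W3a

set_option autoImplicit false

/-! [W3c] radius, bottom of a ring. -/

namespace Pool.RBE.S4

open SimpleGraph Pool.Agent.RBC

private theorem W3c_down {V : Type} {G : SimpleGraph V} (hc : G.Connected) (v0 x : V) (i : ℕ) :
    ∀ n, i + n ≤ lev G v0 x → ∃ w : G.Walk (anc G v0 x (i + n)) (anc G v0 x i), w.length = n ∧
      ∀ z ∈ w.support, ∃ l, i ≤ l ∧ l ≤ i + n ∧ z = anc G v0 x l := by
  intro n
  induction n with
  | zero =>
    intro _
    refine ⟨Walk.nil, rfl, ?_⟩
    intro z hz
    rw [Walk.support_nil, List.mem_singleton] at hz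
    exact ⟨i, le_refl _, le_refl _, hz⟩
  | succ n ih =>
    intro hn
    obtain ⟨w, hw, hw'⟩ := ih (by omega)
    have hadj : G.Adj (anc G v0 x (i + n + 1)) (anc G v0 x (i + n)) := adj_anc hc (by omega)
    refine ⟨Walk.cons hadj w, ?_, ?_⟩
    · rw [Walk.length_cons, hw]
    · intro z hz
      rw [Walk.support_cons, List.mem_cons] at hz
      rcases hz with hz | hz
      · exact ⟨i + n + 1, by omega, by omega, hz⟩
      · obtain ⟨l, h1, h2, h3⟩ := hw' z hz
        exact ⟨l, h1, by omega, h3⟩

section
variable {V : Type} [Fintype V] {G : SimpleGraph V} {v0 : V} {p : ℕ → V}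
    {D L q m d0 M N : ℕ} {s e α ω : ℕ → ℕ} {r : ℕ → ℕ → V}

/-- [W3c] the bottom part of a ring.
Proof. The walk: down from `x` to `anc G v0 x (s t - 1)`, then (`bot`) at most `4L+4` steps to `p (s t - 1)`. The
vertices of the first part with level `≥ s t` have the type of `x` (`same_side`) and level `≤ lev x`, and `x ∈ XX`,
`lev x ≤ α t + 2`, so `x` near implies `lev x ≤ α t`: they are in `XX` (for the rings `t' < t`: level
`≥ s t > ω t'`; for `t' > t`: level `≤ e t < s t' ≤ α t'`). The other vertices have levels within `4L+4` of `s t - 1`: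
`xx_of_lev` (`env_mono`, `hα`). Length `≤ (lev x - (s t - 1)) + 4L + 4 ≤ M + 4L + 8`. -/
theorem radius_bot (E : Env G v0 p D L q m d0 M N s e α ω r) {x : V}
    (hx : x ∈ XX G v0 p L N α ω) {t : ℕ} (ht : t < N) (h1 : s t ≤ lev G v0 x)
    (h2 : lev G v0 x ≤ α t + 2) :
    ∃ i ≤ D, ∃ w : G.Walk x (p i), (∀ y ∈ w.support, y ∈ XX G v0 p L N α ω) ∧
      w.length ≤ T3 L q m M := by
  have hc := env_connected E
  have R := E.rings
  have hs1 := R.s1 t ht
  have heD := R.eD t ht
  have hα := R.hα t ht
  have hα' := R.hα' t ht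
  have hαω := R.hαω t ht
  have hω := R.hω t ht
  have hd := E.hd
  have hm := E.hm
  have hlow : ∀ t' < N, t' < t → ω t' + m + d0 < s t := fun t' _ h => (env_mono E h ht).1
  have hhigh : ∀ t' < N, t < t' → ω t < s t' ∧ s t' ≤ α t' := by
    intro t' ht' h
    have h3 := (env_mono E h ht').1
    have h4 := R.hα t' ht'
    exact ⟨by omega, by omega⟩
  -- the type is constant along the way down
  have htype : ∀ k l, l + k = lev G v0 x → s t ≤ l →
      (Near G v0 p L (anc G v0 x l) ↔ Near G v0 p L x) := by
    intro k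
    induction k with
    | zero =>
      intro l hl _
      rw [Nat.add_zero] at hl
      rw [hl, anc_self]
    | succ k ih =>
      intro l hl hs
      have h3 := ih (l + 1) (by omega) (by omega)
      have hadj : G.Adj (anc G v0 x (l + 1)) (anc G v0 x l) := adj_anc hc (by omega)
      have e1 : lev G v0 (anc G v0 x (l + 1)) = l + 1 := lev_anc hc (by omega)
      have e2 : lev G v0 (anc G v0 x l) = l := lev_anc hc (by omega)
      have h4 := same_side E ht hadj (by omega) (by omega) (by omega) (by omega)
      rw [← h4]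
      exact h3
  have hnear : Near G v0 p L x → lev G v0 x ≤ α t := by
    intro hn
    by_contra hcon
    exact (hx t ht).1 hn ⟨by omega, by omega⟩
  have hdown := W3c_down hc v0 x (s t - 1) (lev G v0 x - (s t - 1)) (by omega)
  have hend : s t - 1 + (lev G v0 x - (s t - 1)) = lev G v0 x := by omega
  rw [hend] at hdown
  obtain ⟨w1, hw1, hw1'⟩ := hdown
  obtain ⟨w2, hw2, hw2'⟩ := walk_lev (v0 := v0) hc (anc G v0 x (s t - 1)) (p (s t - 1))
  have hlv : lev G v0 (anc G v0 x (s t - 1)) = s t - 1 := lev_anc hc (by omega)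
  have hbot := R.bot t ht (anc G v0 x (s t - 1)) hlv
  refine ⟨s t - 1, by omega, (w1.append w2).copy (anc_self v0 x) rfl, ?_, ?_⟩
  · intro y hy
    rw [Walk.support_copy, Walk.mem_support_append_iff] at hy
    rcases hy with hy | hy
    · obtain ⟨l, hl1, hl2, rfl⟩ := hw1' y hy
      have hl : lev G v0 (anc G v0 x l) = l := lev_anc hc hl2
      rcases Nat.lt_or_ge l (s t) with h3 | h3
      · apply xx_of_lev
        intro t' ht'
        rw [hl]
        rcases Nat.lt_trichotomy t' t with h4 | h4 | h4
        · have := hlow t' ht' h4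
          omega
        · subst h4; omega
        · have := hhigh t' ht' h4
          omega
      · intro t' ht'
        rw [hl]
        rcases Nat.lt_trichotomy t' t with h4 | h4 | h4
        · have := hlow t' ht' h4
          exact ⟨fun _ h5 => by omega, fun _ h5 => by omega⟩
        · subst h4
          refine ⟨fun h5 h6 => ?_, fun _ h6 => by omega⟩
          have h7 := hnear ((htype (lev G v0 x - l) l (by omega) h3).1 h5)
          omega
        · have := hhigh t' ht' h4
          exact ⟨fun _ h5 => by omega, fun _ h5 => by omega⟩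
    · obtain ⟨h3, h4⟩ := hw2' y hy
      rw [hlv] at h3 h4
      apply xx_of_lev
      intro t' ht'
      rcases Nat.lt_trichotomy t' t with h5 | h5 | h5
      · have := hlow t' ht' h5
        omega
      · subst h5; omega
      · have := hhigh t' ht' h5
        omega
  · rw [Walk.length_copy, Walk.length_append, hw1, hw2]
    unfold T3
    omega

end

end Pool.RBE.S4
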