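import Pool.Agent.RBE.S4.W4a

set_option autoImplicit false

/-! [W4b] avoiding Z. -/

namespace Pool.RBE.S4

open SimpleGraph Pool.Agent.RBC

section
variable {V : Type} [Fintype V] {G : SimpleGraph V} {v0 : V} {p : ℕ → V}
    {D L q m d0 M N : ℕ} {s e α ω : ℕ → ℕ} {r : ℕ → ℕ → V}

private theorem w4b_walk {Y Z : Set V} {x0 z0 : V} (h1 : OneEdge G Y Z x0 z0) {u v : V}
    (w : G.Walk u v) (hw : ∀ y ∈ w.support, y ∈ Y) (hv : v ∉ Z) :
    (u ∉ Z → ∃ w' : G.Walk u v, ∀ y ∈ w'.support, y ∈ Y ∧ y ∉ Z) ∧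
      (u ∈ Z → ∃ w' : G.Walk z0 v, ∀ y ∈ w'.support, y ∈ Y ∧ y ∉ Z) := by
  induction w with
  | @nil u =>
    refine ⟨fun _ => ⟨Walk.nil, ?_⟩, fun h => absurd h hv⟩
    intro y hy
    rw [Walk.support_nil, List.mem_singleton] at hy
    rw [hy]
    exact ⟨hw u (by rw [Walk.support_nil]; exact List.mem_singleton_self _), hv⟩
  | @cons u u' v h w' ih =>
    have hw1 : ∀ y ∈ w'.support, y ∈ Y := fun y hy =>
      hw y (by rw [Walk.support_cons]; exact List.mem_cons_of_mem _ hy)
    have hu' : u' ∈ Y := hw1 u' w'.start_mem_support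
    have hu : u ∈ Y := hw u (by rw [Walk.support_cons]; exact List.mem_cons_self)
    obtain ⟨ih1, ih2⟩ := ih hw1 hv
    constructor
    · intro huZ
      by_cases hu'Z : u' ∈ Z
      · obtain ⟨_, e2⟩ := h1 u' hu'Z u hu huZ h.symm
        subst e2
        exact ih2 hu'Z
      · obtain ⟨w'', hw''⟩ := ih1 hu'Z
        refine ⟨Walk.cons h w'', ?_⟩
        intro y hy
        rw [Walk.support_cons, List.mem_cons] at hy
        rcases hy with rfl | hy
        · exact ⟨hu, huZ⟩
        · exact hw'' y hy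
    · intro huZ
      by_cases hu'Z : u' ∈ Z
      · exact ih2 hu'Z
      · obtain ⟨_, e2⟩ := h1 u huZ u' hu' hu'Z h
        subst e2
        exact ih1 hu'Z

/-- [W4b] Every vertex of `XX` outside `Z` is joined to the geodesic inside `XX` avoiding `Z`.
Proof. A walk `w` from `y` to `p i` inside `XX` (`radius`). If it avoids `Z`, done. Otherwise: (1) the first edge of `w`
entering `Z`, `(b, a)`, `b ∉ Z`, `a ∈ Z`: by `OneEdge` (applied to the reversed edge) `b = z0`; so there is a walk from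
`y` to `z0` inside `XX \ Z`. (2) `w` ends outside `Z`; its last edge leaving `Z` ends in `z0` and the rest of the walk
avoids `Z`: a walk from `z0` to `p i` inside `XX \ Z`. (Simplest formulation: for every walk `w : y → p i` inside `XX`
with `y ∉ Z`, by induction on `w`; and a lemma from `z0` there is a walk avoiding `Z` from the part after the last
visit; or use reachability in `G.induce (XX \ Z)`.) -/
theorem exists_avoid (E : Env G v0 p D L q m d0 M N s e α ω r) {Z : Set V} {x0 z0 : V}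
    (hZ : ∀ x ∈ Z, x ∈ XX G v0 p L N α ω ∧ x ∉ PP p D)
    (h1 : OneEdge G (XX G v0 p L N α ω) Z x0 z0) {y : V} (hy : y ∈ XX G v0 p L N α ω)
    (hyZ : y ∉ Z) :
    ∃ i ≤ D, ∃ w : G.Walk y (p i), ∀ u ∈ w.support, u ∈ XX G v0 p L N α ω ∧ u ∉ Z := by
  obtain ⟨i, hi, w, hw, _⟩ := radius E hy
  have hpi : p i ∉ Z := fun h => (hZ _ h).2 ⟨i, hi, rfl⟩
  obtain ⟨w', hw'⟩ := (w4b_walk h1 w hw hpi).1 hyZ
  exact ⟨i, hi, w', hw'⟩

end

end Pool.RBE.S4
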