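import Pool.Agent.RBE.S4.W2b
import Pool.Agent.RBE.S4.W4a

set_option autoImplicit false

/-! [W4c] no near vertices at run levels. -/

namespace Pool.RBE.S4

open SimpleGraph Pool.Agent.RBC

section
variable {V : Type} [Fintype V] {G : SimpleGraph V} {v0 : V} {p : ℕ → V}
    {D L q m d0 M N : ℕ} {s e α ω : ℕ → ℕ} {r : ℕ → ℕ → V}

private theorem w4c_leave {Y Z : Set V} {x0 z0 : V} (h1 : OneEdge G Y Z x0 z0) :
    ∀ {a b : V} (w : G.Walk a b), (∀ z ∈ w.support, z ∈ Y) → a ∈ Z → b ∉ Z →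
      x0 ∈ w.support ∧ z0 ∈ w.support ∧ z0 ∉ Z := by
  intro a b w
  induction w with
  | nil => intro _ ha hb; exact absurd ha hb
  | @cons a c b h w ih =>
    intro hY ha hb
    by_cases hc : c ∈ Z
    · obtain ⟨h2, h3, h4⟩ := ih (fun z hz => hY z (by simp [hz])) hc hb
      exact ⟨by simp [h2], by simp [h3], h4⟩
    · obtain ⟨e1, e2⟩ := h1 a ha c (hY c (by simp)) hc h
      subst e1
      subst e2
      exact ⟨by simp, by simp, hc⟩

/-- [W4c] No near vertex of `Z` at the run levels strictly inside the window.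
Proof. Suppose `x ∈ Z`, near, `lev x = j`. `comp_near` for the levels `j + 1` and `j - 1` (`t`; hypotheses on `j`) gives
`K⁺ ∋ p (j+1)`, `K⁻ ∋ p (j-1)`, and `x` is adjacent to some `y⁺ ∈ K⁺`, `y⁻ ∈ K⁻`. All vertices of `K⁺, K⁻` are near of level
`j ± 1`, in `XX` (levels `≤ α t`, resp. `≥ ω t`). The walk from `x` through `y⁺` inside `K⁺` to `p (j+1) ∉ Z` has an edge
leaving `Z`, so it is `(x0, z0)`, and `x0, z0 ∈ {x} ∪ K⁺`; in the same way `x0, z0 ∈ {x} ∪ K⁻`. By the levels
`x0 = x = z0`: contradiction to `z0 ∉ Z`. -/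
theorem no_near (E : Env G v0 p D L q m d0 M N s e α ω r) {Z : Set V} {x0 z0 : V}
    (hZ : ∀ x ∈ Z, x ∈ XX G v0 p L N α ω ∧ x ∉ PP p D)
    (h1 : OneEdge G (XX G v0 p L N α ω) Z x0 z0) {t : ℕ} (ht : t < N) {j : ℕ}
    (hj : α t + 2 ≤ j + m ∧ j + 1 ≤ α t ∨ ω t + 1 ≤ j ∧ j + 2 ≤ ω t + m) {x : V} (hx : x ∈ Z)
    (hn : Near G v0 p L x) : lev G v0 x ≠ j := by
  intro hlev
  have R := E.rings
  have hm := E.hm
  have hd := E.hd
  have hα := R.hα t ht
  have hαω := R.hαω t ht
  have hω := R.hω t ht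
  have heD := R.eD t ht
  have hs1 := R.s1 t ht
  -- vertices of the levels of ring `t` outside the window are in `XX`
  have hXX : ∀ y : V, s t ≤ lev G v0 y → lev G v0 y ≤ e t →
      (lev G v0 y ≤ α t ∨ ω t ≤ lev G v0 y) → y ∈ XX G v0 p L N α ω := by
    intro y h2 h3 h4
    refine xx_of_lev (fun t' ht' => ?_)
    rcases lt_trichotomy t' t with hlt | heq | hgt
    · have := (env_mono E hlt ht).1
      right; omega
    · subst heq; exact h4
    · have h5 := (env_mono E hgt ht').2.2.2.2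
      have h6 := R.hα t' ht'
      left; omega
  obtain ⟨Kp, hKp, hpKp, hwp, hap⟩ := comp_near E ht (j := j + 1) (by omega)
  obtain ⟨Km, hKm, hpKm, hwm, ham⟩ := comp_near E ht (j := j - 1) (by omega)
  obtain ⟨yp, hyp, hadjp⟩ := hap x hn (Or.inl (by omega))
  obtain ⟨ym, hym, hadjm⟩ := ham x hn (Or.inr (by omega))
  obtain ⟨wp, hwp'⟩ := hwp yp hyp
  obtain ⟨wm, hwm'⟩ := hwm ym hym
  have hlp : ∀ z ∈ Kp, lev G v0 z = j + 1 := by
    intro z hz
    have := hKp hz
    simp only [An, Finset.mem_filter] at this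
    exact this.2.1
  have hlm : ∀ z ∈ Km, lev G v0 z = j - 1 := by
    intro z hz
    have := hKm hz
    simp only [An, Finset.mem_filter] at this
    exact this.2.1
  have hpZ : ∀ i, i ≤ D → p i ∉ Z := fun i hi h => (hZ _ h).2 ⟨i, hi, rfl⟩
  have h2 : ∀ z ∈ (Walk.cons hadjp wp.reverse).support, z = x ∨ z ∈ Kp := by
    intro z hz
    simp only [Walk.support_cons, List.mem_cons, Walk.support_reverse, List.mem_reverse] at hz
    rcases hz with hz | hz
    · exact Or.inl hz
    · exact Or.inr (hwp' z hz)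
  have h3 : ∀ z ∈ (Walk.cons hadjm wm.reverse).support, z = x ∨ z ∈ Km := by
    intro z hz
    simp only [Walk.support_cons, List.mem_cons, Walk.support_reverse, List.mem_reverse] at hz
    rcases hz with hz | hz
    · exact Or.inl hz
    · exact Or.inr (hwm' z hz)
  obtain ⟨a1, a2, a3⟩ := w4c_leave h1 (Walk.cons hadjp wp.reverse) (by
    intro z hz
    rcases h2 z hz with h | h
    · subst h; exact (hZ _ hx).1
    · have := hlp z h
      exact hXX z (by omega) (by omega) (by omega)) hx (hpZ _ (by omega))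
  obtain ⟨b1, b2, b3⟩ := w4c_leave h1 (Walk.cons hadjm wm.reverse) (by
    intro z hz
    rcases h3 z hz with h | h
    · subst h; exact (hZ _ hx).1
    · have := hlm z h
      exact hXX z (by omega) (by omega) (by omega)) hx (hpZ _ (by omega))
  have hz0 : z0 = x := by
    rcases h2 z0 a2 with h | h
    · exact h
    · rcases h3 z0 b2 with h' | h'
      · exact h'
      · have e1 := hlp z0 h
        have e2 := hlm z0 h'
        omega
  rw [hz0] at a3
  exact a3 hx

end

end Pool.RBE.S4
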