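import Pool.Agent.RBE.S4.W4c

set_option autoImplicit false

/-! [W4d] near cut vertices. -/

namespace Pool.RBE.S4

open SimpleGraph Pool.Agent.RBC

section
variable {V : Type} [Fintype V] {G : SimpleGraph V} {v0 : V} {p : ℕ → V}
    {D L q m d0 M N : ℕ} {s e α ω : ℕ → ℕ} {r : ℕ → ℕ → V}

/-- the common part of the two cases: `l` is the cut level, `j` the exact level next to it -/
private theorem w4d_aux (E : Env G v0 p D L q m d0 M N s e α ω r) {Z : Set V} {x0 z0 : V}
    (hZ : ∀ x ∈ Z, x ∈ XX G v0 p L N α ω ∧ x ∉ PP p D)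
    (h1 : OneEdge G (XX G v0 p L N α ω) Z x0 z0) {t : ℕ} (ht : t < N) {j l : ℕ}
    (hj : α t + 1 ≤ j + m ∧ j ≤ α t + 5 ∨ ω t + 1 ≤ j + 6 ∧ j + 1 ≤ ω t + m)
    (hj' : α t + 2 ≤ j + m ∧ j + 1 ≤ α t ∨ ω t + 1 ≤ j ∧ j + 2 ≤ ω t + m)
    (hjl : l + 1 = j ∨ l = j + 1)
    (hX : ∀ t' < N, j ≤ α t' ∨ ω t' ≤ j) {x : V} (hx : x ∈ Z) (hn : Near G v0 p L x)
    (hl : lev G v0 x = l) : x = x0 := by
  obtain ⟨K, hK, -, -, h2⟩ := comp_near E ht hj
  obtain ⟨y, hy, hxy⟩ := h2 x hn (by omega)
  have h3 : lev G v0 y = j ∧ Near G v0 p L y := by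
    have h4 := hK hy
    simp only [An, Finset.mem_filter, Finset.mem_univ, true_and] at h4
    exact h4
  have hyX : y ∈ XX G v0 p L N α ω := by
    apply xx_of_lev
    rw [h3.1]
    exact hX
  have hyZ : y ∉ Z := fun h => no_near E hZ h1 ht hj' h h3.2 h3.1
  exact (h1 x hx y hyX hyZ hxy).1

/-- a vertex next to `x` inside `Z` -/
private theorem w4d_next (E : Env G v0 p D L q m d0 M N s e α ω r) {Z : Set V} {x0 z0 : V}
    (hZ : ∀ x ∈ Z, x ∈ XX G v0 p L N α ω ∧ x ∉ PP p D)
    (h1 : OneEdge G (XX G v0 p L N α ω) Z x0 z0) {x y : V} (hx : x = x0) (hy : y ∈ Z)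
    (hyx : y ≠ x) : ∃ a ∈ Z, G.Adj x a := by
  obtain ⟨-, -, -, -, w, hw⟩ := exists_leave E hZ h1 hy
  subst hx
  have hw' : ∀ z ∈ w.reverse.support, z ∈ Z := by
    intro z hz
    rw [Walk.support_reverse, List.mem_reverse] at hz
    exact hw z hz
  revert hw'
  generalize w.reverse = w'
  intro hw'
  cases w' with
  | nil => exact absurd rfl hyx
  | cons h w'' =>
    rename_i a
    refine ⟨a, hw' a ?_, h⟩
    rw [Walk.support_cons]
    exact List.mem_cons_of_mem _ (Walk.start_mem_support _)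

/-- [W4d] A near cut vertex in `Z` is alone.
Proof. Let `lev x = α t` (the case `ω t` is symmetric, with `ω t + 1` instead of `α t - 1`). `K` from `comp_near` for the
level `j = α t - 1`; its vertices are near, in `XX`, and not in `Z` (`no_near`). Every near `x' ∈ Z` of level `α t` is
adjacent to a vertex of `K`, an edge leaving `Z`: so `x' = x0`. So `x = x0`. Let `y ∈ Z`, `y ≠ x`: a walk in `Z` from `y` to
`x0 = x` (`exists_leave`); it contains an edge `(a, x)` with `a ∈ Z`, `a ≠ x`. `a ∈ XX`, `lev a ∈ {α t - 1, α t, α t + 1}`,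
`a` is near (`same_side`). Level `α t + 1` is not in `XX`; level `α t - 1`: `no_near`; level `α t`: `a = x0 = x`: contradiction. -/
theorem near_cut (E : Env G v0 p D L q m d0 M N s e α ω r) {Z : Set V} {x0 z0 : V}
    (hZ : ∀ x ∈ Z, x ∈ XX G v0 p L N α ω ∧ x ∉ PP p D)
    (h1 : OneEdge G (XX G v0 p L N α ω) Z x0 z0) {t : ℕ} (ht : t < N) {x : V} (hx : x ∈ Z)
    (hn : Near G v0 p L x) (hl : lev G v0 x = α t ∨ lev G v0 x = ω t) : Z = {x} := by
  have hR := E.rings
  have hm := E.hm
  have hd := E.hd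
  have ha1 := hR.hα t ht
  have ha2 := hR.hαω t ht
  have ha3 := hR.hω t ht
  have hsame : ∀ a, G.Adj x a → a ∈ XX G v0 p L N α ω → (Near G v0 p L a ∧
      ¬ (α t < lev G v0 a ∧ lev G v0 a < ω t)) := by
    intro a hxa haX
    have h2 := lev_adj (env_connected E) v0 hxa
    have h3 := lev_adj (env_connected E) v0 hxa.symm
    have h4 : Near G v0 p L a :=
      (same_side E ht hxa (by omega) (by omega) (by omega) (by omega)).1 hn
    exact ⟨h4, (haX t ht).1 h4⟩
  apply Set.eq_singleton_iff_unique_mem.2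
  refine ⟨hx, fun y hy => ?_⟩
  by_contra hyx
  rcases hl with hl | hl
  · have hkey : ∀ x' ∈ Z, Near G v0 p L x' → lev G v0 x' = α t → x' = x0 := by
      intro x' hx' hn' hl'
      refine w4d_aux E hZ h1 ht (j := α t - 1) (l := α t) (by omega) (by omega) (by omega) ?_ hx'
        hn' hl'
      intro t' ht'
      rcases lt_trichotomy t' t with h2 | h2 | h2
      · have h3 := env_mono E h2 ht
        right
        omega
      · subst h2
        left
        omega
      · have h3 := env_mono E h2 ht'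
        left
        omega
    have hx0 := hkey x hx hn hl
    obtain ⟨a, haZ, hxa⟩ := w4d_next E hZ h1 hx0 hy hyx
    have h2 := hsame a hxa (hZ a haZ).1
    have h3 := lev_adj (env_connected E) v0 hxa
    have h4 := lev_adj (env_connected E) v0 hxa.symm
    have h5 : lev G v0 a ≠ α t := by
      intro h6
      have h7 := hkey a haZ h2.1 h6
      rw [h7, ← hx0] at hxa
      exact G.irrefl hxa
    have h6 : lev G v0 a ≠ α t - 1 :=
      no_near E hZ h1 ht (j := α t - 1) (by omega) haZ h2.1
    have h7 := h2.2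
    omega
  · have hkey : ∀ x' ∈ Z, Near G v0 p L x' → lev G v0 x' = ω t → x' = x0 := by
      intro x' hx' hn' hl'
      refine w4d_aux E hZ h1 ht (j := ω t + 1) (l := ω t) (by omega) (by omega) (by omega) ?_ hx'
        hn' hl'
      intro t' ht'
      rcases lt_trichotomy t' t with h2 | h2 | h2
      · have h3 := env_mono E h2 ht
        right
        omega
      · subst h2
        right
        omega
      · have h3 := env_mono E h2 ht'
        left
        omega
    have hx0 := hkey x hx hn hl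
    obtain ⟨a, haZ, hxa⟩ := w4d_next E hZ h1 hx0 hy hyx
    have h2 := hsame a hxa (hZ a haZ).1
    have h3 := lev_adj (env_connected E) v0 hxa
    have h4 := lev_adj (env_connected E) v0 hxa.symm
    have h5 : lev G v0 a ≠ ω t := by
      intro h6
      have h7 := hkey a haZ h2.1 h6
      rw [h7, ← hx0] at hxa
      exact G.irrefl hxa
    have h6 : lev G v0 a ≠ ω t + 1 :=
      no_near E hZ h1 ht (j := ω t + 1) (by omega) haZ h2.1
    have h7 := h2.2
    omega

end

end Pool.RBE.S4
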