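import Pool.Agent.RBE.S4.W2b
import Pool.Agent.RBE.S4.W4a

set_option autoImplicit false

/-! [W4e] far cut vertices. -/

namespace Pool.RBE.S4

open SimpleGraph Pool.Agent.RBC

section
variable {V : Type} [Fintype V] {G : SimpleGraph V} {v0 : V} {p : ℕ → V}
    {D L q m d0 M N : ℕ} {s e α ω : ℕ → ℕ} {r : ℕ → ℕ → V}

private theorem w4e_side (E : Env G v0 p D L q m d0 M N s e α ω r) {Z : Set V} {x0 z0 : V}
    (h1 : OneEdge G (XX G v0 p L N α ω) Z x0 z0)
    (hcut : ∀ x ∈ Z, ¬ Near G v0 p L x ∧ ∃ t < N, lev G v0 x = α t + 2 ∨ lev G v0 x + 2 = ω t)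
    {x : V} (hx : x ∈ Z) : x = x0 := by
  obtain ⟨hxn, t, ht, hlev⟩ := hcut x hx
  have R := E.rings
  have a1 := R.hα t ht
  have a2 := R.hαω t ht
  have a3 := R.hω t ht
  obtain ⟨j, hj, hjx, hj1, hj2⟩ : ∃ j : ℕ, (α t + 1 ≤ j + m ∧ j ≤ α t + 5 ∨
      ω t + 1 ≤ j + 6 ∧ j + 1 ≤ ω t + m) ∧ (lev G v0 x + 1 = j ∨ lev G v0 x = j + 1) ∧
      (j = α t + 1 ∨ j + 1 = ω t) ∧ s t ≤ j ∧ j ≤ e t := by
    rcases hlev with h | h
    · exact ⟨α t + 1, Or.inl (by omega), Or.inr (by omega), Or.inl rfl, by omega, by omega⟩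
    · exact ⟨ω t - 1, Or.inr (by omega), Or.inl (by omega), Or.inr (by omega), by omega, by omega⟩
  obtain ⟨hr1, hr2⟩ := R.rB t ht j hj2.1 hj2.2
  obtain ⟨K, hK, -, -, hK2⟩ := comp_far E ht hj hr1 hr2
  obtain ⟨y, hy, hxy⟩ := hK2 x hxn hjx
  have hyB := hK hy
  have hB : lev G v0 y = j ∧ ¬ Near G v0 p L y := by
    classical
    exact (Finset.mem_filter.1 hyB).2
  obtain ⟨hy1, hy2⟩ := hB
  have hothers : ∀ t' < N, t' ≠ t → (ω t' < α t ∧ α t' + 20 ≤ ω t') ∨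
      (ω t < α t' ∧ α t' + 20 ≤ ω t') := by
    intro t' ht' hne
    have b1 := R.hαω t' ht'
    rcases Nat.lt_or_gt_of_ne hne with h | h
    · have b2 := (env_mono E h ht).2.1
      left
      omega
    · have b2 := (env_mono E h ht').2.1
      right
      omega
  have hyX : y ∈ XX G v0 p L N α ω := by
    intro t' ht'
    refine ⟨fun h => absurd h hy2, fun _ => ?_⟩
    rw [hy1]
    by_cases htt : t' = t
    · rw [htt]
      omega
    · have := hothers t' ht' htt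
      omega
  have hyZ : y ∉ Z := by
    intro h
    obtain ⟨-, t', ht', hl⟩ := hcut y h
    rw [hy1] at hl
    by_cases htt : t' = t
    · rw [htt] at hl
      omega
    · have := hothers t' ht' htt
      omega
  exact (h1 x hx y hyX hyZ hxy).1

/-- [W4e] If `Z` consists of far cut vertices only, it is a single vertex.
Proof. Let `x ∈ Z`, `lev x = α t + 2` (the case `lev x + 2 = ω t` is symmetric). `comp_far` for the level `α t + 1` (any far
vertex of that level as `v`, e.g. `r t (α t + 1)`): `x` is adjacent to some `y ∈ K ⊆ Bn (α t + 1)`, `y ∈ XX`, and `y ∉ Z` (not a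
cut vertex: `α t + 1` is not of the form `α t' + 2` or `ω t' - 2`, `env_mono`). So `x = x0`: `Z = {x0}`. -/
theorem far_cut_only (E : Env G v0 p D L q m d0 M N s e α ω r) {Z : Set V} {x0 z0 : V}
    (hZ : ∀ x ∈ Z, x ∈ XX G v0 p L N α ω ∧ x ∉ PP p D)
    (h1 : OneEdge G (XX G v0 p L N α ω) Z x0 z0)
    (hcut : ∀ x ∈ Z, ¬ Near G v0 p L x ∧ ∃ t < N, lev G v0 x = α t + 2 ∨ lev G v0 x + 2 = ω t)
    (hne : Z.Nonempty) : ∃ x, Z = {x} := by
  obtain ⟨x, hx⟩ := hne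
  refine ⟨x0, Set.ext fun y => ⟨fun hy => w4e_side E h1 hcut hy, fun hy => ?_⟩⟩
  rw [Set.mem_singleton_iff.1 hy, ← w4e_side E h1 hcut hx]
  exact hx

end

end Pool.RBE.S4
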