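import Pool.Agent.RBE.S4.W4a

set_option autoImplicit false

/-! [W5a] the count. -/

namespace Pool.RBE.S4

open SimpleGraph Pool.Agent.RBC

section
variable {V : Type} [Fintype V] {G : SimpleGraph V} {v0 : V} {p : ℕ → V}
    {D L q m d0 M N : ℕ} {s e α ω : ℕ → ℕ} {r : ℕ → ℕ → V}

/-- [W5a] The count: `Z` (not only far cut vertices, no near cut vertices, in window number `j`)
meets both far cuts of its window.
Proof. `cutZ` = the far cut vertices of `Z`, `Z' = Z \ cutZ ≠ ∅`. Let `x ∈ Z'`, `G.Adj x y`, `y ∉ Z'`: either `y ∈ cutZ`, or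
`y ∉ Z` and then `y ∈ XX` (by `nbr_out` only cut vertices of `XX` have neighbours outside `XX`; `x` is neither a near cut
vertex (`hnc`) nor in `cutZ`), so `y = z0`. Suppose `|cutZ ∪ {z0}| < 2q`. `G - (cutZ ∪ {z0})` is connected (`E.hk.2`); it
contains `Z'` and one of `p 0, p 1` (not in `Z`; `p 0 ≠ p 1`, `1 ≤ D`): a walk from `Z'` to it leaves `Z'` through an edge
with end in `cutZ ∪ {z0}`: contradiction. So `|cutZ| ≥ 2q - 1 ≥ q + 1`. By `xx_lev` (window `j`, `hwin`): a far cut vertex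
`x` of window `j` with `lev x = α t + 2` has `t = j`: (`t < j` would give `ω t ≤ lev x + 2`, `hαω`; `t > j`: `lev x ≤ α j + 2 <
α t + 2` by `xx_lev` with `j < t < N`); with `lev x + 2 = ω t` it has `t + 1 = j`. So
`cutZ ⊆ Bn (α j + 2) ∪ Bn (ω (j-1) - 2)`, each of them with `q` elements (`exB`; the first one only if `j < N`, the second
only if `j ≥ 1`). Since `q < 2q - 1` both are met, `j < N` and `j = t + 1`. -/
theorem two_cuts (E : Env G v0 p D L q m d0 M N s e α ω r) {Z : Set V} {x0 z0 : V} {j : ℕ}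
    (hZ : ∀ x ∈ Z, x ∈ XX G v0 p L N α ω ∧ x ∉ PP p D)
    (h1 : OneEdge G (XX G v0 p L N α ω) Z x0 z0)
    (hwin : ∀ x ∈ Z, win G v0 N α x = j)
    (hnc : ∀ x ∈ Z, Near G v0 p L x → ∀ t < N, lev G v0 x ≠ α t ∧ lev G v0 x ≠ ω t)
    (hne : ∃ x ∈ Z, Near G v0 p L x ∨ ∀ t < N, lev G v0 x ≠ α t + 2 ∧ lev G v0 x + 2 ≠ ω t) :
    ∃ t, j = t + 1 ∧ t + 1 < N ∧
      (∃ x ∈ Z, ¬ Near G v0 p L x ∧ lev G v0 x + 2 = ω t) ∧
      ∃ x ∈ Z, ¬ Near G v0 p L x ∧ lev G v0 x = α (t + 1) + 2 := by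
  classical
  have hq := E.hq
  obtain ⟨xs, hxs, hxs'⟩ := hne
  have hz0 : z0 ∉ Z := (exists_leave E hZ h1 hxs).2.1
  obtain ⟨cutZ, hcut⟩ : ∃ C : Finset V, C = Finset.univ.filter (fun x => x ∈ Z ∧
      ¬ Near G v0 p L x ∧ ∃ t < N, lev G v0 x = α t + 2 ∨ lev G v0 x + 2 = ω t) := ⟨_, rfl⟩
  have hmem : ∀ x, x ∈ cutZ ↔ x ∈ Z ∧ ¬ Near G v0 p L x ∧
      ∃ t < N, lev G v0 x = α t + 2 ∨ lev G v0 x + 2 = ω t := by
    intro x
    rw [hcut, Finset.mem_filter]
    exact ⟨fun h => h.2, fun h => ⟨Finset.mem_univ x, h⟩⟩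
  have hxsc : xs ∉ cutZ := by
    intro h
    obtain ⟨-, hn, t, ht, hlt⟩ := (hmem xs).1 h
    rcases hxs' with h' | h'
    · exact hn h'
    · rcases hlt with h2 | h2
      · exact (h' t ht).1 h2
      · exact (h' t ht).2 h2
  -- the cut is large
  have hcard : 2 * q ≤ cutZ.card + 1 := by
    by_contra hcon
    have hS : (insert z0 cutZ).card < 2 * q := by
      have := Finset.card_insert_le z0 cutZ
      omega
    have hconn := E.hk.2 (insert z0 cutZ) hS
    obtain ⟨hD1, -⟩ := env_D E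
    have hne01 : p 0 ≠ p 1 := by
      intro h
      have e0 := E.geo.lev 0 (Nat.zero_le _)
      have e1 := E.geo.lev 1 hD1
      rw [h] at e0
      omega
    obtain ⟨i, hi, hpi⟩ : ∃ i ≤ D, p i ≠ z0 := by
      by_cases h : p 0 = z0
      · exact ⟨1, hD1, fun h' => hne01 (h.trans h'.symm)⟩
      · exact ⟨0, Nat.zero_le _, h⟩
    have hpZ : p i ∉ Z := fun h => (hZ _ h).2 ⟨i, hi, rfl⟩
    have hpS : p i ∈ ((↑(insert z0 cutZ) : Set V)ᶜ) := by
      intro h
      rcases Finset.mem_insert.1 (Finset.mem_coe.1 h) with h | h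
      · exact hpi h
      · exact hpZ ((hmem _).1 h).1
    have hxS : xs ∈ ((↑(insert z0 cutZ) : Set V)ᶜ) := by
      intro h
      rcases Finset.mem_insert.1 (Finset.mem_coe.1 h) with h | h
      · exact hz0 (h ▸ hxs)
      · exact hxsc h
    obtain ⟨W⟩ := hconn.preconnected ⟨xs, hxS⟩ ⟨p i, hpS⟩
    obtain ⟨d, -, hd1, hd2⟩ := W.exists_boundary_dart
      {y | (y : V) ∈ Z ∧ (y : V) ∉ cutZ} ⟨hxs, hxsc⟩ (fun h => hpZ h.1)
    have hadj : G.Adj (d.fst : V) (d.snd : V) := d.adj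
    obtain ⟨ha1, ha2⟩ : (d.fst : V) ∈ Z ∧ (d.fst : V) ∉ cutZ := hd1
    have hbS := d.snd.2
    have hb1 : (d.snd : V) ≠ z0 := by
      intro h
      exact hbS (Finset.mem_coe.2 (Finset.mem_insert.2 (Or.inl h)))
    have hb2 : (d.snd : V) ∉ cutZ := by
      intro h
      exact hbS (Finset.mem_coe.2 (Finset.mem_insert.2 (Or.inr h)))
    have hb3 : (d.snd : V) ∉ Z := fun h => hd2 ⟨h, hb2⟩
    have hb4 : (d.snd : V) ∈ XX G v0 p L N α ω := by
      by_contra hbX
      obtain ⟨t, ht, h | h⟩ := nbr_out E (hZ _ ha1).1 hbX hadj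
      · obtain ⟨hn, -, hl⟩ := h
        have h3 := hnc _ ha1 hn t ht
        rcases hl with h4 | h4
        · exact h3.1 h4.1
        · exact h3.2 h4.1
      · obtain ⟨hn, -, hl⟩ := h
        refine ha2 ((hmem _).2 ⟨ha1, hn, t, ht, ?_⟩)
        rcases hl with h4 | h4
        · exact Or.inl h4.1
        · exact Or.inr h4.1
    exact hb1 (h1 _ ha1 _ hb4 hb3 hadj).2
  -- position of the cut vertices
  have hpos1 : ∀ x ∈ Z, ∀ t < N, lev G v0 x = α t + 2 → t = j := by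
    intro x hx t ht hl
    have hX := (hZ x hx).1
    have hw := hwin x hx
    rcases lt_trichotomy t j with h | h | h
    · have h2 := (xx_lev E hX ht).1 (by omega)
      have h3 := E.rings.hαω t ht
      omega
    · exact h
    · have h2 := (xx_lev E hX (lt_trans h ht)).2.1 (by omega)
      have h3 := (env_mono E h ht).2.2.1
      omega
  have hpos2 : ∀ x ∈ Z, ∀ t < N, lev G v0 x + 2 = ω t → t + 1 = j := by
    intro x hx t ht hl
    have hX := (hZ x hx).1
    have hw := hwin x hx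
    have h3 := E.rings.hαω t ht
    rcases lt_trichotomy (t + 1) j with h | h | h
    · have h5 : win G v0 N α x ≤ N := win_le x
      have h4 : t + 1 < N := by omega
      have h2 := (xx_lev E hX h4).1 (by omega)
      have h6 := (env_mono E (show t < t + 1 by omega) h4).2.2.2.1
      omega
    · exact h
    · have h2 := (xx_lev E hX ht).2.1 (by omega)
      omega
  have hB : ∀ i, ∀ S : Finset V, (∀ x ∈ S, lev G v0 x = i ∧ ¬ Near G v0 p L x) →
      S.card ≤ (Bn G v0 p L i).card := by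
    intro i S hS
    refine Finset.card_le_card fun x hx => ?_
    unfold Bn
    rw [Finset.mem_filter]
    exact ⟨Finset.mem_univ x, hS x hx⟩
  -- an upper cut vertex
  obtain ⟨x1, hx1Z, hx1n, hx1⟩ : ∃ x ∈ Z, ¬ Near G v0 p L x ∧
      ∃ t < N, lev G v0 x = α t + 2 := by
    by_contra hcon
    have h2 : ∀ x ∈ cutZ, ∃ t < N, lev G v0 x + 2 = ω t := by
      intro x hx
      obtain ⟨h3, h4, t, ht, h5 | h5⟩ := (hmem x).1 hx
      · exact absurd ⟨x, h3, h4, t, ht, h5⟩ hcon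
      · exact ⟨t, ht, h5⟩
    have hne' : cutZ.Nonempty := by
      rw [← Finset.card_pos]
      omega
    obtain ⟨y, hy⟩ := hne'
    obtain ⟨t, ht, hty⟩ := h2 y hy
    have htj := hpos2 y ((hmem y).1 hy).1 t ht hty
    have h3 := hB (ω t - 2) cutZ (fun x hx => by
      obtain ⟨t', ht', htx⟩ := h2 x hx
      have h4 := hpos2 x ((hmem x).1 hx).1 t' ht' htx
      have h5 : t' = t := by omega
      rw [h5] at htx
      exact ⟨by omega, ((hmem x).1 hx).2.1⟩)
    have h6 := E.rings.exB t ht (ω t - 2) (Or.inr ⟨by omega, by omega⟩)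
    omega
  -- a lower cut vertex
  obtain ⟨x2, hx2Z, hx2n, hx2⟩ : ∃ x ∈ Z, ¬ Near G v0 p L x ∧
      ∃ t < N, lev G v0 x + 2 = ω t := by
    by_contra hcon
    have h2 : ∀ x ∈ cutZ, ∃ t < N, lev G v0 x = α t + 2 := by
      intro x hx
      obtain ⟨h3, h4, t, ht, h5 | h5⟩ := (hmem x).1 hx
      · exact ⟨t, ht, h5⟩
      · exact absurd ⟨x, h3, h4, t, ht, h5⟩ hcon
    obtain ⟨t, ht, hty⟩ := hx1
    have htj := hpos1 x1 hx1Z t ht hty
    have h3 := hB (α t + 2) cutZ (fun x hx => by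
      obtain ⟨t', ht', htx⟩ := h2 x hx
      have h4 := hpos1 x ((hmem x).1 hx).1 t' ht' htx
      have h5 : t' = t := by omega
      rw [h5] at htx
      exact ⟨htx, ((hmem x).1 hx).2.1⟩)
    have h6 := E.rings.exB t ht (α t + 2) (Or.inl ⟨by omega, by omega⟩)
    omega
  obtain ⟨t1, ht1, hl1⟩ := hx1
  obtain ⟨t2, ht2, hl2⟩ := hx2
  have e1 := hpos1 x1 hx1Z t1 ht1 hl1
  have e2 := hpos2 x2 hx2Z t2 ht2 hl2
  refine ⟨t2, e2.symm, by omega, ⟨x2, hx2Z, hx2n, hl2⟩, x1, hx1Z, hx1n, ?_⟩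
  rw [e2, ← e1]
  exact hl1

end

end Pool.RBE.S4
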