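import Pool.Agent.RBE.S4.W1b

set_option autoImplicit false

/-! [W5b] passing the far strand. -/

namespace Pool.RBE.S4

open SimpleGraph Pool.Agent.RBC

section
variable {V : Type} [Fintype V] {G : SimpleGraph V} {v0 : V} {p : ℕ → V}
    {D L q m d0 M N : ℕ} {s e α ω : ℕ → ℕ} {r : ℕ → ℕ → V}

/-- [W5b] Going down the far strand above the bottom of ring `t`: a walk in `XX` which starts at a
far vertex of level in `[j, α t + 2]` and ends at a vertex which is not such a vertex with level `> j`
passes a far vertex of level `j`.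
Proof. Induction on the walk: let `v` be its first vertex. If `lev v = j` done. Otherwise `j < lev v ≤ α t + 2`, so the
walk is not trivial, its second vertex `v'` is in `XX`, has level within one of `lev v`, in `[s t, e t]`, so it is far
(`same_side`), and `lev v' ≤ α t + 2` because `v' ∈ XX` and `α t + 3 + 2 < ω t`. -/
theorem pass_down (E : Env G v0 p D L q m d0 M N s e α ω r) {t : ℕ} (ht : t < N) {j : ℕ}
    (hj : s t + 1 ≤ j) {v u : V} (w : G.Walk v u)
    (hw : ∀ y ∈ w.support, y ∈ XX G v0 p L N α ω) (hv : ¬ Near G v0 p L v)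
    (hv1 : j ≤ lev G v0 v) (hv2 : lev G v0 v ≤ α t + 2)
    (hu : ¬ (¬ Near G v0 p L u ∧ j < lev G v0 u ∧ lev G v0 u ≤ α t + 2)) :
    ∃ y ∈ w.support, ¬ Near G v0 p L y ∧ lev G v0 y = j := by
  have hc := env_connected E
  have r1 := E.rings.hα t ht
  have r2 := E.rings.hαω t ht
  have r3 := E.rings.hω t ht
  induction w with
  | nil =>
    refine ⟨_, SimpleGraph.Walk.start_mem_support _, hv, ?_⟩
    by_contra hne
    exact hu ⟨hv, by omega, hv2⟩
  | @cons v v' u hadj w ih =>
    by_cases hj' : lev G v0 v = j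
    · exact ⟨v, SimpleGraph.Walk.start_mem_support _, hv, hj'⟩
    have a1 := lev_adj hc v0 hadj
    have a2 := lev_adj hc v0 hadj.symm
    have hvX : v' ∈ XX G v0 p L N α ω := hw v' (by
      rw [SimpleGraph.Walk.support_cons]
      exact List.mem_cons_of_mem _ (SimpleGraph.Walk.start_mem_support _))
    have hside := same_side E ht hadj (by omega) (by omega) (by omega) (by omega)
    have hv' : ¬ Near G v0 p L v' := fun h => hv (hside.2 h)
    have hX := (hvX t ht).2 hv'
    obtain ⟨y, hy, hy'⟩ := ih (fun y hy => hw y (by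
      rw [SimpleGraph.Walk.support_cons]
      exact List.mem_cons_of_mem _ hy)) hv' (by omega) (by omega) hu
    refine ⟨y, ?_, hy'⟩
    rw [SimpleGraph.Walk.support_cons]
    exact List.mem_cons_of_mem _ hy

/-- [W5c] Going up the far strand below the top of ring `t`. Proof as `pass_down`. -/
theorem pass_up (E : Env G v0 p D L q m d0 M N s e α ω r) {t : ℕ} (ht : t < N) {j : ℕ}
    (hj : j + 1 ≤ e t) {v u : V} (w : G.Walk v u)
    (hw : ∀ y ∈ w.support, y ∈ XX G v0 p L N α ω) (hv : ¬ Near G v0 p L v)
    (hv1 : lev G v0 v ≤ j) (hv2 : ω t ≤ lev G v0 v + 2)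
    (hu : ¬ (¬ Near G v0 p L u ∧ lev G v0 u < j ∧ ω t ≤ lev G v0 u + 2)) :
    ∃ y ∈ w.support, ¬ Near G v0 p L y ∧ lev G v0 y = j := by
  have hc := env_connected E
  have r1 := E.rings.hα t ht
  have r2 := E.rings.hαω t ht
  have r3 := E.rings.hω t ht
  induction w with
  | nil =>
    refine ⟨_, SimpleGraph.Walk.start_mem_support _, hv, ?_⟩
    by_contra hne
    exact hu ⟨hv, by omega, hv2⟩
  | @cons v v' u hadj w ih =>
    by_cases hj' : lev G v0 v = j
    · exact ⟨v, SimpleGraph.Walk.start_mem_support _, hv, hj'⟩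
    have a1 := lev_adj hc v0 hadj
    have a2 := lev_adj hc v0 hadj.symm
    have hvX : v' ∈ XX G v0 p L N α ω := hw v' (by
      rw [SimpleGraph.Walk.support_cons]
      exact List.mem_cons_of_mem _ (SimpleGraph.Walk.start_mem_support _))
    have hside := same_side E ht hadj (by omega) (by omega) (by omega) (by omega)
    have hv' : ¬ Near G v0 p L v' := fun h => hv (hside.2 h)
    have hX := (hvX t ht).2 hv'
    obtain ⟨y, hy, hy'⟩ := ih (fun y hy => hw y (by
      rw [SimpleGraph.Walk.support_cons]
      exact List.mem_cons_of_mem _ hy)) hv' (by omega) (by omega) hu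
    refine ⟨y, ?_, hy'⟩
    rw [SimpleGraph.Walk.support_cons]
    exact List.mem_cons_of_mem _ hy

end

end Pool.RBE.S4
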