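import Pool.Agent.RBE.S4.W2b

set_option autoImplicit false

/-! [W5d] the level of the leaving edge. -/

namespace Pool.RBE.S4

open SimpleGraph Pool.Agent.RBC

section
variable {V : Type} [Fintype V] {G : SimpleGraph V} {v0 : V} {p : ℕ → V}
    {D L q m d0 M N : ℕ} {s e α ω : ℕ → ℕ} {r : ℕ → ℕ → V}

private theorem w5d_mem {i : ℕ} {x : V} :
    x ∈ Bn G v0 p L i ↔ lev G v0 x = i ∧ ¬ Near G v0 p L x := by
  classical
  simp [Bn]

/-- far vertices of a run level are in `XX` -/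
private theorem w5d_xx (E : Env G v0 p D L q m d0 M N s e α ω r) {t : ℕ} (ht : t < N) {j' : ℕ}
    (hj : α t + 1 ≤ j' + m ∧ j' ≤ α t + 2 ∨ ω t ≤ j' + 2 ∧ j' + 1 ≤ ω t + m)
    {x : V} (hx : lev G v0 x = j') (hn : ¬ Near G v0 p L x) : x ∈ XX G v0 p L N α ω := by
  intro t' ht'
  refine ⟨fun h => absurd h hn, fun _ => ?_⟩
  rw [hx]
  have e1 := E.rings.hα t ht
  have e2 := E.rings.hαω t ht
  have e3 := E.rings.hω t ht
  rintro ⟨h1, h2⟩
  rcases lt_trichotomy t' t with h | h | h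
  · have h3 := env_mono E h ht
    omega
  · subst h
    omega
  · have h3 := env_mono E h ht'
    omega

/-- [W5d] If a run level `j` of the far strand contains `z ∈ Z` and `y ∉ Z`, both in `XX`, and level `j'`
(`j' = j + 1` or `j = j' + 1`) is a run level all of whose far vertices are in `XX`, then the leaving edge has its
ends in the levels `j, j'`.
Proof. `comp_far` for the level `j'` (any far vertex of that level; it exists, `exB`, `q ≥ 2`): `z` and `y` are adjacent to
vertices of `K ⊆ Bn j'`, `K` is connected inside `K`: a walk from `z` through `K` to `y`, all its vertices are in `XX` and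
have level `j` or `j'`; it has an edge leaving `Z`, which is `(x0, z0)`. -/
theorem leave_level (E : Env G v0 p D L q m d0 M N s e α ω r) {Z : Set V} {x0 z0 : V}
    (h1 : OneEdge G (XX G v0 p L N α ω) Z x0 z0) {t : ℕ} (ht : t < N) {j j' : ℕ}
    (hjj : j' = j + 1 ∨ j = j' + 1)
    (hj : α t + 1 ≤ j' + m ∧ j' ≤ α t + 2 ∨ ω t ≤ j' + 2 ∧ j' + 1 ≤ ω t + m)
    {y z : V} (hz : z ∈ Z) (hzn : ¬ Near G v0 p L z) (hzl : lev G v0 z = j)
    (hy : y ∈ XX G v0 p L N α ω) (hyZ : y ∉ Z) (hyn : ¬ Near G v0 p L y)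
    (hyl : lev G v0 y = j) :
    (lev G v0 x0 = j ∨ lev G v0 x0 = j') ∧ (lev G v0 z0 = j ∨ lev G v0 z0 = j') := by
  have e1 := E.rings.hα t ht
  have e2 := E.rings.hαω t ht
  have e3 := E.rings.hω t ht
  have hq := E.hq
  have hcard := E.rings.cardB t ht j' (by omega) (by omega)
  obtain ⟨v, hv⟩ : (Bn G v0 p L j').Nonempty := by
    rw [← Finset.card_pos]
    omega
  have hv2 : lev G v0 v = j' ∧ ¬ Near G v0 p L v := w5d_mem.1 hv
  obtain ⟨K, hK, hvK, hcon, hadj⟩ := comp_far E ht (j := j') (by omega) hv2.1 hv2.2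
  have hKp : ∀ x ∈ K, lev G v0 x = j' ∧ ¬ Near G v0 p L x := by
    intro x hx
    exact w5d_mem.1 (hK hx)
  obtain ⟨kz, hkz, haz⟩ := hadj z hzn (by omega)
  obtain ⟨ky, hky, hay⟩ := hadj y hyn (by omega)
  obtain ⟨wz, hwz⟩ := hcon kz hkz
  obtain ⟨wy, hwy⟩ := hcon ky hky
  let W : G.Walk z y := Walk.cons haz ((wz.reverse.append wy).concat hay.symm)
  have hW : ∀ x ∈ W.support, x = z ∨ x = y ∨ x ∈ K := by
    intro x hx
    have hx' : x = z ∨ (x ∈ wz.support ∨ x ∈ wy.support) ∨ x = y := by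
      simpa [W, Walk.support_concat, Walk.mem_support_append_iff] using hx
    rcases hx' with h | (h | h) | h
    · exact Or.inl h
    · exact Or.inr (Or.inr (hwz x h))
    · exact Or.inr (Or.inr (hwy x h))
    · exact Or.inr (Or.inl h)
  have hlev : ∀ x ∈ W.support, lev G v0 x = j ∨ lev G v0 x = j' := by
    intro x hx
    rcases hW x hx with rfl | rfl | h
    · exact Or.inl hzl
    · exact Or.inl hyl
    · exact Or.inr (hKp x h).1
  obtain ⟨d, hd, hdf, hds⟩ := W.exists_boundary_dart Z hz hyZ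
  have hm1 : d.fst ∈ W.support := W.dart_fst_mem_support_of_mem_darts hd
  have hm2 : d.snd ∈ W.support := W.dart_snd_mem_support_of_mem_darts hd
  have hsX : d.snd ∈ XX G v0 p L N α ω := by
    rcases hW _ hm2 with h | h | h
    · exact absurd (h ▸ hz) hds
    · rw [h]
      exact hy
    · exact w5d_xx E ht hj (hKp _ h).1 (hKp _ h).2
  obtain ⟨h3, h4⟩ := h1 _ hdf _ hsX hds d.adj
  rw [← h3, ← h4]
  exact ⟨hlev _ hm1, hlev _ hm2⟩

end

end Pool.RBE.S4
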