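import Pool.Agent.RBE.S4.W4b
import Pool.Agent.RBE.S4.W5b
import Pool.Agent.RBE.S4.W5d

set_option autoImplicit false

/-! [W5e] Z contains the far cuts. -/

namespace Pool.RBE.S4

open SimpleGraph Pool.Agent.RBC

section
variable {V : Type} [Fintype V] {G : SimpleGraph V} {v0 : V} {p : ℕ → V}
    {D L q m d0 M N : ℕ} {s e α ω : ℕ → ℕ} {r : ℕ → ℕ → V}

/-- [W5e] The upper far cut is contained in `Z`.
Proof. Let `b` be far, `lev b = α (t+1) + 2`, `b ∉ Z`; `b ∈ XX`. `z ∈ Z` (`hhi`) far of the same level.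
(1) `leave_level` (ring `t + 1`, `j = α (t+1) + 2`, `j' = α (t+1) + 1`): `lev x0 ∈ {α (t+1) + 2, α (t+1) + 1}`.
(2) a walk inside `Z` from `z` to `x0` and from `x0` to `z'` (`hlo`, far, `lev z' + 2 = ω t < α (t+1)`) by `exists_leave`
(twice, reversed): `pass_down` with `j = α (t+1)` gives `z2 ∈ Z` far of level `α (t+1)`.
(3) a walk inside `XX \ Z` from `b` to some `p i` (`exists_avoid`; `p i` is near): `pass_down` gives `y2 ∉ Z`, far, of level
`α (t+1)`. (4) `leave_level` with `j = α (t+1)`, `j' = α (t+1) - 1`: `lev x0 ∈ {α (t+1), α (t+1) - 1}`: contradiction to (1). -/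
theorem cut_hi (E : Env G v0 p D L q m d0 M N s e α ω r) {Z : Set V} {x0 z0 : V} {t : ℕ}
    (ht : t + 1 < N) (hZ : ∀ x ∈ Z, x ∈ XX G v0 p L N α ω ∧ x ∉ PP p D)
    (h1 : OneEdge G (XX G v0 p L N α ω) Z x0 z0)
    (hlo : ∃ x ∈ Z, ¬ Near G v0 p L x ∧ lev G v0 x + 2 = ω t)
    (hhi : ∃ x ∈ Z, ¬ Near G v0 p L x ∧ lev G v0 x = α (t + 1) + 2) :
    ∀ b, lev G v0 b = α (t + 1) + 2 → ¬ Near G v0 p L b → b ∈ Z := by
  intro b hb hbn
  by_contra hbZ
  have hm := E.hm
  have hd := E.hd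
  have hmono : ∀ t', t' < t + 1 → ω t' < α (t + 1) := by
    intro t' h
    have := (env_mono E h ht).2.1
    omega
  have hmono' : ∀ t', t + 1 < t' → t' < N → α (t + 1) < α t' := by
    intro t' h h'
    exact (env_mono E h h').2.2.1
  have hbX : b ∈ XX G v0 p L N α ω := by
    intro t' ht'
    refine ⟨fun h => absurd h hbn, fun _ h => ?_⟩
    obtain ⟨h3, h4⟩ := h
    rcases lt_trichotomy t' (t + 1) with h5 | h5 | h5
    · have := hmono t' h5
      omega
    · subst h5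
      omega
    · have := hmono' t' h5 ht'
      omega
  obtain ⟨z, hz, hzn, hzl⟩ := hhi
  obtain ⟨z', hz', hzn', hzl'⟩ := hlo
  have hα := E.rings.hα (t + 1) ht
  have s1 := (leave_level E h1 ht (j := α (t + 1) + 2) (j' := α (t + 1) + 1)
    (Or.inr (by omega)) (Or.inl ⟨by omega, by omega⟩) hz hzn hzl hbX hbZ hbn hb).1
  obtain ⟨-, -, -, -, w1, hw1⟩ := exists_leave E hZ h1 hz
  obtain ⟨-, -, -, -, w2, hw2⟩ := exists_leave E hZ h1 hz'
  have hwZ : ∀ y ∈ (w1.append w2.reverse).support, y ∈ Z := by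
    intro y hy
    rw [Walk.mem_support_append_iff, Walk.support_reverse, List.mem_reverse] at hy
    rcases hy with hy | hy
    · exact hw1 y hy
    · exact hw2 y hy
  have hlt := hmono t (Nat.lt_succ_self t)
  obtain ⟨z2, hz2, hz2n, hz2l⟩ := pass_down E ht (j := α (t + 1)) (by omega)
    (w1.append w2.reverse) (fun y hy => (hZ y (hwZ y hy)).1) hzn (by omega) (by omega)
    (by rintro ⟨-, h, -⟩; omega)
  obtain ⟨i, hi, w3, hw3⟩ := exists_avoid E hZ h1 hbX hbZ
  obtain ⟨y2, hy2, hy2n, hy2l⟩ := pass_down E ht (j := α (t + 1)) (by omega) w3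
    (fun y hy => (hw3 y hy).1) hbn (by omega) (by omega)
    (by rintro ⟨h, -, -⟩; exact h (near_p E hi))
  have s2 := (leave_level E h1 ht (j := α (t + 1)) (j' := α (t + 1) - 1)
    (Or.inr (by omega)) (Or.inl ⟨by omega, by omega⟩) (hwZ z2 hz2) hz2n hz2l
    (hw3 y2 hy2).1 (hw3 y2 hy2).2 hy2n hy2l).1
  omega

/-- [W5f] The lower far cut is contained in `Z`. Proof as `cut_hi`, with `pass_up` for ring `t` and the
levels `ω t - 2` (with `j' = ω t - 1`) and `ω t` (with `j' = ω t + 1`). -/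
theorem cut_lo (E : Env G v0 p D L q m d0 M N s e α ω r) {Z : Set V} {x0 z0 : V} {t : ℕ}
    (ht : t + 1 < N) (hZ : ∀ x ∈ Z, x ∈ XX G v0 p L N α ω ∧ x ∉ PP p D)
    (h1 : OneEdge G (XX G v0 p L N α ω) Z x0 z0)
    (hlo : ∃ x ∈ Z, ¬ Near G v0 p L x ∧ lev G v0 x + 2 = ω t)
    (hhi : ∃ x ∈ Z, ¬ Near G v0 p L x ∧ lev G v0 x = α (t + 1) + 2) :
    ∀ b, lev G v0 b + 2 = ω t → ¬ Near G v0 p L b → b ∈ Z := by
  intro b hb hbn
  by_contra hbZ
  have hm := E.hm
  have hd := E.hd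
  have htN : t < N := by omega
  have hmono : ∀ t', t' < t → ω t' < ω t := by
    intro t' h
    exact (env_mono E h htN).2.2.2.1
  have hmono' : ∀ t', t < t' → t' < N → ω t < α t' := by
    intro t' h h'
    have := (env_mono E h h').2.1
    omega
  have hbX : b ∈ XX G v0 p L N α ω := by
    intro t' ht'
    refine ⟨fun h => absurd h hbn, fun _ h => ?_⟩
    obtain ⟨h3, h4⟩ := h
    rcases lt_trichotomy t' t with h5 | h5 | h5
    · have := hmono t' h5
      omega
    · subst h5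
      omega
    · have := hmono' t' h5 ht'
      omega
  obtain ⟨z', hz', hzn', hzl'⟩ := hhi
  obtain ⟨z, hz, hzn, hzl⟩ := hlo
  have hω := E.rings.hω t htN
  have hαω := E.rings.hαω t htN
  have s1 := (leave_level E h1 htN (j := ω t - 2) (j' := ω t - 1)
    (Or.inl (by omega)) (Or.inr ⟨by omega, by omega⟩) hz hzn (by omega) hbX hbZ hbn
    (by omega)).1
  obtain ⟨-, -, -, -, w1, hw1⟩ := exists_leave E hZ h1 hz
  obtain ⟨-, -, -, -, w2, hw2⟩ := exists_leave E hZ h1 hz'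
  have hwZ : ∀ y ∈ (w1.append w2.reverse).support, y ∈ Z := by
    intro y hy
    rw [Walk.mem_support_append_iff, Walk.support_reverse, List.mem_reverse] at hy
    rcases hy with hy | hy
    · exact hw1 y hy
    · exact hw2 y hy
  have hlt := hmono' (t + 1) (Nat.lt_succ_self t) ht
  obtain ⟨z2, hz2, hz2n, hz2l⟩ := pass_up E htN (j := ω t) (by omega)
    (w1.append w2.reverse) (fun y hy => (hZ y (hwZ y hy)).1) hzn (by omega) (by omega)
    (by rintro ⟨-, h, -⟩; omega)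
  obtain ⟨i, hi, w3, hw3⟩ := exists_avoid E hZ h1 hbX hbZ
  obtain ⟨y2, hy2, hy2n, hy2l⟩ := pass_up E htN (j := ω t) (by omega) w3
    (fun y hy => (hw3 y hy).1) hbn (by omega) (by omega)
    (by rintro ⟨h, -, -⟩; exact h (near_p E hi))
  have s2 := (leave_level E h1 htN (j := ω t) (j' := ω t + 1)
    (Or.inl (by omega)) (Or.inr ⟨by omega, by omega⟩) (hwZ z2 hz2) hz2n hz2l
    (hw3 y2 hy2).1 (hw3 y2 hy2).2 hy2n hy2l).1
  omega

end

end Pool.RBE.S4
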