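import Pool.Agent.RBE.S4.W5e
import Pool.Agent.RBE.S4.W5a
import Pool.Agent.RBE.S4.W4d
import Pool.Agent.RBE.S4.W4e

set_option autoImplicit false

/-! [W5g] the classification. -/

namespace Pool.RBE.S4

open SimpleGraph Pool.Agent.RBC

section
variable {V : Type} [Fintype V] {G : SimpleGraph V} {v0 : V} {p : ℕ → V}
    {D L q m d0 M N : ℕ} {s e α ω : ℕ → ℕ} {r : ℕ → ℕ → V}

/-- [W5g] The classification.
Proof. If some `x ∈ Z` is a near cut vertex: `near_cut`. Otherwise, if all of `Z` are far cut vertices: `far_cut_only`.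
Otherwise `two_cuts`, `cut_lo`, `cut_hi` give `TW` (`exists_leave` for `x0Z`, `z0Z`, `z0X`, `adj`; `noA`: no near cut vertices in
`Z`). -/
theorem bridge_class (E : Env G v0 p D L q m d0 M N s e α ω r) {Z : Set V} {x0 z0 : V} {j : ℕ}
    (hZ : ∀ x ∈ Z, x ∈ XX G v0 p L N α ω ∧ x ∉ PP p D)
    (h1 : OneEdge G (XX G v0 p L N α ω) Z x0 z0) (hwin : ∀ x ∈ Z, win G v0 N α x = j)
    (hne : Z.Nonempty) :
    (∃ x, Z = {x}) ∨ ∃ t, j = t + 1 ∧ TW G v0 p D L N α ω t Z x0 z0 := by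
  classical
  by_cases hA : ∃ x ∈ Z, Near G v0 p L x ∧ ∃ t < N, lev G v0 x = α t ∨ lev G v0 x = ω t
  · obtain ⟨x, hx, hn, t, ht, hl⟩ := hA
    exact Or.inl ⟨x, near_cut E hZ h1 ht hx hn hl⟩
  · have hnc : ∀ x ∈ Z, Near G v0 p L x → ∀ t < N, lev G v0 x ≠ α t ∧ lev G v0 x ≠ ω t := by
      intro x hx hn t ht
      exact ⟨fun h => hA ⟨x, hx, hn, t, ht, Or.inl h⟩, fun h => hA ⟨x, hx, hn, t, ht, Or.inr h⟩⟩
    by_cases hB : ∃ x ∈ Z, Near G v0 p L x ∨ ∀ t < N, lev G v0 x ≠ α t + 2 ∧ lev G v0 x + 2 ≠ ω t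
    · right
      obtain ⟨t, hj, ht, hlo, hhi⟩ := two_cuts E hZ h1 hwin hnc hB
      obtain ⟨z, hz⟩ := hne
      obtain ⟨a1, a2, a3, a4, -⟩ := exists_leave E hZ h1 hz
      exact ⟨t, hj, ⟨ht, fun x hx => ⟨(hZ x hx).1, (hwin x hx).trans hj, (hZ x hx).2⟩, a1, a2, a3, a4, h1,
        cut_lo E ht hZ h1 hlo hhi, cut_hi E ht hZ h1 hlo hhi,
        fun x hx hn => ⟨(hnc x hx hn t (by omega)).2, (hnc x hx hn (t + 1) ht).1⟩⟩⟩
    · left
      refine far_cut_only E hZ h1 ?_ hne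
      intro x hx
      constructor
      · intro hn
        exact hB ⟨x, hx, Or.inl hn⟩
      · by_contra hcon
        apply hB
        refine ⟨x, hx, Or.inr ?_⟩
        intro t ht
        exact ⟨fun h => hcon ⟨t, ht, Or.inl h⟩, fun h => hcon ⟨t, ht, Or.inr h⟩⟩

end

end Pool.RBE.S4
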