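import Pool.Agent.RBE.S4.W5g

set_option autoImplicit false

/-! [W6a] no bridges. -/

namespace Pool.RBE.S4

open SimpleGraph Pool.Agent.RBC

section
variable {V : Type} [Fintype V] {G : SimpleGraph V} {v0 : V} {p : ℕ → V}
    {D L q m d0 M N : ℕ} {s e α ω : ℕ → ℕ} {r : ℕ → ℕ → V}

/-- [W6a] No bridges.
Proof. Suppose `OneEdge G X0 Z x0 z0`, `z ∈ Z`. Let `j = win z`, `Z1 = {x ∈ Z | win x = j}`; `OneEdge G X0 Z1 x0 z0`: for
`x ∈ Z1`, `y ∈ X0`, `y ∉ Z1`, adjacent: `win y = j` (`adj_win`), so `y ∉ Z`. Let `Pn` = the vertices `y ∈ XX \ PP` which have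
some `z' ∈ Z1` as their only neighbour in `XX` (`∀ u ∈ XX, Adj y u → u = z'`, `Adj y z'`), `Z⁺ = Z1 ∪ Pn`.
`OneEdge G XX Z⁺ x0 z0`: let `x ∈ Z⁺`, `y ∈ XX \ Z⁺`, adjacent. If `x ∈ Pn` then `y` is its only neighbour, `y ∈ Z1`: no. So
`x ∈ Z1`. `win y = j` is not of type T. If `y ∈ X0`: then `y ∉ Z1` and `OneEdge` for `Z1` gives the claim. If `y ∉ X0`: then `y` is
not on the path and has at most one neighbour in `XX`, which is `x ∈ Z1`: `y ∈ Pn`, contradiction.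
`Z⁺ ⊆ XX \ PP`, all of window `j` (`adj_win`). `bridge_class`: type T is impossible (`z ∈ X0` and `win z = j`); so
`Z⁺ = {x}`, hence `Z⁺ = {z}`, and by `OneEdge` the only possible neighbour of `z` in `XX` is `z0` (a vertex is not adjacent to
itself): contradiction to `z ∈ X0`, `z ∉ PP`. -/
theorem no_bridge (E : Env G v0 p D L q m d0 M N s e α ω r) {Z : Set V} (hne : Z.Nonempty)
    (hZ : ∀ x ∈ Z, x ∈ X0 G v0 p D L N α ω ∧ x ∉ PP p D) (x0 z0 : V) :
    ¬ OneEdge G (X0 G v0 p D L N α ω) Z x0 z0 := by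
  intro hOne
  obtain ⟨z, hz⟩ := hne
  obtain ⟨hzX0, hzP⟩ := hZ z hz
  obtain ⟨hzX, hzT, hz2⟩ := hzX0
  set X := XX G v0 p L N α ω with hX
  set Z1 : Set V := {x | x ∈ Z ∧ win G v0 N α x = win G v0 N α z} with hZ1
  set Pn : Set V := {y | y ∈ X ∧ y ∉ PP p D ∧ ∃ z' ∈ Z1, G.Adj y z' ∧ ∀ u ∈ X, G.Adj y u → u = z'}
    with hPn
  set Zp : Set V := Z1 ∪ Pn with hZpdef
  have hzZp : z ∈ Zp := Or.inl ⟨hz, rfl⟩
  have hZ1X : ∀ x ∈ Z1, x ∈ X := fun x hx => (hZ x hx.1).1.1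
  have hZp : ∀ x ∈ Zp, x ∈ X ∧ x ∉ PP p D := by
    rintro x (hx | hx)
    · exact ⟨hZ1X x hx, (hZ x hx.1).2⟩
    · exact ⟨hx.1, hx.2.1⟩
  have hwin : ∀ x ∈ Zp, win G v0 N α x = win G v0 N α z := by
    rintro x (hx | hx)
    · exact hx.2
    · obtain ⟨h1, -, z', hz', h2, -⟩ := hx
      rw [adj_win E h1 (hZ1X z' hz') h2]
      exact hz'.2
  have hOne' : OneEdge G X Zp x0 z0 := by
    intro x hx y hy hyZ hxy
    rcases hx with hx | hx
    · have hwy : win G v0 N α y = win G v0 N α z := by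
        rw [← adj_win E (hZ1X x hx) hy hxy]
        exact hx.2
      by_cases hy0 : y ∈ X0 G v0 p D L N α ω
      · apply hOne x hx.1 y hy0 _ hxy
        intro hyZ'
        exact hyZ (Or.inl ⟨hyZ', hwy⟩)
      · exfalso
        have h1 : ¬ (y ∈ PP p D ∨ ¬ ∃ z', ∀ u ∈ X, G.Adj y u → u = z') := by
          intro h
          apply hy0
          refine ⟨hy, ?_, h⟩
          rw [hwy]
          exact hzT
        push Not at h1
        obtain ⟨h2, z', h3⟩ := h1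
        apply hyZ
        right
        refine ⟨hy, h2, x, hx, hxy.symm, ?_⟩
        intro u hu hyu
        rw [h3 u hu hyu, ← h3 x (hZ1X x hx) hxy.symm]
    · obtain ⟨-, -, z', hz', -, h2⟩ := hx
      exfalso
      apply hyZ
      rw [h2 y hy hxy]
      exact Or.inl hz'
  rcases bridge_class E hZp hOne' hwin ⟨z, hzZp⟩ with ⟨x, hx⟩ | ⟨t, ht1, ht2⟩
  · rcases hz2 with h | h
    · exact hzP h
    · apply h
      refine ⟨z0, ?_⟩
      intro y hy hzy
      refine (hOne' z hzZp y hy ?_ hzy).2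
      intro hyZ
      rw [hx, Set.mem_singleton_iff] at hyZ hzZp
      rw [hyZ, hzZp] at hzy
      exact G.loopless.irrefl _ hzy
  · exact hzT ⟨t, Zp, x0, z0, ht1, ht2⟩

end

end Pool.RBE.S4
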